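import Pool.Agent.DG.Pair

set_option autoImplicit false

namespace Pool.Agent.DG

section Part0

open Finset

variable {Q : Type*} [AddCommGroup Q] {q : ℕ} {k : Q → ℕ}

/-- The basic avoidance lemma. -/
theorem avg (hk : Fib q k) {i j l : Q} (h : i + j + l = 0) (hi : i + i + i ≠ 0)
    (h2 : q + 3 ≤ 2 * k i) (hij : q + 1 ≤ k i + k j) (hl : 0 < k l) :
    j = l ∧ ((k j = 1 ∧ k i = q) ∨ (k j = 2 ∧ k i + 1 = q)) := by
  have hqi := hk.le i
  have hj : 0 < k j := by omega
  by_cases h1 : i = j
  · subst h1
    have hil : i ≠ l := by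
      rintro rfl
      exact hi h
    have := hk.c2 i l h hil (by omega) hl
    omega
  · by_cases h3 : i = l
    · subst h3
      have h' : i + i + j = 0 := by
        rw [← h]; abel
      have := hk.c2 i j h' h1 (by omega) hj
      omega
    · by_cases h4 : j = l
      · subst h4
        refine ⟨rfl, ?_⟩
        have h' : j + j + i = 0 := by
          rw [← h]; abel
        by_cases h5 : 2 ≤ k j
        · have := hk.c2 j i h' (Ne.symm h1) h5 (by omega)
          right
          omega
        · left
          omega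
      · have := hk.c1 i j l h h1 h3 h4 (by omega) hj hl
        omega

/-- The exceptional configuration. -/
def ECase (q : ℕ) (k : Q → ℕ) : Prop :=
  ∃ e, (k e = 1 ∧ k (-(e + e)) = q) ∨ (k e = 2 ∧ k (-(e + e)) + 1 = q)

/-- Level sets are admissible from `(q + 2) / 3` on. -/
theorem adm_lev [Fintype Q] (hk : Fib q k) {s : ℕ} (hs : q + 2 ≤ 3 * s) : Adm (L k s) := by
  intro x hx y hy z hz hxy hxz hyz h
  rw [mem_L] at hx hy hz
  have := hk.c1 x y z h hxy hxz hyz (by omega) (by omega) (by omega)
  omega

/-- Level sets contain no zero-sum triple at all from `(q + 8) / 3` on. -/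
theorem nz_lev [Fintype Q] (hk : Fib q k) (h5 : 5 ≤ q) {s : ℕ} (hs : q + 8 ≤ 3 * s) :
    NZ (L k s) (L k s) (L k s) := by
  intro x hx y hy z hz h
  rw [mem_L] at hx hy hz
  by_cases hxy : x = y
  · subst hxy
    by_cases hxz : x = z
    · subst hxz
      have := hk.c3 x h
      omega
    · have := hk.c2 x z h hxz (by omega) (by omega)
      omega
  · by_cases hxz : x = z
    · subst hxz
      have h' : x + x + y = 0 := by rw [← h]; abel
      have := hk.c2 x y h' hxy (by omega) (by omega)
      omega
    · by_cases hyz : y = z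
      · subst hyz
        have h' : y + y + x = 0 := by rw [← h]; abel
        have := hk.c2 y x h' (Ne.symm hxy) (by omega) (by omega)
        omega
      · have := hk.c1 x y z h hxy hxz hyz (by omega) (by omega) (by omega)
        omega

/-- If `Q` has no `3`-torsion, removing `0` is enough from `(q + 4) / 3` on. -/
theorem nz_lev0 [Fintype Q] (hk : Fib q k) (h5 : 5 ≤ q) (h3 : ∀ i : Q, i + i + i = 0 → i = 0)
    {s : ℕ} (hs : q + 4 ≤ 3 * s) :
    ∀ x ∈ L k s, ∀ y ∈ L k s, ∀ z ∈ L k s, x ≠ 0 → y ≠ 0 → z ≠ 0 → x + y + z ≠ 0 := by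
  intro x hx y hy z hz hx0 hy0 hz0 h
  rw [mem_L] at hx hy hz
  by_cases hxy : x = y
  · subst hxy
    by_cases hxz : x = z
    · subst hxz
      exact hx0 (h3 x h)
    · have := hk.c2 x z h hxz (by omega) (by omega)
      omega
  · by_cases hxz : x = z
    · subst hxz
      have h' : x + x + y = 0 := by rw [← h]; abel
      have := hk.c2 x y h' hxy (by omega) (by omega)
      omega
    · by_cases hyz : y = z
      · subst hyz
        have h' : y + y + x = 0 := by rw [← h]; abel
        have := hk.c2 y x h' (Ne.symm hxy) (by omega) (by omega)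
        omega
      · have := hk.c1 x y z h hxy hxz hyz (by omega) (by omega) (by omega)
        omega

/-- The part of a level set without elements of order `3` (or `0`). -/
noncomputable def L3 [Fintype Q] (k : Q → ℕ) (s : ℕ) : Finset Q := by
  classical exact (L k s).filter (fun i => i + i + i ≠ 0)

theorem mem_L3 [Fintype Q] {s : ℕ} {i : Q} : i ∈ L3 k s ↔ s ≤ k i ∧ i + i + i ≠ 0 := by
  classical
  simp [L3, L]

/-- For large levels there is no `3`-torsion. -/
theorem L3_eq [Fintype Q] (hk : Fib q k) {s : ℕ} (hs : q + 8 ≤ 3 * s) : L3 k s = L k s := by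
  ext i
  rw [mem_L3, mem_L]
  constructor
  · exact fun h => h.1
  · intro h
    refine ⟨h, fun h3 => ?_⟩
    have := hk.c3 i h3
    omega

theorem half_lev [Fintype Q] (hk : Fib q k) (hodd : Nat.card Q % 2 = 1) {a b : ℕ}
    (ha : (L3 k a).Nonempty) (h1 : q + 1 ≤ a + b) (h2 : q + 3 ≤ 2 * a) (hb : 3 ≤ b) :
    2 * ell k b + 1 ≤ Nat.card Q := by
  classical
  obtain ⟨i, hi⟩ := ha
  rw [mem_L3] at hi
  obtain ⟨hia, hi3⟩ := hi
  have hdisj : Disjoint (L k b) ((L k b).image (fun j => -i - j)) := by
    rw [Finset.disjoint_left]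
    intro l hl hl2
    rw [Finset.mem_image] at hl2
    obtain ⟨j, hj, hjl⟩ := hl2
    rw [mem_L] at hl hj
    have hsum : i + j + l = 0 := by
      rw [← hjl]; abel
    have := avg hk hsum hi3 (by omega) (by omega) (by omega)
    omega
  have hcard : ((L k b).image (fun j => -i - j)).card = (L k b).card := by
    apply Finset.card_image_of_injective
    intro x y hxy
    exact sub_right_injective hxy
  have htot : (L k b).card + (L k b).card ≤ Fintype.card Q := by
    have := Finset.card_union_of_disjoint hdisj
    have h3 := Finset.card_le_univ (L k b ∪ (L k b).image (fun j => -i - j))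
    omega
  rw [Nat.card_eq_fintype_card] at hodd ⊢
  unfold ell
  omega


end Part0

section Part1

open Finset

variable {Q : Type*} [AddCommGroup Q] {q : ℕ} {k : Q → ℕ}

theorem pb [Fintype Q] (hk : Fib q k) (hodd : Nat.card Q % 2 = 1) {a b : ℕ} (hba : b ≤ a)
    (hb : 1 ≤ b) (h1 : q + 1 ≤ a + b) (h2 : q + 3 ≤ 2 * a) (hE : 3 ≤ b ∨ ¬ ECase q k)
    (hs : 3 * ell k 1 ≤ 2 * Nat.card Q) (hnz : ¬ NZ (L k 1) (L k 1) (L k 1))
    (hc : ¬ Crit (L k 1)) : 3 * ((L3 k a).card + ell k b) ≤ 2 * Nat.card Q := by
  have hsub2 : L k b ⊆ L k 1 := fun i hi => mem_L.2 (hb.trans (mem_L.1 hi))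
  rcases Finset.eq_empty_or_nonempty (L3 k a) with hne | hne
  · rw [hne, Finset.card_empty, zero_add]
    have : ell k b ≤ ell k 1 := Finset.card_le_card hsub2
    omega
  · have hsub : L3 k a ⊆ L k b := fun i hi => mem_L.2 (hba.trans (mem_L3.1 hi).1)
    have hNZ : NZ (L3 k a) (L k b) (L k 1) := by
      intro x hx y hy z hz hsum
      obtain ⟨hx1, hx3⟩ := mem_L3.1 hx
      rw [mem_L] at hy hz
      obtain ⟨hyz, h⟩ := avg hk hsum hx3 (by omega) (by omega) (by omega)
      rcases hE with hE | hE
      · omega
      · apply hE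
        subst hyz
        have hx' : -(y + y) = x := by
          rw [neg_eq_iff_add_eq_zero, add_comm, ← add_assoc]; exact hsum
        exact ⟨y, by rw [hx']; exact h⟩
    rcases pair3 hodd _ _ _ hsub hsub2 hne hNZ with h | h | h
    · exact h
    · exact absurd h hnz
    · exact absurd h hc

/-- In a group of odd order doubling is injective. -/
theorem avoidb_double [Finite Q] (hodd : Nat.card Q % 2 = 1) {x y : Q} (h : x + x = y + y) :
    x = y := by
  have h1 : (2 : ℕ) • (x - y) = 0 := by
    rw [two_nsmul, sub_add_sub_comm, h, sub_self]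
  have h2 : (Nat.card Q) • (x - y) = 0 := card_nsmul_eq_zero'
  obtain ⟨m, hm⟩ : ∃ m, Nat.card Q = 2 * m + 1 := ⟨Nat.card Q / 2, by omega⟩
  rw [hm, add_nsmul, mul_nsmul, h1, nsmul_zero, zero_add, one_nsmul] at h2
  exact sub_eq_zero.1 h2

theorem ecase_le [Fintype Q] (hk : Fib q k) (h5 : 5 ≤ q) (hodd : Nat.card Q % 2 = 1)
    (hE : ECase q k) : ell k 1 + ell k 2 + ell k q ≤ Nat.card Q + 1 := by
  classical
  have hqL3 : ∀ x, k x = q → x + x + x ≠ 0 := by
    intro x hx h0
    have := hk.c3 x h0
    omega
  obtain ⟨e, he | he⟩ := hE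
  · -- `k e = 1`
    obtain ⟨he1, he2⟩ := he
    set E1 : Finset Q := (L k 1).filter (fun j => k j = 1 ∧ k (-(j + j)) = q) with hE1
    set C : Finset Q := ((L k 1) \ E1).image (fun x => -x) with hC
    have key : ∀ x ∈ L k q, ∀ y ∈ L k 1, ∀ z ∈ L k 1, x + y + z = 0 → y = z ∧ z ∈ E1 := by
      intro x hx y hy z hz hsum
      rw [mem_L] at hx hy
      have hz' := mem_L.1 hz
      have hxq : k x = q := le_antisymm (hk.le x) hx
      obtain ⟨hyz, h⟩ := avg hk hsum (hqL3 x hxq) (by omega) (by omega) (by omega)
      refine ⟨hyz, ?_⟩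
      subst hyz
      have hx' : -(y + y) = x := by
        rw [neg_eq_iff_add_eq_zero, add_comm, ← add_assoc]; exact hsum
      rw [hE1, Finset.mem_filter]
      refine ⟨hz, ?_, ?_⟩
      · rcases h with h | h <;> omega
      · rw [hx']; exact hxq
    have hs := scherk (L k q) (L k 1) C (-(e + e)) e (mem_L.2 he2.ge) (mem_L.2 he1.ge)
      (by
        intro x hx y hy hxy
        have h0 : x + y + e = 0 := by rw [hxy]; abel
        have := (key x hx y hy e (mem_L.2 he1.ge) h0).1
        subst this
        refine ⟨?_, rfl⟩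
        have := add_right_cancel hxy
        exact this)
      (by
        intro x hx y hy hmem
        rw [hC, Finset.mem_image] at hmem
        obtain ⟨z, hz, hzx⟩ := hmem
        rw [Finset.mem_sdiff] at hz
        have h0 : x + y + z = 0 := by rw [← hzx]; abel
        exact hz.2 (key x hx y hy z hz.1 h0).2)
    have hCc : C.card = (L k 1).card - E1.card := by
      rw [hC, Finset.card_image_of_injective _ neg_injective,
        Finset.card_sdiff_of_subset (Finset.filter_subset _ _)]
    have hE1le : E1.card ≤ (L k 1).card := Finset.card_le_card (Finset.filter_subset _ _)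
    have h2le : (L k 2).card ≤ (L k 1).card - E1.card := by
      rw [← Finset.card_sdiff_of_subset (Finset.filter_subset _ _)]
      apply Finset.card_le_card
      intro x hx
      rw [mem_L] at hx
      rw [Finset.mem_sdiff, Finset.mem_filter, mem_L]
      refine ⟨by omega, fun h => ?_⟩
      have := h.2.1
      omega
    unfold ell
    omega
  · obtain ⟨he1, he2⟩ := he
    set E2 : Finset Q := (L k 1).filter (fun j => k j = 2 ∧ k (-(j + j)) + 1 = q) with hE2
    set C : Finset Q := ((L k 1) \ E2).image (fun x => -x) with hC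
    have key : ∀ x ∈ L3 k (q - 1), ∀ y ∈ L k 2, ∀ z ∈ L k 1, x + y + z = 0 → y = z ∧ z ∈ E2 := by
      intro x hx y hy z hz hsum
      rw [mem_L3] at hx
      rw [mem_L] at hy
      have hz' := mem_L.1 hz
      obtain ⟨hyz, h⟩ := avg hk hsum hx.2 (by omega) (by omega) (by omega)
      refine ⟨hyz, ?_⟩
      subst hyz
      have hx' : -(y + y) = x := by
        rw [neg_eq_iff_add_eq_zero, add_comm, ← add_assoc]; exact hsum
      rw [hE2, Finset.mem_filter, hx']
      refine ⟨hz, ?_, ?_⟩
      · rcases h with h | h <;> omega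
      · rcases h with h | h <;> omega
    have hmem : -(e + e) ∈ L3 k (q - 1) := by
      rw [mem_L3]
      refine ⟨by omega, fun h0 => ?_⟩
      -- then `3 e = 0`
      have h3 : (e + e + e) + (e + e + e) = 0 + 0 := by
        have : (e + e + e) + (e + e + e) = -(-(e + e) + -(e + e) + -(e + e)) := by abel
        rw [this, h0]; simp
      have h3' := avoidb_double hodd h3
      have : -(e + e) = e := by
        rw [neg_eq_iff_add_eq_zero]; exact h3'
      rw [this] at he2
      omega
    have hs := scherk (L3 k (q - 1)) (L k 2) C (-(e + e)) e hmem (mem_L.2 he1.ge)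
      (by
        intro x hx y hy hxy
        have h0 : x + y + e = 0 := by rw [hxy]; abel
        have := (key x hx y hy e (mem_L.2 (by omega)) h0).1
        subst this
        refine ⟨?_, rfl⟩
        exact add_right_cancel hxy)
      (by
        intro x hx y hy hmem
        rw [hC, Finset.mem_image] at hmem
        obtain ⟨z, hz, hzx⟩ := hmem
        rw [Finset.mem_sdiff] at hz
        have h0 : x + y + z = 0 := by rw [← hzx]; abel
        exact hz.2 (key x hx y hy z hz.1 h0).2)
    have hCc : C.card = (L k 1).card - E2.card := by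
      rw [hC, Finset.card_image_of_injective _ neg_injective,
        Finset.card_sdiff_of_subset (Finset.filter_subset _ _)]
    have hE2le : E2.card ≤ (L k 1).card := Finset.card_le_card (Finset.filter_subset _ _)
    -- the map `j ↦ -2j` from `E2` to `L3 (q - 1) \ L q`
    have hLq : L k q ⊆ L3 k (q - 1) := by
      intro x hx
      rw [mem_L] at hx
      rw [mem_L3]
      exact ⟨by omega, hqL3 x (le_antisymm (hk.le x) hx)⟩
    have hinj : E2.card ≤ (L3 k (q - 1) \ L k q).card := by
      apply Finset.card_le_card_of_injOn (fun j => -(j + j))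
      · intro j hj
        rw [Finset.mem_coe, hE2, Finset.mem_filter] at hj
        show -(j + j) ∈ ((L3 k (q - 1) \ L k q : Finset Q) : Set Q)
        rw [Finset.mem_coe, Finset.mem_sdiff, mem_L3, mem_L]
        have hj2 := hj.2.2
        refine ⟨⟨by omega, fun h0 => ?_⟩, by omega⟩
        have h3 : (j + j + j) + (j + j + j) = 0 + 0 := by
          have : (j + j + j) + (j + j + j) = -(-(j + j) + -(j + j) + -(j + j)) := by abel
          rw [this, h0]; simp
        have h3' := avoidb_double hodd h3
        have h4 : -(j + j) = j := by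
          rw [neg_eq_iff_add_eq_zero]; exact h3'
        rw [h4] at hj
        omega
      · intro x _ y _ hxy
        exact avoidb_double hodd (neg_injective hxy)
    rw [Finset.card_sdiff_of_subset hLq] at hinj
    have hle : (L k q).card ≤ (L3 k (q - 1)).card := Finset.card_le_card hLq
    unfold ell
    omega


end Part1

end Pool.Agent.DG
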