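import Pool.Agent.DG.Defs

set_option autoImplicit false

namespace Pool.Agent.DG

section Part0

open Finset

universe u v

theorem basic2_bdd (G : Type u) [AddCommGroup G] [Finite G] :
    BddAbove {k | ∃ A : Finset G, Adm A ∧ A.card = k} := by
  have _ : Fintype G := Fintype.ofFinite G
  refine ⟨Fintype.card G, ?_⟩
  rintro k ⟨A, -, rfl⟩
  exact Finset.card_le_univ A

theorem card_le_D {G : Type u} [AddCommGroup G] [Finite G] {A : Finset G} (hA : Adm A) :
    A.card ≤ D G :=
  le_csSup (basic2_bdd G) ⟨A, hA, rfl⟩

theorem exists_D (G : Type u) [AddCommGroup G] [Finite G] :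
    ∃ A : Finset G, Adm A ∧ A.card = D G := by
  have h : D G ∈ {k | ∃ A : Finset G, Adm A ∧ A.card = k} := by
    apply Nat.sSup_mem _ (basic2_bdd G)
    exact ⟨0, ∅, fun x hx => by simp at hx, rfl⟩
  exact h

theorem basic2_map {G : Type u} {H : Type v} [AddCommGroup G] [AddCommGroup H] (e : G ≃+ H)
    {A : Finset G} (hA : Adm A) : Adm (A.map e.toEquiv.toEmbedding) := by
  intro x hx y hy z hz hxy hxz hyz h
  obtain ⟨a, ha, rfl⟩ := Finset.mem_map.1 hx
  obtain ⟨b, hb, rfl⟩ := Finset.mem_map.1 hy
  obtain ⟨c, hc, rfl⟩ := Finset.mem_map.1 hz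
  refine hA a ha b hb c hc (fun h => hxy (by rw [h])) (fun h => hxz (by rw [h]))
    (fun h => hyz (by rw [h])) ?_
  apply e.injective
  rw [map_add, map_add, map_zero]
  exact h

/-- invariance under isomorphism, any two universes -/
theorem D_congr_univ {G : Type u} {H : Type v} [AddCommGroup G] [Finite G] [AddCommGroup H]
    [Finite H] (e : G ≃+ H) : D G = D H := by
  apply le_antisymm
  · obtain ⟨A, hA, hA'⟩ := exists_D G
    rw [← hA', ← Finset.card_map e.toEquiv.toEmbedding]
    exact card_le_D (basic2_map e hA)
  · obtain ⟨A, hA, hA'⟩ := exists_D H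
    rw [← hA', ← Finset.card_map e.symm.toEquiv.toEmbedding]
    exact card_le_D (basic2_map e.symm hA)

theorem D_congr {G H : Type u} [AddCommGroup G] [Finite G] [AddCommGroup H] [Finite H]
    (e : G ≃+ H) : D G = D H := D_congr_univ e

theorem three_le_D (G : Type u) [AddCommGroup G] [Finite G] (h : 4 ≤ Nat.card G) :
    3 ≤ D G := by
  classical
  have _ : Fintype G := Fintype.ofFinite G
  rw [Nat.card_eq_fintype_card] at h
  obtain ⟨x, hx⟩ : ∃ x : G, x ∉ ({0} : Finset G) := by
    by_contra hcon
    push Not at hcon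
    have := Finset.card_le_card (fun x _ => hcon x : (Finset.univ : Finset G) ⊆ {0})
    rw [Finset.card_univ, Finset.card_singleton] at this
    omega
  obtain ⟨y, hy⟩ : ∃ y : G, y ∉ ({0, x, -x} : Finset G) := by
    by_contra hcon
    push Not at hcon
    have h1 := Finset.card_le_card (fun y _ => hcon y : (Finset.univ : Finset G) ⊆ {0, x, -x})
    have h2 := Finset.card_le_three (a := (0 : G)) (b := x) (c := -x)
    rw [Finset.card_univ] at h1
    omega
  simp only [Finset.mem_singleton] at hx
  simp only [Finset.mem_insert, Finset.mem_singleton, not_or] at hy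
  obtain ⟨hy0, hyx, hynx⟩ := hy
  have hcard : ({0, x, y} : Finset G).card = 3 := by
    rw [Finset.card_eq_three]
    exact ⟨0, x, y, fun h => hx h.symm, fun h => hy0 h.symm, fun h => hyx h.symm, rfl⟩
  have hxy : x + y ≠ 0 := fun h => hynx (eq_neg_of_add_eq_zero_right h)
  have hyx' : y + x ≠ 0 := by rw [add_comm]; exact hxy
  have hadm : Adm ({0, x, y} : Finset G) := by
    intro a ha b hb c hc hab hac hbc hsum
    simp only [Finset.mem_insert, Finset.mem_singleton] at ha hb hc
    rcases ha with rfl | rfl | rfl <;> rcases hb with rfl | rfl | rfl <;>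
      rcases hc with rfl | rfl | rfl <;> simp_all
  have := card_le_D hadm
  omega

theorem two_le_D (G : Type u) [AddCommGroup G] [Finite G] (h : 2 ≤ Nat.card G) :
    2 ≤ D G := by
  classical
  have _ : Fintype G := Fintype.ofFinite G
  rw [Nat.card_eq_fintype_card] at h
  obtain ⟨x, y, hxy⟩ := Fintype.one_lt_card_iff.mp (by omega : 1 < Fintype.card G)
  have hcard : ({x, y} : Finset G).card = 2 := Finset.card_pair hxy
  have hadm : Adm ({x, y} : Finset G) := by
    intro a ha b hb c hc hab hac hbc
    simp only [Finset.mem_insert, Finset.mem_singleton] at ha hb hc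
    rcases ha with rfl | rfl <;> rcases hb with rfl | rfl <;> rcases hc with rfl | rfl <;> simp_all
  have := card_le_D hadm
  omega

theorem basic2_double {G : Type u} [AddCommGroup G] [Finite G] (hodd : Nat.card G % 2 = 1)
    {a b : G} (h : a + a = b + b) : a = b := by
  have h1 : (2 : ℕ) • (a - b) = 0 := by
    rw [two_nsmul]
    have : a - b + (a - b) = (a + a) - (b + b) := by abel
    rw [this, h, sub_self]
  have h2 : addOrderOf (a - b) ∣ 2 := addOrderOf_dvd_of_nsmul_eq_zero h1
  have h3 : addOrderOf (a - b) ∣ Nat.card G := addOrderOf_dvd_natCard (a - b)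
  have h4 : addOrderOf (a - b) ∣ 1 := by
    have hc : Nat.Coprime 2 (Nat.card G) := by
      rw [Nat.coprime_two_left, Nat.odd_iff]
      exact hodd
    have := Nat.dvd_gcd h2 h3
    rwa [hc] at this
  have h5 : addOrderOf (a - b) = 1 := Nat.dvd_one.mp h4
  rw [AddMonoid.addOrderOf_eq_one_iff] at h5
  exact sub_eq_zero.mp h5

/-- A crude bound for odd order. -/
theorem crude (G : Type u) [AddCommGroup G] [Finite G] (hodd : Nat.card G % 2 = 1) {A : Finset G}
    (hA : Adm A) : 2 * A.card ≤ Nat.card G + 3 := by
  classical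
  have _ : Fintype G := Fintype.ofFinite G
  rcases A.eq_empty_or_nonempty with rfl | ⟨x, hx⟩
  · simp
  set B := A.filter (fun j => j ≠ x ∧ j + j + x ≠ 0 ∧ j ≠ -(x + x)) with hB
  have h1 : A ⊆ B ∪ ({x} ∪ (A.filter (fun j => j + j + x = 0) ∪ {-(x + x)})) := by
    intro j hj
    simp only [hB, Finset.mem_union, Finset.mem_filter, Finset.mem_singleton]
    by_cases c1 : j = x
    · right; left; exact c1
    · by_cases c2 : j + j + x = 0
      · right; right; left; exact ⟨hj, c2⟩
      · by_cases c3 : j = -(x + x)
        · right; right; right; exact c3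
        · left; exact ⟨hj, c1, c2, c3⟩
  have h2 : (A.filter (fun j => j + j + x = 0)).card ≤ 1 := by
    rw [Finset.card_le_one]
    intro a ha b hb
    have ha' := (Finset.mem_filter.1 ha).2
    have hb' := (Finset.mem_filter.1 hb).2
    apply basic2_double hodd
    exact add_right_cancel (ha'.trans hb'.symm)
  have h3 : A.card ≤ B.card + 3 := by
    refine (Finset.card_le_card h1).trans ((Finset.card_union_le _ _).trans ?_)
    have h4 := Finset.card_union_le ({x} : Finset G) (A.filter (fun j => j + j + x = 0) ∪ {-(x + x)})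
    have h5 := Finset.card_union_le (A.filter (fun j => j + j + x = 0)) ({-(x + x)} : Finset G)
    simp only [Finset.card_singleton] at h4 h5
    omega
  have h6 : B.card ≤ (Finset.univ \ A).card := by
    apply Finset.card_le_card_of_injOn (fun j => -x - j)
    · intro j hj
      obtain ⟨hj1, hj2, hj3, hj4⟩ := Finset.mem_filter.1 (Finset.mem_coe.1 hj)
      rw [Finset.mem_coe, Finset.mem_sdiff]
      refine ⟨Finset.mem_univ _, fun hmem => ?_⟩
      refine hA x hx j hj1 (-x - j) hmem (fun h => hj2 h.symm) ?_ ?_ ?_
      · intro h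
        apply hj4
        have : j = -x - (-x - j) := by abel
        rw [this, ← h]; abel
      · intro h
        apply hj3
        have : j + j + x = j + x + j := by abel
        rw [this]
        nth_rewrite 2 [h]
        abel
      · abel
    · intro a _ b _ h
      simp only at h
      exact sub_right_injective h
  have h7 : (Finset.univ \ A).card + A.card = Nat.card G := by
    rw [Nat.card_eq_fintype_card, Finset.card_sdiff_add_card_eq_card (Finset.subset_univ A),
      Finset.card_univ]
  omega


end Part0

end Pool.Agent.DG
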