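import Mathlib

set_option autoImplicit false

/-! # Definitions for the distinct zero-sum triples project -/

namespace Pool.Agent.DG
open Finset

universe u

/-- No three pairwise distinct elements of `A` have sum `0`. -/
def Adm {G : Type*} [AddCommGroup G] (A : Finset G) : Prop :=
  ∀ x ∈ A, ∀ y ∈ A, ∀ z ∈ A, x ≠ y → x ≠ z → y ≠ z → x + y + z ≠ 0

/-- `0` is not in `X + Y + Z`. -/
def NZ {G : Type*} [AddCommGroup G] (X Y Z : Finset G) : Prop :=
  ∀ x ∈ X, ∀ y ∈ Y, ∀ z ∈ Z, x + y + z ≠ 0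

/-- The constraints on the fibre sizes of an admissible set over the quotient by a subgroup of
prime order `q`. -/
structure Fib {Q : Type*} [AddCommGroup Q] (q : ℕ) (k : Q → ℕ) : Prop where
  le : ∀ i, k i ≤ q
  c1 : ∀ i j l, i + j + l = 0 → i ≠ j → i ≠ l → j ≠ l → 0 < k i → 0 < k j → 0 < k l →
    k i + k j + k l ≤ q + 1
  c2 : ∀ i l, i + i + l = 0 → i ≠ l → 2 ≤ k i → 0 < k l → 2 * k i + k l ≤ q + 3
  c3 : ∀ i, i + i + i = 0 → 3 * k i ≤ q + 7

/-- The classes modulo `F` met by `X`. -/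
noncomputable def cl {Q : Type*} [AddCommGroup Q] (F : AddSubgroup Q) (X : Finset Q) :
    Finset (Q ⧸ F) := by
  classical exact X.image (fun x => (QuotientAddGroup.mk x : Q ⧸ F))

theorem mem_cl {Q : Type*} [AddCommGroup Q] {F : AddSubgroup Q} {X : Finset Q} {c : Q ⧸ F} :
    c ∈ cl F X ↔ ∃ x ∈ X, (QuotientAddGroup.mk x : Q ⧸ F) = c := by
  classical
  unfold cl
  rw [Finset.mem_image]

/-- Upper level sets of `k`. -/
def L {Q : Type*} [Fintype Q] (k : Q → ℕ) (s : ℕ) : Finset Q := univ.filter (fun i => s ≤ k i)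

theorem mem_L {Q : Type*} [Fintype Q] {k : Q → ℕ} {s : ℕ} {i : Q} : i ∈ L k s ↔ s ≤ k i := by
  simp [L]

/-- Sizes of the upper level sets. -/
def ell {Q : Type*} [Fintype Q] (k : Q → ℕ) (s : ℕ) : ℕ := (L k s).card

/-- The sum of `k` over a subgroup. -/
noncomputable def sumE {Q : Type*} [AddCommGroup Q] [Fintype Q] (k : Q → ℕ) (E : AddSubgroup Q) :
    ℕ := by
  classical exact ∑ i ∈ univ.filter (fun i => i ∈ E), k i

/-- The sum over the special levels `r + 2, ..., r + 1 + ρ`. -/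
def spc {Q : Type*} [Fintype Q] (k : Q → ℕ) (r ρ : ℕ) : ℕ :=
  ∑ s ∈ Icc (r + 2) (r + 1 + ρ), ell k s

/-- The standing hypotheses. -/
structure Ctx (Q : Type*) [AddCommGroup Q] (q r ρ φ : ℕ) (k : Q → ℕ) : Prop where
  hq : q = 3 * r + ρ
  ρ1 : 1 ≤ ρ
  ρ2 : ρ ≤ 2
  r1 : 1 ≤ r
  qodd : q % 2 = 1
  Nodd : Nat.card Q % 2 = 1
  N3 : Nat.card Q % 3 ≠ 0
  hQ : ∀ d, d ∣ Nat.card Q → d % 3 = 2 → Nat.card Q / d ≤ φ
  fib : Fib q k

/-- The number of elements of `A` over the class `i`. -/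
noncomputable def fk {G : Type*} [AddCommGroup G] (K : AddSubgroup G) (A : Finset G) (i : G ⧸ K) :
    ℕ := Set.ncard {a : G | a ∈ A ∧ (QuotientAddGroup.mk a : G ⧸ K) = i}

/-- The largest size of an admissible subset of `G`. -/
noncomputable def D (G : Type u) [AddCommGroup G] : ℕ :=
  sSup {k | ∃ A : Finset G, Adm A ∧ A.card = k}

end Pool.Agent.DG
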