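import Pool.Agent.DG.Defs

set_option autoImplicit false

/-! # Even order -/

namespace Pool.Agent.DG
open Finset

universe u

/-- The exceptional groups of even order. -/
def Exc (G : Type u) [AddCommGroup G] : Prop :=
  (∃ E : AddSubgroup G, E.index ≤ 2 ∧ E.index ≠ 0 ∧ ∀ x ∈ E, x + x = 0) ∨
    (IsAddCyclic G ∧ (Nat.card G = 6 ∨ Nat.card G = 8 ∨ Nat.card G = 10))

/-- The subgroup of elements with `x + x = 0`. -/
def evenT (G : Type u) [AddCommGroup G] : AddSubgroup G where
  carrier := {x | x + x = 0}
  zero_mem' := by simp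
  add_mem' := by
    intro a b ha hb
    show a + b + (a + b) = 0
    have ha' : a + a = 0 := ha
    have hb' : b + b = 0 := hb
    calc a + b + (a + b) = (a + a) + (b + b) := by abel
      _ = 0 := by rw [ha', hb', add_zero]
  neg_mem' := by
    intro a ha
    show -a + -a = 0
    have ha' : a + a = 0 := ha
    calc -a + -a = -(a + a) := by abel
      _ = 0 := by rw [ha', neg_zero]

theorem even_mem_T {G : Type u} [AddCommGroup G] {x : G} : x ∈ evenT G ↔ x + x = 0 := Iff.rfl

theorem even_exists_T (G : Type u) [AddCommGroup G] [Finite G] (h2 : 2 ∣ Nat.card G) :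
    ∃ t : G, t ≠ 0 ∧ t + t = 0 := by
  have : Fact (Nat.Prime 2) := ⟨Nat.prime_two⟩
  obtain ⟨t, ht⟩ := exists_prime_addOrderOf_dvd_card' (G := G) 2 h2
  refine ⟨t, ?_, ?_⟩
  · rintro rfl
    rw [addOrderOf_zero] at ht
    omega
  · have := addOrderOf_nsmul_eq_zero t
    rw [ht, two_nsmul] at this
    exact this

theorem even_exc_of_T {G : Type u} [AddCommGroup G] [Finite G]
    (h : Nat.card G ≤ 2 * Nat.card (evenT G)) : Exc G := by
  left
  refine ⟨evenT G, ?_, ?_, fun x hx => hx⟩
  · have h1 := (evenT G).card_mul_index
    have h2 : 0 < Nat.card (evenT G) := Nat.card_pos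
    have h3 : Nat.card (evenT G) * (evenT G).index ≤ Nat.card (evenT G) * 2 := by
      rw [h1, mul_comm]; exact h
    exact Nat.le_of_mul_le_mul_left h3 h2
  · exact AddSubgroup.index_ne_zero_of_finite

/-- an element which is not a double is outside a subgroup of index 2 containing all doubles -/
theorem even_H {G : Type u} [AddCommGroup G] [Finite G] {x0 : G} (hx0 : ∀ y : G, y + y ≠ x0) :
    ∃ H : AddSubgroup G, x0 ∉ H ∧ (∀ y, y + y ∈ H) ∧ (∀ y, y ∉ H → x0 - y ∈ H) ∧ H.index = 2 := by
  let R : AddSubgroup G :=
    { carrier := {x | ∃ y, y + y = x}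
      zero_mem' := ⟨0, by simp⟩
      add_mem' := by
        rintro a b ⟨y, rfl⟩ ⟨z, rfl⟩
        exact ⟨y + z, by abel⟩
      neg_mem' := by
        rintro a ⟨y, rfl⟩
        exact ⟨-y, by abel⟩ }
  have hR : (∀ y, y + y ∈ R) ∧ x0 ∉ R := ⟨fun y => ⟨y, rfl⟩, fun ⟨y, hy⟩ => hx0 y hy⟩
  obtain ⟨H, -, hH⟩ := (Set.toFinite {K : AddSubgroup G | (∀ y, y + y ∈ K) ∧ x0 ∉ K}).exists_le_maximal
    (a := R) hR
  have hmem : (∀ y, y + y ∈ H) ∧ x0 ∉ H := hH.prop
  have hout : ∀ y, y ∉ H → x0 - y ∈ H := by
    intro y hy
    by_contra hc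
    have hK : (∀ z, z + z ∈ H ⊔ AddSubgroup.zmultiples y) ∧ x0 ∉ H ⊔ AddSubgroup.zmultiples y := by
      refine ⟨fun z => (le_sup_left : H ≤ _) (hmem.1 z), ?_⟩
      intro hx
      rw [AddSubgroup.mem_sup] at hx
      obtain ⟨h, hh, w, hw, hsum⟩ := hx
      rw [AddSubgroup.mem_zmultiples_iff] at hw
      obtain ⟨m, rfl⟩ := hw
      rcases Int.even_or_odd' m with ⟨n, rfl | rfl⟩
      · apply hmem.2
        rw [← hsum]
        apply H.add_mem hh
        have h1 : (2 * n) • y = n • (y + y) := by rw [mul_comm, mul_zsmul, two_zsmul]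
        rw [h1]
        exact H.zsmul_mem (hmem.1 y) n
      · apply hc
        rw [← hsum]
        have h1 : h + (2 * n + 1) • y - y = h + n • (y + y) := by
          rw [add_zsmul, one_zsmul, mul_comm, mul_zsmul, two_zsmul]
          abel
        rw [h1]
        exact H.add_mem hh (H.zsmul_mem (hmem.1 y) n)
    have hle := hH.le_of_ge (y := H ⊔ AddSubgroup.zmultiples y) hK le_sup_left
    exact hy (hle ((le_sup_right : AddSubgroup.zmultiples y ≤ _) (AddSubgroup.mem_zmultiples y)))
  refine ⟨H, hmem.2, hmem.1, hout, ?_⟩
  rw [AddSubgroup.index_eq_two_iff]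
  refine ⟨x0, fun b => ?_⟩
  by_cases hb : b ∈ H
  · right
    refine ⟨hb, fun h => hmem.2 ?_⟩
    have := H.sub_mem h hb
    rwa [add_sub_cancel_left] at this
  · left
    refine ⟨?_, hb⟩
    have h1 := hout b hb
    have h2 := H.add_mem h1 (hmem.1 b)
    have h3 : x0 - b + (b + b) = b + x0 := by abel
    rwa [h3] at h2

theorem even_exists_nd (G : Type u) [AddCommGroup G] [Finite G] (h2 : 2 ∣ Nat.card G) :
    ∃ x0 : G, ∀ y : G, y + y ≠ x0 := by
  by_contra hc
  push Not at hc
  have hsurj : Function.Surjective (fun y : G => y + y) := hc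
  have hinj := Finite.injective_iff_surjective.2 hsurj
  obtain ⟨t, ht0, ht⟩ := even_exists_T G h2
  apply ht0
  apply hinj
  show t + t = 0 + 0
  rw [ht, add_zero]

/-- the pairing argument -/
theorem even_base {G : Type u} [AddCommGroup G] [Finite G] {A : Finset G} (hA : Adm A) {x : G}
    (hx : x ∈ A) (h2 : ∀ y : G, y + y ≠ x) :
    2 * A.card ≤ Nat.card G + 2 ∧ (2 * A.card = Nat.card G + 2 → -(x + x) ∈ A ∧
      ∀ y, y ≠ x → y ≠ -(x + x) → y ∉ A → -x - y ∈ A) := by
  classical
  have := Fintype.ofFinite G
  have hnf : ∀ y : G, -x - y ≠ y := by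
    intro y h
    apply h2 (-y)
    have : -x = y + y := by
      calc -x = (-x - y) + y := by abel
        _ = y + y := by rw [h]
    rw [← neg_inj, this]
    abel
  have hx2 : x ≠ -(x + x) := by
    intro h
    apply h2 (-x)
    calc -x + -x = -(x + x) := by abel
      _ = x := h.symm
  set A0 := (A.erase x).erase (-(x + x)) with hA0
  have hmem0 : ∀ y, y ∈ A0 ↔ y ≠ -(x + x) ∧ y ≠ x ∧ y ∈ A := by
    intro y
    rw [hA0, Finset.mem_erase, Finset.mem_erase]
  set S := A0.image (fun y => -x - y) with hS
  have hinj : Function.Injective (fun y : G => -x - y) := fun a b h => by simpa using h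
  have hScard : S.card = A0.card := Finset.card_image_of_injective _ hinj
  have hpair : ({x, -(x + x)} : Finset G).card = 2 := Finset.card_pair hx2
  have hd1 : Disjoint A0 ({x, -(x + x)} : Finset G) := by
    rw [Finset.disjoint_left]
    intro y hy hy'
    rw [hmem0] at hy
    rw [Finset.mem_insert, Finset.mem_singleton] at hy'
    rcases hy' with h | h
    · exact hy.2.1 h
    · exact hy.1 h
  have hd2 : Disjoint S (A0 ∪ {x, -(x + x)}) := by
    rw [Finset.disjoint_left]
    intro z hz hz'
    rw [hS, Finset.mem_image] at hz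
    obtain ⟨y, hy, rfl⟩ := hz
    rw [hmem0] at hy
    rw [Finset.mem_union, Finset.mem_insert, Finset.mem_singleton, hmem0] at hz'
    have hmain : -x - y ∉ A ∨ -x - y = x := by
      by_contra hc
      push Not at hc
      exact hA x hx y hy.2.2 (-x - y) hc.1 (Ne.symm hy.2.1) (Ne.symm hc.2) (hnf y).symm (by abel)
    rcases hz' with h | h | h
    · rcases hmain with h' | h'
      · exact h' h.2.2
      · exact h.2.1 h'
    · apply hy.1
      have : y = -x - (-x - y) := by abel
      rw [this, h]
      abel
    · apply hy.2.1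
      have : y = -x - (-x - y) := by abel
      rw [this, h]
      abel
  have hcardU : (S ∪ (A0 ∪ {x, -(x + x)})).card = 2 * A0.card + 2 := by
    rw [Finset.card_union_of_disjoint hd2, Finset.card_union_of_disjoint hd1, hScard, hpair]
    ring
  have hle : 2 * A0.card + 2 ≤ Nat.card G := by
    rw [← hcardU, Nat.card_eq_fintype_card]
    exact Finset.card_le_univ _
  have h1 : (A.erase x).card + 1 = A.card := Finset.card_erase_add_one hx
  have h3 : (A.erase x).card ≤ A0.card + 1 := by
    have h4 := Finset.pred_card_le_card_erase (s := A.erase x) (a := -(x + x))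
    rw [← hA0] at h4
    omega
  refine ⟨by omega, ?_⟩
  intro heq
  have hin : -(x + x) ∈ A := by
    by_contra hc
    have : A0 = A.erase x := by
      rw [hA0, Finset.erase_eq_of_notMem]
      intro h
      exact hc (Finset.mem_of_mem_erase h)
    rw [this] at hle
    omega
  refine ⟨hin, ?_⟩
  intro y hyx hyx2 hyA
  have huniv : S ∪ (A0 ∪ {x, -(x + x)}) = Finset.univ := by
    apply Finset.eq_univ_of_card
    rw [hcardU, ← Nat.card_eq_fintype_card]
    omega
  have hy : y ∈ S ∪ (A0 ∪ {x, -(x + x)}) := by rw [huniv]; exact Finset.mem_univ y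
  rw [Finset.mem_union, Finset.mem_union, Finset.mem_insert, Finset.mem_singleton, hmem0] at hy
  rcases hy with h | h | h | h
  · rw [hS, Finset.mem_image] at h
    obtain ⟨a, ha, rfl⟩ := h
    rw [hmem0] at ha
    have : -x - (-x - a) = a := by abel
    rw [this]
    exact ha.2.2
  · exact absurd h.2.2 hyA
  · exact absurd h hyx
  · exact absurd h hyx2

theorem even_double {G : Type u} [AddCommGroup G] [Finite G] (h2 : 2 ∣ Nat.card G) {A : Finset G}
    (hA : ∀ x ∈ A, ∃ y, y + y = x) : 2 * A.card ≤ Nat.card G := by
  classical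
  have := Fintype.ofFinite G
  obtain ⟨t, ht0, ht⟩ := even_exists_T G h2
  -- each element of A has two halves
  have h1 : ∀ x ∈ A, 2 ≤ (Finset.univ.filter (fun y : G => y + y = x)).card := by
    intro x hx
    obtain ⟨y, hy⟩ := hA x hx
    have hsub : ({y, y + t} : Finset G) ⊆ Finset.univ.filter (fun y : G => y + y = x) := by
      intro z hz
      rw [Finset.mem_insert, Finset.mem_singleton] at hz
      rw [Finset.mem_filter]
      refine ⟨Finset.mem_univ _, ?_⟩
      rcases hz with rfl | rfl
      · exact hy
      · calc y + t + (y + t) = (y + y) + (t + t) := by abel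
          _ = x := by rw [hy, ht, add_zero]
    calc 2 = ({y, y + t} : Finset G).card := (Finset.card_pair (by simpa using ht0)).symm
      _ ≤ _ := Finset.card_le_card hsub
  calc 2 * A.card = ∑ x ∈ A, 2 := by rw [Finset.sum_const, smul_eq_mul, mul_comm]
    _ ≤ ∑ x ∈ A, (Finset.univ.filter (fun y : G => y + y = x)).card := Finset.sum_le_sum h1
    _ = (A.biUnion (fun x => Finset.univ.filter (fun y : G => y + y = x))).card := by
        rw [Finset.card_biUnion]
        intro a _ b _ hab
        rw [Function.onFun, Finset.disjoint_left]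
        intro y hy hy'
        rw [Finset.mem_filter] at hy hy'
        exact hab (hy.2.symm.trans hy'.2)
    _ ≤ Nat.card G := by
        rw [Nat.card_eq_fintype_card]
        exact Finset.card_le_univ _

theorem even_up (G : Type u) [AddCommGroup G] [Finite G] (h2 : 2 ∣ Nat.card G) {A : Finset G}
    (hA : Adm A) : 2 * A.card ≤ Nat.card G + 2 := by
  by_cases h : ∃ x ∈ A, ∀ y : G, y + y ≠ x
  · obtain ⟨x, hx, hx2⟩ := h
    exact (even_base hA hx hx2).1
  · push Not at h
    have := even_double h2 h
    omega

/-- three distinct elements of sum zero avoiding a given one -/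
theorem even_avoid (K : Type u) [AddCommGroup K] [Finite K] (h : 6 ≤ Nat.card K) (s : K) :
    ∃ x y z : K, x ≠ s ∧ y ≠ s ∧ z ≠ s ∧ x ≠ y ∧ x ≠ z ∧ y ≠ z ∧ x + y + z = 0 := by
  classical
  have := Fintype.ofFinite K
  have hex : ∀ S : Finset K, S.card ≤ 5 → ∃ y, y ∉ S := by
    intro S hS
    by_contra hc
    push Not at hc
    have : S = Finset.univ := Finset.eq_univ_of_forall hc
    rw [this, Finset.card_univ, ← Nat.card_eq_fintype_card] at hS
    omega
  by_cases hc : ∃ a, a ≠ s ∧ ∀ y : K, y + y ≠ a
  · obtain ⟨a, has, ha⟩ := hc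
    obtain ⟨y, hy⟩ := hex {a, -(a + a), s, -a - s} (by
      refine (Finset.card_le_four).trans (by norm_num))
    simp only [Finset.mem_insert, Finset.mem_singleton, not_or] at hy
    obtain ⟨h1, h2, h3, h4⟩ := hy
    refine ⟨a, y, -a - y, has, h3, ?_, Ne.symm h1, ?_, ?_, by abel⟩
    · intro h; apply h4; rw [← h]; abel
    · intro h; apply h2
      have : y = -a - (-a - y) := by abel
      rw [this, ← h]; abel
    · intro h; apply ha (-y)
      have : -a = y + y := by
        calc -a = (-a - y) + y := by abel
          _ = y + y := by rw [← h]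
      rw [← neg_inj, this]; abel
  · push Not at hc
    have hsurj : Function.Surjective (fun y : K => y + y) := by
      intro a
      by_cases has : a = s
      · obtain ⟨p, hp⟩ := hex {0, s} ((Finset.card_le_two).trans (by norm_num))
        simp only [Finset.mem_insert, Finset.mem_singleton, not_or] at hp
        obtain ⟨y1, hy1⟩ := hc p hp.2
        obtain ⟨y2, hy2⟩ := hc (s - p) (by
          intro h
          apply hp.1
          have := sub_eq_self.1 h
          exact this)
        refine ⟨y1 + y2, ?_⟩
        show y1 + y2 + (y1 + y2) = a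
        calc y1 + y2 + (y1 + y2) = (y1 + y1) + (y2 + y2) := by abel
          _ = p + (s - p) := by rw [hy1, hy2]
          _ = a := by rw [has]; abel
      · exact hc a has
    have hinj := Finite.injective_iff_surjective.2 hsurj
    obtain ⟨a, ha⟩ := hex {s} (by simp)
    rw [Finset.mem_singleton] at ha
    obtain ⟨z0, hz0⟩ := hsurj (-a)
    have hz0' : z0 + z0 = -a := hz0
    obtain ⟨y, hy⟩ := hex {a, -(a + a), s, -a - s, z0} (Finset.card_le_five)
    simp only [Finset.mem_insert, Finset.mem_singleton, not_or] at hy
    obtain ⟨h1, h2, h3, h4, h5⟩ := hy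
    refine ⟨a, y, -a - y, ha, h3, ?_, Ne.symm h1, ?_, ?_, by abel⟩
    · intro h; apply h4; rw [← h]; abel
    · intro h; apply h2
      have : y = -a - (-a - y) := by abel
      rw [this, ← h]; abel
    · intro h; apply h5
      apply hinj
      show y + y = z0 + z0
      rw [hz0']
      calc y + y = (-a - y) + y := by rw [← h]
        _ = -a := by abel

theorem even_two_le_T {G : Type u} [AddCommGroup G] [Finite G] (h2 : 2 ∣ Nat.card G) :
    2 ≤ Nat.card (evenT G) := by
  classical
  obtain ⟨t, ht0, ht⟩ := even_exists_T G h2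
  have : Nontrivial (evenT G) := ⟨⟨0, (evenT G).zero_mem⟩, ⟨t, ht⟩, fun h => ht0 (by
    have := congrArg Subtype.val h
    exact this.symm)⟩
  exact Finite.one_lt_card

theorem even_cyclic_two_mul {G : Type u} [AddCommGroup G] [Finite G] (p : ℕ) (hp : p.Prime)
    (hp2 : p ≠ 2) (hG : Nat.card G = 2 * p) : IsAddCyclic G := by
  have : Fact (Nat.Prime 2) := ⟨Nat.prime_two⟩
  have : Fact (Nat.Prime p) := ⟨hp⟩
  obtain ⟨a, ha⟩ := exists_prime_addOrderOf_dvd_card' (G := G) 2 (by rw [hG]; exact Dvd.intro _ rfl)
  obtain ⟨b, hb⟩ := exists_prime_addOrderOf_dvd_card' (G := G) p (by rw [hG]; exact Dvd.intro_left _ rfl)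
  have hcop : (addOrderOf a).Coprime (addOrderOf b) := by
    rw [ha, hb]
    exact (Nat.coprime_primes Nat.prime_two hp).2 (Ne.symm hp2)
  have h := (AddCommute.all a b).addOrderOf_add_eq_mul_addOrderOf_of_coprime hcop
  apply isAddCyclic_of_addOrderOf_eq_card (a + b)
  rw [h, ha, hb, hG]

theorem even_small {G : Type u} [AddCommGroup G] [Finite G] (h2 : 2 ∣ Nat.card G)
    (h10 : Nat.card G ≤ 10) : Exc G := by
  classical
  have hpos : 0 < Nat.card G := Nat.card_pos
  have hT := even_two_le_T h2
  by_cases h4 : Nat.card G ≤ 4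
  · exact even_exc_of_T (by omega)
  · have hcases : Nat.card G = 6 ∨ Nat.card G = 8 ∨ Nat.card G = 10 := by omega
    rcases hcases with h | h | h
    · right
      exact ⟨even_cyclic_two_mul 3 (by norm_num) (by norm_num) h, Or.inl h⟩
    · by_cases hT4 : 4 ≤ Nat.card (evenT G)
      · exact even_exc_of_T (by omega)
      · right
        refine ⟨?_, Or.inr (Or.inl h)⟩
        have hdvd := (evenT G).card_addSubgroup_dvd_card
        rw [h] at hdvd
        have hT2 : Nat.card (evenT G) = 2 := by
          have : Nat.card (evenT G) = 2 ∨ Nat.card (evenT G) = 3 := by omega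
          rcases this with h' | h'
          · exact h'
          · rw [h'] at hdvd
            omega
        -- an element with 4 g nonzero
        have hex : ∃ g : G, (4 : ℕ) • g ≠ 0 := by
          by_contra hc
          push Not at hc
          have hmap : ∀ g : G, g + g ∈ evenT G := by
            intro g
            rw [even_mem_T]
            have := hc g
            have h4' : (4 : ℕ) • g = (g + g) + (g + g) := by
              rw [show (4 : ℕ) = 2 + 2 by norm_num, add_nsmul, two_nsmul]
            rw [← h4', this]
          let f : G →+ evenT G :=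
            { toFun := fun g => ⟨g + g, hmap g⟩
              map_zero' := by ext; simp
              map_add' := by
                intro a b
                ext
                show a + b + (a + b) = (a + a) + (b + b)
                abel }
          have hker : f.ker = evenT G := by
            ext g
            rw [AddMonoidHom.mem_ker, even_mem_T]
            constructor
            · intro hg
              exact congrArg Subtype.val hg
            · intro hg
              exact Subtype.ext hg
          have h1 := f.ker.card_mul_index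
          rw [AddSubgroup.index_ker, hker, hT2, h] at h1
          have h3 : Nat.card f.range ≤ Nat.card (evenT G) :=
            Nat.card_le_card_of_injective (fun x => (x : evenT G)) Subtype.val_injective
          rw [hT2] at h3
          omega
        obtain ⟨g, hg⟩ := hex
        apply isAddCyclic_of_addOrderOf_eq_card g
        rw [h]
        have hd : addOrderOf g ∣ 2 ^ 3 := by
          have := addOrderOf_dvd_natCard g
          rw [h] at this
          exact this
        obtain ⟨m, hm, hm'⟩ := (Nat.dvd_prime_pow Nat.prime_two).1 hd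
        have hm3 : m = 3 := by
          by_contra hm3
          apply hg
          rw [← addOrderOf_dvd_iff_nsmul_eq_zero, hm', show (4 : ℕ) = 2 ^ 2 by norm_num]
          exact pow_dvd_pow 2 (by omega)
        rw [hm', hm3]
        norm_num
    · right
      exact ⟨even_cyclic_two_mul 5 (by norm_num) (by norm_num) h, Or.inr (Or.inr h)⟩

/-- the structure of `A` minus `H` -/
theorem even_closure {G : Type u} [AddCommGroup G] [Finite G] {A B : Finset G} (hA : Adm A)
    (heq : 2 * A.card = Nat.card G + 2) (H : AddSubgroup G) (hH : ∀ y, y + y ∈ H)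
    (hout : ∀ x y : G, x ∉ H → y ∉ H → x + y ∈ H)
    (hB : ∀ x, x ∈ B ↔ x ∈ A ∧ x ∉ H) :
    ∀ x ∈ B, ∀ x' ∈ B, ∀ b ∈ B, b ≠ x → b + (x - x') ∈ B ∧ b + (x - x') ≠ x' := by
  intro x hx x' hx' b hb hbx
  have hx1 := (hB x).1 hx
  have hx'1 := (hB x').1 hx'
  have hb1 := (hB b).1 hb
  have hbH : -x - b ∈ H := by
    have := H.neg_mem (hout x b hx1.2 hb1.2)
    have h3 : -(x + b) = -x - b := by abel
    rwa [h3] at this
  have h1 : -x - b ∉ A := by
    intro hc
    refine hA x hx1.1 b hb1.1 (-x - b) hc (Ne.symm hbx) ?_ ?_ (by abel)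
    · intro h; exact hx1.2 (h ▸ hbH)
    · intro h; exact hb1.2 (h ▸ hbH)
  have hnd : ∀ y : G, y + y ≠ x' := fun y h => hx'1.2 (h ▸ hH y)
  obtain ⟨hin, hcl⟩ := (even_base hA hx'1.1 hnd).2 heq
  have hne : -x - b ≠ -(x' + x') := by
    intro h; apply h1; rw [h]; exact hin
  have h2 := hcl (-x - b) (by intro h; exact hx'1.2 (h ▸ hbH)) hne h1
  have h3 : -x' - (-x - b) = b + (x - x') := by abel
  rw [h3] at h2
  refine ⟨(hB _).2 ⟨h2, ?_⟩, ?_⟩
  · intro hc
    rw [← h3] at hc
    have := H.add_mem hc hbH
    have h4 : -x' - (-x - b) + (-x - b) = -x' := by abel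
    rw [h4] at this
    exact hx'1.2 (by simpa using H.neg_mem this)
  · intro h
    apply hne
    have h4 : -x - b = -x' - (b + (x - x')) := by abel
    rw [h4, h]
    abel

/-- all differences have order 2 -/
theorem even_diff {G : Type u} [AddCommGroup G] [Finite G] {B : Finset G} (hB3 : 3 ≤ B.card)
    (hcl : ∀ x ∈ B, ∀ x' ∈ B, ∀ b ∈ B, b ≠ x → b + (x - x') ∈ B ∧ b + (x - x') ≠ x') :
    ∀ x ∈ B, ∀ x' ∈ B, x + x = x' + x' := by
  classical
  intro x hx x' hx'
  by_cases hxx : x = x'
  · rw [hxx]
  by_contra hne
  obtain ⟨c, hc⟩ : ∃ c, c ∈ (B.erase x).erase x' := by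
    rw [← Finset.Nonempty, ← Finset.card_pos]
    have h1 := Finset.pred_card_le_card_erase (s := B) (a := x)
    have h2 := Finset.pred_card_le_card_erase (s := B.erase x) (a := x')
    omega
  rw [Finset.mem_erase, Finset.mem_erase] at hc
  obtain ⟨hcx', hcx, hcB⟩ := hc
  set t := x - x' with ht
  have ht0 : t ≠ 0 := sub_ne_zero.2 hxx
  have ht2 : t + t ≠ 0 := by
    intro h
    apply hne
    rw [← sub_eq_zero, ← h, ht]
    abel
  have h1 := hcl x hx x' hx' c hcB hcx
  have h2 := hcl x hx x' hx' (c + t) h1.1 (by
    intro h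
    apply hcx'
    have : c = (c + t) - t := by abel
    rw [this, h, ht]
    abel)
  have hkey : ∀ k : ℕ, 2 ≤ k → c + k • t ∈ B ∧ k • t ≠ 0 := by
    intro k
    induction k using Nat.strong_induction_on with
    | _ k ih =>
      intro hk
      rcases Nat.lt_or_ge 2 k with h3 | h3
      · obtain ⟨m, rfl⟩ : ∃ m, k = m + 1 := ⟨k - 1, by omega⟩
        have hm := ih m (by omega) (by omega)
        have hmt : c + m • t ≠ c + t := by
          intro h
          have h4 : m • t = t := add_left_cancel h
          obtain ⟨l, rfl⟩ : ∃ l, m = l + 1 := ⟨m - 1, by omega⟩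
          have h5 : l • t = 0 := by
            have : l • t + t = t := by rw [← succ_nsmul]; exact h4
            simpa using this
          rcases Nat.lt_or_ge l 2 with h6 | h6
          · have h7 : l = 1 := by omega
            rw [h7, one_nsmul] at h5
            exact ht0 h5
          · exact (ih l (by omega) h6).2 h5
        have h6 := hcl (c + t) h1.1 c hcB (c + m • t) hm.1 hmt
        have h7 : c + m • t + (c + t - c) = c + (m + 1) • t := by
          rw [succ_nsmul]; abel
        rw [h7] at h6
        refine ⟨h6.1, ?_⟩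
        intro h8
        apply h6.2
        rw [h8, add_zero]
      · have h4 : k = 2 := by omega
        subst h4
        rw [two_nsmul, ← add_assoc]
        exact ⟨h2.1, ht2⟩
  have hfin := addOrderOf_nsmul_eq_zero t
  have hpos : 0 < addOrderOf t := addOrderOf_pos t
  rcases Nat.lt_or_ge (addOrderOf t) 2 with h3 | h3
  · have h4 : addOrderOf t = 1 := by omega
    rw [h4, one_nsmul] at hfin
    exact ht0 hfin
  · exact (hkey _ h3).2 hfin

theorem even_up' (G : Type u) [AddCommGroup G] [Finite G] (h2 : 2 ∣ Nat.card G) (hG : ¬ Exc G)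
    {A : Finset G} (hA : Adm A) : 2 * A.card ≤ Nat.card G := by
  classical
  have := Fintype.ofFinite G
  by_contra hcon
  apply hG
  have hup := even_up G h2 hA
  have heq : 2 * A.card = Nat.card G + 2 := by omega
  have hex : ∃ x ∈ A, ∀ y : G, y + y ≠ x := by
    by_contra h
    push Not at h
    have := even_double h2 h
    omega
  obtain ⟨x0, hx0A, hx0⟩ := hex
  obtain ⟨H, hx0H, hH, hout, hidx⟩ := even_H hx0
  have hout' : ∀ x y : G, x ∉ H → y ∉ H → x + y ∈ H := by
    intro x y hx hy
    have h1 := H.neg_mem (hout x hx)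
    have h3 := hout y hy
    have h4 := H.add_mem (H.add_mem h1 (H.neg_mem h3)) (hH x0)
    have h5 : -(x0 - x) + -(x0 - y) + (x0 + x0) = x + y := by abel
    rwa [h5] at h4
  have hcardH : 2 * Nat.card H = Nat.card G := by
    rw [← H.card_mul_index, hidx, mul_comm]
  set B := A.filter (fun x => x ∉ H) with hBdef
  have hB : ∀ x, x ∈ B ↔ x ∈ A ∧ x ∉ H := fun x => by rw [hBdef, Finset.mem_filter]
  have hx0B : x0 ∈ B := (hB x0).2 ⟨hx0A, hx0H⟩
  have hcl := even_closure hA heq H hH hout' hB
  obtain ⟨hin, hbase⟩ := (even_base hA hx0A hx0).2 heq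
  -- elements of H outside A
  have hHA : ∀ h ∈ H, h ∉ A → -x0 - h ∈ B ∧ -x0 - h ≠ x0 := by
    intro h hh hhA
    have h1 : h ≠ -(x0 + x0) := fun hc => hhA (hc ▸ hin)
    have h3 := hbase h (fun hc => hx0H (hc ▸ hh)) h1 hhA
    refine ⟨(hB _).2 ⟨h3, ?_⟩, ?_⟩
    · intro hc
      have h4 := H.neg_mem (H.add_mem hc hh)
      have h5 : -(-x0 - h + h) = x0 := by abel
      rw [h5] at h4
      exact hx0H h4
    · intro hc
      apply h1
      have h4 : h = -x0 - (-x0 - h) := by abel
      rw [h4, hc]
      abel
  by_cases hB3 : 3 ≤ B.card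
  · -- B is a coset
    have hdiff := even_diff hB3 hcl
    let E : AddSubgroup G :=
      { carrier := {e | x0 + e ∈ B}
        zero_mem' := by
          show x0 + 0 ∈ B
          rw [add_zero]; exact hx0B
        add_mem' := by
          intro a b ha hb
          have ha' : x0 + a ∈ B := ha
          have hb' : x0 + b ∈ B := hb
          show x0 + (a + b) ∈ B
          by_cases hab : x0 + a = x0 + b
          · have hab' : a = b := add_left_cancel hab
            have h1 := hdiff _ ha' _ hx0B
            have h3 : a + a = 0 := by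
              have h4 : x0 + a + (x0 + a) = (x0 + x0) + (a + a) := by abel
              rw [h4] at h1
              simpa using h1
            rw [← hab', h3, add_zero]
            exact hx0B
          · have h1 := (hcl _ hb' _ hx0B _ ha' hab).1
            have h3 : x0 + a + (x0 + b - x0) = x0 + (a + b) := by abel
            rwa [h3] at h1
        neg_mem' := by
          intro a ha
          have ha' : x0 + a ∈ B := ha
          have h1 := hdiff _ ha' _ hx0B
          have h3 : a + a = 0 := by
            have h4 : x0 + a + (x0 + a) = (x0 + x0) + (a + a) := by abel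
            rw [h4] at h1
            simpa using h1
          have h5 : -a = a := neg_eq_of_add_eq_zero_left h3
          show x0 + -a ∈ B
          rw [h5]
          exact ha' }
    have hE : ∀ e, e ∈ E ↔ x0 + e ∈ B := fun e => Iff.rfl
    have hE2 : ∀ e ∈ E, e + e = 0 := by
      intro e he
      have h1 := hdiff _ ((hE e).1 he) _ hx0B
      have h4 : x0 + e + (x0 + e) = (x0 + x0) + (e + e) := by abel
      rw [h4] at h1
      simpa using h1
    have hEneg : ∀ e ∈ E, -e = e := fun e he => neg_eq_of_add_eq_zero_left (hE2 e he)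
    have hEH : ∀ e ∈ E, e ∈ H := by
      intro e he
      have h1 := ((hB _).1 ((hE e).1 he)).2
      by_contra hc
      have h3 := hout' _ _ h1 hc
      have h4 : x0 + e + e = x0 := by rw [add_assoc, hE2 e he, add_zero]
      rw [h4] at h3
      exact hx0H h3
    have hET : E ≤ evenT G := fun e he => hE2 e he
    -- choose elements of E avoiding two values
    have hEcard : 3 ≤ (Finset.univ.filter (fun e : G => e ∈ E)).card := by
      have h1 : B ⊆ (Finset.univ.filter (fun e : G => e ∈ E)).image (fun e => x0 + e) := by
        intro b hb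
        rw [Finset.mem_image]
        refine ⟨b - x0, ?_, by abel⟩
        rw [Finset.mem_filter]
        refine ⟨Finset.mem_univ _, ?_⟩
        rw [hE]
        have : x0 + (b - x0) = b := by abel
        rwa [this]
      exact hB3.trans ((Finset.card_le_card h1).trans Finset.card_image_le)
    have hpick : ∀ p q : G, ∃ e ∈ E, e ≠ p ∧ e ≠ q := by
      intro p q
      by_contra hc
      push Not at hc
      have h1 : (Finset.univ.filter (fun e : G => e ∈ E)) ⊆ {p, q} := by
        intro e he
        rw [Finset.mem_filter] at he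
        rw [Finset.mem_insert, Finset.mem_singleton]
        by_cases hp : e = p
        · exact Or.inl hp
        · exact Or.inr (hc e he.2 hp)
      have h3 := (Finset.card_le_card h1).trans Finset.card_le_two
      omega
    -- elements of H outside c + E are in A
    set c : G := -(x0 + x0) with hc
    have hcH : c ∈ H := H.neg_mem (hH x0)
    have hA1 : ∀ h ∈ H, h - c ∉ E → h ∈ A := by
      intro h hh hhc
      by_contra hhA
      apply hhc
      have h1 := (hHA h hh hhA).1
      have h3 : -x0 - h = x0 + (-(h - c)) := by rw [hc]; abel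
      rw [h3, ← hE] at h1
      simpa using E.neg_mem h1
    have hclaim : ∀ u ∈ H, ∀ v ∈ H, u - c ∉ E → v - c ∉ E → -u - v - c ∈ E := by
      intro u hu v hv huc hvc
      by_contra hw
      set w := -u - v with hwdef
      have hwH : w ∈ H := by
        rw [hwdef]
        exact H.sub_mem (H.neg_mem hu) hv
      obtain ⟨e1, he1, hne1, -⟩ := hpick (v - w) (v - w)
      obtain ⟨e2, he2, hne2, hne3⟩ := hpick (u - w) (v - u - e1)
      have hAu : u + e1 ∈ A := hA1 _ (H.add_mem hu (hEH _ he1)) (by
        intro h
        apply huc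
        have := E.sub_mem h he1
        have h3 : u + e1 - c - e1 = u - c := by abel
        rwa [h3] at this)
      have hAv : v + e2 ∈ A := hA1 _ (H.add_mem hv (hEH _ he2)) (by
        intro h
        apply hvc
        have := E.sub_mem h he2
        have h3 : v + e2 - c - e2 = v - c := by abel
        rwa [h3] at this)
      have hAw : w + (e1 + e2) ∈ A := hA1 _ (H.add_mem hwH (hEH _ (E.add_mem he1 he2))) (by
        intro h
        apply hw
        have := E.sub_mem h (E.add_mem he1 he2)
        have h3 : w + (e1 + e2) - c - (e1 + e2) = w - c := by abel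
        rwa [h3] at this)
      have h11 := hE2 e1 he1
      have h22 := hE2 e2 he2
      refine hA _ hAu _ hAv _ hAw ?_ ?_ ?_ ?_
      · intro h
        apply hne3
        have h3 : u = v + e2 - e1 := by rw [← h]; abel
        rw [h3]
        have h4 : v - (v + e2 - e1) - e1 = -e2 := by abel
        rw [h4, hEneg e2 he2]
      · intro h
        apply hne2
        have h3 : u = w + e2 := by
          have : u + e1 = (w + e2) + e1 := by rw [h]; abel
          exact add_right_cancel this
        rw [h3]; abel
      · intro h
        apply hne1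
        have h3 : v = w + e1 := by
          have : v + e2 = (w + e1) + e2 := by rw [h]; abel
          exact add_right_cancel this
        rw [h3]; abel
      · calc u + e1 + (v + e2) + (w + (e1 + e2)) = (u + v + w) + ((e1 + e1) + (e2 + e2)) := by abel
          _ = 0 := by rw [h11, h22, hwdef]; abel
    -- T is large
    by_cases hHE : ∀ h ∈ H, h ∈ E
    · apply even_exc_of_T
      rw [← hcardH]
      apply Nat.mul_le_mul_left
      have hle : H ≤ evenT G := fun h hh => hET (hHE h hh)
      exact Nat.card_mono (Set.toFinite _) hle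
    · -- some element outside c + E
      have hexu : ∃ u ∈ H, u - c ∉ E := by
        by_contra hcc
        push Not at hcc
        apply hHE
        intro h hh
        have h1 := hcc h hh
        have h3 := hcc 0 H.zero_mem
        have := E.sub_mem h1 h3
        have h4 : h - c - (0 - c) = h := by abel
        rwa [h4] at this
      obtain ⟨u, hu, huc⟩ := hexu
      have huu := hclaim u hu u hu huc huc
      have hcover : ∀ v ∈ H, v - c ∈ E ∨ v - u ∈ E := by
        intro v hv
        by_cases hvc : v - c ∈ E
        · exact Or.inl hvc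
        · right
          have h1 := hclaim u hu v hv huc hvc
          have h3 := E.sub_mem huu h1
          have h4 : -u - u - c - (-u - v - c) = v - u := by abel
          rwa [h4] at h3
      have huE : u ∉ E := by
        intro huE
        have h1 : c ∈ E := by
          have h3 := E.add_mem (E.add_mem (E.neg_mem huu) (E.neg_mem huE)) (E.neg_mem huE)
          have h4 : -(-u - u - c) + -u + -u = c := by abel
          rwa [h4] at h3
        exact huc (E.sub_mem huE h1)
      have hcE : c ∈ E := by
        rcases hcover 0 H.zero_mem with h | h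
        · have := E.neg_mem h
          simpa using this
        · exact absurd (by simpa using E.neg_mem h) huE
      have huA : u ∈ A := hA1 u hu huc
      have hcu : -c - u ∉ E := by
        intro h
        apply huE
        have := E.neg_mem (E.add_mem h hcE)
        have h3 : -(-c - u + c) = u := by abel
        rwa [h3] at this
      have hcuA : -c - u ∈ A := hA1 _ (H.sub_mem (H.neg_mem hcH) hu) (by
        intro h
        apply hcu
        have := E.add_mem h hcE
        have h3 : -c - u - c + c = -c - u := by abel
        rwa [h3] at this)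
      have hueq : u = -c - u := by
        by_contra hne
        refine hA c hin u huA (-c - u) hcuA ?_ ?_ hne (by abel)
        · intro h; exact huE (h ▸ hcE)
        · intro h; exact hcu (h ▸ hcE)
      have hT1 : x0 - u ∈ evenT G := by
        rw [even_mem_T]
        have h1 : u + u = -c := by
          calc u + u = u + (-c - u) := by rw [← hueq]
            _ = -c := by abel
        calc x0 - u + (x0 - u) = (x0 + x0) - (u + u) := by abel
          _ = 0 := by rw [h1, hc]; abel
      have hT1H : x0 - u ∉ H := by
        intro h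
        apply hx0H
        have := H.add_mem h hu
        have h3 : x0 - u + u = x0 := by abel
        rwa [h3] at this
      -- count
      apply even_exc_of_T
      rw [← hcardH]
      apply Nat.mul_le_mul_left
      -- H embeds into T
      let f : H → evenT G := fun v =>
        if hv : (v : G) - c ∈ E then ⟨(v : G) - c, hET hv⟩
        else ⟨(v : G) - u + (x0 - u), (evenT G).add_mem
          (hET ((hcover v v.2).resolve_left hv)) hT1⟩
      apply Nat.card_le_card_of_injective f
      intro v w hvw
      have hval : (f v : G) = f w := congrArg Subtype.val hvw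
      by_cases hv : (v : G) - c ∈ E
      · by_cases hw : (w : G) - c ∈ E
        · simp only [f, dif_pos hv, dif_pos hw] at hval
          exact Subtype.ext (sub_left_injective hval)
        · exfalso
          simp only [f, dif_pos hv, dif_neg hw] at hval
          apply hT1H
          have h3 : x0 - u = ((v : G) - c) - ((w : G) - u) := by rw [hval]; abel
          rw [h3]
          exact H.sub_mem (H.sub_mem v.2 hcH) (H.sub_mem w.2 hu)
      · by_cases hw : (w : G) - c ∈ E
        · exfalso
          simp only [f, dif_neg hv, dif_pos hw] at hval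
          apply hT1H
          have h3 : x0 - u = ((w : G) - c) - ((v : G) - u) := by rw [← hval]; abel
          rw [h3]
          exact H.sub_mem (H.sub_mem w.2 hcH) (H.sub_mem v.2 hu)
        · simp only [f, dif_neg hv, dif_neg hw] at hval
          exact Subtype.ext (sub_left_injective (add_right_cancel hval))
  · -- few elements outside H
    apply even_small h2
    have hs : ∃ s : G, ∀ h ∈ H, h ≠ s → h ∈ A := by
      have h1 : (B.erase x0).card ≤ 1 := by
        rw [Finset.card_erase_of_mem hx0B]; omega
      rw [Finset.card_le_one] at h1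
      by_cases hex : ∃ h ∈ H, h ∉ A
      · obtain ⟨s, hs, hsA⟩ := hex
        refine ⟨s, fun h hh hne => ?_⟩
        by_contra hhA
        apply hne
        have h3 := hHA h hh hhA
        have h4 := hHA s hs hsA
        have h5 := h1 _ (Finset.mem_erase.2 ⟨h3.2, h3.1⟩) _ (Finset.mem_erase.2 ⟨h4.2, h4.1⟩)
        exact sub_right_injective h5
      · push Not at hex
        exact ⟨0, fun h hh _ => hex h hh⟩
    obtain ⟨s, hs⟩ := hs
    by_contra hcard
    have h6 : 6 ≤ Nat.card H := by omega
    -- pick the forbidden element inside H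
    by_cases hsH : s ∈ H
    · obtain ⟨x, y, z, hxs, hys, hzs, hxy, hxz, hyz, hsum⟩ := even_avoid H h6 ⟨s, hsH⟩
      have hne : ∀ w : H, w ≠ ⟨s, hsH⟩ → (w : G) ≠ s := fun w hw h => hw (Subtype.ext h)
      refine hA x (hs x x.2 (hne x hxs)) y (hs y y.2 (hne y hys)) z (hs z z.2 (hne z hzs))
        (fun h => hxy (Subtype.ext h)) (fun h => hxz (Subtype.ext h))
        (fun h => hyz (Subtype.ext h)) ?_
      have := congrArg Subtype.val hsum
      simpa using this
    · obtain ⟨x, y, z, hxs, hys, hzs, hxy, hxz, hyz, hsum⟩ := even_avoid H h6 0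
      have hne : ∀ w : H, (w : G) ≠ s := fun w h => hsH (h ▸ w.2)
      refine hA x (hs x x.2 (hne x)) y (hs y y.2 (hne y)) z (hs z z.2 (hne z))
        (fun h => hxy (Subtype.ext h)) (fun h => hxz (Subtype.ext h))
        (fun h => hyz (Subtype.ext h)) ?_
      have := congrArg Subtype.val hsum
      simpa using this

/-- the complement of a subgroup of index 2, with a point added -/
theorem even_compl {G : Type u} [AddCommGroup G] [Finite G] (H : AddSubgroup G)
    (hidx : H.index = 2) (hout : ∀ x y : G, x ∉ H → y ∉ H → x + y ∈ H) :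
    ∃ A : Finset G, (∀ x, x ∈ A ↔ x ∉ H) ∧ 2 * A.card = Nat.card G := by
  classical
  have := Fintype.ofFinite G
  refine ⟨Finset.univ.filter (fun x => x ∉ H), fun x => by simp, ?_⟩
  have h1 : (Finset.univ.filter (fun x : G => x ∈ H)).card +
      (Finset.univ.filter (fun x : G => x ∉ H)).card = Fintype.card G := by
    rw [Finset.card_filter_add_card_filter_not, Finset.card_univ]
  have h3 : Nat.card H = (Finset.univ.filter (fun x : G => x ∈ H)).card := by
    rw [Nat.card_eq_fintype_card, Fintype.card_subtype]
  have h4 := H.card_mul_index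
  rw [hidx] at h4
  rw [Nat.card_eq_fintype_card (α := G)] at h4 ⊢
  omega

theorem even_low (G : Type u) [AddCommGroup G] [Finite G] (h2 : 2 ∣ Nat.card G) :
    ∃ A : Finset G, Adm A ∧ 2 * A.card = Nat.card G := by
  obtain ⟨x0, hx0⟩ := even_exists_nd G h2
  obtain ⟨H, hx0H, hH, hout, hidx⟩ := even_H hx0
  have hout' : ∀ x y : G, x ∉ H → y ∉ H → x + y ∈ H := by
    intro x y hx hy
    have h1 := H.neg_mem (hout x hx)
    have h3 := hout y hy
    have h4 := H.add_mem (H.add_mem h1 (H.neg_mem h3)) (hH x0)
    have h5 : -(x0 - x) + -(x0 - y) + (x0 + x0) = x + y := by abel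
    rwa [h5] at h4
  obtain ⟨A, hA, hcard⟩ := even_compl H hidx hout'
  refine ⟨A, ?_, hcard⟩
  intro x hx y hy z hz _ _ _ hsum
  rw [hA] at hx hy hz
  have h1 := hout' x y hx hy
  apply hz
  have : z = -(x + y) := by
    rw [eq_neg_iff_add_eq_zero, ← hsum]; abel
  rw [this]
  exact H.neg_mem h1

/-- lower bound from an elementary abelian subgroup of index 2 -/
theorem even_low_elem {G : Type u} [AddCommGroup G] [Finite G] (E : AddSubgroup G)
    (hidx : E.index = 2) (hE : ∀ x ∈ E, x + x = 0) :
    ∃ A : Finset G, Adm A ∧ 2 * A.card = Nat.card G + 2 := by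
  classical
  obtain ⟨a, ha⟩ := AddSubgroup.index_eq_two_iff.1 hidx
  have haE : a ∉ E := by
    have h1 := ha 0
    rw [zero_add] at h1
    rcases h1 with h | h
    · exact absurd E.zero_mem h.2
    · exact h.2
  have hx : ∀ x, x ∉ E → x - a ∈ E := by
    intro x hx
    have h1 := ha (x - a)
    rw [sub_add_cancel] at h1
    rcases h1 with h | h
    · exact absurd h.1 hx
    · exact h.1
  have hout : ∀ x y : G, x ∉ E → y ∉ E → x + y ∈ E := by
    intro x y hxE hyE
    have h1 := ha x
    rcases h1 with h | h
    · have h3 := E.add_mem h.1 (hx y hyE)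
      have h4 : x + a + (y - a) = x + y := by abel
      rwa [h4] at h3
    · exact absurd h.1 hxE
  obtain ⟨A, hA, hcard⟩ := even_compl E hidx hout
  have hdE : a + a ∈ E := hout a a haE haE
  have hdA : a + a ∉ A := fun h => (hA _).1 h hdE
  have hdd : ∀ x, x ∉ E → x + x = a + a := by
    intro x hxE
    have h1 := hE _ (hx x hxE)
    have h3 : x - a + (x - a) = (x + x) - (a + a) := by abel
    rw [h3] at h1
    exact sub_eq_zero.1 h1
  have hd2 : a + a + (a + a) = 0 := hE _ hdE
  have key : ∀ x y : G, x ∉ E → x + y + (a + a) = 0 → x = y := by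
    intro x y hxE h
    have h1 : y = -(a + a) - x := by
      have : y = (x + y + (a + a)) - (a + a) - x := by abel
      rw [this, h]; abel
    have h3 : -(a + a) = a + a := neg_eq_of_add_eq_zero_left hd2
    rw [h1, h3, ← hdd x hxE]
    abel
  refine ⟨insert (a + a) A, ?_, ?_⟩
  · intro x hx y hy z hz hxy hxz hyz hsum
    rw [Finset.mem_insert, hA] at hx hy hz
    rcases hx with rfl | hx
    · rcases hy with rfl | hy
      · exact hxy rfl
      · apply hyz
        apply key y z hy
        rw [← hsum]; abel
    · rcases hy with rfl | hy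
      · apply hxz
        apply key x z hx
        rw [← hsum]; abel
      · rcases hz with rfl | hz
        · exact hxy (key x y hx hsum)
        · have h1 := hout x y hx hy
          apply hz
          have : z = -(x + y) := by
            rw [eq_neg_iff_add_eq_zero, ← hsum]; abel
          rw [this]
          exact E.neg_mem h1
  · rw [Finset.card_insert_of_notMem hdA]
    omega

theorem even_transfer {n : ℕ} {G : Type u} [AddCommGroup G] (e : ZMod n ≃+ G)
    {A : Finset (ZMod n)} (hA : Adm A) : ∃ B : Finset G, Adm B ∧ B.card = A.card := by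
  classical
  refine ⟨A.map e.toEquiv.toEmbedding, ?_, Finset.card_map _⟩
  intro x hx y hy z hz hxy hxz hyz hsum
  rw [Finset.mem_map] at hx hy hz
  obtain ⟨x', hx', rfl⟩ := hx
  obtain ⟨y', hy', rfl⟩ := hy
  obtain ⟨z', hz', rfl⟩ := hz
  refine hA x' hx' y' hy' z' hz' (fun h => hxy (by rw [h])) (fun h => hxz (by rw [h]))
    (fun h => hyz (by rw [h])) ?_
  apply e.injective
  rw [map_zero, map_add, map_add]
  exact hsum

theorem even_low' (G : Type u) [AddCommGroup G] [Finite G] (h2 : 2 ∣ Nat.card G) (hG : Exc G) :
    ∃ A : Finset G, Adm A ∧ 2 * A.card = Nat.card G + 2 := by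
  classical
  rcases hG with ⟨E, hE2, hE0, hE⟩ | ⟨hcyc, hcard⟩
  · have : E.index = 1 ∨ E.index = 2 := by omega
    rcases this with h | h
    · have htop : E = ⊤ := AddSubgroup.index_eq_one.1 h
      have hall : ∀ x : G, x + x = 0 := fun x => hE x (by rw [htop]; trivial)
      obtain ⟨x0, hx0⟩ := even_exists_nd G h2
      obtain ⟨H, -, -, -, hidx⟩ := even_H hx0
      exact even_low_elem H hidx (fun x _ => hall x)
    · exact even_low_elem E h hE
  · have e := zmodAddCyclicAddEquiv hcyc
    rcases hcard with h | h | h
    · rw [h] at e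
      obtain ⟨B, hB, hBc⟩ := even_transfer e (A := ({1, 2, 4, 5} : Finset (ZMod 6))) (by
        unfold Adm; decide)
      refine ⟨B, hB, ?_⟩
      rw [hBc, h]
      decide
    · rw [h] at e
      obtain ⟨B, hB, hBc⟩ := even_transfer e (A := ({1, 2, 4, 6, 7} : Finset (ZMod 8))) (by
        unfold Adm; decide)
      refine ⟨B, hB, ?_⟩
      rw [hBc, h]
      decide
    · rw [h] at e
      obtain ⟨B, hB, hBc⟩ := even_transfer e (A := ({1, 2, 4, 6, 8, 9} : Finset (ZMod 10))) (by
        unfold Adm; decide)
      refine ⟨B, hB, ?_⟩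
      rw [hBc, h]
      decide

end Pool.Agent.DG
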