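import Pool.Agent.DG.Poly

set_option autoImplicit false

/-! # Fibres of an admissible set over a quotient -/

namespace Pool.Agent.DG
open Finset

variable {G : Type*} [AddCommGroup G]

theorem fiber_set {q : ℕ} [NeZero q] (K : AddSubgroup G) (e : ZMod q ≃+ K) (A : Finset G) (g : G) :
    ∃ B : Finset (ZMod q), B.card = fk K A (QuotientAddGroup.mk g) ∧
      ∀ x ∈ B, g + (e x : G) ∈ A := by
  classical
  refine ⟨Finset.univ.filter (fun x => g + (e x : G) ∈ A), ?_, fun x hx => (mem_filter.1 hx).2⟩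
  unfold fk
  rw [← Set.ncard_coe_finset]
  apply Set.ncard_congr (fun x _ => g + (e x : G))
  · intro x hx
    rw [Finset.mem_coe, mem_filter] at hx
    refine ⟨hx.2, ?_⟩
    rw [QuotientAddGroup.mk_add, (QuotientAddGroup.eq_zero_iff (e x : G)).2 (e x).2, add_zero]
  · intro x y _ _ hxy
    have := add_left_cancel hxy
    exact e.injective (Subtype.ext this)
  · rintro a ⟨haA, ha⟩
    have hmem : -g + a ∈ K := QuotientAddGroup.eq.1 ha.symm
    refine ⟨e.symm ⟨-g + a, hmem⟩, ?_, ?_⟩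
    · rw [Finset.mem_coe, mem_filter]
      refine ⟨mem_univ _, ?_⟩
      rw [AddEquiv.apply_symm_apply, add_neg_cancel_left]
      exact haA
    · rw [AddEquiv.apply_symm_apply, add_neg_cancel_left]

theorem fib_fk {q : ℕ} (hq : q.Prime) (K : AddSubgroup G) (hK : Nat.card K = q)
    (A : Finset G) (hA : Adm A) : Fib q (fk K A) := by
  classical
  have : Fact q.Prime := ⟨hq⟩
  have : NeZero q := ⟨hq.ne_zero⟩
  have hcyc : IsAddCyclic K := isAddCyclic_of_prime_card (p := q) hK
  obtain ⟨e⟩ : Nonempty (ZMod q ≃+ K) :=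
    ⟨(ZMod.ringEquivCongr hK.symm).toAddEquiv.trans (zmodAddCyclicAddEquiv hcyc)⟩
  -- the key computation
  have key : ∀ g1 g2 g3 : G, (QuotientAddGroup.mk g1 + QuotientAddGroup.mk g2 +
      QuotientAddGroup.mk g3 : G ⧸ K) = 0 → ∃ c : ZMod q, ∀ x y z : ZMod q,
      x + y + z = c → (g1 + (e x : G)) + (g2 + (e y : G)) + (g3 + (e z : G)) = 0 := by
    intro g1 g2 g3 hs
    rw [← QuotientAddGroup.mk_add, ← QuotientAddGroup.mk_add, QuotientAddGroup.eq_zero_iff] at hs
    refine ⟨-(e.symm ⟨g1 + g2 + g3, hs⟩), ?_⟩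
    intro x y z hxyz
    have h1 : e (x + y + z) = -⟨g1 + g2 + g3, hs⟩ := by
      rw [hxyz, map_neg, AddEquiv.apply_symm_apply]
    have h2 : (e x : G) + (e y : G) + (e z : G) = -(g1 + g2 + g3) := by
      have := congrArg (fun t : K => (t : G)) h1
      simpa using this
    calc (g1 + (e x : G)) + (g2 + (e y : G)) + (g3 + (e z : G))
        = (g1 + g2 + g3) + ((e x : G) + (e y : G) + (e z : G)) := by abel
      _ = 0 := by rw [h2, add_neg_cancel]
  have hcls : ∀ (g : G) (x : ZMod q),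
      (QuotientAddGroup.mk (g + (e x : G)) : G ⧸ K) = QuotientAddGroup.mk g := by
    intro g x
    rw [QuotientAddGroup.mk_add, (QuotientAddGroup.eq_zero_iff (e x : G)).2 (e x).2, add_zero]
  have hpos : ∀ B : Finset (ZMod q), 0 < B.card → B.Nonempty := fun B h => card_pos.1 h
  refine ⟨?_, ?_, ?_, ?_⟩
  · intro i
    obtain ⟨g, rfl⟩ := QuotientAddGroup.mk_surjective i
    obtain ⟨B, hB, _⟩ := fiber_set K e A g
    rw [← hB]
    simpa [ZMod.card] using Finset.card_le_univ B
  · intro i j l hs hij hil hjl hi hj hl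
    obtain ⟨g1, rfl⟩ := QuotientAddGroup.mk_surjective i
    obtain ⟨g2, rfl⟩ := QuotientAddGroup.mk_surjective j
    obtain ⟨g3, rfl⟩ := QuotientAddGroup.mk_surjective l
    obtain ⟨c, hc⟩ := key g1 g2 g3 hs
    obtain ⟨B1, h1, m1⟩ := fiber_set K e A g1
    obtain ⟨B2, h2, m2⟩ := fiber_set K e A g2
    obtain ⟨B3, h3, m3⟩ := fiber_set K e A g3
    rw [← h1] at hi ⊢
    rw [← h2] at hj ⊢
    rw [← h3] at hl ⊢
    apply cd3 c B1 B2 B3 (hpos _ hi) (hpos _ hj) (hpos _ hl)
    intro x hx y hy z hz hxyz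
    refine hA _ (m1 x hx) _ (m2 y hy) _ (m3 z hz) ?_ ?_ ?_ (hc x y z hxyz)
    · intro hh
      apply hij
      rw [← hcls g1 x, ← hcls g2 y, hh]
    · intro hh
      apply hil
      rw [← hcls g1 x, ← hcls g3 z, hh]
    · intro hh
      apply hjl
      rw [← hcls g2 y, ← hcls g3 z, hh]
  · intro i l hs hil hi hl
    obtain ⟨g1, rfl⟩ := QuotientAddGroup.mk_surjective i
    obtain ⟨g3, rfl⟩ := QuotientAddGroup.mk_surjective l
    obtain ⟨c, hc⟩ := key g1 g1 g3 hs
    obtain ⟨B1, h1, m1⟩ := fiber_set K e A g1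
    obtain ⟨B3, h3, m3⟩ := fiber_set K e A g3
    rw [← h1] at hi ⊢
    rw [← h3] at hl ⊢
    apply eh3 c B1 B3 hi (hpos _ hl)
    intro x hx y hy z hz hxy hxyz
    refine hA _ (m1 x hx) _ (m1 y hy) _ (m3 z hz) ?_ ?_ ?_ (hc x y z hxyz)
    · intro hh
      exact hxy (e.injective (Subtype.ext (add_left_cancel hh)))
    · intro hh
      apply hil
      rw [← hcls g1 x, ← hcls g3 z, hh]
    · intro hh
      apply hil
      rw [← hcls g1 y, ← hcls g3 z, hh]
  · intro i hs
    obtain ⟨g1, rfl⟩ := QuotientAddGroup.mk_surjective i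
    obtain ⟨c, hc⟩ := key g1 g1 g1 hs
    obtain ⟨B1, h1, m1⟩ := fiber_set K e A g1
    rw [← h1]
    apply dh3 c B1
    intro x hx y hy z hz hxy hxz hyz hxyz
    refine hA _ (m1 x hx) _ (m1 y hy) _ (m1 z hz) ?_ ?_ ?_ (hc x y z hxyz)
    · intro hh
      exact hxy (e.injective (Subtype.ext (add_left_cancel hh)))
    · intro hh
      exact hxz (e.injective (Subtype.ext (add_left_cancel hh)))
    · intro hh
      exact hyz (e.injective (Subtype.ext (add_left_cancel hh)))

theorem fk_eq_card [DecidableEq G] (K : AddSubgroup G) [DecidableEq (G ⧸ K)] (A : Finset G)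
    (i : G ⧸ K) : fk K A i = (A.filter (fun a => (QuotientAddGroup.mk a : G ⧸ K) = i)).card := by
  unfold fk
  rw [← Set.ncard_coe_finset]
  congr 1
  ext a
  simp

theorem sum_fk (K : AddSubgroup G) [Fintype (G ⧸ K)] (A : Finset G) :
    ∑ i, fk K A i = A.card := by
  classical
  rw [Finset.card_eq_sum_card_fiberwise (s := A) (t := Finset.univ)
    (f := fun a => (QuotientAddGroup.mk a : G ⧸ K)) (fun _ _ => Finset.mem_coe.2 (mem_univ _))]
  apply Finset.sum_congr rfl
  intro i _
  rw [fk_eq_card]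

theorem sumE_fk (K : AddSubgroup G) [Fintype (G ⧸ K)] (A : Finset G) (hA : Adm A)
    (E : AddSubgroup (G ⧸ K)) :
    ∃ A' : Finset (E.comap (QuotientAddGroup.mk' K)), Adm A' ∧ A'.card = sumE (fk K A) E := by
  classical
  set E' := E.comap (QuotientAddGroup.mk' K) with hE'
  have hmem : ∀ g : G, g ∈ E' ↔ (QuotientAddGroup.mk g : G ⧸ K) ∈ E := by
    intro g
    rw [hE', AddSubgroup.mem_comap]
    rfl
  refine ⟨A.subtype (fun g => g ∈ E'), ?_, ?_⟩
  · intro x hx y hy z hz hxy hxz hyz hs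
    rw [Finset.mem_subtype] at hx hy hz
    refine hA _ hx _ hy _ hz (fun h => hxy (Subtype.ext h)) (fun h => hxz (Subtype.ext h))
      (fun h => hyz (Subtype.ext h)) ?_
    have := congrArg (fun t : E' => (t : G)) hs
    simpa using this
  · rw [Finset.card_subtype]
    unfold sumE
    have h1 : (A.filter (fun g => g ∈ E')).card = ∑ i ∈ univ.filter (fun i => i ∈ E),
        ((A.filter (fun g => g ∈ E')).filter
          (fun a => (QuotientAddGroup.mk a : G ⧸ K) = i)).card := by
      apply Finset.card_eq_sum_card_fiberwise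
      intro a ha
      rw [Finset.mem_coe, mem_filter] at ha
      rw [Finset.mem_coe, mem_filter]
      exact ⟨mem_univ _, (hmem a).1 ha.2⟩
    rw [h1]
    apply Finset.sum_congr rfl
    intro i hi
    rw [mem_filter] at hi
    rw [fk_eq_card]
    congr 1
    ext a
    rw [mem_filter, mem_filter, mem_filter]
    constructor
    · rintro ⟨⟨h1, _⟩, h3⟩
      exact ⟨h1, h3⟩
    · rintro ⟨h1, h3⟩
      refine ⟨⟨h1, ?_⟩, h3⟩
      rw [hmem, h3]
      exact hi.2

theorem card_comap (K : AddSubgroup G) (E : AddSubgroup (G ⧸ K)) :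
    Nat.card (E.comap (QuotientAddGroup.mk' K)) = Nat.card K * Nat.card E := by
  classical
  set E' := E.comap (QuotientAddGroup.mk' K) with hE'
  let f : E' →+ E := (QuotientAddGroup.mk' K).addSubgroupComap E
  have hf : Function.Surjective f := by
    rintro ⟨y, hy⟩
    obtain ⟨g, rfl⟩ := QuotientAddGroup.mk_surjective y
    exact ⟨⟨g, hy⟩, rfl⟩
  have h1 : Nat.card E' = Nat.card (E' ⧸ f.ker) * Nat.card f.ker :=
    AddSubgroup.card_eq_card_quotient_mul_card_addSubgroup _
  have h2 : Nat.card (E' ⧸ f.ker) = Nat.card E :=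
    Nat.card_congr (QuotientAddGroup.quotientKerEquivOfSurjective f hf).toEquiv
  have h3 : Nat.card f.ker = Nat.card K := by
    refine Nat.card_congr ⟨fun x => ⟨((x : E') : G), ?_⟩, fun k => ⟨⟨(k : G), ?_⟩, ?_⟩, ?_, ?_⟩
    · have hx := x.2
      rw [AddMonoidHom.mem_ker] at hx
      have := congrArg (fun t : E => (t : G ⧸ K)) hx
      exact (QuotientAddGroup.eq_zero_iff _).1 this
    · change (QuotientAddGroup.mk' K) (k : G) ∈ E
      have : (QuotientAddGroup.mk' K) (k : G) = 0 := (QuotientAddGroup.eq_zero_iff _).2 k.2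
      rw [this]
      exact E.zero_mem
    · rw [AddMonoidHom.mem_ker]
      apply Subtype.ext
      exact (QuotientAddGroup.eq_zero_iff _).2 k.2
    · intro x
      rfl
    · intro k
      rfl
  rw [h1, h2, h3, mul_comm]

end Pool.Agent.DG
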