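import Pool.Agent.DG.Defs
import Pool.Agent.Kneser.Basic

set_option autoImplicit false

/-! # Kneser's theorem for three sets without zero sum -/

namespace Pool.Agent.DG
open Finset

theorem mk_mem_cl {Q : Type*} [AddCommGroup Q] (F : AddSubgroup Q) {X : Finset Q} {x : Q}
    (hx : x ∈ X) : (QuotientAddGroup.mk x : Q ⧸ F) ∈ cl F X := mem_cl.2 ⟨x, hx, rfl⟩

open scoped Pointwise in
open Pool.Agent.Kneser in
theorem k3 {Q : Type*} [AddCommGroup Q] [Finite Q] (X Y Z : Finset Q) (hX : X.Nonempty)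
    (hY : Y.Nonempty) (_hZ : Z.Nonempty) (h : NZ X Y Z) :
    ∃ F : AddSubgroup Q, (∀ x ∈ X, ∀ y ∈ Y, ∀ z ∈ Z, x + y + z ∉ F) ∧
      (cl F X).card + (cl F Y).card + (cl F Z).card ≤ Nat.card (Q ⧸ F) + 1 := by
  classical
  have hfin : Finite (AddSubgroup Q) := inferInstance
  set good : Set (AddSubgroup Q) := {F | ∀ x ∈ X, ∀ y ∈ Y, ∀ z ∈ Z, x + y + z ∉ F} with hgood
  have hbot : (⊥ : AddSubgroup Q) ∈ good := by
    intro x hx y hy z hz hm
    exact h x hx y hy z hz (AddSubgroup.mem_bot.1 hm)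
  obtain ⟨F, hF, hmax⟩ := Set.exists_max_image good (fun F => Nat.card F) (Set.toFinite _)
    ⟨⊥, hbot⟩
  refine ⟨F, hF, ?_⟩
  have : Fintype (Q ⧸ F) := Fintype.ofFinite _
  set S : Finset (Q ⧸ F) := cl F X + cl F Y with hS
  -- the preimage of the stabiliser
  have hsub := isSub_stab S
  let E : AddSubgroup Q :=
    { carrier := {g | (QuotientAddGroup.mk g : Q ⧸ F) ∈ stab S}
      zero_mem' := by
        change (QuotientAddGroup.mk (0 : Q) : Q ⧸ F) ∈ stab S
        rw [QuotientAddGroup.mk_zero]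
        exact hsub.zero
      add_mem' := by
        intro a b ha hb
        change (QuotientAddGroup.mk (a + b) : Q ⧸ F) ∈ stab S
        rw [QuotientAddGroup.mk_add]
        exact hsub.add ha hb
      neg_mem' := by
        intro a ha
        change (QuotientAddGroup.mk (-a) : Q ⧸ F) ∈ stab S
        rw [QuotientAddGroup.mk_neg]
        exact hsub.neg ha }
  have hFE : F ≤ E := by
    intro g hg
    change (QuotientAddGroup.mk g : Q ⧸ F) ∈ stab S
    rw [(QuotientAddGroup.eq_zero_iff g).2 hg]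
    exact hsub.zero
  have hE : E ∈ good := by
    intro x hx y hy z hz hm
    change (QuotientAddGroup.mk (x + y + z) : Q ⧸ F) ∈ stab S at hm
    have h1 := hsub.neg hm
    rw [mem_stab] at h1
    have h2 : (QuotientAddGroup.mk x + QuotientAddGroup.mk y : Q ⧸ F) ∈ S :=
      Finset.add_mem_add (mk_mem_cl F hx) (mk_mem_cl F hy)
    have h3 := (h1 _).2 h2
    rw [hS, Finset.mem_add] at h3
    obtain ⟨u, hu, v, hv, huv⟩ := h3
    obtain ⟨x', hx', rfl⟩ := mem_cl.1 hu
    obtain ⟨y', hy', rfl⟩ := mem_cl.1 hv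
    apply hF x' hx' y' hy' z hz
    rw [← QuotientAddGroup.eq_zero_iff, QuotientAddGroup.mk_add, QuotientAddGroup.mk_add, huv,
      QuotientAddGroup.mk_add, QuotientAddGroup.mk_add]
    abel
  have hEF : E ≤ F := by
    have hle := hmax E hE
    have : (E : Set Q) = (F : Set Q) := by
      symm
      apply Set.eq_of_subset_of_ncard_le hFE
      · exact hle
    intro g hg
    have hg' : g ∈ (E : Set Q) := hg
    rw [this] at hg'
    exact hg'
  have hstab : stab S = {0} := by
    ext g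
    rw [Finset.mem_singleton]
    constructor
    · intro hg
      obtain ⟨g', rfl⟩ := QuotientAddGroup.mk_surjective g
      exact (QuotientAddGroup.eq_zero_iff g').2 (hEF hg)
    · rintro rfl
      exact hsub.zero
  have hclX : (cl F X).Nonempty := by
    obtain ⟨x, hx⟩ := hX
    exact ⟨_, mk_mem_cl F hx⟩
  have hclY : (cl F Y).Nonempty := by
    obtain ⟨x, hx⟩ := hY
    exact ⟨_, mk_mem_cl F hx⟩
  have hk := kneser_weak hclX hclY
  rw [← hS, hstab, Finset.card_singleton] at hk
  have hdisj : Disjoint ((cl F Z).image (fun z => -z)) S := by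
    rw [Finset.disjoint_left]
    intro w hw hwS
    rw [Finset.mem_image] at hw
    obtain ⟨z', hz', rfl⟩ := hw
    obtain ⟨z, hz, rfl⟩ := mem_cl.1 hz'
    rw [hS, Finset.mem_add] at hwS
    obtain ⟨u, hu, v, hv, huv⟩ := hwS
    obtain ⟨x', hx', rfl⟩ := mem_cl.1 hu
    obtain ⟨y', hy', rfl⟩ := mem_cl.1 hv
    apply hF x' hx' y' hy' z hz
    rw [← QuotientAddGroup.eq_zero_iff, QuotientAddGroup.mk_add, QuotientAddGroup.mk_add, huv]
    abel
  have h4 := Finset.card_le_univ (((cl F Z).image (fun z => -z)) ∪ S)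
  rw [Finset.card_union_of_disjoint hdisj, Finset.card_image_of_injective _ neg_injective,
    ← Nat.card_eq_fintype_card] at h4
  omega

/-- Reformulation in the quotient. -/
theorem nz_cl {Q : Type*} [AddCommGroup Q] {F : AddSubgroup Q} {X Y Z : Finset Q}
    (h : ∀ x ∈ X, ∀ y ∈ Y, ∀ z ∈ Z, x + y + z ∉ F) : NZ (cl F X) (cl F Y) (cl F Z) := by
  intro u hu v hv w hw hsum
  obtain ⟨x, hx, rfl⟩ := mem_cl.1 hu
  obtain ⟨y, hy, rfl⟩ := mem_cl.1 hv
  obtain ⟨z, hz, rfl⟩ := mem_cl.1 hw
  apply h x hx y hy z hz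
  rw [← QuotientAddGroup.eq_zero_iff, QuotientAddGroup.mk_add, QuotientAddGroup.mk_add]
  exact hsum

theorem card_class_le {Q : Type*} [AddCommGroup Q] [Finite Q] (F : AddSubgroup Q) (T : Finset Q)
    (g : Q) (hT : ∀ a ∈ T, (QuotientAddGroup.mk a : Q ⧸ F) = QuotientAddGroup.mk g) :
    T.card ≤ Nat.card F := by
  classical
  have h1 : (T.image (fun a => -g + a)).card = T.card :=
    Finset.card_image_of_injective _ (add_right_injective _)
  rw [← h1, ← Set.ncard_coe_finset]
  change _ ≤ (F : Set Q).ncard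
  apply Set.ncard_le_ncard _ (Set.toFinite _)
  intro y hy
  rw [Finset.mem_coe, Finset.mem_image] at hy
  obtain ⟨a, ha, rfl⟩ := hy
  exact QuotientAddGroup.eq.1 (hT a ha).symm

theorem card_le_cl {Q : Type*} [AddCommGroup Q] [Finite Q] (F : AddSubgroup Q) (X : Finset Q) :
    X.card ≤ Nat.card F * (cl F X).card := by
  classical
  refine Finset.card_le_mul_card_image_of_maps_to (s := X) (t := cl F X)
    (f := fun x => (QuotientAddGroup.mk x : Q ⧸ F)) (fun x hx => mk_mem_cl F hx)
    (Nat.card F) ?_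
  intro c _
  obtain ⟨g, rfl⟩ := QuotientAddGroup.mk_surjective c
  apply card_class_le F _ g
  intro a ha
  exact (Finset.mem_filter.1 ha).2

theorem cl_card_le {Q : Type*} [AddCommGroup Q] (F : AddSubgroup Q) {X Y : Finset Q} (h : X ⊆ Y) :
    (cl F X).card ≤ (cl F Y).card := by
  apply Finset.card_le_card
  intro c hc
  obtain ⟨x, hx, rfl⟩ := mem_cl.1 hc
  exact mk_mem_cl F (h hx)

theorem card_quot {Q : Type*} [AddCommGroup Q] [Finite Q] (F : AddSubgroup Q) :
    Nat.card F * Nat.card (Q ⧸ F) = Nat.card Q := by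
  rw [mul_comm]
  exact (AddSubgroup.card_eq_card_quotient_mul_card_addSubgroup F).symm

end Pool.Agent.DG
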