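import Pool.Agent.DG.Defs

set_option autoImplicit false

namespace Pool.Agent.DG

section Part0

open Finset

section
variable {Q : Type*} [Fintype Q] {q : ℕ} {k : Q → ℕ}

theorem lev_sum (h : ∀ i, k i ≤ q) : ∑ i, k i = ∑ s ∈ Icc 1 q, ell k s := by
  have h1 : ∀ i : Q, k i = ∑ s ∈ Icc 1 q, (if s ≤ k i then 1 else 0) := by
    intro i
    rw [← Finset.card_filter]
    have : (Icc 1 q).filter (fun s => s ≤ k i) = Icc 1 (k i) := by
      ext s
      have := h i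
      simp only [mem_filter, mem_Icc]
      constructor
      · rintro ⟨⟨a, b⟩, c⟩; exact ⟨a, c⟩
      · rintro ⟨a, c⟩; exact ⟨⟨a, by omega⟩, c⟩
    rw [this]; simp
  calc ∑ i, k i = ∑ i, ∑ s ∈ Icc 1 q, (if s ≤ k i then 1 else 0) :=
        Finset.sum_congr rfl (fun i _ => h1 i)
    _ = ∑ s ∈ Icc 1 q, ∑ i, (if s ≤ k i then 1 else 0) := Finset.sum_comm
    _ = ∑ s ∈ Icc 1 q, ell k s := by
        refine Finset.sum_congr rfl (fun s _ => ?_)
        rw [← Finset.card_filter]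
        rfl

theorem lev_anti {s t : ℕ} (h : s ≤ t) : L k t ⊆ L k s := by
  intro i hi
  rw [mem_L] at hi ⊢
  exact le_trans h hi

theorem lev_card_anti {s t : ℕ} (h : s ≤ t) : ell k t ≤ ell k s :=
  Finset.card_le_card (lev_anti h)

theorem lev_card_le (s : ℕ) : ell k s ≤ Nat.card Q := by
  rw [Nat.card_eq_fintype_card]
  exact Finset.card_le_univ _

end

theorem sums_icc_ico (f : ℕ → ℕ) (a b : ℕ) : ∑ s ∈ Icc a b, f s = ∑ s ∈ Ico a (b + 1), f s := by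
  congr 1

/-- Folding the sum over the levels. -/
theorem fold_sum {q c : ℕ} (h : 2 * c ≤ q) (f : ℕ → ℕ) :
    ∑ s ∈ Icc 1 q, f s = ∑ b ∈ Icc 1 c, (f b + f (q + 1 - b)) + ∑ s ∈ Icc (c + 1) (q - c), f s := by
  induction c with
  | zero => simp
  | succ c ih =>
    rw [ih (by omega), sums_icc_ico _ 1 (c + 1), Finset.sum_Ico_succ_top (by omega),
      ← sums_icc_ico _ 1 c, sums_icc_ico _ (c + 1) (q - c), sums_icc_ico _ (c + 1 + 1) (q - (c + 1)),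
      Finset.sum_eq_sum_Ico_succ_bot (by omega)]
    have h2 : q - c + 1 = (q - (c + 1) + 1) + 1 := by omega
    rw [h2, Finset.sum_Ico_succ_top (by omega)]
    have h3 : q + 1 - (c + 1) = q - (c + 1) + 1 := by omega
    rw [h3]
    ring

theorem sums_pairs {M N a T : ℕ} (f g : ℕ → ℕ)
    (hp : ∀ b, a ≤ b → b ≤ T → 3 * (f b + g b) ≤ 2 * N) (hM : T + 1 - a = M) :
    3 * ∑ b ∈ Icc a T, (f b + g b) ≤ M * (2 * N) := by
  rw [Finset.mul_sum]
  calc ∑ b ∈ Icc a T, 3 * (f b + g b) ≤ ∑ b ∈ Icc a T, 2 * N := by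
        refine Finset.sum_le_sum (fun b hb => ?_)
        rw [mem_Icc] at hb
        exact hp b hb.1 hb.2
    _ = M * (2 * N) := by simp [hM]

theorem sums_mid {M B a T : ℕ} (f : ℕ → ℕ)
    (hp : ∀ b, a ≤ b → b ≤ T → 3 * f b ≤ B) (hM : T + 1 - a = M) :
    3 * ∑ b ∈ Icc a T, f b ≤ M * B := by
  rw [Finset.mul_sum]
  calc ∑ b ∈ Icc a T, 3 * f b ≤ ∑ b ∈ Icc a T, B := by
        refine Finset.sum_le_sum (fun b hb => ?_)
        rw [mem_Icc] at hb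
        exact hp b hb.1 hb.2
    _ = M * B := by simp [hM]

theorem sums_bot {a b : ℕ} (f : ℕ → ℕ) (h : a ≤ b) :
    ∑ s ∈ Icc a b, f s = f a + ∑ s ∈ Icc (a + 1) b, f s := by
  rw [sums_icc_ico, sums_icc_ico, Finset.sum_eq_sum_Ico_succ_bot (by omega)]

/-- `q = 3 M + 1`, all pairs good. -/
theorem sum1 {M N B : ℕ} (hM : 2 ≤ M) (f : ℕ → ℕ)
    (hp : ∀ b, 1 ≤ b → b ≤ M + 1 → 3 * (f (3 * M + 2 - b) + f b) ≤ 2 * N)
    (hB : ∀ s, M + 3 ≤ s → s ≤ 2 * M → 3 * f s ≤ B) :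
    3 * ∑ s ∈ Icc 1 (3 * M + 1), f s ≤ (M + 1) * (2 * N) + (M - 2) * B + 3 * f (M + 2) := by
  rw [fold_sum (c := M + 1) (by omega)]
  have e1 : 3 * M + 1 - (M + 1) = 2 * M := by omega
  rw [e1, sums_bot (a := M + 1 + 1) f (by omega)]
  have h1 := sums_pairs (M := M + 1) (N := N) (a := 1) (T := M + 1) f (fun b => f (3 * M + 1 + 1 - b))
    (fun b h1 h2 => by
      have := hp b h1 h2
      rw [add_comm (f b)]
      exact this) (by omega)
  have h2 := sums_mid (M := M - 2) (B := B) (a := M + 1 + 1 + 1) (T := 2 * M) f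
    (fun b h1 h2 => hB b (by omega) h2) (by omega)
  have e2 : M + 1 + 1 = M + 2 := rfl
  rw [e2] at h2 ⊢
  nlinarith [h1, h2]

/-- `q = 3 M + 1`, the pairs `b ≥ 3` good. -/
theorem sum1E {M N B : ℕ} (hM : 2 ≤ M) (f : ℕ → ℕ)
    (hp : ∀ b, 3 ≤ b → b ≤ M + 1 → 3 * (f (3 * M + 2 - b) + f b) ≤ 2 * N)
    (hB : ∀ s, M + 3 ≤ s → s ≤ 2 * M → 3 * f s ≤ B) :
    3 * ∑ s ∈ Icc 1 (3 * M + 1), f s ≤ 3 * (f 1 + f 2 + f (3 * M + 1)) + 3 * f (3 * M)
      + (M - 1) * (2 * N) + (M - 2) * B + 3 * f (M + 2) := by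
  rw [fold_sum (c := M + 1) (by omega)]
  have e1 : 3 * M + 1 - (M + 1) = 2 * M := by omega
  rw [e1, sums_bot (a := M + 1 + 1) f (by omega), sums_bot (a := 1) _ (by omega),
    sums_bot (a := 1 + 1) _ (by omega)]
  have h1 := sums_pairs (M := M - 1) (N := N) (a := 1 + 1 + 1) (T := M + 1) f
    (fun b => f (3 * M + 1 + 1 - b)) (fun b h1 h2 => by
      have := hp b h1 h2
      rw [add_comm (f b)]
      exact this) (by omega)
  have h2 := sums_mid (M := M - 2) (B := B) (a := M + 1 + 1 + 1) (T := 2 * M) f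
    (fun b h1 h2 => hB b (by omega) h2) (by omega)
  have e2 : M + 1 + 1 = M + 2 := rfl
  have e3 : 3 * M + 1 + 1 - 1 = 3 * M + 1 := by omega
  have e4 : 3 * M + 1 + 1 - (1 + 1) = 3 * M := by omega
  have e5 : 1 + 1 = 2 := rfl
  rw [e2] at h2 ⊢
  rw [e3, e4, e5]
  rw [e5] at h1
  nlinarith [h1, h2]

/-- `q = 3 M + 2`, all pairs good. -/
theorem sum2 {M N B : ℕ} (hM : 2 ≤ M) (f : ℕ → ℕ)
    (hp : ∀ b, 1 ≤ b → b ≤ M + 1 → 3 * (f (3 * M + 3 - b) + f b) ≤ 2 * N)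
    (hB : ∀ s, M + 4 ≤ s → s ≤ 2 * M + 1 → 3 * f s ≤ B) :
    3 * ∑ s ∈ Icc 1 (3 * M + 2), f s ≤ (M + 1) * (2 * N) + (M - 2) * B + 3 * f (M + 2)
      + 3 * f (M + 3) := by
  rw [fold_sum (c := M + 1) (by omega)]
  have e1 : 3 * M + 2 - (M + 1) = 2 * M + 1 := by omega
  rw [e1, sums_bot (a := M + 1 + 1) f (by omega), sums_bot (a := M + 1 + 1 + 1) f (by omega)]
  have h1 := sums_pairs (M := M + 1) (N := N) (a := 1) (T := M + 1) f (fun b => f (3 * M + 2 + 1 - b))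
    (fun b h1 h2 => by
      have := hp b h1 h2
      rw [add_comm (f b)]
      exact this) (by omega)
  have h2 := sums_mid (M := M - 2) (B := B) (a := M + 1 + 1 + 1 + 1) (T := 2 * M + 1) f
    (fun b h1 h2 => hB b (by omega) h2) (by omega)
  have e2 : M + 1 + 1 = M + 2 := rfl
  have e3 : M + 1 + 1 + 1 = M + 3 := rfl
  rw [e3] at h2 ⊢
  rw [e2]
  nlinarith [h1, h2]

/-- `q = 3 M + 2`, the pairs `b ≥ 3` good. -/
theorem sum2E {M N B : ℕ} (hM : 2 ≤ M) (f : ℕ → ℕ)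
    (hp : ∀ b, 3 ≤ b → b ≤ M + 1 → 3 * (f (3 * M + 3 - b) + f b) ≤ 2 * N)
    (hB : ∀ s, M + 4 ≤ s → s ≤ 2 * M + 1 → 3 * f s ≤ B) :
    3 * ∑ s ∈ Icc 1 (3 * M + 2), f s ≤ 3 * (f 1 + f 2 + f (3 * M + 2)) + 3 * f (3 * M + 1)
      + (M - 1) * (2 * N) + (M - 2) * B + 3 * f (M + 2) + 3 * f (M + 3) := by
  rw [fold_sum (c := M + 1) (by omega)]
  have e1 : 3 * M + 2 - (M + 1) = 2 * M + 1 := by omega
  rw [e1, sums_bot (a := M + 1 + 1) f (by omega), sums_bot (a := M + 1 + 1 + 1) f (by omega),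
    sums_bot (a := 1) _ (by omega), sums_bot (a := 1 + 1) _ (by omega)]
  have h1 := sums_pairs (M := M - 1) (N := N) (a := 1 + 1 + 1) (T := M + 1) f
    (fun b => f (3 * M + 2 + 1 - b)) (fun b h1 h2 => by
      have := hp b h1 h2
      rw [add_comm (f b)]
      exact this) (by omega)
  have h2 := sums_mid (M := M - 2) (B := B) (a := M + 1 + 1 + 1 + 1) (T := 2 * M + 1) f
    (fun b h1 h2 => hB b (by omega) h2) (by omega)
  have e2 : M + 1 + 1 = M + 2 := rfl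
  have e6 : M + 1 + 1 + 1 = M + 3 := rfl
  have e3 : 3 * M + 2 + 1 - 1 = 3 * M + 2 := by omega
  have e4 : 3 * M + 2 + 1 - (1 + 1) = 3 * M + 1 := by omega
  have e5 : 1 + 1 = 2 := rfl
  rw [e6] at h2 ⊢
  rw [e2, e3, e4, e5]
  rw [e5] at h1
  nlinarith [h1, h2]


end Part0

end Pool.Agent.DG
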