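import Pool.Agent.DG.Lower
import Pool.Agent.DG.Basic2

set_option autoImplicit false

/-! # Lower bounds for the 3-groups `Z_{3^b}`, `Z_3 × Z_{3^b}`, `Z_9 × Z_{3^b}` -/

namespace Pool.Agent.DG
open Finset

universe u

/-- Natural number bookkeeping: three numbers of `[m, 2 m]` with a sum divisible by `3 m`. -/
theorem low3_arith {m r1 r2 r3 t1 t2 t3 : ℕ} (hm : 0 < m)
    (h1 : m ≤ r1) (h1' : r1 ≤ 2 * m) (h2 : m ≤ r2) (h2' : r2 ≤ 2 * m) (h3 : m ≤ r3)
    (h3' : r3 ≤ 2 * m)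
    (hd : 9 * m ∣ (r1 + 3 * m * t1) + (r2 + 3 * m * t2) + (r3 + 3 * m * t3)) :
    (r1 = m ∧ r2 = m ∧ r3 = m ∧ (1 + t1 + t2 + t3) % 3 = 0) ∨
    (r1 = 2 * m ∧ r2 = 2 * m ∧ r3 = 2 * m ∧ (2 + t1 + t2 + t3) % 3 = 0) := by
  obtain ⟨k, hk⟩ := hd
  have hk' : r1 + r2 + r3 + (3 * m) * (t1 + t2 + t3) = (3 * m) * (3 * k) := by
    have : (r1 + 3 * m * t1) + (r2 + 3 * m * t2) + (r3 + 3 * m * t3)
        = r1 + r2 + r3 + (3 * m) * (t1 + t2 + t3) := by ring
    rw [← this, hk]; ring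
  have hdvd : 3 * m ∣ r1 + r2 + r3 := by
    have h4 : 3 * m ∣ r1 + r2 + r3 + (3 * m) * (t1 + t2 + t3) := hk' ▸ Dvd.intro _ rfl
    exact (Nat.dvd_add_left (Dvd.intro _ rfl)).1 h4
  obtain ⟨j, hj⟩ := hdvd
  have hj1 : 1 ≤ j := by
    rcases Nat.eq_zero_or_pos j with h | h
    · rw [h] at hj; omega
    · exact h
  have hj2 : j ≤ 2 := by
    by_contra hcon
    have : 3 * m * 3 ≤ 3 * m * j := Nat.mul_le_mul_left _ (by omega)
    omega
  rw [hj, ← Nat.mul_add] at hk'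
  have hk2 : j + (t1 + t2 + t3) = 3 * k := Nat.eq_of_mul_eq_mul_left (by omega) hk'
  have hj3 : j = 1 ∨ j = 2 := by omega
  rcases hj3 with rfl | rfl
  · left
    refine ⟨by omega, by omega, by omega, by omega⟩
  · right
    refine ⟨by omega, by omega, by omega, by omega⟩

/-- the map `(r, t) ↦ r + 3 m t` into `ZMod (9 m)` is injective on the relevant range -/
theorem low3_inj {m r t r' t' : ℕ} (hm : 0 < m) (hr : r ≤ 2 * m) (ht : t < 3) (hr' : r' ≤ 2 * m)
    (ht' : t' < 3) (h : ((r + 3 * m * t : ℕ) : ZMod (9 * m)) = ((r' + 3 * m * t' : ℕ) : ZMod (9 * m))) :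
    r = r' ∧ t = t' := by
  rw [ZMod.natCast_eq_natCast_iff'] at h
  have e1 : r + 3 * m * t < 9 * m := by
    have : 3 * m * t ≤ 3 * m * 2 := Nat.mul_le_mul_left _ (by omega)
    omega
  have e2 : r' + 3 * m * t' < 9 * m := by
    have : 3 * m * t' ≤ 3 * m * 2 := Nat.mul_le_mul_left _ (by omega)
    omega
  rw [Nat.mod_eq_of_lt e1, Nat.mod_eq_of_lt e2] at h
  have hmod : (r + 3 * m * t) % (3 * m) = (r' + 3 * m * t') % (3 * m) := by rw [h]
  rw [Nat.add_mul_mod_self_left, Nat.add_mul_mod_self_left, Nat.mod_eq_of_lt (by omega),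
    Nat.mod_eq_of_lt (by omega)] at hmod
  refine ⟨hmod, ?_⟩
  rw [hmod] at h
  have h2 : 3 * m * t = 3 * m * t' := by omega
  exact Nat.eq_of_mul_eq_mul_left (by omega) h2

/-- `Z_{9m}` -/
theorem low3_one {m : ℕ} (hm : 0 < m) :
    ∃ A : Finset (ZMod (9 * m)), Adm A ∧ A.card = 3 * m + 3 := by
  classical
  set f : ℕ × ℕ → ZMod (9 * m) := fun p => ((p.1 + 3 * m * p.2 : ℕ) : ZMod (9 * m)) with hf
  refine ⟨(Icc m (2 * m) ×ˢ range 3).image f, ?_, ?_⟩
  · intro x hx y hy z hz hxy hxz hyz hsum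
    obtain ⟨⟨r1, t1⟩, hp1, rfl⟩ := Finset.mem_image.1 hx
    obtain ⟨⟨r2, t2⟩, hp2, rfl⟩ := Finset.mem_image.1 hy
    obtain ⟨⟨r3, t3⟩, hp3, rfl⟩ := Finset.mem_image.1 hz
    rw [Finset.mem_product, Finset.mem_Icc, Finset.mem_range] at hp1 hp2 hp3
    simp only at hp1 hp2 hp3
    have h1 : (((r1 + 3 * m * t1) + (r2 + 3 * m * t2) + (r3 + 3 * m * t3) : ℕ) : ZMod (9 * m)) = 0 := by
      rw [Nat.cast_add, Nat.cast_add]; exact hsum
    rw [ZMod.natCast_eq_zero_iff] at h1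
    have key := low3_arith hm hp1.1.1 hp1.1.2 hp2.1.1 hp2.1.2 hp3.1.1 hp3.1.2 h1
    rcases key with ⟨a1, a2, a3, a4⟩ | ⟨a1, a2, a3, a4⟩
    · subst a1; subst a2; subst a3
      have n1 : t1 ≠ t2 := fun h => hxy (by rw [h])
      have n2 : t1 ≠ t3 := fun h => hxz (by rw [h])
      have n3 : t2 ≠ t3 := fun h => hyz (by rw [h])
      omega
    · subst a1; subst a2; subst a3
      have n1 : t1 ≠ t2 := fun h => hxy (by rw [h])
      have n2 : t1 ≠ t3 := fun h => hxz (by rw [h])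
      have n3 : t2 ≠ t3 := fun h => hyz (by rw [h])
      omega
  · rw [Finset.card_image_of_injOn, Finset.card_product, Nat.card_Icc, Finset.card_range]
    · have : 2 * m + 1 - m = m + 1 := by omega
      rw [this]; ring
    · rintro ⟨r, t⟩ hp ⟨r', t'⟩ hp' h
      rw [Finset.mem_coe, Finset.mem_product, Finset.mem_Icc, Finset.mem_range] at hp hp'
      obtain ⟨e1, e2⟩ := low3_inj hm hp.1.2 hp.2 hp'.1.2 hp'.2 h
      exact Prod.ext e1 e2

theorem low3_nine (a : ℕ) (ha : a < 9) (b : ℕ) (hb : b < 9) (c : ℕ) (hc : c < 9)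
    (ha3 : a % 3 ≠ 0) (hb3 : b % 3 ≠ 0) (hc3 : c % 3 ≠ 0) (hab : a ≠ b) (hac : a ≠ c)
    (hbc : b ≠ c) : (a + b + c) % 9 ≠ 0 := by
  interval_cases a <;> interval_cases b <;> omega

/-- `Z_3 × Z_{9m}` -/
theorem low3_two {m : ℕ} (hm : 0 < m) :
    ∃ A : Finset (ZMod 3 × ZMod (9 * m)), Adm A ∧ A.card = 9 * m + 3 := by
  classical
  set f : ℕ × ℕ × ℕ → ZMod 3 × ZMod (9 * m) :=
    fun p => ((p.1 : ZMod 3), ((p.2.1 + 3 * m * p.2.2 : ℕ) : ZMod (9 * m))) with hf
  set full : Finset (ℕ × ℕ × ℕ) := range 3 ×ˢ (Icc m (2 * m) ×ˢ range 3) with hfull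
  set bad : Finset (ℕ × ℕ × ℕ) := {2} ×ˢ (({m, 2 * m} : Finset ℕ) ×ˢ range 3) with hbad
  have hsub : bad ⊆ full := by
    rintro ⟨a, r, t⟩ h
    simp only [hbad, hfull, Finset.mem_product, Finset.mem_singleton, Finset.mem_insert,
      Finset.mem_range, Finset.mem_Icc] at h ⊢
    obtain ⟨h1, h2, h3⟩ := h
    refine ⟨by omega, ?_, h3⟩
    rcases h2 with h2 | h2 <;> constructor <;> omega
  have hinj : Set.InjOn f (full \ bad : Finset (ℕ × ℕ × ℕ)) := by
    rintro ⟨a, r, t⟩ hp ⟨a', r', t'⟩ hp' h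
    rw [Finset.mem_coe, Finset.mem_sdiff] at hp hp'
    have q1 := hp.1
    have q2 := hp'.1
    simp only [hfull, Finset.mem_product, Finset.mem_Icc, Finset.mem_range] at q1 q2
    have hA := congrArg Prod.fst h
    have hB := congrArg Prod.snd h
    simp only [hf] at hA hB
    rw [ZMod.natCast_eq_natCast_iff', Nat.mod_eq_of_lt q1.1, Nat.mod_eq_of_lt q2.1] at hA
    obtain ⟨e1, e2⟩ := low3_inj hm q1.2.1.2 q1.2.2 q2.2.1.2 q2.2.2 hB
    simp [hA, e1, e2]
  refine ⟨(full \ bad).image f, ?_, ?_⟩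
  · intro x hx y hy z hz hxy hxz hyz hsum
    obtain ⟨⟨a1, r1, t1⟩, hp1, rfl⟩ := Finset.mem_image.1 hx
    obtain ⟨⟨a2, r2, t2⟩, hp2, rfl⟩ := Finset.mem_image.1 hy
    obtain ⟨⟨a3, r3, t3⟩, hp3, rfl⟩ := Finset.mem_image.1 hz
    rw [Finset.mem_sdiff] at hp1 hp2 hp3
    have q1 := hp1.1
    have q2 := hp2.1
    have q3 := hp3.1
    have b1 := hp1.2
    have b2 := hp2.2
    have b3 := hp3.2
    simp only [hfull, Finset.mem_product, Finset.mem_Icc, Finset.mem_range] at q1 q2 q3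
    simp only [hbad, Finset.mem_product, Finset.mem_singleton, Finset.mem_insert,
      Finset.mem_range, not_and, not_lt] at b1 b2 b3
    have hA := congrArg Prod.fst hsum
    have hB := congrArg Prod.snd hsum
    simp only [hf, Prod.fst_add, Prod.snd_add, Prod.fst_zero, Prod.snd_zero] at hA hB
    have h0 : ((a1 + a2 + a3 : ℕ) : ZMod 3) = 0 := by push_cast; exact hA
    rw [ZMod.natCast_eq_zero_iff] at h0
    have h1 : (((r1 + 3 * m * t1) + (r2 + 3 * m * t2) + (r3 + 3 * m * t3) : ℕ) : ZMod (9 * m)) = 0 := by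
      rw [Nat.cast_add, Nat.cast_add]; exact hB
    rw [ZMod.natCast_eq_zero_iff] at h1
    have key := low3_arith hm q1.2.1.1 q1.2.1.2 q2.2.1.1 q2.2.1.2 q3.2.1.1 q3.2.1.2 h1
    have c1 : r1 = m ∨ r1 = 2 * m → a1 < 2 := by
      intro h
      by_contra hcon
      have := b1 (by omega) h
      omega
    have c2 : r2 = m ∨ r2 = 2 * m → a2 < 2 := by
      intro h
      by_contra hcon
      have := b2 (by omega) h
      omega
    have c3 : r3 = m ∨ r3 = 2 * m → a3 < 2 := by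
      intro h
      by_contra hcon
      have := b3 (by omega) h
      omega
    rcases key with ⟨k1, k2, k3, k4⟩ | ⟨k1, k2, k3, k4⟩
    · have d1 := c1 (Or.inl k1)
      have d2 := c2 (Or.inl k2)
      have d3 := c3 (Or.inl k3)
      have e1 : a1 = a2 := by omega
      have e2 : a1 = a3 := by omega
      subst e1; subst e2; subst k1; subst k2; subst k3
      have n1 : t1 ≠ t2 := fun h => hxy (by rw [h])
      have n2 : t1 ≠ t3 := fun h => hxz (by rw [h])
      have n3 : t2 ≠ t3 := fun h => hyz (by rw [h])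
      omega
    · have d1 := c1 (Or.inr k1)
      have d2 := c2 (Or.inr k2)
      have d3 := c3 (Or.inr k3)
      have e1 : a1 = a2 := by omega
      have e2 : a1 = a3 := by omega
      subst e1; subst e2; subst k1; subst k2; subst k3
      have n1 : t1 ≠ t2 := fun h => hxy (by rw [h])
      have n2 : t1 ≠ t3 := fun h => hxz (by rw [h])
      have n3 : t2 ≠ t3 := fun h => hyz (by rw [h])
      omega
  · rw [Finset.card_image_of_injOn hinj, Finset.card_sdiff_of_subset hsub]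
    simp only [hfull, hbad, Finset.card_product, Finset.card_range, Nat.card_Icc,
      Finset.card_singleton]
    rw [Finset.card_pair (by omega)]
    have : 2 * m + 1 - m = m + 1 := by omega
    rw [this]
    omega

/-- `Z_9 × Z_{3m}` -/
theorem low3_three {m : ℕ} (hm : 0 < m) :
    ∃ A : Finset (ZMod 9 × ZMod (3 * m)), Adm A ∧ A.card = 9 * m + 3 := by
  classical
  set f : ℕ × ℕ → ZMod 9 × ZMod (3 * m) :=
    fun p => ((p.1 : ZMod 9), (p.2 : ZMod (3 * m))) with hf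
  set full : Finset (ℕ × ℕ) := range 9 ×ˢ range (m + 1) with hfull
  set bad : Finset (ℕ × ℕ) := ({0, 3, 6} : Finset ℕ) ×ˢ ({0, m} : Finset ℕ) with hbad
  have hsub : bad ⊆ full := by
    rintro ⟨a, y⟩ h
    simp only [hbad, hfull, Finset.mem_product, Finset.mem_singleton, Finset.mem_insert,
      Finset.mem_range] at h ⊢
    omega
  have hinj : Set.InjOn f (full \ bad : Finset (ℕ × ℕ)) := by
    rintro ⟨a, y⟩ hp ⟨a', y'⟩ hp' h
    rw [Finset.mem_coe, Finset.mem_sdiff] at hp hp'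
    have q1 := hp.1
    have q2 := hp'.1
    simp only [hfull, Finset.mem_product, Finset.mem_range] at q1 q2
    have hA := congrArg Prod.fst h
    have hB := congrArg Prod.snd h
    simp only [hf] at hA hB
    rw [ZMod.natCast_eq_natCast_iff', Nat.mod_eq_of_lt q1.1, Nat.mod_eq_of_lt q2.1] at hA
    rw [ZMod.natCast_eq_natCast_iff', Nat.mod_eq_of_lt (by omega), Nat.mod_eq_of_lt (by omega)] at hB
    simp [hA, hB]
  refine ⟨(full \ bad).image f, ?_, ?_⟩
  · intro x hx y hy z hz hxy hxz hyz hsum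
    obtain ⟨⟨a1, y1⟩, hp1, rfl⟩ := Finset.mem_image.1 hx
    obtain ⟨⟨a2, y2⟩, hp2, rfl⟩ := Finset.mem_image.1 hy
    obtain ⟨⟨a3, y3⟩, hp3, rfl⟩ := Finset.mem_image.1 hz
    rw [Finset.mem_sdiff] at hp1 hp2 hp3
    have q1 := hp1.1
    have q2 := hp2.1
    have q3 := hp3.1
    have b1 := hp1.2
    have b2 := hp2.2
    have b3 := hp3.2
    simp only [hfull, Finset.mem_product, Finset.mem_range] at q1 q2 q3
    simp only [hbad, Finset.mem_product, Finset.mem_singleton, Finset.mem_insert] at b1 b2 b3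
    have hA := congrArg Prod.fst hsum
    have hB := congrArg Prod.snd hsum
    simp only [hf, Prod.fst_add, Prod.snd_add, Prod.fst_zero, Prod.snd_zero] at hA hB
    have h0 : ((a1 + a2 + a3 : ℕ) : ZMod 9) = 0 := by push_cast; exact hA
    rw [ZMod.natCast_eq_zero_iff] at h0
    have h1 : ((y1 + y2 + y3 : ℕ) : ZMod (3 * m)) = 0 := by push_cast; exact hB
    rw [ZMod.natCast_eq_zero_iff] at h1
    obtain ⟨k, hk⟩ := h1
    have hk2 : k ≤ 1 := by
      by_contra hcon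
      have : 3 * m * 2 ≤ 3 * m * k := Nat.mul_le_mul_left _ (by omega)
      omega
    have hk3 : k = 0 ∨ k = 1 := by omega
    have key : (y1 = 0 ∧ y2 = 0 ∧ y3 = 0) ∨ (y1 = m ∧ y2 = m ∧ y3 = m) := by
      rcases hk3 with rfl | rfl
      · left; omega
      · right; omega
    rcases key with ⟨k1, k2, k3⟩ | ⟨k1, k2, k3⟩
    · subst k1; subst k2; subst k3
      have n1 : a1 ≠ a2 := fun h => hxy (by rw [h])
      have n2 : a1 ≠ a3 := fun h => hxz (by rw [h])
      have n3 : a2 ≠ a3 := fun h => hyz (by rw [h])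
      exact low3_nine a1 q1.1 a2 q2.1 a3 q3.1 (by omega) (by omega) (by omega) n1 n2 n3
        (Nat.mod_eq_zero_of_dvd h0)
    · subst k1; subst k2; subst k3
      have n1 : a1 ≠ a2 := fun h => hxy (by rw [h])
      have n2 : a1 ≠ a3 := fun h => hxz (by rw [h])
      have n3 : a2 ≠ a3 := fun h => hyz (by rw [h])
      exact low3_nine a1 q1.1 a2 q2.1 a3 q3.1 (by omega) (by omega) (by omega) n1 n2 n3
        (Nat.mod_eq_zero_of_dvd h0)
  · rw [Finset.card_image_of_injOn hinj, Finset.card_sdiff_of_subset hsub]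
    simp only [hfull, hbad, Finset.card_product, Finset.card_range]
    rw [Finset.card_pair (by omega)]
    have : ({0, 3, 6} : Finset ℕ).card = 3 := by decide
    rw [this]
    omega

theorem low3 (T : Type u) [AddCommGroup T] [Finite T] {b : ℕ} (hb : 2 ≤ b)
    (h : Nonempty (T ≃+ ZMod (3 ^ b)) ∨ Nonempty (T ≃+ ZMod 3 × ZMod (3 ^ b)) ∨
      Nonempty (T ≃+ ZMod 9 × ZMod (3 ^ b))) :
    Nat.card T + 9 ≤ 3 * D T := by
  obtain ⟨c, rfl⟩ : ∃ c, b = c + 2 := ⟨b - 2, by omega⟩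
  have hpos : 0 < 3 ^ c := by positivity
  have e9 : 3 ^ (c + 2) = 9 * 3 ^ c := by ring
  have e3 : 3 ^ (c + 2) = 3 * (3 * 3 ^ c) := by ring
  have _ : NeZero (9 * 3 ^ c) := ⟨by positivity⟩
  have _ : NeZero (3 * (3 * 3 ^ c)) := ⟨by positivity⟩
  rcases h with ⟨⟨e⟩⟩ | ⟨⟨e⟩⟩ | ⟨⟨e⟩⟩
  · rw [e9] at e
    obtain ⟨A, hA, hAc⟩ := low3_one hpos
    have h1 := card_le_D hA
    rw [D_congr_univ e, Nat.card_congr e.toEquiv, Nat.card_zmod]
    omega
  · rw [e9] at e
    obtain ⟨A, hA, hAc⟩ := low3_two hpos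
    have h1 := card_le_D hA
    rw [D_congr_univ e, Nat.card_congr e.toEquiv, Nat.card_prod, Nat.card_zmod, Nat.card_zmod]
    omega
  · rw [e3] at e
    obtain ⟨A, hA, hAc⟩ := low3_three (m := 3 * 3 ^ c) (by positivity)
    have h1 := card_le_D hA
    rw [D_congr_univ e, Nat.card_congr e.toEquiv, Nat.card_prod, Nat.card_zmod, Nat.card_zmod]
    omega

end Pool.Agent.DG
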