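import Pool.Agent.DG.Lower
import Pool.Agent.DG.Basic2

set_option autoImplicit false

namespace Pool.Agent.DG

section Part0

open Finset

universe u

/-- the construction for a given homomorphism onto `ZMod p` -/
theorem lowr_hom {G : Type u} [AddCommGroup G] [Finite G] {p t : ℕ} (hp : p.Prime)
    (hpt : p = 3 * t + 1) (φ : G →+ ZMod p) (hφ : Function.Surjective φ)
    (B : Finset φ.ker) (hB : Adm B) :
    ∃ A : Finset G, Adm A ∧ A.card = t * Nat.card φ.ker + B.card := by
  classical
  have _ : Fact p.Prime := ⟨hp⟩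
  let _ : Fintype G := Fintype.ofFinite G
  set T : Finset (ZMod p) := (Finset.Icc 1 t).image (fun i : ℕ => (i : ZMod p)) with hT
  have hTcard : T.card = t := by
    rw [hT, lower_image _ _ (by omega)]
    omega
  have hT0 : (0 : ZMod p) ∉ T := by
    intro h
    obtain ⟨i, hi, hi'⟩ := Finset.mem_image.1 h
    rw [Finset.mem_Icc] at hi
    rw [ZMod.natCast_eq_zero_iff] at hi'
    have := Nat.le_of_dvd (by omega) hi'
    omega
  set A1 := univ.filter (fun g : G => φ g ∈ T) with hA1
  set A2 := B.map ⟨fun x : φ.ker => (x : G), Subtype.val_injective⟩ with hA2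
  have hval : ∀ x ∈ A1 ∪ A2, ∃ i : ℕ, i ≤ t ∧ φ x = (i : ZMod p) ∧
      (i = 0 → ∃ b ∈ B, (b : G) = x) := by
    intro x hx
    rcases Finset.mem_union.1 hx with h | h
    · obtain ⟨i, hi, hi'⟩ := Finset.mem_image.1 (Finset.mem_filter.1 h).2
      rw [Finset.mem_Icc] at hi
      exact ⟨i, hi.2, hi'.symm, fun h0 => by omega⟩
    · obtain ⟨b, hb, hb'⟩ := Finset.mem_map.1 h
      refine ⟨0, Nat.zero_le _, ?_, fun _ => ⟨b, hb, hb'⟩⟩
      rw [← hb']
      have := b.2
      rw [AddMonoidHom.mem_ker] at this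
      simpa using this
  refine ⟨A1 ∪ A2, ?_, ?_⟩
  · intro x hx y hy z hz hxy hxz hyz hsum
    obtain ⟨i, hi, hi', hi''⟩ := hval x hx
    obtain ⟨j, hj, hj', hj''⟩ := hval y hy
    obtain ⟨k, hk, hk', hk''⟩ := hval z hz
    have h1 := congrArg φ hsum
    rw [map_add, map_add, map_zero, hi', hj', hk'] at h1
    have h2 : ((i + j + k : ℕ) : ZMod p) = 0 := by push_cast; exact h1
    rw [ZMod.natCast_eq_zero_iff] at h2
    have h3 : i + j + k = 0 := by
      by_contra hcon
      have := Nat.le_of_dvd (by omega) h2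
      omega
    obtain ⟨b1, hb1, hb1'⟩ := hi'' (by omega)
    obtain ⟨b2, hb2, hb2'⟩ := hj'' (by omega)
    obtain ⟨b3, hb3, hb3'⟩ := hk'' (by omega)
    refine hB b1 hb1 b2 hb2 b3 hb3 ?_ ?_ ?_ ?_
    · rintro rfl
      exact hxy (hb1'.symm.trans hb2')
    · rintro rfl
      exact hxz (hb1'.symm.trans hb3')
    · rintro rfl
      exact hyz (hb2'.symm.trans hb3')
    · apply Subtype.ext
      push_cast
      rw [hb1', hb2', hb3']
      exact hsum
  · have hdisj : Disjoint A1 A2 := by
      rw [Finset.disjoint_left]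
      intro x hx hx'
      obtain ⟨b, hb, hb'⟩ := Finset.mem_map.1 hx'
      have h6 : φ x = 0 := by
        rw [← hb']
        have := b.2
        rw [AddMonoidHom.mem_ker] at this
        simpa using this
      have h7 := (Finset.mem_filter.1 hx).2
      rw [h6] at h7
      exact hT0 h7
    rw [Finset.card_union_of_disjoint hdisj, hA2, Finset.card_map, hA1, lower_pre φ hφ T,
      hTcard]

/-- One step: `p = 3 t + 1` divides `|G|`. -/
theorem low_step (G : Type u) [AddCommGroup G] [Finite G] {p t : ℕ} (hp : p.Prime)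
    (hpt : p = 3 * t + 1) (K : AddSubgroup G) (hK : K.index = p) :
    t * Nat.card K + D K ≤ D G := by
  classical
  have _ : Fact p.Prime := ⟨hp⟩
  have hQ : Nat.card (G ⧸ K) = p := hK
  obtain ⟨ψ, hψ⟩ := lower_hom (G := G ⧸ K) p hp (by rw [hQ])
  have hinj : Function.Injective ψ := by
    let _ : Fintype (G ⧸ K) := Fintype.ofFinite _
    have h := lower_card ψ hψ
    rw [hQ] at h
    have hker : Nat.card ψ.ker = 1 :=
      Nat.eq_of_mul_eq_mul_left hp.pos (by rw [← h, mul_one])
    rw [← AddMonoidHom.ker_eq_bot_iff]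
    exact AddSubgroup.card_eq_one.1 hker
  set φ : G →+ ZMod p := ψ.comp (QuotientAddGroup.mk' K) with hφdef
  have hφ : Function.Surjective φ := hψ.comp (QuotientAddGroup.mk'_surjective _)
  have hker : φ.ker = K := by
    ext x
    rw [AddMonoidHom.mem_ker, hφdef, AddMonoidHom.comp_apply]
    constructor
    · intro h
      have h1 : (QuotientAddGroup.mk' K) x = 0 := hinj (by rw [h, map_zero])
      rwa [QuotientAddGroup.mk'_apply, QuotientAddGroup.eq_zero_iff] at h1
    · intro h
      have h1 : (QuotientAddGroup.mk' K) x = 0 := by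
        rwa [QuotientAddGroup.mk'_apply, QuotientAddGroup.eq_zero_iff]
      rw [h1, map_zero]
  have hgoal : t * Nat.card φ.ker + D φ.ker ≤ D G := by
    obtain ⟨B, hB, hB'⟩ := exists_D φ.ker
    obtain ⟨A, hA, hA'⟩ := lowr_hom hp hpt φ hφ B hB
    rw [← hB', ← hA']
    exact card_le_D hA
  rwa [hker] at hgoal

theorem lowr_aux (T0 : Type u) [AddCommGroup T0] [Finite T0] {a : ℕ}
    (hT0 : Nat.card T0 = 3 ^ a) (n : ℕ) : ∀ (G : Type u) [AddCommGroup G] [Finite G]
    (T : AddSubgroup G) (_ : T ≃+ T0), T.index = n →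
    (∀ p, p.Prime → p ∣ T.index → p % 3 = 1) →
    Nat.card G + 3 * D T0 ≤ 3 * D G + 3 ^ a := by
  induction n using Nat.strong_induction_on with
  | _ n ih =>
    intro G _ _ T e hn hp
    by_cases h1 : T.index = 1
    · rw [AddSubgroup.index_eq_one] at h1
      subst h1
      have e' : G ≃+ T0 := AddSubgroup.topEquiv.symm.trans e
      rw [D_congr e', Nat.card_congr e'.toEquiv, hT0]
      omega
    · obtain ⟨p, hpp, hpd⟩ := Nat.exists_prime_and_dvd h1
      have hp3 := hp p hpp hpd
      have _ : Fact p.Prime := ⟨hpp⟩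
      obtain ⟨t, ht⟩ : ∃ t, p = 3 * t + 1 := ⟨p / 3, by omega⟩
      obtain ⟨ψ, hψ⟩ := lower_hom (G := G ⧸ T) p hpp hpd
      set φ : G →+ ZMod p := ψ.comp (QuotientAddGroup.mk' T) with hφdef
      have hφ : Function.Surjective φ := hψ.comp (QuotientAddGroup.mk'_surjective _)
      set K : AddSubgroup G := φ.ker with hKdef
      have hTK : T ≤ K := by
        intro x hx
        rw [hKdef, AddMonoidHom.mem_ker, hφdef, AddMonoidHom.comp_apply]
        have h1 : (QuotientAddGroup.mk' T) x = 0 := by
          rwa [QuotientAddGroup.mk'_apply, QuotientAddGroup.eq_zero_iff]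
        rw [h1, map_zero]
      have hKi : K.index = p := by
        rw [hKdef, AddSubgroup.index_ker, AddMonoidHom.range_eq_top.mpr hφ, AddSubgroup.card_top,
          Nat.card_zmod]
      have hcard : Nat.card G = p * Nat.card K := by
        rw [← hKi, mul_comm]
        exact (AddSubgroup.card_mul_index K).symm
      have hrel := AddSubgroup.relIndex_mul_index hTK
      rw [hKi] at hrel
      have hidx : (T.addSubgroupOf K).index = T.relIndex K := rfl
      have hTpos : 0 < T.index := Nat.pos_of_ne_zero AddSubgroup.index_ne_zero_of_finite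
      have hlt : (T.addSubgroupOf K).index < n := by
        rw [hidx, ← hn, ← hrel]
        have h5 : 0 < T.relIndex K := by
          rcases Nat.eq_zero_or_pos (T.relIndex K) with h | h
          · rw [h, zero_mul] at hrel; omega
          · exact h
        have := hpp.two_le
        nlinarith
      have hIH := ih _ hlt K (T.addSubgroupOf K)
        ((AddSubgroup.addSubgroupOfEquivOfLe hTK).trans e) rfl (by
          intro q hq hqd
          apply hp q hq
          rw [← hrel]
          exact Dvd.dvd.mul_right (hidx ▸ hqd) p)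
      have hstep := low_step G hpp ht K hKi
      have h7 : p * Nat.card K = 3 * (t * Nat.card K) + Nat.card K := by rw [ht]; ring
      rw [hcard, h7]
      omega

theorem lowR (T0 : Type u) [AddCommGroup T0] [Finite T0] {a : ℕ} (ha : 1 ≤ a)
    (hT0 : Nat.card T0 = 3 ^ a) (G : Type u) [AddCommGroup G] [Finite G] (T : AddSubgroup G)
    (e : T ≃+ T0) (hp : ∀ p, p.Prime → p ∣ T.index → p % 3 = 1) :
    Nat.card G + 3 * D T0 ≤ 3 * D G + 3 ^ a :=
  lowr_aux T0 hT0 _ G T e rfl hp


end Part0

end Pool.Agent.DG
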