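import Pool.Agent.DG.Defs

set_option autoImplicit false

/-! # The lower bound constructions -/

namespace Pool.Agent.DG
open Finset

universe u

theorem lower_linear_surj {K V : Type*} [Field K] [AddCommGroup V] [Module K V] [Nontrivial V] :
    ∃ φ : V →ₗ[K] K, Function.Surjective φ := by
  let b := Module.Basis.ofVectorSpace K V
  obtain ⟨i⟩ := b.index_nonempty
  refine ⟨b.coord i, fun y => ⟨y • b i, ?_⟩⟩
  simp

theorem lower_torsion {Q : Type u} [AddCommGroup Q] [Nontrivial Q] (p : ℕ)
    [Fact p.Prime] (hz : ∀ x : Q, p • x = 0) : ∃ φ : Q →+ ZMod p, Function.Surjective φ := by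
  let _ : Module (ZMod p) Q := AddCommGroup.zmodModule hz
  obtain ⟨φ, hφ⟩ := lower_linear_surj (K := ZMod p) (V := Q)
  exact ⟨φ.toAddMonoidHom, hφ⟩

/-- A finite abelian group of order divisible by `p` maps onto `ZMod p`. -/
theorem lower_hom {G : Type u} [AddCommGroup G] [Finite G] (p : ℕ) (hp : p.Prime)
    (hd : p ∣ Nat.card G) : ∃ φ : G →+ ZMod p, Function.Surjective φ := by
  have _ : Fact p.Prime := ⟨hp⟩
  set f : G →+ G := nsmulAddMonoidHom p with hf
  have hninj : ¬ Function.Injective f := by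
    intro hinj
    obtain ⟨x, hx⟩ := exists_prime_addOrderOf_dvd_card' (G := G) p hd
    have h1 : f x = f 0 := by
      have : p • x = 0 := by rw [← hx]; exact addOrderOf_nsmul_eq_zero x
      simp [hf, this]
    have h2 := hinj h1
    rw [h2, addOrderOf_zero] at hx
    exact hp.one_lt.ne hx
  have hnsurj : ¬ Function.Surjective f := fun h => hninj (Finite.injective_iff_surjective.2 h)
  have hrange : f.range ≠ ⊤ := fun h => hnsurj (AddMonoidHom.range_eq_top.1 h)
  have hne : Nontrivial (G ⧸ f.range) := by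
    rw [QuotientAddGroup.nontrivial_iff]
    exact hrange
  have hz : ∀ x : G ⧸ f.range, p • x = 0 := by
    intro x
    obtain ⟨y, rfl⟩ := QuotientAddGroup.mk_surjective x
    rw [← QuotientAddGroup.mk_nsmul, QuotientAddGroup.eq_zero_iff]
    exact ⟨y, rfl⟩
  obtain ⟨φ, hφ⟩ := lower_torsion p hz
  exact ⟨φ.comp (QuotientAddGroup.mk' f.range), hφ.comp (QuotientAddGroup.mk'_surjective _)⟩

/-- The fibres of a surjective homomorphism have the size of the kernel. -/
theorem lower_fib {G : Type u} [AddCommGroup G] [Fintype G] [DecidableEq G] {p : ℕ}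
    [Fact p.Prime] (φ : G →+ ZMod p) (hφ : Function.Surjective φ) (t : ZMod p) :
    (univ.filter (fun g : G => φ g = t)).card = Nat.card φ.ker := by
  have h1 : (univ.filter (fun g : G => φ g = t)).card
      = (univ.filter (fun g : G => φ g = 0)).card :=
    AddMonoidHom.card_fiber_eq_of_mem_range φ (hφ t) (hφ 0)
  rw [h1, Nat.card_eq_fintype_card, Fintype.card_subtype]
  congr 1
  ext g
  simp [AddMonoidHom.mem_ker]

/-- Size of the preimage of a set. -/
theorem lower_pre {G : Type u} [AddCommGroup G] [Fintype G] [DecidableEq G] {p : ℕ}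
    [Fact p.Prime] (φ : G →+ ZMod p) (hφ : Function.Surjective φ) (T : Finset (ZMod p)) :
    (univ.filter (fun g : G => φ g ∈ T)).card = T.card * Nat.card φ.ker := by
  have h2 := Finset.card_eq_sum_card_fiberwise (f := φ)
    (s := univ.filter (fun g : G => φ g ∈ T)) (t := T)
    (fun g hg => by
      rw [Finset.mem_coe, Finset.mem_filter] at hg
      exact Finset.mem_coe.2 hg.2)
  rw [h2, ← smul_eq_mul, ← Finset.sum_const]
  apply Finset.sum_congr rfl
  intro t ht
  rw [← lower_fib φ hφ t]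
  congr 1
  ext g
  simp only [Finset.mem_filter, Finset.mem_univ, true_and]
  constructor
  · exact fun h => h.2
  · exact fun h => ⟨h ▸ ht, h⟩

theorem lower_card {G : Type u} [AddCommGroup G] [Fintype G] [DecidableEq G] {p : ℕ}
    [Fact p.Prime] (φ : G →+ ZMod p) (hφ : Function.Surjective φ) :
    Nat.card G = p * Nat.card φ.ker := by
  have h := lower_pre φ hφ univ
  simp only [Finset.mem_univ, Finset.filter_true] at h
  rw [Finset.card_univ, Finset.card_univ, ZMod.card] at h
  rw [Nat.card_eq_fintype_card, h]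

/-- Natural numbers below `p` stay distinct in `ZMod p`. -/
theorem lower_image {p : ℕ} (a b : ℕ) (hb : b < p) :
    ((Finset.Icc a b).image (fun i : ℕ => (i : ZMod p))).card = b + 1 - a := by
  rw [Finset.card_image_of_injOn, Nat.card_Icc]
  intro i hi i' hi' h
  rw [Finset.mem_coe, Finset.mem_Icc] at hi hi'
  have h1 : ((i : ℕ) : ZMod p) = ((i' : ℕ) : ZMod p) := h
  rw [ZMod.natCast_eq_natCast_iff'] at h1
  rwa [Nat.mod_eq_of_lt (by omega), Nat.mod_eq_of_lt (by omega)] at h1

theorem lower1 (G : Type u) [AddCommGroup G] [Finite G] (p : ℕ) (hp : p.Prime) (hp3 : p % 3 = 2)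
    (hpn : p ∣ Nat.card G) :
    ∃ A : Finset G, Adm A ∧ 3 * A.card = Nat.card G + Nat.card G / p := by
  classical
  have _ : Fact p.Prime := ⟨hp⟩
  let _ : Fintype G := Fintype.ofFinite G
  obtain ⟨φ, hφ⟩ := lower_hom (G := G) p hp hpn
  obtain ⟨j, hj⟩ : ∃ j, p = 3 * j + 2 := ⟨p / 3, by omega⟩
  set T : Finset (ZMod p) := (Finset.Icc (j + 1) (2 * j + 1)).image (fun i : ℕ => (i : ZMod p))
    with hT
  have hTcard : T.card = j + 1 := by
    rw [hT, lower_image _ _ (by omega)]
    omega
  refine ⟨univ.filter (fun g : G => φ g ∈ T), ?_, ?_⟩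
  · intro x hx y hy z hz _ _ _ hsum
    rw [Finset.mem_filter] at hx hy hz
    obtain ⟨a, ha, ha'⟩ := Finset.mem_image.1 hx.2
    obtain ⟨b, hb, hb'⟩ := Finset.mem_image.1 hy.2
    obtain ⟨c, hc, hc'⟩ := Finset.mem_image.1 hz.2
    rw [Finset.mem_Icc] at ha hb hc
    have h1 := congrArg φ hsum
    rw [map_add, map_add, map_zero, ← ha', ← hb', ← hc'] at h1
    have h2 : ((a + b + c : ℕ) : ZMod p) = 0 := by push_cast; exact h1
    rw [ZMod.natCast_eq_zero_iff] at h2
    obtain ⟨k, hk⟩ := h2
    have h4 : k < 2 := by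
      by_contra hcon
      have : p * 2 ≤ p * k := Nat.mul_le_mul_left _ (by omega)
      omega
    interval_cases k <;> omega
  · rw [lower_pre φ hφ T, hTcard, lower_card φ hφ, Nat.mul_div_cancel_left _ hp.pos]
    have h5 : 3 * (j + 1) = p + 1 := by omega
    calc 3 * ((j + 1) * Nat.card φ.ker) = (3 * (j + 1)) * Nat.card φ.ker := by ring
      _ = p * Nat.card φ.ker + Nat.card φ.ker := by rw [h5]; ring

theorem lower2 (G : Type u) [AddCommGroup G] [Finite G] (hp : (Nat.card G).Prime)
    (h5 : 5 ≤ Nat.card G) :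
    ∃ A : Finset G, Adm A ∧ A.card = (Nat.card G + 7) / 3 := by
  classical
  obtain ⟨p, hpG⟩ : ∃ p, p = Nat.card G := ⟨_, rfl⟩
  rw [← hpG] at hp h5 ⊢
  have _ : Fact p.Prime := ⟨hp⟩
  let _ : Fintype G := Fintype.ofFinite G
  obtain ⟨φ, hφ⟩ := lower_hom (G := G) p hp (by rw [hpG])
  have hker : Nat.card φ.ker = 1 := by
    have h := lower_card φ hφ
    rw [← hpG] at h
    exact Nat.eq_of_mul_eq_mul_left hp.pos (by rw [← h, mul_one])
  set M := (p + 7) / 3 with hM
  have hMp : M ≤ p := by omega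
  have hM3 : 3 * M ≤ p + 7 := by omega
  have h3 : (3 : ZMod p) ≠ 0 := by
    intro h
    have h' : ((3 : ℕ) : ZMod p) = 0 := by exact_mod_cast h
    rw [ZMod.natCast_eq_zero_iff] at h'
    have := Nat.le_of_dvd (by norm_num) h'
    omega
  obtain ⟨a, ha⟩ : ∃ a : ZMod p, 3 * a + 3 = 1 := by
    refine ⟨(1 - 3) / 3, ?_⟩
    field_simp
    ring
  set T : Finset (ZMod p) := (Finset.range M).image (fun i : ℕ => a + (i : ZMod p)) with hT
  have hTcard : T.card = M := by
    rw [hT, Finset.card_image_of_injOn, Finset.card_range]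
    intro i hi i' hi' h
    rw [Finset.mem_coe, Finset.mem_range] at hi hi'
    have h1 : ((i : ℕ) : ZMod p) = ((i' : ℕ) : ZMod p) := add_left_cancel (a := a) h
    rw [ZMod.natCast_eq_natCast_iff'] at h1
    rwa [Nat.mod_eq_of_lt (by omega), Nat.mod_eq_of_lt (by omega)] at h1
  have hinj : Function.Injective φ := by
    rw [← AddMonoidHom.ker_eq_bot_iff]
    exact AddSubgroup.card_eq_one.1 hker
  refine ⟨univ.filter (fun g : G => φ g ∈ T), ?_, ?_⟩
  · intro x hx y hy z hz hxy hxz hyz hsum
    rw [Finset.mem_filter] at hx hy hz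
    obtain ⟨i, hi, hi'⟩ := Finset.mem_image.1 hx.2
    obtain ⟨j, hj, hj'⟩ := Finset.mem_image.1 hy.2
    obtain ⟨k, hk, hk'⟩ := Finset.mem_image.1 hz.2
    rw [Finset.mem_range] at hi hj hk
    have hij : i ≠ j := by
      rintro rfl
      exact hxy (hinj (hi'.symm.trans hj'))
    have hik : i ≠ k := by
      rintro rfl
      exact hxz (hinj (hi'.symm.trans hk'))
    have hjk : j ≠ k := by
      rintro rfl
      exact hyz (hinj (hj'.symm.trans hk'))
    have h1 := congrArg φ hsum
    rw [map_add, map_add, map_zero, ← hi', ← hj', ← hk'] at h1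
    obtain ⟨m, hm⟩ : ∃ m, i + j + k = m + 3 := ⟨i + j + k - 3, by omega⟩
    have h2 : ((m + 1 : ℕ) : ZMod p) = 0 := by
      have h6 : ((i : ZMod p) + j + k) = m + 3 := by exact_mod_cast congrArg (Nat.cast (R := ZMod p)) hm
      push_cast
      calc (m : ZMod p) + 1 = m + (3 * a + 3) := by rw [ha]
        _ = 3 * a + (m + 3) := by ring
        _ = 3 * a + ((i : ZMod p) + j + k) := by rw [h6]
        _ = a + i + (a + j) + (a + k) := by ring
        _ = 0 := h1
    rw [ZMod.natCast_eq_zero_iff] at h2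
    have := Nat.le_of_dvd (by omega) h2
    omega
  · rw [lower_pre φ hφ T, hTcard, hker, mul_one]

/-- Recursion step: for a prime `p = 1` mod `3` dividing `|G|`. -/
theorem lower_rec (G : Type u) [AddCommGroup G] [Finite G] (p : ℕ) (hp : p.Prime)
    (hp3 : p % 3 = 1) (hpn : p ∣ Nat.card G) :
    ∃ K : AddSubgroup G, Nat.card G = p * Nat.card K ∧
      ∀ B : Finset K, Adm B →
        ∃ A : Finset G, Adm A ∧ A.card = (p - 1) / 3 * Nat.card K + B.card := by
  classical
  have hp5 : 5 ≤ p := by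
    have := hp.two_le
    by_contra hcon
    have h4 : p = 2 ∨ p = 3 ∨ p = 4 := by omega
    rcases h4 with h | h | h
    · omega
    · omega
    · rw [h] at hp
      exact absurd hp (by decide)
  have _ : Fact p.Prime := ⟨hp⟩
  let _ : Fintype G := Fintype.ofFinite G
  obtain ⟨φ, hφ⟩ := lower_hom (G := G) p hp hpn
  have hcard := lower_card φ hφ
  refine ⟨φ.ker, hcard, ?_⟩
  intro B hB
  obtain ⟨t, ht⟩ : ∃ t, p = 3 * t + 1 := ⟨p / 3, by omega⟩
  set T : Finset (ZMod p) := (Finset.Icc 1 t).image (fun i : ℕ => (i : ZMod p)) with hT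
  have hTcard : T.card = t := by
    rw [hT, lower_image _ _ (by omega)]
    omega
  have hT0 : (0 : ZMod p) ∉ T := by
    intro h
    obtain ⟨i, hi, hi'⟩ := Finset.mem_image.1 h
    rw [Finset.mem_Icc] at hi
    rw [ZMod.natCast_eq_zero_iff] at hi'
    have := Nat.le_of_dvd (by omega) hi'
    omega
  set A1 := univ.filter (fun g : G => φ g ∈ T) with hA1
  set A2 := B.map ⟨fun x : φ.ker => (x : G), Subtype.val_injective⟩ with hA2
  have hval : ∀ x ∈ A1 ∪ A2, ∃ i : ℕ, i ≤ t ∧ φ x = (i : ZMod p) ∧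
      (i = 0 → ∃ b ∈ B, (b : G) = x) := by
    intro x hx
    rcases Finset.mem_union.1 hx with h | h
    · obtain ⟨i, hi, hi'⟩ := Finset.mem_image.1 (Finset.mem_filter.1 h).2
      rw [Finset.mem_Icc] at hi
      exact ⟨i, hi.2, hi'.symm, fun h0 => by omega⟩
    · obtain ⟨b, hb, hb'⟩ := Finset.mem_map.1 h
      refine ⟨0, Nat.zero_le _, ?_, fun _ => ⟨b, hb, hb'⟩⟩
      rw [← hb']
      have := b.2
      rw [AddMonoidHom.mem_ker] at this
      simpa using this
  refine ⟨A1 ∪ A2, ?_, ?_⟩
  · intro x hx y hy z hz hxy hxz hyz hsum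
    obtain ⟨i, hi, hi', hi''⟩ := hval x hx
    obtain ⟨j, hj, hj', hj''⟩ := hval y hy
    obtain ⟨k, hk, hk', hk''⟩ := hval z hz
    have h1 := congrArg φ hsum
    rw [map_add, map_add, map_zero, hi', hj', hk'] at h1
    have h2 : ((i + j + k : ℕ) : ZMod p) = 0 := by push_cast; exact h1
    rw [ZMod.natCast_eq_zero_iff] at h2
    have h3 : i + j + k = 0 := by
      by_contra hcon
      have := Nat.le_of_dvd (by omega) h2
      omega
    obtain ⟨b1, hb1, hb1'⟩ := hi'' (by omega)
    obtain ⟨b2, hb2, hb2'⟩ := hj'' (by omega)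
    obtain ⟨b3, hb3, hb3'⟩ := hk'' (by omega)
    refine hB b1 hb1 b2 hb2 b3 hb3 ?_ ?_ ?_ ?_
    · rintro rfl
      exact hxy (hb1'.symm.trans hb2')
    · rintro rfl
      exact hxz (hb1'.symm.trans hb3')
    · rintro rfl
      exact hyz (hb2'.symm.trans hb3')
    · apply Subtype.ext
      push_cast
      rw [hb1', hb2', hb3']
      exact hsum
  · have hdisj : Disjoint A1 A2 := by
      rw [Finset.disjoint_left]
      intro x hx hx'
      obtain ⟨b, hb, hb'⟩ := Finset.mem_map.1 hx'
      have h6 : φ x = 0 := by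
        rw [← hb']
        have := b.2
        rw [AddMonoidHom.mem_ker] at this
        simpa using this
      have h7 := (Finset.mem_filter.1 hx).2
      rw [h6] at h7
      exact hT0 h7
    have ht' : (p - 1) / 3 = t := by omega
    rw [Finset.card_union_of_disjoint hdisj, hA2, Finset.card_map, hA1, lower_pre φ hφ T,
      hTcard, ht']

theorem lower3_aux (n : ℕ) : ∀ (G : Type u) [AddCommGroup G] [Finite G], Nat.card G = n →
    1 < n → (∀ d, d ∣ n → d % 3 = 1) →
    ∃ A : Finset G, Adm A ∧ 3 * A.card = n + 5 := by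
  induction n using Nat.strong_induction_on with
  | _ n ih =>
    intro G _ _ hG h1 hd
    obtain ⟨p, hp, hpn⟩ := Nat.exists_prime_and_dvd h1.ne'
    have hp3 : p % 3 = 1 := hd p hpn
    have hp5 : 5 ≤ p := by
      have := hp.two_le
      by_contra hcon
      have h4 : p = 2 ∨ p = 3 ∨ p = 4 := by omega
      rcases h4 with h | h | h
      · omega
      · omega
      · rw [h] at hp
        exact absurd hp (by decide)
    by_cases hnp : n = p
    · obtain ⟨A, hA, hA'⟩ := lower2 G (by rw [hG, hnp]; exact hp) (by rw [hG, hnp]; exact hp5)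
      refine ⟨A, hA, ?_⟩
      rw [hA', hG, hnp]
      omega
    · obtain ⟨K, hcard, hK⟩ := lower_rec G p hp hp3 (by rw [hG]; exact hpn)
      rw [hG] at hcard
      set m := Nat.card K with hm
      have hm0 : m ≠ 0 := by
        rintro h
        rw [h, mul_zero] at hcard
        omega
      have hm1 : 1 < m := by
        by_contra hcon
        have : m = 1 := by omega
        rw [this, mul_one] at hcard
        exact hnp hcard
      have hmn : m < n := by
        rw [hcard]
        nlinarith [hp.two_le]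
      obtain ⟨B, hB, hB'⟩ := ih m hmn K hm.symm hm1 (fun d hdm => hd d (by
        rw [hcard]; exact Dvd.dvd.mul_left hdm p))
      obtain ⟨A, hA, hA'⟩ := hK B hB
      refine ⟨A, hA, ?_⟩
      obtain ⟨t, ht⟩ : ∃ t, p = 3 * t + 1 := ⟨p / 3, by omega⟩
      have ht' : (p - 1) / 3 = t := by omega
      rw [hA', mul_add, hB', hcard, ht', ht]
      ring

theorem lower3 (G : Type u) [AddCommGroup G] [Finite G] (h1 : 1 < Nat.card G)
    (hd : ∀ d, d ∣ Nat.card G → d % 3 = 1) :
    ∃ A : Finset G, Adm A ∧ 3 * A.card = Nat.card G + 5 :=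
  lower3_aux _ G rfl h1 hd

end Pool.Agent.DG
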