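import Pool.Agent.DG.Pairing

set_option autoImplicit false

namespace Pool.Agent.DG

section Part0

open Finset

variable {Q : Type*} [AddCommGroup Q] [Fintype Q] {q M : ℕ} {k : Q → ℕ}

theorem mid1R_sum_le (hk : Fib q k) : ∑ i, k i ≤ q * ell k 1 := by
  classical
  have h1 : ∑ i, k i = ∑ i ∈ L k 1, k i := by
    symm
    apply Finset.sum_subset (Finset.subset_univ _)
    intro i _ hi
    rw [mem_L] at hi
    omega
  rw [h1]
  calc ∑ i ∈ L k 1, k i ≤ ∑ i ∈ L k 1, q := Finset.sum_le_sum (fun i _ => hk.le i)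
    _ = q * ell k 1 := by rw [Finset.sum_const, smul_eq_mul, mul_comm]; rfl

theorem mt1R (hq : q = 3 * M + 1) (hM : 2 ≤ M) (hk : Fib q k) (hodd : Nat.card Q % 2 = 1)
    (hN : 1 < Nat.card Q) {D' : ℕ} (hD : ∀ X : Finset Q, Adm X → X.card ≤ D')
    (hz : ∀ X : Finset Q, NZ X X X → 3 * X.card ≤ Nat.card Q)
    (hD3 : 3 ≤ D' ∨ (Nat.card Q = 3 ∧ 2 ≤ D')) :
    ∑ i, k i ≤ M * Nat.card Q + D' ∨ Crit (L k 1) := by
  classical
  by_cases hcrit : Crit (L k 1)
  · exact Or.inr hcrit
  left
  set N := Nat.card Q with hNdef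
  -- the maximum
  obtain ⟨i0, -, hmax⟩ := Finset.exists_max_image (univ : Finset Q) k
    (Finset.card_pos.1 (by rw [Finset.card_univ, ← Nat.card_eq_fintype_card]; omega))
  have hmax' : ∀ i, k i ≤ k i0 := fun i => hmax i (Finset.mem_univ i)
  rcases Nat.lt_or_ge (M + 1) (k i0) with h1 | h1
  swap
  · exact caseA1 hq hk (fun i => (hmax' i).trans h1) hD
  rcases Nat.lt_or_ge (2 * M) (k i0) with h2 | h2
  swap
  · obtain ⟨hB, hB'⟩ := caseB1 hq hM hk hodd hmax' (by omega) h2
    rw [← hNdef] at hB hB'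
    rcases hD3 with h3 | ⟨h3, h3'⟩
    · omega
    · have h0 : i0 + i0 + i0 = 0 := by
        have : (Nat.card Q) • i0 = 0 := card_nsmul_eq_zero'
        rw [← hNdef, h3] at this
        rw [← this, succ_nsmul, two_nsmul]
      have := hB' h0
      omega
  rcases Nat.lt_or_ge (2 * N) (3 * ell k 1) with h3 | h3
  · exact big1 hq hM hk hodd (i0 := i0) (by omega) h3 hD
  -- now `3 n_1 ≤ 2 N`
  by_cases hnz : NZ (L k 1) (L k 1) (L k 1)
  · have e1 : 3 * ell k 1 ≤ N := hz _ hnz
    have e2 : ell k 1 ≤ D' := hD _ (fun x hx y hy z hz _ _ _ => hnz x hx y hy z hz)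
    have e3 := mid1R_sum_le hk
    rw [hq] at e3
    have e4 : (3 * M + 1) * ell k 1 = M * (3 * ell k 1) + ell k 1 := by ring
    have e5 : M * (3 * ell k 1) ≤ M * N := Nat.mul_le_mul_left _ e1
    omega
  -- pairs
  have hpair : ∀ b, 3 ≤ b → b ≤ M + 1 → 3 * (ell k (3 * M + 2 - b) + ell k b) ≤ 2 * N := by
    intro b hb hb'
    have := pb hk hodd (a := 3 * M + 2 - b) (b := b) (by omega) (by omega) (by omega) (by omega)
      (Or.inl hb) h3 hnz hcrit
    rw [L3_eq hk (by omega)] at this
    exact this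
  have hlev : ∀ s, M + 3 ≤ s → 3 * ell k s ≤ N := fun s hs =>
    hz _ (nz_lev hk (by omega) (by omega))
  have hM2 : ell k (M + 2) ≤ D' := hD _ (adm_lev hk (by omega))
  rw [lev_sum hk.le, hq]
  obtain ⟨m, rfl⟩ : ∃ m, M = m + 2 := ⟨M - 2, by omega⟩
  by_cases hE : ECase q k
  · have hE1 := ecase_le hk (by omega) hodd hE
    have hs := sum1E (M := m + 2) (N := N) (B := N) hM (fun s => ell k s)
      (fun b hb hb' => hpair b hb (by omega)) (fun s hs _ => hlev s hs)
    rw [show m + 2 - 2 = m by omega, show m + 2 - 1 = m + 1 by omega] at hs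
    have e1 : (m + 1) * (2 * N) = 2 * (m * N) + 2 * N := by ring
    have e2 : (m + 2) * N = m * N + 2 * N := by ring
    have hqq : ell k q = ell k (3 * (m + 2) + 1) := by rw [hq]
    rw [hqq] at hE1
    have h3M := hlev (3 * (m + 2)) (by omega)
    by_contra hcon
    have hfull : ell k (m + 2 + 2) = D' ∧ 3 * ell k (3 * (m + 2)) = N ∧
        N + 1 ≤ ell k 1 + ell k 2 + ell k (3 * (m + 2) + 1) := by
      refine ⟨?_, ?_, ?_⟩ <;> omega
    obtain ⟨g1, g2, g3⟩ := hfull
    -- the pair `(3 M, M + 2)`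
    have g4 : 3 * (ell k (3 * (m + 2)) + ell k (m + 2 + 2)) ≤ 2 * N := by
      have := pb hk hodd (a := 3 * (m + 2)) (b := m + 2 + 2) (by omega) (by omega) (by omega)
        (by omega) (Or.inl (by omega)) h3 hnz hcrit
      rw [L3_eq hk (by omega)] at this
      exact this
    have hsub : L k (3 * (m + 2)) ⊆ L k 1 := lev_anti (by omega)
    by_cases heq : L k (3 * (m + 2)) = L k 1
    · have c1 : ell k 1 = ell k (3 * (m + 2)) := by unfold ell; rw [heq]
      have c2 : ell k 2 ≤ ell k 1 := lev_card_anti (by omega)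
      have c3 : ell k (3 * (m + 2) + 1) ≤ ell k (3 * (m + 2)) := lev_card_anti (by omega)
      omega
    · obtain ⟨v, hv1, hv2⟩ : ∃ v ∈ L k 1, v ∉ L k (3 * (m + 2)) := by
        by_contra hcon2
        push Not at hcon2
        exact heq (Finset.Subset.antisymm hsub hcon2)
      have hX : NZ (L k (3 * (m + 2))) (L k (3 * (m + 2))) (L k (3 * (m + 2))) :=
        nz_lev hk (by omega) (by omega)
      have hXv : ∀ x ∈ L k (3 * (m + 2)), ∀ y ∈ L k (3 * (m + 2)), x + y + v ≠ 0 := by
        intro x hx y hy hsum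
        rw [mem_L] at hx hy
        have hx3 : x + x + x ≠ 0 := fun h0 => by have := hk.c3 x h0; omega
        have := (avg hk hsum hx3 (by omega) (by omega) (mem_L.1 hv1)).2
        omega
      have hU : Adm (insert v (L k (3 * (m + 2)))) := by
        intro x hx y hy z hz hxy hxz hyz hsum
        rw [Finset.mem_insert] at hx hy hz
        rcases hx with rfl | hx <;> rcases hy with rfl | hy <;> rcases hz with rfl | hz
        · exact hxy rfl
        · exact hxy rfl
        · exact hxz rfl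
        · exact hXv y hy z hz (by rw [← hsum]; abel)
        · exact hyz rfl
        · exact hXv x hx z hz (by rw [← hsum]; abel)
        · exact hXv x hx y hy hsum
        · exact hX x hx y hy z hz hsum
      have := hD _ hU
      rw [Finset.card_insert_of_notMem hv2] at this
      have g5 : (L k (3 * (m + 2))).card = ell k (3 * (m + 2)) := rfl
      omega
  · have hs := sum1 (M := m + 2) (N := N) (B := N) hM (fun s => ell k s)
      (fun b hb hb' => by
        have := pb hk hodd (a := 3 * (m + 2) + 2 - b) (b := b) (by omega) (by omega) (by omega)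
          (by omega) (Or.inr hE) h3 hnz hcrit
        rw [L3_eq hk (by omega)] at this
        exact this) (fun s hs _ => hlev s hs)
    rw [show m + 2 - 2 = m by omega] at hs
    have e1 : (m + 2 + 1) * (2 * N) = 2 * (m * N) + 6 * N := by ring
    have e2 : (m + 2) * N = m * N + 2 * N := by ring
    omega


end Part0

section Part1

open Finset

variable {Q : Type*} [AddCommGroup Q] [Fintype Q] {q M : ℕ} {k : Q → ℕ}

theorem mid1II_sum_le (hk : Fib q k) : ∑ i, k i ≤ q * ell k 1 := by
  classical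
  have h1 : ∑ i, k i = ∑ i ∈ L k 1, k i := by
    symm
    apply Finset.sum_subset (Finset.subset_univ _)
    intro i _ hi
    rw [mem_L] at hi
    omega
  rw [h1]
  calc ∑ i ∈ L k 1, k i ≤ ∑ i ∈ L k 1, q := Finset.sum_le_sum (fun i _ => hk.le i)
    _ = q * ell k 1 := by rw [Finset.sum_const, smul_eq_mul, mul_comm]; rfl

/-- Special level sets: the three possibilities. -/
theorem mid1II_special (hk : Fib q k) (h5 : 5 ≤ q) {σ ρ : ℕ}
    (hσ : Nat.card Q + ρ = 3 * σ)
    (hz : ∀ X : Finset Q, NZ X X X → 3 * X.card ≤ Nat.card Q + ρ)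
    (h3 : ∀ i : Q, i + i + i = 0 → i = 0) {s : ℕ} (hs : q + 4 ≤ 3 * s) : ell k s ≤ σ + 1 := by
  classical
  have hnz : NZ ((L k s).erase 0) ((L k s).erase 0) ((L k s).erase 0) := by
    intro x hx y hy z hz
    rw [Finset.mem_erase] at hx hy hz
    exact nz_lev0 hk h5 h3 hs x hx.2 y hy.2 z hz.2 hx.1 hy.1 hz.1
  have h1 := hz _ hnz
  have h2 := Finset.pred_card_le_card_erase (s := L k s) (a := (0 : Q))
  unfold ell
  omega

theorem mt1II (hq : q = 3 * M + 1) (hM : 2 ≤ M) (hk : Fib q k) (hodd : Nat.card Q % 2 = 1)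
    (hN : 1 < Nat.card Q) {σ ρ : ℕ} (hσ : Nat.card Q + ρ = 3 * σ) (hρ : 1 ≤ ρ)
    (hz : ∀ X : Finset Q, NZ X X X → 3 * X.card ≤ Nat.card Q + ρ)
    (hD : ∀ X : Finset Q, Adm X → X.card ≤ σ + 2)
    (hex : (∀ X : Finset Q, Adm X → X.card ≤ σ) ∨ 3 ≤ ρ ∨ ∀ i : Q, i + i + i = 0 → i = 0) :
    ∑ i, k i ≤ q * σ ∨ Crit (L k 1) := by
  classical
  by_cases hcrit : Crit (L k 1)
  · exact Or.inr hcrit
  left
  set N := Nat.card Q with hNdef
  -- target: `3 q σ = (3 M + 1) (N + ρ)`
  have htar : 3 * (q * σ) = 3 * (M * N) + 3 * (M * ρ) + N + ρ := by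
    rw [← mul_assoc, mul_comm 3 q, mul_assoc, ← hσ, hq]; ring
  have hMρ : 2 * ρ ≤ M * ρ := Nat.mul_le_mul_right _ hM
  -- the maximum
  obtain ⟨i0, -, hmax⟩ := Finset.exists_max_image (univ : Finset Q) k
    (Finset.card_pos.1 (by rw [Finset.card_univ, ← Nat.card_eq_fintype_card]; omega))
  have hmax' : ∀ i, k i ≤ k i0 := fun i => hmax i (Finset.mem_univ i)
  rcases Nat.lt_or_ge (M + 1) (k i0) with h1 | h1
  swap
  · have := caseA1 hq hk (fun i => (hmax' i).trans h1) hD
    rw [← hNdef] at this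
    omega
  rcases Nat.lt_or_ge (2 * M) (k i0) with h2 | h2
  swap
  · obtain ⟨hB, hB'⟩ := caseB1 hq hM hk hodd hmax' (by omega) h2
    rw [← hNdef] at hB
    omega
  rcases Nat.lt_or_ge (2 * N) (3 * ell k 1) with h3 | h3
  · have := big1 hq hM hk hodd (i0 := i0) (by omega)
      h3 hD
    rw [← hNdef] at this
    omega
  -- now `3 n_1 ≤ 2 N`
  by_cases hnz : NZ (L k 1) (L k 1) (L k 1)
  · have e1 : 3 * ell k 1 ≤ N + ρ := hz _ hnz
    have e3 := mid1II_sum_le hk
    have e4 : q * ell k 1 ≤ q * σ := Nat.mul_le_mul_left _ (by omega)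
    omega
  have hpb : ∀ b, 1 ≤ b → (3 ≤ b ∨ ¬ ECase q k) → b ≤ M + 1 →
      3 * (ell k (3 * M + 2 - b) + ell k b) ≤ 2 * N := by
    intro b hb hE hb'
    have := pb hk hodd (a := 3 * M + 2 - b) (b := b) (by omega) (by omega) (by omega) (by omega)
      hE h3 hnz hcrit
    rw [L3_eq hk (by omega)] at this
    exact this
  have hlev : ∀ s, M + 3 ≤ s → 3 * ell k s ≤ N + ρ := fun s hs =>
    hz _ (nz_lev hk (by omega) (by omega))
  have hM2 : ell k (M + 2) ≤ σ + 2 := hD _ (adm_lev hk (by omega))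
  have hM2' : ell k (M + 2) ≤ σ ∨ 3 ≤ ρ ∨ ell k (M + 2) ≤ σ + 1 := by
    rcases hex with h | h | h
    · exact Or.inl (h _ (adm_lev hk (by omega)))
    · exact Or.inr (Or.inl h)
    · exact Or.inr (Or.inr (mid1II_special hk (by omega) hσ
        hz h (by omega)))
  rw [lev_sum hk.le]
  have hsumq : ∑ s ∈ Icc 1 q, ell k s = ∑ s ∈ Icc 1 (3 * M + 1), ell k s := by rw [hq]
  rw [hsumq]
  obtain ⟨m, rfl⟩ : ∃ m, M = m + 2 := ⟨M - 2, by omega⟩
  have e2 : (m + 2) * N = m * N + 2 * N := by ring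
  have e3 : (m + 2) * ρ = m * ρ + 2 * ρ := by ring
  have e4 : m * (N + ρ) = m * N + m * ρ := by ring
  by_cases hE : ECase q k
  · have hE1 := ecase_le hk (by omega) hodd hE
    rw [← hNdef] at hE1
    have hs := sum1E (M := m + 2) (N := N) (B := N + ρ) hM (fun s => ell k s)
      (fun b hb hb' => hpb b (by omega) (Or.inl hb) hb') (fun s hs _ => hlev s hs)
    rw [show m + 2 - 2 = m by omega, show m + 2 - 1 = m + 1 by omega] at hs
    have e1 : (m + 1) * (2 * N) = 2 * (m * N) + 2 * N := by ring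
    have hqq : ell k q = ell k (3 * (m + 2) + 1) := by rw [hq]
    rw [hqq] at hE1
    have h3M := hlev (3 * (m + 2)) (by omega)
    rcases hM2' with h | h | h <;> omega
  · have hs := sum1 (M := m + 2) (N := N) (B := N + ρ) hM (fun s => ell k s)
      (fun b hb hb' => hpb b hb (Or.inr hE) hb') (fun s hs _ => hlev s hs)
    rw [show m + 2 - 2 = m by omega] at hs
    have e1 : (m + 2 + 1) * (2 * N) = 2 * (m * N) + 6 * N := by ring
    omega


end Part1

section Part2

open Finset

variable {Q : Type*} [AddCommGroup Q] [Fintype Q] {q M : ℕ} {k : Q → ℕ}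

theorem mid2_sum_le (hk : Fib q k) : ∑ i, k i ≤ q * ell k 1 := by
  classical
  have h1 : ∑ i, k i = ∑ i ∈ L k 1, k i := by
    symm
    apply Finset.sum_subset (Finset.subset_univ _)
    intro i _ hi
    rw [mem_L] at hi
    omega
  rw [h1]
  calc ∑ i ∈ L k 1, k i ≤ ∑ i ∈ L k 1, q := Finset.sum_le_sum (fun i _ => hk.le i)
    _ = q * ell k 1 := by rw [Finset.sum_const, smul_eq_mul, mul_comm]; rfl

/-- Special level sets: the three possibilities. -/
theorem mid2_special (hk : Fib q k) (h5 : 5 ≤ q) {σ ρ : ℕ}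
    (hσ : Nat.card Q + ρ = 3 * σ)
    (hz : ∀ X : Finset Q, NZ X X X → 3 * X.card ≤ Nat.card Q + ρ)
    (h3 : ∀ i : Q, i + i + i = 0 → i = 0) {s : ℕ} (hs : q + 4 ≤ 3 * s) : ell k s ≤ σ + 1 := by
  classical
  have hnz : NZ ((L k s).erase 0) ((L k s).erase 0) ((L k s).erase 0) := by
    intro x hx y hy z hz
    rw [Finset.mem_erase] at hx hy hz
    exact nz_lev0 hk h5 h3 hs x hx.2 y hy.2 z hz.2 hx.1 hy.1 hz.1
  have h1 := hz _ hnz
  have h2 := Finset.pred_card_le_card_erase (s := L k s) (a := (0 : Q))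
  unfold ell
  omega

theorem mt2II (hq : q = 3 * M + 2) (hM : 3 ≤ M) (hk : Fib q k) (hodd : Nat.card Q % 2 = 1)
    (hN : 1 < Nat.card Q) {σ ρ : ℕ} (hσ : Nat.card Q + ρ = 3 * σ) (hρ : 1 ≤ ρ)
    (hqρ : Nat.card Q ≤ q * ρ)
    (hz : ∀ X : Finset Q, NZ X X X → 3 * X.card ≤ Nat.card Q + ρ)
    (hD : ∀ X : Finset Q, Adm X → X.card ≤ σ + 2)
    (hex : (∀ X : Finset Q, Adm X → X.card ≤ σ) ∨ 3 ≤ ρ ∨ ∀ i : Q, i + i + i = 0 → i = 0) :
    ∑ i, k i ≤ q * σ ∨ Crit (L k 1) := by
  classical
  by_cases hcrit : Crit (L k 1)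
  · exact Or.inr hcrit
  left
  set N := Nat.card Q with hNdef
  -- target: `3 q σ = (3 M + 2) (N + ρ)`
  have htar : 3 * (q * σ) = 3 * (M * N) + 3 * (M * ρ) + 2 * N + 2 * ρ := by
    rw [← mul_assoc, mul_comm 3 q, mul_assoc, ← hσ, hq]; ring
  have htar' : 3 * (q * σ) = q * N + q * ρ := by
    rw [← mul_assoc, mul_comm 3 q, mul_assoc, ← hσ]; ring
  have hqN : q * N = 3 * (M * N) + 2 * N := by rw [hq]; ring
  have hMρ : 3 * ρ ≤ M * ρ := Nat.mul_le_mul_right _ hM
  by_cases h1 : ∀ i, k i ≤ 2 * M + 2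
  · have := caseB2 hq hM hk hodd (by omega) h1
    rw [← hNdef] at this
    have e : (M + 1) * N = M * N + N := by ring
    omega
  obtain ⟨i0, hi0⟩ : ∃ i, 2 * M + 3 ≤ k i := by
    by_contra hcon
    push Not at hcon
    exact h1 (fun i => by have := hcon i; omega)
  rcases Nat.lt_or_ge (2 * N) (3 * ell k 1) with h3 | h3
  · have := big2 hq (by omega) hk hodd (i0 := i0) hi0 h3
    rw [← hNdef] at this
    omega
  -- now `3 n_1 ≤ 2 N`
  by_cases hnz : NZ (L k 1) (L k 1) (L k 1)
  · have e1 : 3 * ell k 1 ≤ N + ρ := hz _ hnz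
    have e3 := mid2_sum_le hk
    have e4 : q * ell k 1 ≤ q * σ := Nat.mul_le_mul_left _ (by omega)
    omega
  have hpb : ∀ b, 1 ≤ b → (3 ≤ b ∨ ¬ ECase q k) → b ≤ M + 1 →
      3 * (ell k (3 * M + 3 - b) + ell k b) ≤ 2 * N := by
    intro b hb hE hb'
    have := pb hk hodd (a := 3 * M + 3 - b) (b := b) (by omega) (by omega) (by omega) (by omega)
      hE h3 hnz hcrit
    rw [L3_eq hk (by omega)] at this
    exact this
  have hlev : ∀ s, M + 4 ≤ s → 3 * ell k s ≤ N + ρ := fun s hs =>
    hz _ (nz_lev hk (by omega) (by omega))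
  have hM2 : ∀ s, M + 2 ≤ s → ell k s ≤ σ + 2 := fun s hs => hD _ (adm_lev hk (by omega))
  have hM2' : 3 ≤ ρ ∨ (∀ s, M + 2 ≤ s → ell k s ≤ σ + 1) := by
    rcases hex with h | h | h
    · right
      intro s hs
      have : ell k s ≤ σ := h _ (adm_lev hk (by omega))
      omega
    · exact Or.inl h
    · exact Or.inr (fun s hs => mid2_special hk (by omega) hσ hz h (by omega))
  have g1 := hM2 (M + 2) (by omega)
  have g2 := hM2 (M + 3) (by omega)
  rw [lev_sum hk.le]
  have hsumq : ∑ s ∈ Icc 1 q, ell k s = ∑ s ∈ Icc 1 (3 * M + 2), ell k s := by rw [hq]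
  rw [hsumq]
  obtain ⟨m, rfl⟩ : ∃ m, M = m + 3 := ⟨M - 3, by omega⟩
  have e2 : (m + 3) * N = m * N + 3 * N := by ring
  have e3 : (m + 3) * ρ = m * ρ + 3 * ρ := by ring
  have e4 : (m + 1) * (N + ρ) = m * N + m * ρ + N + ρ := by ring
  by_cases hE : ECase q k
  · have hE1 := ecase_le hk (by omega) hodd hE
    have hs := sum2E (M := m + 3) (N := N) (B := N + ρ) (by omega) (fun s => ell k s)
      (fun b hb hb' => hpb b (by omega) (Or.inl hb) hb') (fun s hs _ => hlev s hs)
    rw [show m + 3 - 2 = m + 1 by omega, show m + 3 - 1 = m + 2 by omega] at hs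
    have e1 : (m + 2) * (2 * N) = 2 * (m * N) + 4 * N := by ring
    have hqq : ell k q = ell k (3 * (m + 3) + 2) := by rw [hq]
    rw [hqq] at hE1
    have h3M := hlev (3 * (m + 3) + 1) (by omega)
    rcases hM2' with h | h
    · omega
    · have g3 := h (m + 3 + 2) (by omega)
      have g4 := h (m + 3 + 3) (by omega)
      omega
  · have hs := sum2 (M := m + 3) (N := N) (B := N + ρ) (by omega) (fun s => ell k s)
      (fun b hb hb' => hpb b hb (Or.inr hE) hb') (fun s hs _ => hlev s hs)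
    rw [show m + 3 - 2 = m + 1 by omega] at hs
    have e1 : (m + 3 + 1) * (2 * N) = 2 * (m * N) + 8 * N := by ring
    rcases hM2' with h | h
    · omega
    · have g3 := h (m + 3 + 2) (by omega)
      have g4 := h (m + 3 + 3) (by omega)
      omega

theorem mt2R (hq : q = 3 * M + 2) (hM : 3 ≤ M) (hk : Fib q k) (hodd : Nat.card Q % 2 = 1)
    (hN : 1 < Nat.card Q) (hz : ∀ X : Finset Q, NZ X X X → 3 * X.card ≤ Nat.card Q) :
    ∑ i, k i ≤ (M + 1) * Nat.card Q ∨ Crit (L k 1) := by
  classical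
  by_cases hcrit : Crit (L k 1)
  · exact Or.inr hcrit
  left
  set N := Nat.card Q with hNdef
  have htar : (M + 1) * N = M * N + N := by ring
  have hqN : q * N = 3 * (M * N) + 2 * N := by rw [hq]; ring
  by_cases h1 : ∀ i, k i ≤ 2 * M + 2
  · exact caseB2 hq hM hk hodd (by omega) h1
  obtain ⟨i0, hi0⟩ : ∃ i, 2 * M + 3 ≤ k i := by
    by_contra hcon
    push Not at hcon
    exact h1 (fun i => by have := hcon i; omega)
  rcases Nat.lt_or_ge (2 * N) (3 * ell k 1) with h3 | h3
  · have := big2 hq (by omega) hk hodd (i0 := i0) hi0 h3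
    rw [← hNdef] at this
    omega
  by_cases hnz : NZ (L k 1) (L k 1) (L k 1)
  · have e1 : 3 * ell k 1 ≤ N := hz _ hnz
    have e3 := mid2_sum_le hk
    have e4 : q * (3 * ell k 1) ≤ q * N := Nat.mul_le_mul_left _ e1
    have e5 : q * (3 * ell k 1) = 3 * (q * ell k 1) := by ring
    omega
  have hpb : ∀ b, 1 ≤ b → (3 ≤ b ∨ ¬ ECase q k) → b ≤ M + 1 →
      3 * (ell k (3 * M + 3 - b) + ell k b) ≤ 2 * N := by
    intro b hb hE hb'
    have := pb hk hodd (a := 3 * M + 3 - b) (b := b) (by omega) (by omega) (by omega) (by omega)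
      hE h3 hnz hcrit
    rw [L3_eq hk (by omega)] at this
    exact this
  have hlev : ∀ s, M + 4 ≤ s → 3 * ell k s ≤ N := fun s hs =>
    hz _ (nz_lev hk (by omega) (by omega))
  have hne : (L3 k (2 * M + 3)).Nonempty := by
    rw [L3_eq hk (by omega)]
    exact ⟨i0, mem_L.2 hi0⟩
  have g1 := half_lev hk hodd hne (b := M + 2) (by omega) (by omega) (by omega)
  have g2 := half_lev hk hodd hne (b := M + 3) (by omega) (by omega) (by omega)
  rw [← hNdef] at g1 g2
  rw [lev_sum hk.le]
  have hsumq : ∑ s ∈ Icc 1 q, ell k s = ∑ s ∈ Icc 1 (3 * M + 2), ell k s := by rw [hq]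
  rw [hsumq]
  obtain ⟨m, rfl⟩ : ∃ m, M = m + 3 := ⟨M - 3, by omega⟩
  have e2 : (m + 3) * N = m * N + 3 * N := by ring
  have e4 : (m + 1) * N = m * N + N := by ring
  by_cases hE : ECase q k
  · have hE1 := ecase_le hk (by omega) hodd hE
    have hs := sum2E (M := m + 3) (N := N) (B := N) (by omega) (fun s => ell k s)
      (fun b hb hb' => hpb b (by omega) (Or.inl hb) hb') (fun s hs _ => hlev s hs)
    rw [show m + 3 - 2 = m + 1 by omega, show m + 3 - 1 = m + 2 by omega] at hs
    have e1 : (m + 2) * (2 * N) = 2 * (m * N) + 4 * N := by ring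
    have hqq : ell k q = ell k (3 * (m + 3) + 2) := by rw [hq]
    rw [hqq] at hE1
    have h3M := hlev (3 * (m + 3) + 1) (by omega)
    omega
  · have hs := sum2 (M := m + 3) (N := N) (B := N) (by omega) (fun s => ell k s)
      (fun b hb hb' => hpb b hb (Or.inr hE) hb') (fun s hs _ => hlev s hs)
    rw [show m + 3 - 2 = m + 1 by omega] at hs
    have e1 : (m + 3 + 1) * (2 * N) = 2 * (m * N) + 8 * N := by ring
    omega


end Part2

section Part3

open Finset

variable {Q : Type*} [AddCommGroup Q] [Fintype Q] {q M : ℕ} {k : Q → ℕ}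

/-- the `3`-torsion elements of large fibre size are at most half of the `3`-torsion -/
theorem mid5_tors (hk : Fib 5 k) (hodd : Nat.card Q % 2 = 1) {i0 : Q} (h0 : i0 + i0 + i0 ≠ 0) :
    ∃ w t : ℕ, ell k 4 = (L3 k 4).card + w ∧ 2 * w ≤ t + 1 ∧ 3 * t ≤ Nat.card Q ∧ 1 ≤ t := by
  classical
  obtain ⟨W, hW⟩ : ∃ W : Finset Q, W = (L k 4).filter (fun i => ¬ (i + i + i ≠ 0)) := ⟨_, rfl⟩
  obtain ⟨T, hT⟩ : ∃ T : Finset Q, T = univ.filter (fun i : Q => i + i + i = 0) := ⟨_, rfl⟩
  have memW : ∀ i, i ∈ W ↔ 4 ≤ k i ∧ i + i + i = 0 := by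
    intro i; rw [hW, Finset.mem_filter, mem_L, not_not]
  have memT : ∀ i, i ∈ T ↔ i + i + i = 0 := by
    intro i; rw [hT, Finset.mem_filter]; simp
  refine ⟨W.card, T.card, ?_, ?_, ?_, ?_⟩
  · have h1 : (L3 k 4).card = ((L k 4).filter (fun i => i + i + i ≠ 0)).card := by
      have h2 : L3 k 4 = (L k 4).filter (fun i => i + i + i ≠ 0) := by
        ext i
        rw [mem_L3, Finset.mem_filter, mem_L]
      rw [h2]
    rw [h1, hW]
    unfold ell
    exact (Finset.card_filter_add_card_filter_not _).symm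
  · rcases W.eq_empty_or_nonempty with hE | ⟨w0, hw0⟩
    · rw [hE]; simp
    · have hw0' := (memW w0).1 hw0
      have h1 : (W.erase w0).card ≤ (T \ W).card := by
        apply Finset.card_le_card_of_injOn (fun w => -w0 - w)
        · intro w hw
          have hw1 : w ≠ w0 := (Finset.mem_erase.1 hw).1
          have hw2 := (memW w).1 (Finset.mem_erase.1 hw).2
          have hT3 : (-w0 - w) + (-w0 - w) + (-w0 - w) = 0 := by
            have : (-w0 - w) + (-w0 - w) + (-w0 - w) = -(w0 + w0 + w0) - (w + w + w) := by abel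
            rw [this, hw0'.2, hw2.2]; simp
          have hz : w0 + w + (-w0 - w) = 0 := by abel
          have hne1 : w0 ≠ -w0 - w := by
            intro h
            apply hw1
            have h2 : w0 + w0 + w = 0 := by
              have : w0 + w0 + w = w0 - (-w0 - w) := by abel
              rw [this, ← h, sub_self]
            have h3 : w - w0 = (w0 + w0 + w) - (w0 + w0 + w0) := by abel
            rw [h2, hw0'.2, sub_self] at h3
            exact sub_eq_zero.1 h3
          have hne2 : w ≠ -w0 - w := by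
            intro h
            apply hw1
            have h2 : w + w + w0 = 0 := by
              have : w + w + w0 = w - (-w0 - w) := by abel
              rw [this, ← h, sub_self]
            have h3 : w0 - w = (w + w + w0) - (w + w + w) := by abel
            rw [h2, hw2.2, sub_self] at h3
            exact (sub_eq_zero.1 h3).symm
          have hk0 : ¬ 4 ≤ k (-w0 - w) := by
            intro h4
            have := hk.c1 w0 w (-w0 - w) hz (Ne.symm hw1) hne1 hne2 (by omega) (by omega) (by omega)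
            omega
          show (-w0 - w) ∈ ((T \ W : Finset Q) : Set Q)
          rw [Finset.mem_coe, Finset.mem_sdiff, memT, memW]
          exact ⟨hT3, fun h => hk0 h.1⟩
        · intro a _ b _ hab
          have : -w0 - a = -w0 - b := hab
          exact sub_right_injective this
      have h2 : (W.erase w0).card + 1 = W.card := Finset.card_erase_add_one hw0
      have h3 : W ⊆ T := by
        intro w hw
        exact (memT w).2 ((memW w).1 hw).2
      have h4 : (T \ W).card + W.card = T.card := Finset.card_sdiff_add_card_eq_card h3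
      omega
  · -- the subgroup of elements of order dividing 3
    have h1 : Nat.card (nsmulAddMonoidHom (α := Q) 3).ker = T.card := by
      rw [← Nat.card_eq_finsetCard]
      apply Nat.card_congr
      refine Equiv.subtypeEquivRight ?_
      intro i
      rw [memT, AddMonoidHom.mem_ker]
      simp only [nsmulAddMonoidHom_apply]
      rw [show (3 : ℕ) • i = i + i + i by abel]
    have h2 := AddSubgroup.card_mul_index (nsmulAddMonoidHom (α := Q) 3).ker
    rw [h1] at h2
    have h3 : (nsmulAddMonoidHom (α := Q) 3).ker.index ≠ 1 := by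
      intro h
      rw [AddSubgroup.index_eq_one] at h
      have h4 : i0 ∈ (nsmulAddMonoidHom (α := Q) 3).ker := by rw [h]; trivial
      rw [AddMonoidHom.mem_ker] at h4
      simp only [nsmulAddMonoidHom_apply] at h4
      apply h0
      rw [← h4]
      abel
    obtain ⟨m, hm⟩ : ∃ m : ℕ, m = (nsmulAddMonoidHom (α := Q) 3).ker.index := ⟨_, rfl⟩
    rw [← hm] at h2 h3
    have h5 : m % 2 = 1 := by
      rcases Nat.mod_two_eq_zero_or_one m with h | h
      · exfalso
        have : Nat.card Q % 2 = 0 := by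
          rw [← h2, Nat.mul_mod, h]; simp
        omega
      · exact h
    have h6 : 3 ≤ m := by omega
    rw [← h2]
    nlinarith [Nat.zero_le T.card]
  · apply Finset.card_pos.2
    exact ⟨0, (memT 0).2 (by simp)⟩

/-- `q = 5`. -/
theorem mt5 (hk : Fib 5 k) (hodd : Nat.card Q % 2 = 1) (hN : 5 ≤ Nat.card Q)
    (hz : ∀ X : Finset Q, NZ X X X → 5 * X.card ≤ 2 * Nat.card Q) :
    ∑ i, k i ≤ 2 * Nat.card Q ∨ Crit (L k 1) := by
  classical
  by_cases hmax : ∀ i, k i ≤ 4
  · exact Or.inl (caseB5 hk hodd hN hmax)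
  by_cases hcr : Crit (L k 1)
  · exact Or.inr hcr
  left
  push Not at hmax
  obtain ⟨i0, hi0⟩ := hmax
  have hk5 := hk.le i0
  have h0 : i0 + i0 + i0 ≠ 0 := by
    intro h
    have := hk.c3 i0 h
    omega
  by_cases hs : 2 * Nat.card Q < 3 * ell k 1
  · have h1 := big2 (q := 5) (M := 1) (by norm_num) le_rfl hk hodd (i0 := i0) (by omega) hs
    omega
  have hs' : 3 * ell k 1 ≤ 2 * Nat.card Q := by omega
  by_cases hnz : NZ (L k 1) (L k 1) (L k 1)
  · have h1 := hz _ hnz
    have h2 : ∑ i, k i ≤ 5 * (L k 1).card := by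
      have h3 : ∑ i, k i = ∑ i ∈ L k 1, k i := by
        symm
        apply Finset.sum_subset (Finset.subset_univ _)
        intro i _ hi
        rw [mem_L] at hi
        omega
      rw [h3, mul_comm, ← smul_eq_mul]
      apply Finset.sum_le_card_nsmul
      intro i _
      exact hk.le i
    omega
  have hsum : ∑ i, k i = ell k 1 + ell k 2 + ell k 3 + ell k 4 + ell k 5 := by
    rw [lev_sum hk.le]
    have : Icc 1 5 = ({1, 2, 3, 4, 5} : Finset ℕ) := by decide
    rw [this]
    simp [Finset.sum_insert]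
    ring
  obtain ⟨w, t, h4, hw, ht, ht1⟩ := mid5_tors hk hodd h0
  have hL5 : (L3 k 5).card = ell k 5 := by
    rw [L3_eq hk (by norm_num)]
    rfl
  by_cases hE : ECase 5 k
  · have h1 := ecase_le hk le_rfl hodd hE
    have h2 := pb hk hodd (a := 4) (b := 3) (by norm_num) (by norm_num) (by norm_num) (by norm_num)
      (Or.inl le_rfl) hs' hnz hcr
    omega
  · have h1 := pb hk hodd (a := 5) (b := 1) (by norm_num) (by norm_num) (by norm_num) (by norm_num)
      (Or.inr hE) hs' hnz hcr
    have h2 := pb hk hodd (a := 4) (b := 2) (by norm_num) (by norm_num) (by norm_num) (by norm_num)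
      (Or.inr hE) hs' hnz hcr
    have h3 := half_lev hk hodd (a := 5) (b := 3) ⟨i0, mem_L3.2 ⟨by omega, h0⟩⟩ (by norm_num)
      (by norm_num) le_rfl
    omega

/-- `q = 5`, `|Q| = 3`. -/
theorem mt53 (hk : Fib 5 k) (hN : Nat.card Q = 3) : ∑ i, k i ≤ 8 := by
  classical
  have hcard : Fintype.card Q = 3 := by rw [← Nat.card_eq_fintype_card, hN]
  have h3 : ∀ i : Q, i + i + i = 0 := by
    intro i
    have h1 : Fintype.card Q • i = 0 := card_nsmul_eq_zero
    rw [hcard] at h1
    rw [← h1]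
    abel
  have hk4 : ∀ i, k i ≤ 4 := by
    intro i
    have := hk.c3 i (h3 i)
    omega
  have hnt : Nontrivial Q := by
    rw [← Fintype.one_lt_card_iff_nontrivial, hcard]
    norm_num
  obtain ⟨a, ha⟩ := exists_ne (0 : Q)
  have haa : a + a ≠ 0 := by
    intro h
    have := h3 a
    rw [h, zero_add] at this
    exact ha this
  have haaa : a ≠ a + a := by
    intro h
    apply ha
    have : a + a - a = 0 := by rw [← h, sub_self]
    rwa [add_sub_cancel_right] at this
  have huniv : (univ : Finset Q) = {0, a, a + a} := by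
    symm
    apply Finset.eq_univ_of_card
    rw [hcard]
    rw [Finset.card_insert_of_notMem, Finset.card_insert_of_notMem, Finset.card_singleton]
    · rw [Finset.mem_singleton]; exact haaa
    · rw [Finset.mem_insert, Finset.mem_singleton]
      rintro (h | h)
      · exact ha h.symm
      · exact haa h.symm
  rw [huniv, Finset.sum_insert, Finset.sum_insert, Finset.sum_singleton]
  · have b0 := hk4 0
    have b1 := hk4 a
    have b2 := hk4 (a + a)
    by_cases hp : 0 < k 0 ∧ 0 < k a ∧ 0 < k (a + a)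
    · have := hk.c1 0 a (a + a) (by rw [zero_add, ← h3 a]; abel) ha.symm haa.symm haaa hp.1 hp.2.1
        hp.2.2
      omega
    · omega
  · rw [Finset.mem_singleton]; exact haaa
  · rw [Finset.mem_insert, Finset.mem_singleton]
    rintro (h | h)
    · exact ha h.symm
    · exact haa h.symm


end Part3

end Pool.Agent.DG
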