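import Pool.Agent.DG.K3
import Pool.Agent.Kneser.Basic

set_option autoImplicit false

namespace Pool.Agent.DG

section Part0

open Finset

/-- `S` is critical: modulo a subgroup `F` of index `3 t + 1` it meets exactly `t + 1` classes, and
the `t` classes met by some `X ⊆ S` take part in no zero-sum triple of classes of `S`. -/
def Crit {Q : Type*} [AddCommGroup Q] (S : Finset Q) : Prop :=
  ∃ (F : AddSubgroup Q) (t : ℕ) (X : Finset Q), 1 ≤ t ∧ Nat.card (Q ⧸ F) = 3 * t + 1 ∧ X ⊆ S ∧
    (cl F X).card = t ∧ (cl F S).card = t + 1 ∧ ∀ x ∈ X, ∀ y ∈ S, ∀ z ∈ S, x + y + z ∉ F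

variable {Q : Type*} [AddCommGroup Q] [Finite Q]

omit [Finite Q] in
theorem pair_class {F : AddSubgroup Q} {a b c : Q}
    (h : (QuotientAddGroup.mk a : Q ⧸ F) = QuotientAddGroup.mk b) :
    b + c ∈ F ↔ a + c ∈ F := by
  rw [← QuotientAddGroup.eq_zero_iff, ← QuotientAddGroup.eq_zero_iff, QuotientAddGroup.mk_add,
    QuotientAddGroup.mk_add, h]

/-- The pair lemma. -/
theorem pair3 (_hodd : Nat.card Q % 2 = 1) (X Y S : Finset Q) (hXY : X ⊆ Y) (hYS : Y ⊆ S)
    (hX : X.Nonempty) (h : NZ X Y S) :
    3 * (X.card + Y.card) ≤ 2 * Nat.card Q ∨ NZ S S S ∨ Crit S := by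
  obtain ⟨F, hF, hc⟩ := k3 X Y S hX (hX.mono hXY) ((hX.mono hXY).mono hYS) h
  have c1 := cl_card_le F hXY
  have c2 := cl_card_le F hYS
  have hpos : 1 ≤ (cl F X).card := by
    obtain ⟨x, hx⟩ := hX
    exact card_pos.2 ⟨_, mk_mem_cl F hx⟩
  have hfd := card_quot F
  have b1 := card_le_cl F X
  have b2 := card_le_cl F Y
  set x' := (cl F X).card with hx'
  set y' := (cl F Y).card with hy'
  set s' := (cl F S).card with hs'
  set d := Nat.card (Q ⧸ F) with hd
  set f := Nat.card F with hf
  by_cases hcase : 3 * (x' + y') ≤ 2 * d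
  · left
    calc 3 * (X.card + Y.card) ≤ 3 * (f * x' + f * y') := by omega
      _ = f * (3 * (x' + y')) := by ring
      _ ≤ f * (2 * d) := Nat.mul_le_mul_left _ hcase
      _ = 2 * Nat.card Q := by rw [← hfd]; ring
  · right
    have hsubXY : cl F X ⊆ cl F Y := by
      intro c hc
      obtain ⟨x, hx, rfl⟩ := mem_cl.1 hc
      exact mk_mem_cl F (hXY hx)
    have hsubYS : cl F Y ⊆ cl F S := by
      intro c hc
      obtain ⟨x, hx, rfl⟩ := mem_cl.1 hc
      exact mk_mem_cl F (hYS hx)
    have hys : s' ≤ y' := by omega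
    have eYS : cl F Y = cl F S := eq_of_subset_of_card_le hsubYS hys
    -- replace a member of `S` by a member of `Y`
    have key : ∀ x ∈ X, ∀ y ∈ S, ∀ z ∈ S, x + y + z ∉ F := by
      intro x hx y hy z hz hm
      have h1 := mk_mem_cl F hy
      rw [← eYS] at h1
      obtain ⟨y1, hy1, e1⟩ := mem_cl.1 h1
      apply hF x hx y1 hy1 z hz
      have e2 : x + y1 + z = y1 + (x + z) := by abel
      have e3 : x + y + z = y + (x + z) := by abel
      rw [e2]
      rw [e3] at hm
      exact (pair_class e1).1 hm
    rcases (show y' = x' ∨ y' = x' + 1 by omega) with hyx | hyx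
    · left
      have eXY : cl F X = cl F Y := eq_of_subset_of_card_le hsubXY (by omega)
      intro s1 h1 s2 h2 s3 h3 hsum
      have h4 := mk_mem_cl F h1
      rw [← eYS, ← eXY] at h4
      obtain ⟨x, hx, e1⟩ := mem_cl.1 h4
      apply key x hx s2 h2 s3 h3
      rw [add_assoc]
      apply (pair_class e1).1
      rw [← add_assoc, hsum]
      exact F.zero_mem
    · right
      exact ⟨F, x', X, hpos, by omega, hXY.trans hYS, rfl, by omega, key⟩

/-- Zero-sum-free sets, `φ = |Q| / r` where `r` is the least divisor `≡ 2 (mod 3)`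
(or `φ = 0` if there is none). -/
theorem zsf' {φ : ℕ} (hQ : ∀ d, d ∣ Nat.card Q → d % 3 = 2 → Nat.card Q / d ≤ φ) (X : Finset Q)
    (h : NZ X X X) : 3 * X.card ≤ Nat.card Q + φ := by
  rcases X.eq_empty_or_nonempty with hX | hX
  · rw [hX]
    simp
  obtain ⟨F, _, hc⟩ := k3 X X X hX hX hX h
  have hfd := card_quot F
  have b1 := card_le_cl F X
  set x' := (cl F X).card with hx'
  set d := Nat.card (Q ⧸ F) with hd
  set f := Nat.card F with hf
  have hdpos : 0 < d := Nat.card_pos
  by_cases h2 : d % 3 = 2
  · have h3 : Nat.card Q / d = f := by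
      rw [← hfd]
      exact Nat.mul_div_cancel _ hdpos
    have h4 := hQ d ⟨f, by rw [← hfd]; ring⟩ h2
    rw [h3] at h4
    calc 3 * X.card ≤ 3 * (f * x') := by omega
      _ = f * (3 * x') := by ring
      _ ≤ f * (d + 1) := Nat.mul_le_mul_left _ (by omega)
      _ = f * d + f := by ring
      _ ≤ Nat.card Q + φ := by rw [hfd]; omega
  · calc 3 * X.card ≤ 3 * (f * x') := by omega
      _ = f * (3 * x') := by ring
      _ ≤ f * d := Nat.mul_le_mul_left _ (by omega)
      _ ≤ Nat.card Q + φ := by rw [hfd]; omega


end Part0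

section Part1

open Finset

open scoped Pointwise in
open Pool.Agent.Kneser in
theorem scherk_one {G : Type*} [AddCommGroup G] [Fintype G] [DecidableEq G] (H A : Finset G)
    (a : G) (hH : IsSub H) :
    A.card + H.card ≤ (A + H).card + (A.filter (fun x => x - a ∈ H)).card ∨ a ∉ A := by
  by_cases ha : a ∈ A
  · left
    have h1 : A.card = (A.filter (fun x => x - a ∈ H)).card
        + (A.filter (fun x => ¬ x - a ∈ H)).card :=
      (Finset.card_filter_add_card_filter_not _).symm
    have h2 : H.card + (A.filter (fun x => ¬ x - a ∈ H)).card ≤ (A + H).card := by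
      have e : (H.image (fun h => a + h)).card = H.card :=
        Finset.card_image_of_injective _ (add_right_injective a)
      rw [← e, ← Finset.card_union_of_disjoint]
      · apply Finset.card_le_card
        intro z hz
        rw [Finset.mem_union] at hz
        rcases hz with hz | hz
        · rw [Finset.mem_image] at hz
          obtain ⟨h, hh, rfl⟩ := hz
          exact Finset.add_mem_add ha hh
        · rw [Finset.mem_filter] at hz
          have := Finset.add_mem_add hz.1 hH.zero
          simpa using this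
      · rw [Finset.disjoint_left]
        intro z hz hz'
        rw [Finset.mem_image] at hz
        obtain ⟨h, hh, rfl⟩ := hz
        rw [Finset.mem_filter] at hz'
        apply hz'.2
        simpa using hh
    omega
  · right; exact ha

open scoped Pointwise in
open Pool.Agent.Kneser in
theorem scherk_two {G : Type*} [AddCommGroup G] [Fintype G] [DecidableEq G] (H A B : Finset G)
    (a b : G) (hH : IsSub H)
    (h : ∀ x ∈ A, ∀ y ∈ B, x + y = a + b → x = a ∧ y = b) :
    (A.filter (fun x => x - a ∈ H)).card + (B.filter (fun x => x - b ∈ H)).card ≤ H.card + 1 := by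
  set A1 := A.filter (fun x => x - a ∈ H) with hA1
  set B1 := B.filter (fun x => x - b ∈ H) with hB1
  have e1 : (A1.image (fun x => x - a)).card = A1.card :=
    Finset.card_image_of_injective _ (sub_left_injective)
  have e2 : (B1.image (fun y => b - y)).card = B1.card :=
    Finset.card_image_of_injective _ (sub_right_injective)
  have e3 : (A1.image (fun x => x - a) ∩ B1.image (fun y => b - y)).card ≤ 1 := by
    rw [Finset.card_le_one]
    have key : ∀ z ∈ A1.image (fun x => x - a) ∩ B1.image (fun y => b - y), z = 0 := by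
      intro z hz
      rw [Finset.mem_inter, Finset.mem_image, Finset.mem_image] at hz
      obtain ⟨⟨x, hx, hxz⟩, ⟨y, hy, hyz⟩⟩ := hz
      rw [hA1, Finset.mem_filter] at hx
      rw [hB1, Finset.mem_filter] at hy
      have hxy : x + y = a + b := by
        have h3 : x - a = b - y := hxz.trans hyz.symm
        rw [sub_eq_sub_iff_add_eq_add] at h3
        rw [h3, add_comm]
      have := (h x hx.1 y hy.1 hxy).1
      rw [← hxz, this, sub_self]
    intro z hz w hw
    rw [key z hz, key w hw]
  have e4 : (A1.image (fun x => x - a) ∪ B1.image (fun y => b - y)).card ≤ H.card := by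
    apply Finset.card_le_card
    intro z hz
    rw [Finset.mem_union, Finset.mem_image, Finset.mem_image] at hz
    rcases hz with ⟨x, hx, rfl⟩ | ⟨y, hy, rfl⟩
    · rw [hA1, Finset.mem_filter] at hx
      exact hx.2
    · rw [hB1, Finset.mem_filter] at hy
      have := hH.neg hy.2
      simpa using this
  have e5 := Finset.card_union_add_card_inter (A1.image (fun x => x - a))
    (B1.image (fun y => b - y))
  omega

open scoped Pointwise in
open Pool.Agent.Kneser in
/-- Scherk's lemma: if `a + b` has only one representation in `A + B` and `C` is disjoint from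
`A + B` then `|A| + |B| + |C| ≤ |Q| + 1`. -/
theorem scherk {Q : Type*} [AddCommGroup Q] [Finite Q] (A B C : Finset Q) (a b : Q) (ha : a ∈ A)
    (hb : b ∈ B)
    (h : ∀ x ∈ A, ∀ y ∈ B, x + y = a + b → x = a ∧ y = b)
    (hC : ∀ x ∈ A, ∀ y ∈ B, x + y ∉ C) : A.card + B.card + C.card ≤ Nat.card Q + 1 := by
  classical
  have : Fintype Q := Fintype.ofFinite Q
  have hkn := Pool.Agent.Kneser.kneser (A := A) (B := B) ⟨a, ha⟩ ⟨b, hb⟩
  set H := stab (A + B) with hHdef
  have hH : IsSub H := isSub_stab _
  have h1 := (scherk_one H A a hH).resolve_right (by simpa using ha)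
  have h2 := (scherk_one H B b hH).resolve_right (by simpa using hb)
  have h3 := scherk_two H A B a b hH h
  have h4 : (A + B).card + C.card ≤ Nat.card Q := by
    rw [← Finset.card_union_of_disjoint, Nat.card_eq_fintype_card]
    · exact Finset.card_le_univ _
    · rw [Finset.disjoint_left]
      intro z hz hz'
      rw [Finset.mem_add] at hz
      obtain ⟨x, hx, y, hy, rfl⟩ := hz
      exact hC x hx y hy hz'
  omega


end Part1

end Pool.Agent.DG
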