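import Pool.Agent.DG.Levels2
import Pool.Agent.DG.Avoid

set_option autoImplicit false

namespace Pool.Agent.DG

section Part0

open Finset

variable {Q : Type*} [AddCommGroup Q] [Fintype Q] {q M : ℕ} {k : Q → ℕ}

theorem caseA1 (hq : q = 3 * M + 1) (hk : Fib q k) (hmax : ∀ i, k i ≤ M + 1) {D' : ℕ}
    (hD : ∀ X : Finset Q, Adm X → X.card ≤ D') : ∑ i, k i ≤ M * Nat.card Q + D' := by
  classical
  have h1 : ∀ i : Q, k i ≤ M + (if M + 1 ≤ k i then 1 else 0) := by
    intro i
    have := hmax i
    split_ifs with h
    · exact this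
    · omega
  have h2 : ∑ i : Q, k i ≤ ∑ i : Q, (M + (if M + 1 ≤ k i then 1 else 0)) :=
    Finset.sum_le_sum (fun i _ => h1 i)
  have h3 : ∑ i : Q, (M + (if M + 1 ≤ k i then 1 else 0)) = M * Nat.card Q + ell k (M + 1) := by
    rw [Finset.sum_add_distrib, Finset.sum_const, Finset.card_univ, smul_eq_mul,
      Nat.card_eq_fintype_card, mul_comm, ell, L, Finset.card_filter]
  have h4 : ell k (M + 1) ≤ D' := hD _ (adm_lev hk (by omega))
  omega

/-- Doubling is injective in a group of odd order. -/
theorem pairing_dbl {Q : Type*} [AddCommGroup Q] (hodd : Nat.card Q % 2 = 1) {x : Q}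
    (h : x + x = 0) : x = 0 := by
  have h1 : Nat.card Q • x = 0 := card_nsmul_eq_zero'
  obtain ⟨n, hn⟩ : ∃ n, Nat.card Q = 2 * n + 1 := ⟨Nat.card Q / 2, by omega⟩
  rw [hn, add_smul, mul_comm, mul_smul, two_smul, h, smul_zero, zero_add, one_smul] at h1
  exact h1

/-- Halving in a group of odd order. -/
theorem pairing_half {Q : Type*} [AddCommGroup Q] (hodd : Nat.card Q % 2 = 1) (x : Q) :
    ∃ h : Q, h + h = x := by
  have h1 : Nat.card Q • x = 0 := card_nsmul_eq_zero'
  obtain ⟨n, hn⟩ : ∃ n, Nat.card Q = 2 * n + 1 := ⟨Nat.card Q / 2, by omega⟩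
  rw [hn, add_smul, mul_smul, two_smul, one_smul] at h1
  refine ⟨- (n • x), ?_⟩
  have h2 : - (n • x) + - (n • x) = x - (n • x + n • x + x) := by abel
  rw [h2, h1, sub_zero]

/-- The sum over the pairs. -/
theorem pairing_sum (i0 : Q) : ∑ j : Q, (k j + k (-i0 - j)) = 2 * ∑ j : Q, k j := by
  rw [Finset.sum_add_distrib, two_mul]
  congr 1
  exact Equiv.sum_comp (Equiv.subLeft (-i0)) k

/-- Pairing `j` with `-i0 - j`. -/
theorem pairing (hk : Fib q k) (hodd : Nat.card Q % 2 = 1) {i0 : Q} {m g g' : ℕ}
    (hi : k i0 = m) (hmax : ∀ i, k i ≤ m) (hm : 2 ≤ m) (hg1 : q + 1 ≤ g + m) (hg2 : m ≤ g)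
    (hg3 : q + 3 ≤ g' + m) (hg4 : m ≤ g') (hg5 : 2 ≤ g') :
    (i0 + i0 + i0 ≠ 0 → 2 * ∑ i, k i + 3 * g ≤ Nat.card Q * g + 3 * g') ∧
    (i0 + i0 + i0 = 0 → 2 * ∑ i, k i + g ≤ Nat.card Q * g + 2 * m) := by
  classical
  have hgen : ∀ j : Q, i0 ≠ j → i0 ≠ -i0 - j → j ≠ -i0 - j → k j + k (-i0 - j) ≤ g := by
    intro j h1 h2 h3
    rcases Nat.eq_zero_or_pos (k j) with h4 | h4
    · have := hmax (-i0 - j)
      omega
    · rcases Nat.eq_zero_or_pos (k (-i0 - j)) with h5 | h5
      · have := hmax j
        omega
      · have := hk.c1 i0 j (-i0 - j) (by abel) h1 h2 h3 (by omega) h4 h5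
        omega
  constructor
  · intro h3
    obtain ⟨h, hh⟩ := pairing_half hodd (-i0)
    have ne1 : i0 ≠ -i0 - i0 := by
      intro e
      apply h3
      have : i0 + i0 + i0 = i0 - (-i0 - i0) := by abel
      rw [this, ← e, sub_self]
    have ne2 : i0 ≠ h := by
      intro e
      apply h3
      have : i0 + i0 + i0 = (i0 + i0) - (-i0) := by abel
      rw [this]
      nth_rewrite 1 [e]
      nth_rewrite 1 [e]
      rw [hh, sub_self]
    have ne3 : -i0 - i0 ≠ h := by
      intro e
      apply h3
      have : i0 + i0 + i0 = - ((-i0 - i0) + (-i0 - i0)) - i0 := by abel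
      rw [this, e, hh, neg_neg, sub_self]
    have hb0 : k i0 + k (-i0 - i0) ≤ g' := by
      rcases Nat.eq_zero_or_pos (k (-i0 - i0)) with h5 | h5
      · omega
      · have := hk.c2 i0 (-i0 - i0) (by abel) ne1 (by omega) h5
        omega
    let S : Finset Q := {i0, -i0 - i0, h}
    have hS : S.card = 3 := Finset.card_eq_three.mpr ⟨i0, -i0 - i0, h, ne1, ne2, ne3, rfl⟩
    have hb : ∀ j : Q, k j + k (-i0 - j) ≤ if j ∈ S then g' else g := by
      intro j
      by_cases hj : j ∈ S
      · rw [if_pos hj]
        simp only [S, Finset.mem_insert, Finset.mem_singleton] at hj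
        rcases hj with rfl | rfl | rfl
        · exact hb0
        · have e : -i0 - (-i0 - i0) = i0 := by abel
          rw [e, add_comm]
          exact hb0
        · have e : -i0 - j = j := by rw [← hh]; abel
          rw [e]
          by_cases h6 : 2 ≤ k j
          · have := hk.c2 j i0 (by rw [hh]; abel) ne2.symm h6 (by omega)
            omega
          · omega
      · rw [if_neg hj]
        simp only [S, Finset.mem_insert, Finset.mem_singleton, not_or] at hj
        apply hgen j (Ne.symm hj.1)
        · intro e
          apply hj.2.1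
          have : j = -i0 - (-i0 - j) := by abel
          rw [this, ← e]
        · intro e
          apply hj.2.2
          have h7 : (j - h) + (j - h) = 0 := by
            have : (j - h) + (j - h) = j - (-i0 - j) + (-i0) - (h + h) := by abel
            rw [this, ← e, hh]
            abel
          exact sub_eq_zero.mp (pairing_dbl hodd h7)
    have hsum : ∑ j : Q, (k j + k (-i0 - j)) ≤ ∑ j : Q, (if j ∈ S then g' else g) :=
      Finset.sum_le_sum (fun j _ => hb j)
    rw [pairing_sum] at hsum
    have h8 : ∑ j : Q, (if j ∈ S then g' else g) + 3 * g = Nat.card Q * g + 3 * g' := by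
      have h9 : ∑ j : Q, (if j ∈ S then g' else g) = S.card * g' + Sᶜ.card * g := by
        rw [Finset.sum_ite, Finset.sum_const, Finset.sum_const, smul_eq_mul, smul_eq_mul]
        congr 2
        · congr 1
          ext j; simp
        · congr 1
          ext j; simp
      have h10 : S.card + Sᶜ.card = Nat.card Q := by
        rw [Finset.card_add_card_compl, Nat.card_eq_fintype_card]
      rw [h9, ← h10, hS]
      ring
    omega
  · intro h3
    have hb : ∀ j : Q, k j + k (-i0 - j) ≤ if j = i0 then 2 * m else g := by
      intro j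
      by_cases hj : j = i0
      · rw [if_pos hj, hj]
        have e : -i0 - i0 = i0 := by
          have : -i0 - i0 = i0 - (i0 + i0 + i0) := by abel
          rw [this, h3, sub_zero]
        rw [e]
        omega
      · rw [if_neg hj]
        apply hgen j (Ne.symm hj)
        · intro e
          apply hj
          have : j = -(i0 + i0) := by
            have : j = -i0 - (-i0 - j) := by abel
            rw [this, ← e]
            abel
          rw [this]
          have : -(i0 + i0) = i0 - (i0 + i0 + i0) := by abel
          rw [this, h3, sub_zero]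
        · intro e
          apply hj
          have h7 : (j - i0) + (j - i0) = 0 := by
            have : (j - i0) + (j - i0) = j - (-i0 - j) - (i0 + i0 + i0) := by abel
            rw [this, ← e, h3, sub_zero, sub_self]
          exact sub_eq_zero.mp (pairing_dbl hodd h7)
    have hsum : ∑ j : Q, (k j + k (-i0 - j)) ≤ ∑ j : Q, (if j = i0 then 2 * m else g) :=
      Finset.sum_le_sum (fun j _ => hb j)
    rw [pairing_sum] at hsum
    have h8 : ∑ j : Q, (if j = i0 then 2 * m else g) + g = Nat.card Q * g + 2 * m := by
      rw [← Finset.add_sum_erase univ _ (Finset.mem_univ i0), if_pos rfl]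
      have h9 : ∑ j ∈ univ.erase i0, (if j = i0 then 2 * m else g) =
          ∑ j ∈ univ.erase i0, g := by
        apply Finset.sum_congr rfl
        intro j hj
        rw [if_neg (Finset.ne_of_mem_erase hj)]
      rw [h9, Finset.sum_const, smul_eq_mul, Finset.card_erase_of_mem (Finset.mem_univ i0),
        Finset.card_univ, ← Nat.card_eq_fintype_card]
      have hpos : 0 < Nat.card Q := by omega
      obtain ⟨n, hn⟩ : ∃ n, Nat.card Q = n + 1 := ⟨Nat.card Q - 1, by omega⟩
      rw [hn]
      simp only [Nat.add_sub_cancel]
      ring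
    omega

theorem caseB1 (hq : q = 3 * M + 1) (hM : 2 ≤ M) (hk : Fib q k) (hodd : Nat.card Q % 2 = 1)
    {i0 : Q} (hmax : ∀ i, k i ≤ k i0) (h1 : M + 2 ≤ k i0) (h2 : k i0 ≤ 2 * M) :
    ∑ i, k i ≤ M * Nat.card Q + 3 ∧ (i0 + i0 + i0 = 0 → ∑ i, k i ≤ M * Nat.card Q + 2) := by
  have hp := pairing (g := 2 * M) (g' := 2 * M + 2) hk hodd (i0 := i0) rfl hmax (by omega)
    (by omega) (by omega) (by omega) (by omega) (by omega)
  have e : Nat.card Q * (2 * M) = 2 * (M * Nat.card Q) := by ring
  rw [e] at hp
  have h0 : i0 + i0 + i0 = 0 → ∑ i, k i ≤ M * Nat.card Q + 2 := by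
    intro h3
    have := hp.2 h3
    have := hk.c3 i0 h3
    omega
  refine ⟨?_, h0⟩
  by_cases h3 : i0 + i0 + i0 = 0
  · have := h0 h3
    omega
  · have := hp.1 h3
    omega

theorem caseB2 (hq : q = 3 * M + 2) (hM : 3 ≤ M) (hk : Fib q k) (hodd : Nat.card Q % 2 = 1)
    (hN : 3 ≤ Nat.card Q) (hmax : ∀ i, k i ≤ 2 * M + 2) :
    ∑ i, k i ≤ (M + 1) * Nat.card Q := by
  obtain ⟨i0, -, hi0⟩ := Finset.exists_max_image (univ : Finset Q) k ⟨0, Finset.mem_univ 0⟩
  have hi : ∀ i, k i ≤ k i0 := fun i => hi0 i (Finset.mem_univ i)
  have hm0 := hmax i0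
  have e0 : (M + 1) * Nat.card Q = M * Nat.card Q + Nat.card Q := by ring
  rw [e0]
  have e1 : Nat.card Q * (2 * M + 1) = 2 * (M * Nat.card Q) + Nat.card Q := by ring
  have e2 : Nat.card Q * (2 * M + 2) = 2 * (M * Nat.card Q) + 2 * Nat.card Q := by ring
  have e3 : Nat.card Q * (2 * M) = 2 * (M * Nat.card Q) := by ring
  rcases Nat.lt_or_ge (k i0) (M + 2) with hlt | hge
  · have h1 : ∑ i : Q, k i ≤ ∑ _i : Q, (M + 1) :=
      Finset.sum_le_sum (fun i _ => by have := hi i; omega)
    rw [Finset.sum_const, smul_eq_mul, Finset.card_univ, ← Nat.card_eq_fintype_card] at h1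
    have : Nat.card Q * (M + 1) = M * Nat.card Q + Nat.card Q := by ring
    omega
  · rcases Nat.eq_or_lt_of_le hge with heq | hgt
    · have hp := pairing (g := 2 * M + 1) (g' := 2 * M + 3) hk hodd (i0 := i0) rfl hi (by omega)
        (by omega) (by omega) (by omega) (by omega) (by omega)
      rw [e1] at hp
      by_cases h3 : i0 + i0 + i0 = 0
      · have := hp.2 h3
        omega
      · have h4 := hp.1 h3
        have h5 : Nat.card Q ≠ 3 := by
          intro h6
          apply h3
          have h7 : Nat.card Q • i0 = 0 := card_nsmul_eq_zero'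
          rw [h6] at h7
          rw [← h7]
          abel
        omega
    · by_cases h3 : i0 + i0 + i0 = 0
      · have h4 := hk.c3 i0 h3
        have hp := pairing (g := 2 * M) (g' := 2 * M + 3) hk hodd (i0 := i0) rfl hi (by omega)
          (by omega) (by omega) (by omega) (by omega) (by omega)
        rw [e3] at hp
        have := hp.2 h3
        omega
      · have hp := pairing (g := 2 * M + 2) (g' := 2 * M + 2) hk hodd (i0 := i0) rfl hi (by omega)
          (by omega) (by omega) (by omega) (by omega) (by omega)
        rw [e2] at hp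
        have := hp.1 h3
        omega


end Part0

section Part1

open Finset

variable {Q : Type*} [AddCommGroup Q] [Fintype Q] {q M : ℕ} {k : Q → ℕ}

omit [Fintype Q] in
/-- In a group of odd order doubling is injective. -/
theorem B5_two_inj (hodd : Nat.card Q % 2 = 1) {x y : Q} (h : x + x = y + y) : x = y := by
  have h1 : (2 : ℕ) • (x - y) = 0 := by
    rw [two_nsmul]
    have : x - y + (x - y) = (x + x) - (y + y) := by abel
    rw [this, h, sub_self]
  have h2 : (Nat.card Q) • (x - y) = 0 := card_nsmul_eq_zero'
  have h3 : addOrderOf (x - y) ∣ 2 := addOrderOf_dvd_of_nsmul_eq_zero h1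
  have h4 : addOrderOf (x - y) ∣ Nat.card Q := addOrderOf_dvd_of_nsmul_eq_zero h2
  have h5 : addOrderOf (x - y) = 1 := by
    rcases (Nat.dvd_prime Nat.prime_two).mp h3 with h | h
    · exact h
    · rw [h] at h4
      omega
  rw [AddMonoid.addOrderOf_eq_one_iff] at h5
  exact sub_eq_zero.mp h5

/-- Admissible sets are less than half of a group of exponent three. -/
theorem B5_half (hodd : Nat.card Q % 2 = 1) (hN : 5 ≤ Nat.card Q)
    (h3 : ∀ i : Q, i + i + i = 0) (U : Finset Q) (hU : Adm U) : 2 * U.card + 1 ≤ Nat.card Q := by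
  classical
  have hNc : Nat.card Q = Fintype.card Q := Nat.card_eq_fintype_card
  -- the complement
  have hmap : ∀ w ∈ U, (U.erase w).image (fun u => -w - u) ⊆ univ \ U := by
    intro w hw l hl
    rw [Finset.mem_image] at hl
    obtain ⟨u, hu, rfl⟩ := hl
    rw [Finset.mem_erase] at hu
    rw [Finset.mem_sdiff]
    refine ⟨mem_univ _, fun hl => ?_⟩
    have hw3 := h3 w
    have e1 : w ≠ -w - u := by
      intro h
      apply hu.1
      linear_combination (norm := abel) h - hw3
    have e2 : u ≠ -w - u := by
      intro h
      apply hu.1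
      apply B5_two_inj hodd
      linear_combination (norm := abel) h - hw3
    exact hU w hw u hu.2 (-w - u) hl (Ne.symm hu.1) e1 e2 (by abel)
  by_contra hcon
  have hcomp : (univ \ U).card = Fintype.card Q - U.card := by
    rw [Finset.card_sdiff_of_subset (Finset.subset_univ U), Finset.card_univ]
  have hcardim : ∀ w ∈ U, ((U.erase w).image (fun u => -w - u)).card = U.card - 1 := by
    intro w hw
    rw [Finset.card_image_of_injective _ (fun x y hxy => sub_right_injective hxy),
      Finset.card_erase_of_mem hw]
  have hUle : U.card ≤ Fintype.card Q := Finset.card_le_univ U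
  have heq : ∀ w ∈ U, (U.erase w).image (fun u => -w - u) = univ \ U := by
    intro w hw
    apply Finset.eq_of_subset_of_card_le (hmap w hw)
    rw [hcomp, hcardim w hw]
    omega
  have hUc : 2 < U.card := by omega
  rw [Finset.two_lt_card] at hUc
  obtain ⟨w, hw, w', hw', b, hb, hww', hwb, hw'b⟩ := hUc
  have hstep : ∀ c ∈ U, c ≠ w → c + (w - w') ∈ U ∧ c + (w - w') ≠ w' := by
    intro c hc hcw
    have h1 : -w - c ∈ (U.erase w).image (fun u => -w - u) :=
      Finset.mem_image.mpr ⟨c, Finset.mem_erase.mpr ⟨hcw, hc⟩, rfl⟩
    rw [heq w hw, ← heq w' hw', Finset.mem_image] at h1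
    obtain ⟨u, hu, hu2⟩ := h1
    rw [Finset.mem_erase] at hu
    have : u = c + (w - w') := by
      linear_combination (norm := abel) -hu2
    rw [← this]
    exact ⟨hu.2, hu.1⟩
  have ht : w - w' ≠ 0 := sub_ne_zero.mpr hww'
  have hb1 := hstep b hb (Ne.symm hwb)
  have hb2 := hstep (b + (w - w')) hb1.1 (by
    intro h
    apply hw'b
    linear_combination (norm := abel) -h)
  refine hU b hb _ hb1.1 _ hb2.1 ?_ ?_ ?_ ?_
  · intro h
    apply ht
    linear_combination (norm := abel) -h
  · intro h
    apply ht
    apply B5_two_inj hodd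
    linear_combination (norm := abel) -h
  · intro h
    apply ht
    linear_combination (norm := abel) -h
  · have h1 := h3 b
    have h2 := h3 (w - w')
    linear_combination (norm := abel) h1 + h2

/-- `q = 5`, all fibres at most `4`. -/
theorem caseB5 (hk : Fib 5 k) (hodd : Nat.card Q % 2 = 1) (hN : 5 ≤ Nat.card Q)
    (hmax : ∀ i, k i ≤ 4) : ∑ i, k i ≤ 2 * Nat.card Q := by
  classical
  have hNc : Nat.card Q = Fintype.card Q := Nat.card_eq_fintype_card
  obtain ⟨i1, _, hmx⟩ := Finset.exists_max_image (univ : Finset Q) k ⟨0, mem_univ _⟩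
  have hmx' : ∀ i, k i ≤ k i1 := fun i => hmx i (mem_univ _)
  rcases Nat.lt_or_ge (k i1) 3 with h2 | h2
  · calc ∑ i, k i ≤ ∑ _i : Q, 2 := Finset.sum_le_sum (fun i _ => by have := hmx' i; omega)
      _ = 2 * Nat.card Q := by
          rw [Finset.sum_const, Finset.card_univ, hNc, smul_eq_mul, mul_comm]
  · rcases Nat.lt_or_ge (k i1) 4 with h4 | h4
    · have hk3 : k i1 = 3 := by omega
      have hp := pairing (g := 3) (g' := 5) hk hodd hk3 (fun i => hk3 ▸ hmx' i) (by norm_num)
        (by norm_num) (by norm_num) (by norm_num) (by norm_num) (by norm_num)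
      by_cases h3 : i1 + i1 + i1 = 0
      · have := hp.2 h3
        omega
      · have := hp.1 h3
        omega
    · by_cases hex : ∃ i0, k i0 = 4 ∧ i0 + i0 + i0 ≠ 0
      · obtain ⟨i0, hi0, h3⟩ := hex
        have hp := pairing (g := 4) (g' := 4) hk hodd hi0 hmax (by norm_num)
          (by norm_num) (by norm_num) (by norm_num) (by norm_num) (by norm_num)
        have := hp.1 h3
        omega
      · push Not at hex
        have hk4 : k i1 = 4 := le_antisymm (hmax i1) h4
        have h3 := hex i1 hk4
        -- the partner
        have hzero : ∀ j, 3 ≤ k j → j ≠ i1 → k (-i1 - j) = 0 := by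
          intro j hj hji
          by_contra hpos
          have e1 : i1 ≠ -i1 - j := by
            intro h
            apply hji
            linear_combination (norm := abel) h - h3
          have e2 : j ≠ -i1 - j := by
            intro h
            apply hji
            apply B5_two_inj hodd
            linear_combination (norm := abel) h - h3
          have := hk.c1 i1 j (-i1 - j) (by abel) (Ne.symm hji) e1 e2 (by omega) (by omega)
            (by omega)
          omega
        have hinv : ∀ j, -i1 - (-i1 - j) = j := fun j => by abel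
        -- the pointwise inequality
        have hpt : ∀ j, k j + k (-i1 - j) ≤ 2 + ((if 3 ≤ k j then 1 else 0) +
            (if 4 ≤ k j then 1 else 0)) + ((if 3 ≤ k (-i1 - j) then 1 else 0) +
            (if 4 ≤ k (-i1 - j) then 1 else 0)) + (if j = i1 then 2 else 0) := by
          intro j
          have hj4 := hmax j
          have hj4' := hmax (-i1 - j)
          by_cases hji : j = i1
          · have e1 : -i1 - i1 = i1 := by
              linear_combination (norm := abel) -h3
            subst hji
            rw [e1, hk4]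
            simp
          · rw [if_neg hji]
            by_cases ha : 3 ≤ k j
            · have h0 := hzero j ha hji
              rw [h0]
              split_ifs <;> omega
            · by_cases hb : 3 ≤ k (-i1 - j)
              · have hji' : -i1 - j ≠ i1 := by
                  intro h
                  apply hji
                  linear_combination (norm := abel) -h - h3
                have h0 := hzero (-i1 - j) hb hji'
                rw [hinv] at h0
                rw [h0]
                split_ifs <;> omega
              · rcases Nat.eq_zero_or_pos (k j) with hc | hc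
                · split_ifs <;> omega
                · rcases Nat.eq_zero_or_pos (k (-i1 - j)) with hd | hd
                  · split_ifs <;> omega
                  · have e1 : i1 ≠ -i1 - j := by
                      intro h
                      apply hji
                      linear_combination (norm := abel) h - h3
                    have e2 : j ≠ -i1 - j := by
                      intro h
                      apply hji
                      apply B5_two_inj hodd
                      linear_combination (norm := abel) h - h3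
                    have := hk.c1 i1 j (-i1 - j) (by abel) (Ne.symm hji) e1 e2 (by omega) hc hd
                    split_ifs <;> omega
        have hcomp : ∀ f : Q → ℕ, ∑ j, f (-i1 - j) = ∑ j, f j := fun f =>
          Equiv.sum_comp (Equiv.subLeft (-i1)) f
        have hn3 : ∑ j : Q, (if 3 ≤ k j then 1 else 0) = (L k 3).card := by
          rw [← Finset.sum_filter, Finset.sum_const, smul_eq_mul, mul_one]
          rfl
        have hn4 : ∑ j : Q, (if 4 ≤ k j then 1 else 0) = (L k 4).card := by
          rw [← Finset.sum_filter, Finset.sum_const, smul_eq_mul, mul_one]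
          rfl
        have hsum := Finset.sum_le_sum (s := (univ : Finset Q)) (fun j _ => hpt j)
        rw [Finset.sum_add_distrib, Finset.sum_add_distrib, Finset.sum_add_distrib,
          Finset.sum_add_distrib, hcomp k, hcomp (fun j => (if 3 ≤ k j then 1 else 0) +
            (if 4 ≤ k j then 1 else 0)), Finset.sum_add_distrib, hn3, hn4,
          Finset.sum_ite_eq' univ i1 (fun _ => 2), if_pos (mem_univ _), Finset.sum_const,
          Finset.card_univ, smul_eq_mul, ← hNc] at hsum
        suffices hW : (L k 4).card + (L k 3).card + 1 ≤ Nat.card Q by omega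
        by_cases hall : ∀ i : Q, i + i + i = 0
        · have a1 := B5_half hodd hN hall (L k 4) (adm_lev hk (by norm_num))
          have a2 := B5_half hodd hN hall (L k 3) (adm_lev hk (by norm_num))
          omega
        · push Not at hall
          obtain ⟨y, hy⟩ := hall
          -- the 3-torsion subgroup
          set H : AddSubgroup Q := (nsmulAddMonoidHom (α := Q) 3).ker with hH
          have hmemH : ∀ x : Q, x ∈ H ↔ x + x + x = 0 := by
            intro x
            rw [hH, AddMonoidHom.mem_ker]
            have : (nsmulAddMonoidHom (α := Q) 3) x = x + x + x := by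
              show (3 : ℕ) • x = x + x + x
              rw [succ_nsmul, two_nsmul]
            rw [this]
          have hlag : Nat.card H * H.index = Nat.card Q := AddSubgroup.card_mul_index H
          have hidx : 3 ≤ H.index := by
            have h1 : H.index ≠ 1 := by
              intro h
              rw [AddSubgroup.index_eq_one] at h
              apply hy
              rw [← hmemH, h]
              exact AddSubgroup.mem_top y
            have h2 : H.index ≠ 0 := by
              intro h
              rw [h, mul_zero] at hlag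
              omega
            have h3' : H.index ≠ 2 := by
              intro h
              rw [h] at hlag
              omega
            omega
          have ht3 : 3 * Nat.card H ≤ Nat.card Q := by
            rw [← hlag]
            nlinarith
          set T : Finset Q := univ.filter (fun x => x + x + x = 0) with hT
          have hTcard : T.card = Nat.card H := by
            rw [Nat.card_eq_fintype_card, Fintype.card_subtype]
            congr 1
            ext x
            rw [hT, Finset.mem_filter, Finset.mem_filter, hmemH]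
          -- bounds
          have b3 : (L k 3).card + ((L k 3).card - 1) ≤ Nat.card Q := by
            have hd : Disjoint (L k 3) (((L k 3).erase i1).image (fun j => -i1 - j)) := by
              rw [Finset.disjoint_left]
              intro l hl hl2
              rw [Finset.mem_image] at hl2
              obtain ⟨j, hj, rfl⟩ := hl2
              rw [Finset.mem_erase, mem_L] at hj
              rw [mem_L, hzero j hj.2 hj.1] at hl
              omega
            have hi1 : i1 ∈ L k 3 := by rw [mem_L]; omega
            have hc : (((L k 3).erase i1).image (fun j => -i1 - j)).card = (L k 3).card - 1 := by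
              rw [Finset.card_image_of_injective _ (fun x y hxy => sub_right_injective hxy),
                Finset.card_erase_of_mem hi1]
            rw [← hc, ← Finset.card_union_of_disjoint hd, hNc]
            exact Finset.card_le_univ _
          have b4 : (L k 4).card + ((L k 4).card - 1) ≤ T.card := by
            have hd : Disjoint (L k 4) (((L k 4).erase i1).image (fun j => -i1 - j)) := by
              rw [Finset.disjoint_left]
              intro l hl hl2
              rw [Finset.mem_image] at hl2
              obtain ⟨j, hj, rfl⟩ := hl2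
              rw [Finset.mem_erase, mem_L] at hj
              rw [mem_L, hzero j (by omega) hj.1] at hl
              omega
            have hi1 : i1 ∈ L k 4 := by rw [mem_L]; omega
            have hc : (((L k 4).erase i1).image (fun j => -i1 - j)).card = (L k 4).card - 1 := by
              rw [Finset.card_image_of_injective _ (fun x y hxy => sub_right_injective hxy),
                Finset.card_erase_of_mem hi1]
            rw [← hc, ← Finset.card_union_of_disjoint hd]
            apply Finset.card_le_card
            intro x hx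
            rw [hT, Finset.mem_filter]
            refine ⟨mem_univ _, ?_⟩
            rw [Finset.mem_union] at hx
            rcases hx with hx | hx
            · rw [mem_L] at hx
              exact hex x (le_antisymm (hmax x) hx)
            · rw [Finset.mem_image] at hx
              obtain ⟨j, hj, rfl⟩ := hx
              rw [Finset.mem_erase, mem_L] at hj
              have hj3 := hex j (le_antisymm (hmax j) hj.2)
              linear_combination (norm := abel) -h3 - hj3
          omega


end Part1

section Part2

open Finset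

variable {Q : Type*} [AddCommGroup Q] [Fintype Q] {q M : ℕ} {k : Q → ℕ}

omit [Fintype Q] in
/-- In a group of odd order doubling is injective. -/
theorem BIG_two_inj (hodd : Nat.card Q % 2 = 1) {x y : Q} (h : x + x = y + y) : x = y := by
  have h1 : (2 : ℕ) • (x - y) = 0 := by
    rw [two_nsmul]
    have : x - y + (x - y) = (x + x) - (y + y) := by abel
    rw [this, h, sub_self]
  have h2 : (Nat.card Q) • (x - y) = 0 := card_nsmul_eq_zero'
  have h3 : addOrderOf (x - y) ∣ 2 := addOrderOf_dvd_of_nsmul_eq_zero h1
  have h4 : addOrderOf (x - y) ∣ Nat.card Q := addOrderOf_dvd_of_nsmul_eq_zero h2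
  have h5 : addOrderOf (x - y) = 1 := by
    rcases (Nat.dvd_prime Nat.prime_two).mp h3 with h | h
    · exact h
    · rw [h] at h4
      omega
  rw [AddMonoid.addOrderOf_eq_one_iff] at h5
  exact sub_eq_zero.mp h5

/-- The level bound below the maximum. -/
theorem BIG_lev (hk : Fib q k) (hodd : Nat.card Q % 2 = 1) {i1 : Q} {u : ℕ}
    (hi3 : i1 + i1 + i1 ≠ 0) (h2 : q + 3 ≤ 2 * k i1) (hu : k i1 + u = q) {t : ℕ}
    (ht : u + 1 ≤ t) :
    ell k t + ell k 1 ≤ Nat.card Q + (if t = u + 1 ∧ u ≤ 1 then 1 else 0) := by
  classical
  set E := (L k t).filter (fun j => -i1 - j ∈ L k 1) with hE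
  have hEcard : E.card ≤ (if t = u + 1 ∧ u ≤ 1 then 1 else 0) := by
    have key : ∀ j ∈ E, j = -i1 - j ∧ t = u + 1 ∧ u ≤ 1 := by
      intro j hj
      rw [hE, Finset.mem_filter, mem_L, mem_L] at hj
      obtain ⟨h3, h4⟩ := hj
      have hsum : i1 + j + (-i1 - j) = 0 := by abel
      have h5 := avg hk hsum hi3 h2 (by omega) (by omega)
      refine ⟨h5.1, ?_⟩
      rcases h5.2 with ⟨h6, h7⟩ | ⟨h6, h7⟩ <;> omega
    split_ifs with hc
    · rw [Finset.card_le_one]
      intro a ha b hb
      apply BIG_two_inj hodd
      have h3 := (key a ha).1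
      have h4 := (key b hb).1
      have e1 : a + a = -i1 := by
        conv_lhs => rw [show a + a = a + (-i1 - a) from by rw [← h3]]
        abel
      have e2 : b + b = -i1 := by
        conv_lhs => rw [show b + b = b + (-i1 - b) from by rw [← h4]]
        abel
      rw [e1, e2]
    · rw [Nat.le_zero, Finset.card_eq_zero, Finset.eq_empty_iff_forall_notMem]
      intro j hj
      exact hc (key j hj).2
  have hrest : ((L k t).filter (fun j => -i1 - j ∉ L k 1)).card + (L k 1).card ≤ Fintype.card Q := by
    have h3 : ((L k t).filter (fun j => -i1 - j ∉ L k 1)).card =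
        (((L k t).filter (fun j => -i1 - j ∉ L k 1)).image (fun j => -i1 - j)).card := by
      symm
      apply Finset.card_image_of_injective
      intro x y hxy
      exact sub_right_injective hxy
    have hdisj : Disjoint (((L k t).filter (fun j => -i1 - j ∉ L k 1)).image (fun j => -i1 - j))
        (L k 1) := by
      rw [Finset.disjoint_left]
      intro l hl hl2
      rw [Finset.mem_image] at hl
      obtain ⟨j, hj, rfl⟩ := hl
      rw [Finset.mem_filter] at hj
      exact hj.2 hl2
    rw [h3, ← Finset.card_union_of_disjoint hdisj]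
    exact Finset.card_le_univ _
  have hsplit := Finset.card_filter_add_card_filter_not (s := L k t) (fun j => -i1 - j ∈ L k 1)
  rw [Nat.card_eq_fintype_card]
  unfold ell
  rw [← hE] at hsplit
  omega

/-- Large support, `q = 3 M + 1`. -/
theorem big1 (hq : q = 3 * M + 1) (hM : 2 ≤ M) (hk : Fib q k) (hodd : Nat.card Q % 2 = 1)
    {i0 : Q} (h1 : 2 * M + 1 ≤ k i0) (hs : 2 * Nat.card Q < 3 * ell k 1) {D' : ℕ}
    (hD : ∀ X : Finset Q, Adm X → X.card ≤ D') : ∑ i, k i ≤ M * Nat.card Q + D' := by
  classical
  obtain ⟨i1, _, hmax⟩ := Finset.exists_max_image (univ : Finset Q) k ⟨i0, mem_univ _⟩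
  have hmax' : ∀ i, k i ≤ k i1 := fun i => hmax i (mem_univ _)
  have hμ : 2 * M + 1 ≤ k i1 := h1.trans (hmax' i0)
  have hμq := hk.le i1
  have hi3 : i1 + i1 + i1 ≠ 0 := by
    intro h
    have := hk.c3 i1 h
    omega
  obtain ⟨u, hu⟩ : ∃ u, k i1 + u = q := ⟨q - k i1, by omega⟩
  obtain ⟨v, hv⟩ : ∃ v, M = u + v := ⟨M - u, by omega⟩
  have hlev := fun t ht => BIG_lev (t := t) hk hodd hi3 (by omega) hu ht
  have hN1 : ell k 1 ≤ Nat.card Q := lev_card_le 1
  obtain ⟨c, hc⟩ : ∃ c, ell k 1 + c = Nat.card Q := ⟨Nat.card Q - ell k 1, by omega⟩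
  have hc3 : 3 * c + 1 ≤ Nat.card Q := by omega
  have hsum : ∑ i, k i = ∑ s ∈ Icc 1 (k i1), ell k s := lev_sum hmax'
  have hμu : u + 1 < k i1 := by omega
  have e1 : Icc 1 (k i1) = Icc 1 u ∪ (Icc (u + 1) (k i1 - 1) ∪ {k i1}) := by
    ext t
    simp only [mem_union, mem_Icc, mem_singleton]
    omega
  have hd1 : Disjoint (Icc 1 u) (Icc (u + 1) (k i1 - 1) ∪ {k i1}) := by
    rw [Finset.disjoint_left]
    intro t
    simp only [mem_union, mem_Icc, mem_singleton]
    omega
  have hd2 : Disjoint (Icc (u + 1) (k i1 - 1)) ({k i1} : Finset ℕ) := by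
    rw [Finset.disjoint_left]
    intro t
    simp only [mem_Icc, mem_singleton]
    omega
  rw [hsum, e1, Finset.sum_union hd1, Finset.sum_union hd2, Finset.sum_singleton]
  have b1 : ∑ s ∈ Icc 1 u, ell k s ≤ u * ell k 1 := by
    calc ∑ s ∈ Icc 1 u, ell k s ≤ ∑ s ∈ Icc 1 u, ell k 1 := by
          apply Finset.sum_le_sum
          intro s hs'
          rw [mem_Icc] at hs'
          exact lev_card_anti hs'.1
      _ = u * ell k 1 := by
          rw [Finset.sum_const, Nat.card_Icc, smul_eq_mul, Nat.add_sub_cancel]
  have b2 : ∑ s ∈ Icc (u + 1) (k i1 - 1), ell k s ≤ (u + 3 * v) * c + (if u ≤ 1 then 1 else 0) := by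
    calc ∑ s ∈ Icc (u + 1) (k i1 - 1), ell k s ≤
          ∑ s ∈ Icc (u + 1) (k i1 - 1), (c + (if s = u + 1 ∧ u ≤ 1 then 1 else 0)) := by
          apply Finset.sum_le_sum
          intro s hs'
          rw [mem_Icc] at hs'
          have := hlev s hs'.1
          omega
      _ = (k i1 - 1 + 1 - (u + 1)) * c +
            ∑ s ∈ Icc (u + 1) (k i1 - 1), (if s = u + 1 ∧ u ≤ 1 then 1 else 0) := by
          rw [Finset.sum_add_distrib, Finset.sum_const, Nat.card_Icc, smul_eq_mul]
      _ ≤ (u + 3 * v) * c + (if u ≤ 1 then 1 else 0) := by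
          have e2 : k i1 - 1 + 1 - (u + 1) = u + 3 * v := by omega
          rw [e2]
          apply Nat.add_le_add_left
          by_cases hu1 : u ≤ 1
          · simp only [hu1, and_true, if_true]
            rw [Finset.sum_ite_eq']
            split_ifs <;> omega
          · simp [hu1]
  have b3 : ell k (k i1) ≤ D' := hD _ (adm_lev hk (by omega))
  have b4 : (if u ≤ 1 then 1 else 0) ≤ v := by
    split_ifs <;> omega
  have b5 : 3 * v * c + v ≤ v * Nat.card Q := by nlinarith
  rw [hv]
  nlinarith

/-- Large support, `q = 3 M + 2`. -/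
theorem big2 (hq : q = 3 * M + 2) (hM : 1 ≤ M) (hk : Fib q k) (hodd : Nat.card Q % 2 = 1)
    {i0 : Q} (h1 : 2 * M + 3 ≤ k i0) (hs : 2 * Nat.card Q < 3 * ell k 1) :
    3 * ∑ i, k i ≤ q * Nat.card Q := by
  classical
  obtain ⟨i1, _, hmax⟩ := Finset.exists_max_image (univ : Finset Q) k ⟨i0, mem_univ _⟩
  have hmax' : ∀ i, k i ≤ k i1 := fun i => hmax i (mem_univ _)
  have hμ : 2 * M + 3 ≤ k i1 := h1.trans (hmax' i0)
  have hμq := hk.le i1
  have hi3 : i1 + i1 + i1 ≠ 0 := by
    intro h
    have := hk.c3 i1 h
    omega
  obtain ⟨u, hu⟩ : ∃ u, k i1 + u = q := ⟨q - k i1, by omega⟩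
  obtain ⟨v, hv⟩ : ∃ v, M = u + v := ⟨M - u, by omega⟩
  have hv1 : 1 ≤ v := by omega
  have hlev := fun t ht => BIG_lev (t := t) hk hodd hi3 (by omega) hu ht
  have hN1 : ell k 1 ≤ Nat.card Q := lev_card_le 1
  obtain ⟨c, hc⟩ : ∃ c, ell k 1 + c = Nat.card Q := ⟨Nat.card Q - ell k 1, by omega⟩
  have hc3 : 3 * c + 1 ≤ Nat.card Q := by omega
  have hsum : ∑ i, k i = ∑ s ∈ Icc 1 (k i1), ell k s := lev_sum hmax'
  have e1 : Icc 1 (k i1) = Icc 1 u ∪ Icc (u + 1) (k i1) := by
    ext t
    simp only [mem_union, mem_Icc]
    omega
  have hd1 : Disjoint (Icc 1 u) (Icc (u + 1) (k i1)) := by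
    rw [Finset.disjoint_left]
    intro t
    simp only [mem_Icc]
    omega
  rw [hsum, e1, Finset.sum_union hd1]
  have b1 : ∑ s ∈ Icc 1 u, ell k s ≤ u * ell k 1 := by
    calc ∑ s ∈ Icc 1 u, ell k s ≤ ∑ s ∈ Icc 1 u, ell k 1 := by
          apply Finset.sum_le_sum
          intro s hs'
          rw [mem_Icc] at hs'
          exact lev_card_anti hs'.1
      _ = u * ell k 1 := by
          rw [Finset.sum_const, Nat.card_Icc, smul_eq_mul, Nat.add_sub_cancel]
  have b2 : ∑ s ∈ Icc (u + 1) (k i1), ell k s ≤ (u + 3 * v + 2) * c + 1 := by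
    calc ∑ s ∈ Icc (u + 1) (k i1), ell k s ≤
          ∑ s ∈ Icc (u + 1) (k i1), (c + (if s = u + 1 then 1 else 0)) := by
          apply Finset.sum_le_sum
          intro s hs'
          rw [mem_Icc] at hs'
          have h3 := hlev s hs'.1
          have h4 : (if s = u + 1 ∧ u ≤ 1 then 1 else 0) ≤ (if s = u + 1 then 1 else 0) := by
            by_cases h5 : s = u + 1
            · by_cases h6 : u ≤ 1
              · simp [h5, h6]
              · simp [h5, h6]
            · simp [h5]
          omega
      _ = (k i1 + 1 - (u + 1)) * c +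
            ∑ s ∈ Icc (u + 1) (k i1), (if s = u + 1 then 1 else 0) := by
          rw [Finset.sum_add_distrib, Finset.sum_const, Nat.card_Icc, smul_eq_mul]
      _ ≤ (u + 3 * v + 2) * c + 1 := by
          have e2 : k i1 + 1 - (u + 1) = u + 3 * v + 2 := by omega
          rw [e2]
          apply Nat.add_le_add_left
          rw [Finset.sum_ite_eq']
          split_ifs <;> omega
  have b5 : (3 * v + 2) * (3 * c) + (3 * v + 2) ≤ (3 * v + 2) * Nat.card Q := by nlinarith
  have hq2 : q = 3 * u + 3 * v + 2 := by omega
  rw [hq2]
  nlinarith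


end Part2

end Pool.Agent.DG
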