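import Pool.Agent.DG.Defs

set_option autoImplicit false

/-! # Three summands in `ZMod q` (Cauchy-Davenport, Dias da Silva-Hamidoune) -/

namespace Pool.Agent.DG
open Finset

section functional

open MvPolynomial

variable {F : Type*} [Field F] [DecidableEq F] {σ : Type*} [Fintype σ] [DecidableEq σ]

/-- Lagrange weights. -/
noncomputable def poly_wt (S : Finset F) (x : F) : F := ∏ y ∈ S.erase x, (x - y)

theorem poly_wt_ne_zero (S : Finset F) (x : F) : poly_wt S x ≠ 0 := by
  unfold poly_wt
  rw [Finset.prod_ne_zero_iff]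
  intro y hy
  rw [Finset.mem_erase] at hy
  exact sub_ne_zero.2 (Ne.symm hy.1)

theorem poly_lag (S : Finset F) (i : ℕ) (hi : i < S.card) :
    ∑ x ∈ S, x ^ i / poly_wt S x = if i = S.card - 1 then 1 else 0 := by
  have h := Lagrange.coeff_eq_sum (s := S) (v := id) (Function.injective_id.injOn)
    (P := (Polynomial.X ^ i : Polynomial F)) (by rw [Polynomial.degree_X_pow]; exact_mod_cast hi)
  rw [Polynomial.coeff_X_pow] at h
  simp only [id, Polynomial.eval_pow, Polynomial.eval_X] at h
  unfold poly_wt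
  rw [← h]
  by_cases hh : i = S.card - 1
  · rw [if_pos hh, if_pos hh.symm]
  · rw [if_neg hh, if_neg (Ne.symm hh)]

/-- The top exponent of a grid. -/
noncomputable def poly_top (S : σ → Finset F) : σ →₀ ℕ :=
  Finsupp.equivFunOnFinite.symm (fun i => (S i).card - 1)

omit [DecidableEq F] [DecidableEq σ] [Field F] in
theorem poly_top_apply (S : σ → Finset F) (i : σ) : poly_top S i = (S i).card - 1 := rfl

theorem poly_phi (S : σ → Finset F) (hS : ∀ i, (S i).Nonempty) (P : MvPolynomial σ F)
    (hP : P.totalDegree ≤ ∑ i, ((S i).card - 1)) :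
    ∑ x ∈ Fintype.piFinset S, eval x P / ∏ i, poly_wt (S i) (x i) = P.coeff (poly_top S) := by
  have h1 : ∀ x : σ → F, eval x P = ∑ m ∈ P.support, P.coeff m * ∏ i, x i ^ m i := by
    intro x
    rw [eval_eq']
  have h2 : ∀ m ∈ P.support, ∑ x ∈ Fintype.piFinset S,
      (P.coeff m * ∏ i, x i ^ m i) / ∏ i, poly_wt (S i) (x i)
      = if m = poly_top S then P.coeff m else 0 := by
    intro m hm
    have e1 : ∀ x ∈ Fintype.piFinset S, (P.coeff m * ∏ i, x i ^ m i) / ∏ i, poly_wt (S i) (x i)
        = P.coeff m * ∏ i, (x i ^ m i / poly_wt (S i) (x i)) := by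
      intro x _
      rw [Finset.prod_div_distrib, mul_div_assoc]
    rw [Finset.sum_congr rfl e1, ← Finset.mul_sum]
    have e2 : ∑ x ∈ Fintype.piFinset S, ∏ i, (x i ^ m i / poly_wt (S i) (x i))
        = ∏ i, ∑ x ∈ S i, (x ^ m i / poly_wt (S i) x) :=
      (Finset.prod_univ_sum S (fun i x => x ^ m i / poly_wt (S i) x)).symm
    rw [e2]
    by_cases hmt : m = poly_top S
    · rw [if_pos hmt]
      have e3 : ∀ i ∈ (Finset.univ : Finset σ),
          ∑ x ∈ S i, (x ^ m i / poly_wt (S i) x) = 1 := by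
        intro i _
        have hc := Finset.card_pos.2 (hS i)
        rw [hmt, poly_top_apply, poly_lag _ _ (by omega), if_pos rfl]
      rw [Finset.prod_congr rfl e3, Finset.prod_const_one, mul_one]
    · rw [if_neg hmt]
      have hdeg : ∑ i, m i ≤ ∑ i, ((S i).card - 1) := by
        refine le_trans ?_ hP
        have := le_totalDegree hm
        rw [Finsupp.sum_fintype _ _ (fun _ => rfl)] at this
        exact this
      have hex : ∃ i, m i < (S i).card - 1 := by
        by_contra hcon
        push Not at hcon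
        apply hmt
        have h3 : ∀ i ∈ (Finset.univ : Finset σ), (S i).card - 1 = m i := by
          have := (Finset.sum_eq_sum_iff_of_le (fun i _ => hcon i)).1
            (le_antisymm (Finset.sum_le_sum (fun i _ => hcon i)) hdeg)
          exact this
        ext i
        rw [poly_top_apply, h3 i (Finset.mem_univ i)]
      obtain ⟨i, hi⟩ := hex
      rw [Finset.prod_eq_zero (Finset.mem_univ i), mul_zero]
      rw [poly_lag _ _ (by omega), if_neg (by omega)]
  calc ∑ x ∈ Fintype.piFinset S, eval x P / ∏ i, poly_wt (S i) (x i)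
      = ∑ x ∈ Fintype.piFinset S, ∑ m ∈ P.support,
          (P.coeff m * ∏ i, x i ^ m i) / ∏ i, poly_wt (S i) (x i) := by
        apply Finset.sum_congr rfl
        intro x _
        rw [h1 x, Finset.sum_div]
    _ = ∑ m ∈ P.support, if m = poly_top S then P.coeff m else 0 := by
        rw [Finset.sum_comm]
        exact Finset.sum_congr rfl h2
    _ = P.coeff (poly_top S) := by
        rw [Finset.sum_ite_eq']
        split_ifs with h
        · rfl
        · exact (notMem_support_iff.1 h).symm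

omit [DecidableEq F] [Fintype σ] [DecidableEq σ] in
theorem poly_td_list (Y : MvPolynomial σ F) (hY : Y.totalDegree ≤ 1) (l : List F) :
    ((l.map (fun c => Y - C c)).prod).totalDegree ≤ l.length := by
  induction l with
  | nil => simp
  | cons a l ih =>
    rw [List.map_cons, List.prod_cons, List.length_cons]
    refine le_trans (totalDegree_mul _ _) ?_
    have h1 : (Y - C a).totalDegree ≤ 1 := by
      refine le_trans (totalDegree_sub _ _) ?_
      rw [totalDegree_C]
      exact max_le hY (Nat.zero_le 1)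
    omega

omit [DecidableEq F] [Fintype σ] [DecidableEq σ] in
theorem poly_exch (T : σ →₀ ℕ) (Y : MvPolynomial σ F) (hY : Y.totalDegree ≤ 1) :
    ∀ (l l' : List F) (V : MvPolynomial σ F), l.length = l'.length →
      V.totalDegree + l.length ≤ T.degree →
      coeff T (V * (l.map (fun c => Y - C c)).prod)
        = coeff T (V * (l'.map (fun c => Y - C c)).prod) := by
  intro l
  induction l with
  | nil =>
    intro l' V hl _
    rw [List.length_nil] at hl
    rw [List.eq_nil_of_length_eq_zero hl.symm]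
  | cons a l ih =>
    intro l' V hl hd
    cases l' with
    | nil => simp at hl
    | cons b l' =>
      rw [List.length_cons, List.length_cons, Nat.add_right_cancel_iff] at hl
      rw [List.length_cons] at hd
      rw [List.map_cons, List.prod_cons, List.map_cons, List.prod_cons, ← mul_assoc, ← mul_assoc]
      have h1 : (Y - C a).totalDegree ≤ 1 := by
        refine le_trans (totalDegree_sub _ _) ?_
        rw [totalDegree_C]
        exact max_le hY (Nat.zero_le 1)
      have h2 := totalDegree_mul V (Y - C a)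
      rw [ih l' (V * (Y - C a)) hl (by omega)]
      have h3 : V * (Y - C a) * (l'.map (fun c => Y - C c)).prod
          = V * (Y - C b) * (l'.map (fun c => Y - C c)).prod
            + C (b - a) * (V * (l'.map (fun c => Y - C c)).prod) := by
        rw [C_sub]
        ring
      rw [h3, coeff_add, coeff_C_mul]
      have h4 : coeff T (V * (l'.map (fun c => Y - C c)).prod) = 0 := by
        apply coeff_eq_zero_of_totalDegree_lt
        have h5 := totalDegree_mul V (l'.map (fun c => Y - C c)).prod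
        have h6 := poly_td_list Y hY l'
        have h7 : T.degree = ∑ i ∈ T.support, T i := rfl
        omega
      rw [h4, mul_zero, add_zero]

theorem poly_grid (A B : σ → Finset F) (hAB : ∀ i, (A i).card = (B i).card)
    (hA : ∀ i, (A i).Nonempty) (Y : MvPolynomial σ F) (hY : Y.totalDegree ≤ 1)
    (V : MvPolynomial σ F) (l l' : List F) (hl : l.length = l'.length)
    (hd : V.totalDegree + l.length ≤ ∑ i, ((A i).card - 1))
    (h0 : ∀ x ∈ Fintype.piFinset A, eval x (V * (l.map (fun c => Y - C c)).prod) = 0)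
    (b : σ → F) (hb : b ∈ Fintype.piFinset B)
    (hb1 : eval b (V * (l'.map (fun c => Y - C c)).prod) ≠ 0)
    (hb2 : ∀ x ∈ Fintype.piFinset B, x ≠ b →
      eval x (V * (l'.map (fun c => Y - C c)).prod) = 0) : False := by
  have hB : ∀ i, (B i).Nonempty := by
    intro i
    rw [← Finset.card_pos, ← hAB i, Finset.card_pos]
    exact hA i
  have htop : poly_top A = poly_top B := by
    ext i
    rw [poly_top_apply, poly_top_apply, hAB i]
  have hdeg : (poly_top A).degree = ∑ i, ((A i).card - 1) := by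
    rw [Finsupp.degree_eq_sum]
    rfl
  have hdB : ∑ i, ((B i).card - 1) = ∑ i, ((A i).card - 1) := by
    apply Finset.sum_congr rfl
    intro i _
    rw [hAB i]
  have t1 : (V * (l.map (fun c => Y - C c)).prod).totalDegree ≤ ∑ i, ((A i).card - 1) := by
    have h5 := totalDegree_mul V (l.map (fun c => Y - C c)).prod
    have h6 := poly_td_list Y hY l
    omega
  have t2 : (V * (l'.map (fun c => Y - C c)).prod).totalDegree ≤ ∑ i, ((B i).card - 1) := by
    have h5 := totalDegree_mul V (l'.map (fun c => Y - C c)).prod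
    have h6 := poly_td_list Y hY l'
    omega
  have e1 := poly_phi A hA _ t1
  have e2 := poly_phi B hB _ t2
  rw [Finset.sum_eq_zero (fun x hx => by rw [h0 x hx, zero_div])] at e1
  rw [Finset.sum_eq_single_of_mem b hb (fun x hx hxb => by rw [hb2 x hx hxb, zero_div])] at e2
  have e3 := poly_exch (poly_top A) Y hY l l' V hl (by rw [hdeg]; exact hd)
  rw [← e1, htop, ← e2] at e3
  have hne : ∏ i, poly_wt (B i) (b i) ≠ 0 := by
    rw [Finset.prod_ne_zero_iff]
    intro i _
    exact poly_wt_ne_zero _ _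
  exact (div_ne_zero hb1 hne) e3.symm

end functional

section zmod

open MvPolynomial

variable {q : ℕ} [Fact q.Prime]

/-- The list of all residues except `c`. -/
noncomputable def poly_l (c : ZMod q) : List (ZMod q) := ((Finset.univ : Finset (ZMod q)).erase c).toList

theorem poly_l_length (c : ZMod q) : (poly_l c).length = q - 1 := by
  unfold poly_l
  rw [Finset.length_toList, Finset.card_erase_of_mem (Finset.mem_univ c), Finset.card_univ,
    ZMod.card]

theorem poly_mem_l {c d : ZMod q} : d ∈ poly_l c ↔ d ≠ c := by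
  unfold poly_l
  rw [Finset.mem_toList, Finset.mem_erase]
  simp

theorem poly_eval (V : MvPolynomial (Fin 3) (ZMod q)) (l : List (ZMod q)) (x : Fin 3 → ZMod q) :
    eval x (V * (l.map (fun c => (X 0 + X 1 + X 2 : MvPolynomial (Fin 3) (ZMod q)) - C c)).prod)
      = eval x V * (l.map (fun c => x 0 + x 1 + x 2 - c)).prod := by
  rw [map_mul]
  congr 1
  induction l with
  | nil => simp
  | cons a l ih =>
    rw [List.map_cons, List.prod_cons, List.map_cons, List.prod_cons, map_mul, ih]
    simp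

theorem poly_prod_zero (l : List (ZMod q)) (y : ZMod q) (h : y ∈ l) :
    (l.map (fun c => y - c)).prod = 0 := by
  rw [List.prod_eq_zero_iff, List.mem_map]
  exact ⟨y, h, sub_self y⟩

theorem poly_prod_ne_zero (l : List (ZMod q)) (y : ZMod q) (h : y ∉ l) :
    (l.map (fun c => y - c)).prod ≠ 0 := by
  rw [Ne, List.prod_eq_zero_iff, List.mem_map]
  rintro ⟨a, ha, hya⟩
  exact h (sub_eq_zero.1 hya ▸ ha)

/-- The image of `{0, ..., n - 1}`. -/
def poly_rg (q : ℕ) (n : ℕ) : Finset (ZMod q) := (Finset.range n).image (fun i : ℕ => (i : ZMod q))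

omit [Fact q.Prime] in
theorem poly_card_rg {n : ℕ} (hn : n ≤ q) : (poly_rg q n).card = n := by
  unfold poly_rg
  rw [Finset.card_image_of_injOn, Finset.card_range]
  intro a ha b hb hab
  rw [Finset.coe_range, Set.mem_Iio] at ha hb
  have := (ZMod.natCast_eq_natCast_iff' a b q).1 hab
  rw [Nat.mod_eq_of_lt (by omega), Nat.mod_eq_of_lt (by omega)] at this
  exact this

theorem poly_z (V : MvPolynomial (Fin 3) (ZMod q)) (A0 A1 A2 : Finset (ZMod q)) (c : ZMod q)
    (a0 a1 a2 : ℕ) (h0 : A0.card = a0) (h1 : A1.card = a1) (h2 : A2.card = a2)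
    (p0 : 1 ≤ a0) (p1 : 1 ≤ a1) (p2 : 1 ≤ a2) (l0 : a0 ≤ q) (l1 : a1 ≤ q) (l2 : a2 ≤ q)
    (hd : V.totalDegree + (q - 1) ≤ (a0 - 1) + (a1 - 1) + (a2 - 1))
    (hV : ∀ x ∈ A0, ∀ y ∈ A1, ∀ z ∈ A2, eval ![x, y, z] V ≠ 0 → x + y + z ≠ c)
    (hB1 : eval ![((a0 - 1 : ℕ) : ZMod q), ((a1 - 1 : ℕ) : ZMod q), ((a2 - 1 : ℕ) : ZMod q)] V ≠ 0)
    (hB2 : ∀ x y z : ℕ, x < a0 → y < a1 → z < a2 →
      eval ![(x : ZMod q), (y : ZMod q), (z : ZMod q)] V ≠ 0 →
      a0 - 1 + (a1 - 1) + (a2 - 1) < x + y + z + q) : False := by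
  have hvec : ∀ x : Fin 3 → ZMod q, x = ![x 0, x 1, x 2] := by
    intro x
    ext i
    fin_cases i <;> rfl
  set cs : ZMod q := ((a0 - 1 : ℕ) : ZMod q) + ((a1 - 1 : ℕ) : ZMod q) + ((a2 - 1 : ℕ) : ZMod q)
    with hcs
  refine poly_grid (F := ZMod q) (σ := Fin 3) ![A0, A1, A2]
    ![poly_rg q a0, poly_rg q a1, poly_rg q a2] ?_ ?_ (X 0 + X 1 + X 2) ?_ V (poly_l c)
    (poly_l cs) ?_ ?_ ?_
    ![((a0 - 1 : ℕ) : ZMod q), ((a1 - 1 : ℕ) : ZMod q), ((a2 - 1 : ℕ) : ZMod q)] ?_ ?_ ?_
  · intro i
    fin_cases i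
    · exact h0.trans (poly_card_rg l0).symm
    · exact h1.trans (poly_card_rg l1).symm
    · exact h2.trans (poly_card_rg l2).symm
  · intro i
    fin_cases i
    · exact Finset.card_pos.1 (by change 0 < A0.card; omega)
    · exact Finset.card_pos.1 (by change 0 < A1.card; omega)
    · exact Finset.card_pos.1 (by change 0 < A2.card; omega)
  · refine le_trans (totalDegree_add _ _) (max_le (le_trans (totalDegree_add _ _) (max_le ?_ ?_)) ?_)
    all_goals rw [totalDegree_X]
  · rw [poly_l_length, poly_l_length]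
  · rw [poly_l_length, Fin.sum_univ_three]
    change _ ≤ (A0.card - 1) + (A1.card - 1) + (A2.card - 1)
    rw [h0, h1, h2]
    exact hd
  · intro x hx
    rw [Fintype.mem_piFinset] at hx
    rw [poly_eval]
    by_cases hz : eval x V = 0
    · rw [hz, zero_mul]
    · rw [poly_prod_zero, mul_zero]
      rw [poly_mem_l]
      apply hV _ (hx 0) _ (hx 1) _ (hx 2)
      rw [← hvec x]
      exact hz
  · rw [Fintype.mem_piFinset]
    intro i
    fin_cases i
    · exact Finset.mem_image.2 ⟨a0 - 1, Finset.mem_range.2 (by omega), rfl⟩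
    · exact Finset.mem_image.2 ⟨a1 - 1, Finset.mem_range.2 (by omega), rfl⟩
    · exact Finset.mem_image.2 ⟨a2 - 1, Finset.mem_range.2 (by omega), rfl⟩
  · rw [poly_eval]
    refine mul_ne_zero hB1 (poly_prod_ne_zero _ _ ?_)
    rw [poly_mem_l, not_not]
    rfl
  · intro x hx hxb
    rw [Fintype.mem_piFinset] at hx
    obtain ⟨x0, hx0, e0⟩ := Finset.mem_image.1 (hx 0)
    obtain ⟨x1, hx1, e1⟩ := Finset.mem_image.1 (hx 1)
    obtain ⟨x2, hx2, e2⟩ := Finset.mem_image.1 (hx 2)
    rw [Finset.mem_range] at hx0 hx1 hx2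
    rw [poly_eval]
    by_cases hz : eval x V = 0
    · rw [hz, zero_mul]
    · rw [poly_prod_zero, mul_zero]
      rw [poly_mem_l]
      rw [hvec x, ← e0, ← e1, ← e2] at hz
      have hlt := hB2 x0 x1 x2 hx0 hx1 hx2 hz
      intro heq
      rw [← e0, ← e1, ← e2, hcs] at heq
      have hle : x0 + x1 + x2 ≤ a0 - 1 + (a1 - 1) + (a2 - 1) := by omega
      have hcast : (((x0 + x1 + x2 : ℕ)) : ZMod q) = ((a0 - 1 + (a1 - 1) + (a2 - 1) : ℕ) : ZMod q) := by
        push_cast
        exact heq
      have hmod := (ZMod.natCast_eq_natCast_iff _ _ _).1 hcast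
      have hdvd := (Nat.modEq_iff_dvd' hle).1 hmod
      have hz0 : a0 - 1 + (a1 - 1) + (a2 - 1) - (x0 + x1 + x2) = 0 :=
        Nat.eq_zero_of_dvd_of_lt hdvd (by omega)
      apply hxb
      rw [hvec x, ← e0, ← e1, ← e2]
      have q0 : x0 = a0 - 1 := by omega
      have q1 : x1 = a1 - 1 := by omega
      have q2 : x2 = a2 - 1 := by omega
      rw [q0, q1, q2]

theorem poly_cast_ne {a b : ℕ} (h : a < b) (hb : b < q) : (a : ZMod q) ≠ (b : ZMod q) := by
  intro hab
  have := (ZMod.natCast_eq_natCast_iff' a b q).1 hab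
  rw [Nat.mod_eq_of_lt (by omega), Nat.mod_eq_of_lt (by omega)] at this
  omega

end zmod

theorem cd3 {q : ℕ} [Fact q.Prime] (c : ZMod q) (A B C : Finset (ZMod q)) (hA : A.Nonempty)
    (hB : B.Nonempty) (hC : C.Nonempty)
    (h : ∀ x ∈ A, ∀ y ∈ B, ∀ z ∈ C, x + y + z ≠ c) : A.card + B.card + C.card ≤ q + 1 := by
  have hq := (Fact.out : q.Prime)
  by_contra hcon
  push Not at hcon
  have cA := Finset.card_pos.2 hA
  have cB := Finset.card_pos.2 hB
  have cC := Finset.card_pos.2 hC
  have uA : A.card ≤ q := by simpa [ZMod.card] using Finset.card_le_univ A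
  have uB : B.card ≤ q := by simpa [ZMod.card] using Finset.card_le_univ B
  have uC : C.card ≤ q := by simpa [ZMod.card] using Finset.card_le_univ C
  obtain ⟨a, b, d, ha, hb, hd, ha', hb', hd', hs⟩ : ∃ a b d : ℕ, 1 ≤ a ∧ 1 ≤ b ∧ 1 ≤ d ∧
      a ≤ A.card ∧ b ≤ B.card ∧ d ≤ C.card ∧ a + b + d = q + 2 := by
    rcases Nat.lt_or_ge (q + 1) (A.card + B.card) with h1 | h1
    · exact ⟨A.card, q + 1 - A.card, 1, by omega, by omega, by omega, by omega, by omega, by omega,
        by omega⟩
    · exact ⟨A.card, B.card, q + 2 - A.card - B.card, by omega, by omega, by omega, by omega,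
        by omega, by omega, by omega⟩
  obtain ⟨A', hA', cA'⟩ := Finset.exists_subset_card_eq ha'
  obtain ⟨B', hB', cB'⟩ := Finset.exists_subset_card_eq hb'
  obtain ⟨C', hC', cC'⟩ := Finset.exists_subset_card_eq hd'
  refine poly_z (q := q) 1 A' B' C' c a b d cA' cB' cC' ha hb hd (by omega) (by omega) (by omega)
    ?_ ?_ ?_ ?_
  · rw [MvPolynomial.totalDegree_one]
    omega
  · intro x hx y hy z hz _
    exact h x (hA' hx) y (hB' hy) z (hC' hz)
  · simp
  · intro x y z hx hy hz _
    omega

theorem eh3 {q : ℕ} [Fact q.Prime] (c : ZMod q) (A C : Finset (ZMod q)) (hA : 2 ≤ A.card)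
    (hC : C.Nonempty)
    (h : ∀ x ∈ A, ∀ y ∈ A, ∀ z ∈ C, x ≠ y → x + y + z ≠ c) : 2 * A.card + C.card ≤ q + 3 := by
  have hq := (Fact.out : q.Prime)
  by_contra hcon
  push Not at hcon
  have cC := Finset.card_pos.2 hC
  have uA : A.card ≤ q := by simpa [ZMod.card] using Finset.card_le_univ A
  have uC : C.card ≤ q := by simpa [ZMod.card] using Finset.card_le_univ C
  obtain ⟨a, b, d, ha, hb, hd, ha', hb', hd', hab, hs⟩ : ∃ a b d : ℕ, 1 ≤ a ∧ 1 ≤ b ∧ 1 ≤ d ∧
      a ≤ A.card ∧ b ≤ A.card ∧ d ≤ C.card ∧ b < a ∧ a + b + d = q + 3 := by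
    rcases Nat.lt_or_ge (q + 2) (2 * A.card) with h1 | h1
    · exact ⟨A.card, q + 2 - A.card, 1, by omega, by omega, by omega, by omega, by omega, by omega,
        by omega, by omega⟩
    · exact ⟨A.card, A.card - 1, q + 4 - 2 * A.card, by omega, by omega, by omega, by omega,
        by omega, by omega, by omega, by omega⟩
  obtain ⟨A', hA', cA'⟩ := Finset.exists_subset_card_eq ha'
  obtain ⟨B', hB', cB'⟩ := Finset.exists_subset_card_eq hb'
  obtain ⟨C', hC', cC'⟩ := Finset.exists_subset_card_eq hd'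
  refine poly_z (q := q) (MvPolynomial.X 0 - MvPolynomial.X 1) A' B' C' c a b d cA' cB' cC' ha hb
    hd (by omega) (by omega) (by omega) ?_ ?_ ?_ ?_
  · have h1 : (MvPolynomial.X 0 - MvPolynomial.X 1 :
        MvPolynomial (Fin 3) (ZMod q)).totalDegree ≤ 1 := by
      refine le_trans (MvPolynomial.totalDegree_sub _ _) (max_le ?_ ?_)
      all_goals rw [MvPolynomial.totalDegree_X]
    omega
  · intro x hx y hy z hz hne
    apply h x (hA' hx) y (hB' hy) z (hC' hz)
    intro hxy
    apply hne
    simp [hxy]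
  · simp only [map_sub, MvPolynomial.eval_X]
    change ((a - 1 : ℕ) : ZMod q) - ((b - 1 : ℕ) : ZMod q) ≠ 0
    rw [sub_ne_zero]
    exact (poly_cast_ne (by omega) (by omega)).symm
  · intro x y z hx hy hz hne
    simp only [map_sub, MvPolynomial.eval_X] at hne
    change (x : ZMod q) - (y : ZMod q) ≠ 0 at hne
    have hxy : x ≠ y := by
      rintro rfl
      exact hne (sub_self _)
    omega

theorem dh3 {q : ℕ} [Fact q.Prime] (c : ZMod q) (A : Finset (ZMod q))
    (h : ∀ x ∈ A, ∀ y ∈ A, ∀ z ∈ A, x ≠ y → x ≠ z → y ≠ z → x + y + z ≠ c) :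
    3 * A.card ≤ q + 7 := by
  have hq := (Fact.out : q.Prime)
  have hq2 := hq.two_le
  by_contra hcon
  push Not at hcon
  have uA : A.card ≤ q := by simpa [ZMod.card] using Finset.card_le_univ A
  obtain ⟨a, b, d, ha, hb, hd, ha', hab, hbd, hs⟩ : ∃ a b d : ℕ, 1 ≤ a ∧ 1 ≤ b ∧ 1 ≤ d ∧
      a ≤ A.card ∧ b < a ∧ d < b ∧ a + b + d = q + 5 := by
    rcases Nat.lt_or_ge (q + 4) (2 * A.card) with h1 | h1
    · exact ⟨A.card, q + 4 - A.card, 1, by omega, by omega, by omega, by omega, by omega, by omega,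
        by omega⟩
    · exact ⟨A.card, A.card - 1, q + 6 - 2 * A.card, by omega, by omega, by omega, by omega,
        by omega, by omega, by omega⟩
  obtain ⟨A', hA', cA'⟩ := Finset.exists_subset_card_eq ha'
  obtain ⟨B', hB', cB'⟩ := Finset.exists_subset_card_eq (show b ≤ A.card by omega)
  obtain ⟨C', hC', cC'⟩ := Finset.exists_subset_card_eq (show d ≤ A.card by omega)
  refine poly_z (q := q) ((MvPolynomial.X 0 - MvPolynomial.X 1) *
    (MvPolynomial.X 0 - MvPolynomial.X 2) * (MvPolynomial.X 1 - MvPolynomial.X 2)) A' B' C' c a b d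
    cA' cB' cC' ha hb hd (by omega) (by omega) (by omega) ?_ ?_ ?_ ?_
  · have h1 : ∀ i j : Fin 3, (MvPolynomial.X i - MvPolynomial.X j :
        MvPolynomial (Fin 3) (ZMod q)).totalDegree ≤ 1 := by
      intro i j
      refine le_trans (MvPolynomial.totalDegree_sub _ _) (max_le ?_ ?_)
      all_goals rw [MvPolynomial.totalDegree_X]
    have h2 := MvPolynomial.totalDegree_mul ((MvPolynomial.X 0 - MvPolynomial.X 1) *
      (MvPolynomial.X 0 - MvPolynomial.X 2) : MvPolynomial (Fin 3) (ZMod q))
      (MvPolynomial.X 1 - MvPolynomial.X 2)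
    have h3 := MvPolynomial.totalDegree_mul (MvPolynomial.X 0 - MvPolynomial.X 1 :
      MvPolynomial (Fin 3) (ZMod q)) (MvPolynomial.X 0 - MvPolynomial.X 2)
    have h4 := h1 0 1
    have h5 := h1 0 2
    have h6 := h1 1 2
    omega
  · intro x hx y hy z hz hne
    simp only [map_mul, map_sub, MvPolynomial.eval_X] at hne
    change (x - y) * (x - z) * (y - z) ≠ 0 at hne
    apply h x (hA' hx) y (hB' hy) z (hC' hz)
    · rintro rfl
      apply hne
      ring
    · rintro rfl
      apply hne
      ring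
    · rintro rfl
      apply hne
      ring
  · simp only [map_mul, map_sub, MvPolynomial.eval_X]
    change (((a - 1 : ℕ) : ZMod q) - ((b - 1 : ℕ) : ZMod q)) *
      (((a - 1 : ℕ) : ZMod q) - ((d - 1 : ℕ) : ZMod q)) *
      (((b - 1 : ℕ) : ZMod q) - ((d - 1 : ℕ) : ZMod q)) ≠ 0
    refine mul_ne_zero (mul_ne_zero ?_ ?_) ?_
    all_goals rw [sub_ne_zero]
    all_goals exact (poly_cast_ne (by omega) (by omega)).symm
  · intro x y z hx hy hz hne
    simp only [map_mul, map_sub, MvPolynomial.eval_X] at hne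
    change ((x : ZMod q) - (y : ZMod q)) * ((x : ZMod q) - (z : ZMod q)) *
      ((y : ZMod q) - (z : ZMod q)) ≠ 0 at hne
    have hxy : x ≠ y := by
      rintro rfl
      apply hne
      ring
    have hxz : x ≠ z := by
      rintro rfl
      apply hne
      ring
    have hyz : y ≠ z := by
      rintro rfl
      apply hne
      ring
    omega

end Pool.Agent.DG
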