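import Pool.Agent.DG.T3
import Pool.Agent.DG.Fiber
import Pool.Agent.DG.Basic2

set_option autoImplicit false

/-! # Upper bound for `3`-groups of rank at most two -/

namespace Pool.Agent.DG
open Finset

universe u

/-- A fibre of full size is contained in `A`. -/
theorem rank2_full {G : Type u} [AddCommGroup G] [Finite G] (K : AddSubgroup G) (A : Finset G)
    (x : G) (h : Nat.card K ≤ fk K A (QuotientAddGroup.mk x)) : ∀ y ∈ K, x + y ∈ A := by
  have hsub : {a : G | a ∈ A ∧ (QuotientAddGroup.mk a : G ⧸ K) = QuotientAddGroup.mk x} ⊆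
      (fun y => x + y) '' (K : Set G) := by
    rintro a ⟨ha, hax⟩
    exact ⟨-x + a, QuotientAddGroup.eq.1 hax.symm, by simp⟩
  have hc : ((fun y => x + y) '' (K : Set G)).ncard = Nat.card K := by
    rw [Set.ncard_image_of_injective _ (add_right_injective x)]
    rfl
  have heq := Set.eq_of_subset_of_ncard_le hsub (by rw [hc]; exact h) (Set.toFinite _)
  intro y hy
  have : x + y ∈ {a : G | a ∈ A ∧ (QuotientAddGroup.mk a : G ⧸ K) = QuotientAddGroup.mk x} := by
    rw [heq]; exact ⟨y, hy, rfl⟩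
  exact this.1

/-- The `3`-torsion subgroup. -/
def tor3 (T : Type u) [AddCommGroup T] : AddSubgroup T := (nsmulAddMonoidHom 3 : T →+ T).ker

theorem mem_tor3 {T : Type u} [AddCommGroup T] {x : T} : x ∈ tor3 T ↔ x + x + x = 0 := by
  unfold tor3
  rw [AddMonoidHom.mem_ker]
  simp [succ_nsmul]

theorem rank2_card_tor (T : Type u) [AddCommGroup T] [Finite T] :
    Nat.card (tor3 T) = (nsmulAddMonoidHom 3 : T →+ T).range.index := by
  set f := (nsmulAddMonoidHom 3 : T →+ T) with hf
  have h1 : f.ker.index = Nat.card f.range := AddSubgroup.index_ker f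
  have h2 : Nat.card f.ker * f.ker.index = Nat.card T := AddSubgroup.card_mul_index _
  have h3 : Nat.card f.range * f.range.index = Nat.card T := AddSubgroup.card_mul_index _
  have h4 : 0 < Nat.card f.range := Nat.card_pos
  have h5 : Nat.card f.ker * Nat.card f.range = f.range.index * Nat.card f.range := by
    rw [← h1, h2, ← h3, h1, mul_comm]
  exact Nat.eq_of_mul_eq_mul_right h4 h5

/-- The torsion of a quotient is not larger. -/
theorem rank2_tor_quot (T : Type u) [AddCommGroup T] [Finite T] (P : AddSubgroup T) :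
    Nat.card (tor3 (T ⧸ P)) ≤ Nat.card (tor3 T) := by
  rw [rank2_card_tor, rank2_card_tor]
  have hsurj : Function.Surjective (QuotientAddGroup.mk' P) := QuotientAddGroup.mk'_surjective P
  have hmap : (nsmulAddMonoidHom 3 : (T ⧸ P) →+ (T ⧸ P)).range =
      ((nsmulAddMonoidHom 3 : T →+ T).range).map (QuotientAddGroup.mk' P) := by
    ext y
    constructor
    · rintro ⟨z, rfl⟩
      obtain ⟨t, rfl⟩ := hsurj z
      exact ⟨nsmulAddMonoidHom 3 t, ⟨t, rfl⟩, by simp⟩
    · rintro ⟨_, ⟨t, rfl⟩, rfl⟩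
      exact ⟨QuotientAddGroup.mk' P t, by simp⟩
  rw [hmap]
  exact Nat.le_of_dvd (Nat.pos_of_ne_zero AddSubgroup.index_ne_zero_of_finite)
    (AddSubgroup.index_map_dvd _ hsurj)

section
variable {T : Type u} [AddCommGroup T] [Finite T]

theorem rank2_zm {h : T} (h0 : h ≠ 0) (h3 : h + h + h = 0) :
    Nat.card (AddSubgroup.zmultiples h) = 3 := by
  rw [Nat.card_zmultiples]
  apply addOrderOf_eq_prime
  · simp [succ_nsmul, h3]
  · exact h0

theorem rank2_mem {h : T} (h0 : h ≠ 0) (h3 : h + h + h = 0) {y : T}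
    (hy : y ∈ AddSubgroup.zmultiples h) : y = 0 ∨ y = h ∨ y = -h := by
  classical
  have hc := rank2_zm h0 h3
  -- the three elements
  have hne : h ≠ -h := by
    intro he
    apply h0
    have : h + h = 0 := by rw [add_eq_zero_iff_eq_neg]; exact he
    rw [this, zero_add] at h3
    exact h3
  by_contra hcon
  rw [not_or, not_or] at hcon
  have hsub : (({0, h, -h, y} : Finset T) : Set T) ⊆ (AddSubgroup.zmultiples h : Set T) := by
    intro z hz
    rw [Finset.mem_coe, Finset.mem_insert, Finset.mem_insert, Finset.mem_insert,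
      Finset.mem_singleton] at hz
    rcases hz with rfl | rfl | rfl | rfl
    · exact zero_mem _
    · exact AddSubgroup.mem_zmultiples _
    · exact neg_mem (AddSubgroup.mem_zmultiples _)
    · exact hy
  have h1 := Set.ncard_le_ncard hsub (Set.toFinite _)
  rw [Set.ncard_coe_finset] at h1
  have h2 : ((AddSubgroup.zmultiples h : AddSubgroup T) : Set T).ncard = 3 := hc
  rw [h2] at h1
  have h4 : ({0, h, -h, y} : Finset T).card = 4 := by
    rw [Finset.card_insert_of_notMem, Finset.card_insert_of_notMem, Finset.card_insert_of_notMem,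
      Finset.card_singleton]
    · rw [Finset.mem_singleton]; exact fun e => hcon.2.2 e.symm
    · rw [Finset.mem_insert, Finset.mem_singleton, not_or]
      exact ⟨hne, fun e => hcon.2.1 e.symm⟩
    · rw [Finset.mem_insert, Finset.mem_insert, Finset.mem_singleton, not_or, not_or]
      exact ⟨fun e => h0 e.symm, fun e => h0 (by rw [← neg_neg h, ← e, neg_zero]),
        fun e => hcon.1 e.symm⟩
  omega

/-- Elements `i` of the quotient with `3 i = 0` and a full fibre. -/
theorem rank2_elt {A : Finset T} (hA : Adm A) {h : T} (h0 : h ≠ 0) (h3 : h + h + h = 0)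
    {i : T ⧸ AddSubgroup.zmultiples h} (hi : i + i + i = 0)
    (hk : fk (AddSubgroup.zmultiples h) A i = 3) :
    ∃ x : T, (QuotientAddGroup.mk x : T ⧸ AddSubgroup.zmultiples h) = i ∧
      (∀ y ∈ AddSubgroup.zmultiples h, x + y ∈ A) ∧ (x + x + x = h ∨ x + x + x = -h) := by
  obtain ⟨x, rfl⟩ := QuotientAddGroup.mk_surjective i
  have hfull := rank2_full (AddSubgroup.zmultiples h) A x (by rw [rank2_zm h0 h3, hk])
  refine ⟨x, rfl, hfull, ?_⟩
  have hmem : x + x + x ∈ AddSubgroup.zmultiples h := by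
    rw [← QuotientAddGroup.eq_zero_iff]
    exact hi
  rcases rank2_mem h0 h3 hmem with hz | hz | hz
  · exfalso
    have hne : h ≠ -h := by
      intro he
      apply h0
      have : h + h = 0 := by rw [add_eq_zero_iff_eq_neg]; exact he
      rw [this, zero_add] at h3
      exact h3
    have hn0 : -h ≠ 0 := fun e => h0 (by rw [← neg_neg h, e, neg_zero])
    apply hA (x + 0) (hfull 0 (zero_mem _)) (x + h) (hfull h (AddSubgroup.mem_zmultiples _))
      (x + -h) (hfull (-h) (neg_mem (AddSubgroup.mem_zmultiples _)))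
    · intro e; exact h0 (add_left_cancel e).symm
    · intro e; exact hn0 (add_left_cancel e).symm
    · intro e; exact hne (add_left_cancel e)
    · have : x + 0 + (x + h) + (x + -h) = x + x + x := by abel
      rw [this, hz]
  · exact Or.inl hz
  · exact Or.inr hz

/-- Image of the torsion in the quotient. -/
theorem rank2_R {h : T} (h0 : h ≠ 0) (h3 : h + h + h = 0) :
    3 * Nat.card ((tor3 T).map (QuotientAddGroup.mk' (AddSubgroup.zmultiples h))) =
      Nat.card (tor3 T) := by
  have h1 := card_comap (AddSubgroup.zmultiples h)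
    ((tor3 T).map (QuotientAddGroup.mk' (AddSubgroup.zmultiples h)))
  rw [rank2_zm h0 h3] at h1
  have h2 : ((tor3 T).map (QuotientAddGroup.mk' (AddSubgroup.zmultiples h))).comap
      (QuotientAddGroup.mk' (AddSubgroup.zmultiples h)) = tor3 T := by
    rw [AddSubgroup.comap_map_eq, QuotientAddGroup.ker_mk', sup_eq_left]
    exact AddSubgroup.zmultiples_le_of_mem (mem_tor3.2 h3)
  rw [h2] at h1
  exact h1.symm

theorem rank2_sub {h s : T} {a b : T ⧸ AddSubgroup.zmultiples h}
    (ha : ∃ x : T, (QuotientAddGroup.mk x : T ⧸ AddSubgroup.zmultiples h) = a ∧ x + x + x = s)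
    (hb : ∃ x : T, (QuotientAddGroup.mk x : T ⧸ AddSubgroup.zmultiples h) = b ∧ x + x + x = s) :
    b - a ∈ (tor3 T).map (QuotientAddGroup.mk' (AddSubgroup.zmultiples h)) := by
  obtain ⟨x, rfl, hx⟩ := ha
  obtain ⟨y, rfl, hy⟩ := hb
  refine ⟨y - x, mem_tor3.2 ?_, by simp⟩
  have : y - x + (y - x) + (y - x) = (y + y + y) - (x + x + x) := by abel
  rw [this, hx, hy, sub_self]

theorem rank2_W2 {A : Finset T} (hA : Adm A) {h : T} (h0 : h ≠ 0) (h3 : h + h + h = 0)
    (ht : Nat.card (tor3 T) ≤ 9) {s : T} (W : Finset (T ⧸ AddSubgroup.zmultiples h))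
    (hW : ∀ i ∈ W, ∃ x : T, (QuotientAddGroup.mk x : T ⧸ AddSubgroup.zmultiples h) = i ∧
      x + x + x = s)
    (hk : ∀ i ∈ W, i + i + i = 0 ∧ fk (AddSubgroup.zmultiples h) A i = 3) : W.card ≤ 2 := by
  classical
  by_contra hcon
  obtain ⟨a, ha, b, hb, c, hc, hab, hac, hbc⟩ := Finset.two_lt_card.1 (not_le.1 hcon)
  set R := (tor3 T).map (QuotientAddGroup.mk' (AddSubgroup.zmultiples h)) with hR
  have hRc := rank2_R h0 h3
  rw [← hR] at hRc
  have hu : b - a ∈ R := rank2_sub (hW a ha) (hW b hb)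
  have hv : c - a ∈ R := rank2_sub (hW a ha) (hW c hc)
  have hu0 : b - a ≠ 0 := fun e => hab (sub_eq_zero.1 e).symm
  have hv0 : c - a ≠ 0 := fun e => hac (sub_eq_zero.1 e).symm
  have huv : b - a ≠ c - a := fun e => hbc (sub_left_injective e)
  have hsum0 : (b - a) + (c - a) = 0 := by
    by_contra hne
    have hsub : (({0, b - a, c - a, (b - a) + (c - a)} :
        Finset (T ⧸ AddSubgroup.zmultiples h)) : Set (T ⧸ AddSubgroup.zmultiples h)) ⊆
        (R : Set (T ⧸ AddSubgroup.zmultiples h)) := by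
      intro z hz
      rw [Finset.mem_coe, Finset.mem_insert, Finset.mem_insert, Finset.mem_insert,
        Finset.mem_singleton] at hz
      rcases hz with rfl | rfl | rfl | rfl
      · exact zero_mem _
      · exact hu
      · exact hv
      · exact add_mem hu hv
    have h1 := Set.ncard_le_ncard hsub (Set.toFinite _)
    rw [Set.ncard_coe_finset] at h1
    have h2 : (R : Set (T ⧸ AddSubgroup.zmultiples h)).ncard = Nat.card R := rfl
    have h4 : ({0, b - a, c - a, (b - a) + (c - a)} :
        Finset (T ⧸ AddSubgroup.zmultiples h)).card = 4 := by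
      rw [Finset.card_insert_of_notMem, Finset.card_insert_of_notMem,
        Finset.card_insert_of_notMem, Finset.card_singleton]
      · rw [Finset.mem_singleton]
        intro e
        apply hu0
        have e' : 0 + (c - a) = (b - a) + (c - a) := by rw [zero_add]; exact e
        exact (add_right_cancel e').symm
      · rw [Finset.mem_insert, Finset.mem_singleton, not_or]
        refine ⟨huv, fun e => hv0 ?_⟩
        have e' : (b - a) + 0 = (b - a) + (c - a) := by rw [add_zero]; exact e
        exact (add_left_cancel e').symm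
      · rw [Finset.mem_insert, Finset.mem_insert, Finset.mem_singleton, not_or, not_or]
        exact ⟨fun e => hu0 e.symm, fun e => hv0 e.symm, fun e => hne e.symm⟩
    omega
  have hFib := fib_fk Nat.prime_three (AddSubgroup.zmultiples h) (rank2_zm h0 h3) A hA
  have habc : a + b + c = 0 := by
    have e1 : a + b + c = (a + a + a) + ((b - a) + (c - a)) := by abel
    rw [e1, (hk a ha).1, hsum0, add_zero]
  have e1 := (hk a ha).2
  have e2 := (hk b hb).2
  have e3 := (hk c hc).2
  have := hFib.c1 a b c habc hab hac hbc (by omega) (by omega) (by omega)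
  omega

theorem rank2_W1 {h : T} (h0 : h ≠ 0) (h3 : h + h + h = 0)
    (ht : Nat.card (tor3 T) ≤ 3) {s : T} (W : Finset (T ⧸ AddSubgroup.zmultiples h))
    (hW : ∀ i ∈ W, ∃ x : T, (QuotientAddGroup.mk x : T ⧸ AddSubgroup.zmultiples h) = i ∧
      x + x + x = s) : W.card ≤ 1 := by
  classical
  rw [Finset.card_le_one]
  intro a ha b hb
  set R := (tor3 T).map (QuotientAddGroup.mk' (AddSubgroup.zmultiples h)) with hR
  have hRc := rank2_R h0 h3
  rw [← hR] at hRc
  have hR1 : Nat.card R = 1 := by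
    have : 0 < Nat.card R := Nat.card_pos
    omega
  have hbot : R = ⊥ := AddSubgroup.eq_bot_of_card_eq R hR1
  have hu : b - a ∈ R := rank2_sub (hW a ha) (hW b hb)
  rw [hbot, AddSubgroup.mem_bot] at hu
  exact (sub_eq_zero.1 hu).symm

/-- The alternative for one direction `h`. -/
theorem rank2_dir {A : Finset T} (hA : Adm A) {n : ℕ} (hT : Nat.card T = 3 ^ (n + 1))
    (ht : Nat.card (tor3 T) ≤ 9) {h : T} (h0 : h ≠ 0) (h3 : h + h + h = 0)
    (ih : 3 * D (T ⧸ AddSubgroup.zmultiples h) ≤ 3 ^ n + 9) :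
    3 * A.card ≤ Nat.card T + 9 ∨ (4 ≤ Nat.card (tor3 T) ∧
      (∃ x : T, x + x + x = h ∧ ∀ y ∈ AddSubgroup.zmultiples h, x + y ∈ A) ∧
      (∃ x : T, x + x + x = -h ∧ ∀ y ∈ AddSubgroup.zmultiples h, x + y ∈ A)) := by
  classical
  have _ := Fintype.ofFinite (T ⧸ AddSubgroup.zmultiples h)
  have hP := rank2_zm h0 h3
  have hFib := fib_fk Nat.prime_three (AddSubgroup.zmultiples h) hP A hA
  have hQ : Nat.card (T ⧸ AddSubgroup.zmultiples h) = 3 ^ n := by
    have h1 := AddSubgroup.card_eq_card_quotient_mul_card_addSubgroup (AddSubgroup.zmultiples h)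
    rw [hT, hP, pow_succ] at h1
    exact (Nat.eq_of_mul_eq_mul_right (by omega) h1).symm
  by_cases hW : ∀ W : Finset (T ⧸ AddSubgroup.zmultiples h),
      (∀ i ∈ W, i + i + i = 0 ∧ fk (AddSubgroup.zmultiples h) A i = 3) → W.card ≤ 2
  · left
    have h1 := t3 hFib hQ (D' := D (T ⧸ AddSubgroup.zmultiples h))
      (fun X hX => card_le_D hX) hW
    rw [sum_fk, hQ] at h1
    rw [hT, pow_succ]
    rcases h1 with h1 | h1 | h1 <;> omega
  · right
    push Not at hW
    obtain ⟨W, hW, hWc⟩ := hW
    have helt : ∀ i ∈ W, ∃ x : T,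
        (QuotientAddGroup.mk x : T ⧸ AddSubgroup.zmultiples h) = i ∧
        (∀ y ∈ AddSubgroup.zmultiples h, x + y ∈ A) ∧ (x + x + x = h ∨ x + x + x = -h) :=
      fun i hi => rank2_elt hA h0 h3 (hW i hi).1 (hW i hi).2
    set Wp := W.filter (fun i => ∃ x : T,
        (QuotientAddGroup.mk x : T ⧸ AddSubgroup.zmultiples h) = i ∧
        (∀ y ∈ AddSubgroup.zmultiples h, x + y ∈ A) ∧ x + x + x = h) with hWp
    set Wm := W.filter (fun i => ∃ x : T,
        (QuotientAddGroup.mk x : T ⧸ AddSubgroup.zmultiples h) = i ∧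
        (∀ y ∈ AddSubgroup.zmultiples h, x + y ∈ A) ∧ x + x + x = -h) with hWm
    have hsub : W ⊆ Wp ∪ Wm := by
      intro i hi
      obtain ⟨x, hx, hx', hs | hs⟩ := helt i hi
      · exact Finset.mem_union_left _ (Finset.mem_filter.2 ⟨hi, x, hx, hx', hs⟩)
      · exact Finset.mem_union_right _ (Finset.mem_filter.2 ⟨hi, x, hx, hx', hs⟩)
    have hc1 : W.card ≤ Wp.card + Wm.card :=
      (Finset.card_le_card hsub).trans (Finset.card_union_le _ _)
    have hpW : ∀ i ∈ Wp, ∃ x : T, (QuotientAddGroup.mk x : T ⧸ AddSubgroup.zmultiples h) = i ∧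
        x + x + x = h := by
      intro i hi
      obtain ⟨x, hx, -, hs⟩ := (Finset.mem_filter.1 hi).2
      exact ⟨x, hx, hs⟩
    have hmW : ∀ i ∈ Wm, ∃ x : T, (QuotientAddGroup.mk x : T ⧸ AddSubgroup.zmultiples h) = i ∧
        x + x + x = -h := by
      intro i hi
      obtain ⟨x, hx, -, hs⟩ := (Finset.mem_filter.1 hi).2
      exact ⟨x, hx, hs⟩
    have hp2 := rank2_W2 hA h0 h3 ht Wp hpW (fun i hi => hW i (Finset.mem_filter.1 hi).1)
    have hm2 := rank2_W2 hA h0 h3 ht Wm hmW (fun i hi => hW i (Finset.mem_filter.1 hi).1)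
    refine ⟨?_, ?_, ?_⟩
    · by_contra h4
      have hp1 := rank2_W1 h0 h3 (by omega) Wp hpW
      have hm1 := rank2_W1 h0 h3 (by omega) Wm hmW
      omega
    · obtain ⟨i, hi⟩ := Finset.card_pos.1 (show 0 < Wp.card by omega)
      obtain ⟨x, -, hx', hs⟩ := (Finset.mem_filter.1 hi).2
      exact ⟨x, hs, hx'⟩
    · obtain ⟨i, hi⟩ := Finset.card_pos.1 (show 0 < Wm.card by omega)
      obtain ⟨x, -, hx', hs⟩ := (Finset.mem_filter.1 hi).2
      exact ⟨x, hs, hx'⟩

end

theorem rank2_up (n : ℕ) : ∀ (T : Type u) [AddCommGroup T] [Finite T], 2 ≤ n →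
    Nat.card T = 3 ^ n → Nat.card (tor3 T) ≤ 9 → 3 * D T ≤ Nat.card T + 9 := by
  induction n with
  | zero => intro T _ _ h; omega
  | succ n ih =>
    intro T _ _ hn hT ht
    classical
    obtain ⟨A, hA, hAD⟩ := exists_D T
    rcases Nat.lt_or_ge n 2 with h2 | h2
    · have hn1 : n = 1 := by omega
      subst hn1
      have hc := crude T (by rw [hT]; norm_num) hA
      rw [hT] at hc ⊢
      norm_num at hc ⊢
      omega
    have hquot : ∀ h : T, h ≠ 0 → h + h + h = 0 →
        3 * D (T ⧸ AddSubgroup.zmultiples h) ≤ 3 ^ n + 9 := by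
      intro h h0 h3
      have hQ : Nat.card (T ⧸ AddSubgroup.zmultiples h) = 3 ^ n := by
        have h1 := AddSubgroup.card_eq_card_quotient_mul_card_addSubgroup
          (AddSubgroup.zmultiples h)
        rw [hT, rank2_zm h0 h3, pow_succ] at h1
        exact (Nat.eq_of_mul_eq_mul_right (by omega) h1).symm
      have := ih (T ⧸ AddSubgroup.zmultiples h) h2 hQ ((rank2_tor_quot T _).trans ht)
      rw [hQ] at this
      exact this
    rw [← hAD]
    by_contra hcon
    have hdir : ∀ h : T, h ≠ 0 → h + h + h = 0 → (4 ≤ Nat.card (tor3 T) ∧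
      (∃ x : T, x + x + x = h ∧ ∀ y ∈ AddSubgroup.zmultiples h, x + y ∈ A) ∧
      (∃ x : T, x + x + x = -h ∧ ∀ y ∈ AddSubgroup.zmultiples h, x + y ∈ A)) := by
      intro h h0 h3
      rcases rank2_dir hA hT ht h0 h3 (hquot h h0 h3) with h' | h'
      · exact absurd h' hcon
      · exact h'
    -- a first direction
    obtain ⟨h1, hh1⟩ : ∃ h : T, addOrderOf h = 3 := by
      have := Fintype.ofFinite T
      have : Fact (Nat.Prime 3) := ⟨Nat.prime_three⟩
      apply exists_prime_addOrderOf_dvd_card'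
      rw [hT]
      exact dvd_pow_self 3 (by omega)
    have h1z : h1 ≠ 0 := by
      intro e
      rw [e, addOrderOf_zero] at hh1
      omega
    have h13 : h1 + h1 + h1 = 0 := by
      have := addOrderOf_nsmul_eq_zero h1
      rw [hh1] at this
      rw [← this, succ_nsmul, two_nsmul]
    obtain ⟨ht4, ⟨x1, hx1, hx1A⟩, -⟩ := hdir h1 h1z h13
    have ht9 : Nat.card (tor3 T) = 9 := by
      have hd : Nat.card (tor3 T) ∣ 3 ^ (n + 1) := by
        rw [← hT]; exact AddSubgroup.card_addSubgroup_dvd_card _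
      obtain ⟨e, -, he⟩ := (Nat.dvd_prime_pow Nat.prime_three).1 hd
      rcases e with _ | _ | _ | e
      · rw [he] at ht4; norm_num at ht4
      · rw [he] at ht4; norm_num at ht4
      · rw [he]; norm_num
      · exfalso
        rw [he] at ht
        have : 3 ^ 3 ≤ 3 ^ (e + 1 + 1 + 1) := Nat.pow_le_pow_right (by omega) (by omega)
        omega
    -- a second direction
    obtain ⟨h2', hh2t, hh2⟩ : ∃ h ∈ tor3 T, h ∉ AddSubgroup.zmultiples h1 := by
      by_contra hcon2
      push Not at hcon2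
      have hle : tor3 T ≤ AddSubgroup.zmultiples h1 := hcon2
      have := AddSubgroup.card_le_of_le hle
      rw [ht9, rank2_zm h1z h13] at this
      omega
    have h2z : h2' ≠ 0 := fun e => hh2 (by rw [e]; exact zero_mem _)
    have h23 : h2' + h2' + h2' = 0 := mem_tor3.1 hh2t
    obtain ⟨-, ⟨x2, hx2, hx2A⟩, -⟩ := hdir h2' h2z h23
    have h3z : h1 + h2' ≠ 0 := by
      intro e
      apply hh2
      have : h2' = -h1 := (neg_eq_of_add_eq_zero_right e).symm
      rw [this]
      exact neg_mem (AddSubgroup.mem_zmultiples _)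
    have h33 : (h1 + h2') + (h1 + h2') + (h1 + h2') = 0 := by
      have : (h1 + h2') + (h1 + h2') + (h1 + h2') = (h1 + h1 + h1) + (h2' + h2' + h2') := by abel
      rw [this, h13, h23, add_zero]
    obtain ⟨-, -, ⟨x3, hx3, hx3A⟩⟩ := hdir (h1 + h2') h3z h33
    -- `P1 ⊔ P2 = tor3 T`
    have hsup : AddSubgroup.zmultiples h1 ⊔ AddSubgroup.zmultiples h2' = tor3 T := by
      have hle : AddSubgroup.zmultiples h1 ⊔ AddSubgroup.zmultiples h2' ≤ tor3 T :=
        sup_le (AddSubgroup.zmultiples_le_of_mem (mem_tor3.2 h13))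
          (AddSubgroup.zmultiples_le_of_mem hh2t)
      apply AddSubgroup.eq_of_le_of_card_ge hle
      rw [ht9]
      have hd : Nat.card ↥(AddSubgroup.zmultiples h1 ⊔ AddSubgroup.zmultiples h2') ∣ 9 := by
        rw [← ht9]; exact AddSubgroup.card_dvd_of_le hle
      have hd3 : 3 ∣ Nat.card ↥(AddSubgroup.zmultiples h1 ⊔ AddSubgroup.zmultiples h2') := by
        rw [← rank2_zm h1z h13]; exact AddSubgroup.card_dvd_of_le le_sup_left
      have hne : Nat.card ↥(AddSubgroup.zmultiples h1 ⊔ AddSubgroup.zmultiples h2') ≠ 3 := by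
        intro e
        have heq : AddSubgroup.zmultiples h1 =
            AddSubgroup.zmultiples h1 ⊔ AddSubgroup.zmultiples h2' :=
          AddSubgroup.eq_of_le_of_card_ge le_sup_left (by rw [e, rank2_zm h1z h13])
        apply hh2
        rw [heq]
        exact (le_sup_right : AddSubgroup.zmultiples h2' ≤ _) (AddSubgroup.mem_zmultiples _)
      obtain ⟨m, hm⟩ := hd3
      have hm9 : 3 * m ∣ 3 * 3 := by rw [← hm]; exact hd
      have hm3 : m ∣ 3 := Nat.dvd_of_mul_dvd_mul_left (by omega) hm9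
      rcases (Nat.dvd_prime Nat.prime_three).1 hm3 with rfl | rfl
      · omega
      · omega
    have htm : x1 + x2 + x3 ∈ tor3 T := by
      rw [mem_tor3]
      have : x1 + x2 + x3 + (x1 + x2 + x3) + (x1 + x2 + x3) =
        (x1 + x1 + x1) + (x2 + x2 + x2) + (x3 + x3 + x3) := by abel
      rw [this, hx1, hx2, hx3]
      abel
    rw [← hsup, AddSubgroup.mem_sup] at htm
    obtain ⟨p1, hp1, p2, hp2, hp⟩ := htm
    have hp13 : p1 + p1 + p1 = 0 :=
      mem_tor3.1 (AddSubgroup.zmultiples_le_of_mem (mem_tor3.2 h13) hp1)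
    have hp23 : p2 + p2 + p2 = 0 :=
      mem_tor3.1 (AddSubgroup.zmultiples_le_of_mem hh2t hp2)
    have ha := hx1A (-p1) (neg_mem hp1)
    have hb := hx2A (-p2) (neg_mem hp2)
    have hc := hx3A 0 (zero_mem _)
    have ka : (x1 + -p1) + (x1 + -p1) + (x1 + -p1) = h1 := by
      have : (x1 + -p1) + (x1 + -p1) + (x1 + -p1) = (x1 + x1 + x1) - (p1 + p1 + p1) := by abel
      rw [this, hx1, hp13, sub_zero]
    have kb : (x2 + -p2) + (x2 + -p2) + (x2 + -p2) = h2' := by
      have : (x2 + -p2) + (x2 + -p2) + (x2 + -p2) = (x2 + x2 + x2) - (p2 + p2 + p2) := by abel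
      rw [this, hx2, hp23, sub_zero]
    have kc : (x3 + 0) + (x3 + 0) + (x3 + 0) = -(h1 + h2') := by
      rw [add_zero, hx3]
    have hm1 : h1 ∈ AddSubgroup.zmultiples h1 := AddSubgroup.mem_zmultiples _
    refine hA _ ha _ hb _ hc ?_ ?_ ?_ ?_
    · intro e
      rw [e, kb] at ka
      exact hh2 (by rw [ka]; exact hm1)
    · intro e
      rw [e, kc] at ka
      apply hh2
      have : h2' = -(h1 + h1) := by
        have e2 : h1 + h1 + h2' = 0 := by
          have : h1 + h1 + h2' = h1 - -(h1 + h2') := by abel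
          rw [this, ka, sub_self]
        exact (neg_eq_of_add_eq_zero_right e2).symm
      rw [this]
      exact neg_mem (add_mem hm1 hm1)
    · intro e
      rw [e, kc] at kb
      apply hh2
      -- `h2' = -(h1 + h2')`, so `h1 = -2 h2' = h2'`
      have e1 : h1 + h2' + h2' = 0 := by
        have : h1 + h2' + h2' = h2' - -(h1 + h2') := by abel
        rw [this, kb, sub_self]
      have e2 : h1 = h2' := by
        have e3 : h1 + h2' + h2' = h2' + h2' + h2' := by rw [e1, h23]
        exact add_right_cancel (add_right_cancel e3)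
      rw [← e2]; exact hm1
    · have : x1 + -p1 + (x2 + -p2) + (x3 + 0) = (x1 + x2 + x3) - (p1 + p2) := by abel
      rw [this, hp, sub_self]

end Pool.Agent.DG
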