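import Pool.Agent.DG.Basic2

set_option autoImplicit false

namespace Pool.Agent.DG

section Part0

open Finset

universe u

/-- an admissible set misses a member of every zero-sum triple -/
theorem small_miss {G : Type*} [AddCommGroup G] {A : Finset G} (hA : Adm A) {x y z : G}
    (hxy : x ≠ y) (hxz : x ≠ z) (hyz : y ≠ z) (h : x + y + z = 0) : ¬ (x ∈ A ∧ y ∈ A ∧ z ∈ A) :=
  fun ⟨hx, hy, hz⟩ => hA x hx y hy z hz hxy hxz hyz h

theorem small_D_of {G : Type*} [AddCommGroup G] [Finite G] {n : ℕ} {A : Finset G} (hA : Adm A)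
    (hn : A.card = n) (h : ∀ B : Finset G, Adm B → B.card ≤ n) : D G = n := by
  apply le_antisymm
  · obtain ⟨B, hB, hB'⟩ := exists_D G
    rw [← hB']
    exact h B hB
  · rw [← hn]
    exact card_le_D hA

theorem small_z3 : D (ZMod 3) = 2 := by
  apply small_D_of (A := {0, 1}) (n := 2)
  · unfold Adm; decide
  · decide
  · intro B hB
    by_contra hcon
    have h1 : B = univ := by
      apply Finset.eq_univ_of_card
      have := Finset.card_le_univ B
      rw [ZMod.card] at *
      omega
    exact hB 0 (by rw [h1]; exact mem_univ _) 1 (by rw [h1]; exact mem_univ _) 2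
      (by rw [h1]; exact mem_univ _) (by decide) (by decide) (by decide) (by decide)

theorem D_three (G : Type u) [AddCommGroup G] [Finite G] (h : Nat.card G = 3) : D G = 2 := by
  have _ : Fact (Nat.Prime 3) := ⟨by norm_num⟩
  have hc : IsAddCyclic G := isAddCyclic_of_prime_card (p := 3) h
  have e := zmodAddCyclicAddEquiv hc
  rw [h] at e
  rw [← D_congr_univ e, small_z3]

theorem small_hm {G : Type*} [AddCommGroup G] [DecidableEq G] {B : Finset G} (hB : Adm B) :
    ∀ x y z : G, x ≠ y → x ≠ z → y ≠ z → x + y + z = 0 →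
        !(decide (x ∈ B) && decide (y ∈ B) && decide (z ∈ B)) := by
  intro x y z h1 h2 h3 h4
  have h5 := small_miss hB h1 h2 h3 h4
  by_cases c1 : x ∈ B <;> by_cases c2 : y ∈ B <;> by_cases c3 : z ∈ B <;>
    simp [c1, c2, c3] at h5 ⊢

theorem small_card {G : Type*} [Fintype G] [DecidableEq G] (B : Finset G) :
    B.card = ∑ x : G, (decide (x ∈ B)).toNat := by
  have h2 : ∀ x : G, (decide (x ∈ B)).toNat = if x ∈ B then 1 else 0 := by
    intro x; by_cases hx : x ∈ B <;> simp [hx]
  simp only [h2]
  rw [Finset.sum_boole]; simp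

theorem small_bool9 : ∀ a b c d e f g h i : Bool,
    !(a && b && c) → !(d && e && f) → !(g && h && i) →
    a.toNat + b.toNat + c.toNat + d.toNat + e.toNat + f.toNat + g.toNat + h.toNat + i.toNat ≤ 6 := by
  decide

theorem small_z9 : D (ZMod 9) = 6 := by
  apply small_D_of (A := {1, 2, 4, 5, 7, 8}) (n := 6)
  · unfold Adm; decide
  · decide
  · intro B hB
    have hm := small_hm hB
    have h9 : (univ : Finset (ZMod 9)) = {0, 1, 8, 2, 3, 4, 5, 6, 7} := by decide
    rw [small_card, h9]
    repeat rw [Finset.sum_insert (by decide)]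
    rw [Finset.sum_singleton]
    have key := small_bool9 (decide ((0 : ZMod 9) ∈ B)) (decide ((1 : ZMod 9) ∈ B))
      (decide ((8 : ZMod 9) ∈ B)) (decide ((2 : ZMod 9) ∈ B)) (decide ((3 : ZMod 9) ∈ B))
      (decide ((4 : ZMod 9) ∈ B)) (decide ((5 : ZMod 9) ∈ B)) (decide ((6 : ZMod 9) ∈ B))
      (decide ((7 : ZMod 9) ∈ B))
      (hm _ _ _ (by decide) (by decide) (by decide) (by decide))
      (hm _ _ _ (by decide) (by decide) (by decide) (by decide))
      (hm _ _ _ (by decide) (by decide) (by decide) (by decide))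
    omega

theorem D_nine_cyc (G : Type u) [AddCommGroup G] [Finite G] [IsAddCyclic G]
    (h : Nat.card G = 9) : D G = 6 := by
  have e := zmodAddCyclicAddEquiv (inferInstance : IsAddCyclic G)
  rw [h] at e
  rw [← D_congr_univ e, small_z9]

/-- the lines of the plane over the field with three elements -/
theorem small_bool : ∀ a b c d e f g h i : Bool,
    !(a && b && c) → !(d && e && f) → !(g && h && i) → !(a && d && g) → !(b && e && h) →
    !(c && f && i) → !(a && e && i) → !(b && f && g) → !(c && d && h) → !(a && f && h) →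
    !(b && d && i) → !(c && e && g) →
    a.toNat + b.toNat + c.toNat + d.toNat + e.toNat + f.toNat + g.toNat + h.toNat + i.toNat ≤ 4 := by
  decide

theorem small_z33 : D (ZMod 3 × ZMod 3) = 4 := by
  apply small_D_of (A := {(0, 0), (0, 1), (1, 0), (1, 1)}) (n := 4)
  · unfold Adm; decide
  · decide
  · intro B hB
    have hm := small_hm hB
    have h9 : (univ : Finset (ZMod 3 × ZMod 3)) =
      {(0, 0), (0, 1), (0, 2), (1, 0), (1, 1), (1, 2), (2, 0), (2, 1), (2, 2)} := by decide
    rw [small_card, h9]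
    repeat rw [Finset.sum_insert (by decide)]
    rw [Finset.sum_singleton]
    have key := small_bool (decide (((0, 0) : ZMod 3 × ZMod 3) ∈ B))
      (decide (((0, 1) : ZMod 3 × ZMod 3) ∈ B)) (decide (((0, 2) : ZMod 3 × ZMod 3) ∈ B))
      (decide (((1, 0) : ZMod 3 × ZMod 3) ∈ B)) (decide (((1, 1) : ZMod 3 × ZMod 3) ∈ B))
      (decide (((1, 2) : ZMod 3 × ZMod 3) ∈ B)) (decide (((2, 0) : ZMod 3 × ZMod 3) ∈ B))
      (decide (((2, 1) : ZMod 3 × ZMod 3) ∈ B)) (decide (((2, 2) : ZMod 3 × ZMod 3) ∈ B))
      (hm _ _ _ (by decide) (by decide) (by decide) (by decide))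
      (hm _ _ _ (by decide) (by decide) (by decide) (by decide))
      (hm _ _ _ (by decide) (by decide) (by decide) (by decide))
      (hm _ _ _ (by decide) (by decide) (by decide) (by decide))
      (hm _ _ _ (by decide) (by decide) (by decide) (by decide))
      (hm _ _ _ (by decide) (by decide) (by decide) (by decide))
      (hm _ _ _ (by decide) (by decide) (by decide) (by decide))
      (hm _ _ _ (by decide) (by decide) (by decide) (by decide))
      (hm _ _ _ (by decide) (by decide) (by decide) (by decide))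
      (hm _ _ _ (by decide) (by decide) (by decide) (by decide))
      (hm _ _ _ (by decide) (by decide) (by decide) (by decide))
      (hm _ _ _ (by decide) (by decide) (by decide) (by decide))
    omega

theorem D_nine (G : Type u) [AddCommGroup G] [Finite G] (h : Nat.card G = 9)
    (hc : ¬ IsAddCyclic G) : D G = 4 := by
  have _ : Fact (Nat.Prime 3) := ⟨by norm_num⟩
  have hz : ∀ x : G, (3 : ℕ) • x = 0 := by
    intro x
    have h1 : addOrderOf x ∣ 3 ^ 2 := by
      have := addOrderOf_dvd_natCard x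
      rw [h] at this
      exact this
    obtain ⟨k, hk, hk'⟩ := (Nat.dvd_prime_pow (by norm_num : Nat.Prime 3)).1 h1
    have hk2 : k ≠ 2 := by
      rintro rfl
      apply hc
      exact isAddCyclic_of_addOrderOf_eq_card x (by rw [hk', h]; norm_num)
    have h3 : addOrderOf x ∣ 3 := by
      rw [hk']
      exact (pow_dvd_pow 3 (by omega : k ≤ 1)).trans (by norm_num)
    exact addOrderOf_dvd_iff_nsmul_eq_zero.1 h3
  let _ : Module (ZMod 3) G := AddCommGroup.zmodModule hz
  have hfin : Module.Finite (ZMod 3) G := Module.Finite.of_finite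
  have hrank : Module.finrank (ZMod 3) G = 2 := by
    have h1 := Module.natCard_eq_pow_finrank (K := ZMod 3) (V := G)
    rw [h, Nat.card_zmod] at h1
    have h2 : (3 : ℕ) ^ 2 = 3 ^ Module.finrank (ZMod 3) G := by rw [← h1]; norm_num
    exact (Nat.pow_right_injective (le_refl 2 |>.trans (by norm_num)) h2).symm
  have e1 : G ≃ₗ[ZMod 3] (Fin 2 → ZMod 3) :=
    (Module.finBasisOfFinrankEq (ZMod 3) G hrank).equivFun
  have e2 : (Fin 2 → ZMod 3) ≃ₗ[ZMod 3] ZMod 3 × ZMod 3 := LinearEquiv.finTwoArrow (ZMod 3) (ZMod 3)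
  rw [D_congr_univ (e1.trans e2).toAddEquiv, small_z33]

theorem low_15 (G : Type u) [AddCommGroup G] [Finite G] (h : Nat.card G = 15) : 8 ≤ D G := by
  have _ : Fact (Nat.Prime 3) := ⟨by norm_num⟩
  have _ : Fact (Nat.Prime 5) := ⟨by norm_num⟩
  obtain ⟨x, hx⟩ := exists_prime_addOrderOf_dvd_card' (G := G) 3 (by rw [h]; norm_num)
  obtain ⟨y, hy⟩ := exists_prime_addOrderOf_dvd_card' (G := G) 5 (by rw [h]; norm_num)
  have hxy : addOrderOf (x + y) = 15 := by
    rw [(AddCommute.all x y).addOrderOf_add_eq_mul_addOrderOf_of_coprime (by rw [hx, hy]; norm_num),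
      hx, hy]
  have hc : IsAddCyclic G := isAddCyclic_of_addOrderOf_eq_card (x + y) (by rw [hxy, h])
  have e := zmodAddCyclicAddEquiv hc
  rw [h] at e
  rw [← D_congr_univ e]
  have hadm : Adm ({1, 2, 4, 7, 8, 11, 13, 14} : Finset (ZMod 15)) := by
    unfold Adm
    decide
  have h1 := card_le_D hadm
  have h2 : ({1, 2, 4, 7, 8, 11, 13, 14} : Finset (ZMod 15)).card = 8 := by decide
  omega


end Part0

end Pool.Agent.DG
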