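import Pool.Agent.DG.Fiber
import Pool.Agent.DG.Pair

set_option autoImplicit false

namespace Pool.Agent.DG

section Part0

open Finset

variable {G : Type*} [AddCommGroup G] [Finite G]

omit [Finite G] in
theorem str_L_eq (K : AddSubgroup G) [Fintype (G ⧸ K)] (A : Finset G) :
    L (fk K A) 1 = cl K A := by
  classical
  ext i
  rw [mem_L, mem_cl, fk_eq_card]
  change 0 < _ ↔ _
  rw [card_pos]
  constructor
  · rintro ⟨a, ha⟩
    rw [mem_filter] at ha
    exact ⟨a, ha.1, ha.2⟩
  · rintro ⟨a, ha, hi⟩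
    exact ⟨a, mem_filter.2 ⟨ha, hi⟩⟩

/-- If the support of the fibre sizes is critical then either the image of `A` in some quotient
`G / H` of order `3 t + 1` has `t + 1` elements and no zero-sum triple at all, or `|A|` is at most
`t |H|` plus the size of an admissible subset of `H`. -/
theorem crit_main (K : AddSubgroup G) [Fintype (G ⧸ K)] (A : Finset G) (hA : Adm A)
    (hc : Crit (L (fk K A) 1)) :
    ∃ (H : AddSubgroup G) (t : ℕ), K ≤ H ∧ 1 ≤ t ∧ Nat.card (G ⧸ H) = 3 * t + 1 ∧
      ((∃ A' : Finset H, Adm A' ∧ A.card ≤ t * Nat.card H + A'.card) ∨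
       (∃ S : Finset (G ⧸ H), NZ S S S ∧ S.card = t + 1 ∧ A.card ≤ (t + 1) * Nat.card H)) := by
  classical
  obtain ⟨F, t, X, ht, hd, hXS, hXc, hSc, hX⟩ := hc
  rw [str_L_eq] at hXS hSc hX
  set H : AddSubgroup G := F.comap (QuotientAddGroup.mk' K) with hH
  have hmem : ∀ g : G, g ∈ H ↔ (QuotientAddGroup.mk g : G ⧸ K) ∈ F := by
    intro g
    rw [hH, AddSubgroup.mem_comap]
    rfl
  have hKH : K ≤ H := by
    intro g hg
    rw [hmem, (QuotientAddGroup.eq_zero_iff g).2 hg]
    exact F.zero_mem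
  have hcard : Nat.card (G ⧸ H) = 3 * t + 1 := by
    have h1 : H.index = F.index :=
      AddSubgroup.index_comap_of_surjective F (QuotientAddGroup.mk'_surjective K)
    exact h1.trans hd
  -- the comparison map
  let ψ : G →+ (G ⧸ K) ⧸ F := (QuotientAddGroup.mk' F).comp (QuotientAddGroup.mk' K)
  have hψ : ∀ g ∈ H, ψ g = 0 := by
    intro g hg
    change (QuotientAddGroup.mk (QuotientAddGroup.mk g : G ⧸ K) : (G ⧸ K) ⧸ F) = 0
    exact (QuotientAddGroup.eq_zero_iff _).2 ((hmem g).1 hg)
  let θ : G ⧸ H →+ (G ⧸ K) ⧸ F := QuotientAddGroup.lift H ψ hψ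
  have hθ : ∀ g : G, θ (QuotientAddGroup.mk g) =
      (QuotientAddGroup.mk (QuotientAddGroup.mk g : G ⧸ K) : (G ⧸ K) ⧸ F) := fun g => rfl
  have hinj : Function.Injective θ := by
    rw [injective_iff_map_eq_zero]
    intro x hx
    obtain ⟨g, rfl⟩ := QuotientAddGroup.mk_surjective x
    rw [hθ] at hx
    rw [QuotientAddGroup.eq_zero_iff, hmem]
    exact (QuotientAddGroup.eq_zero_iff _).1 hx
  set S' := cl H A with hS'
  have himg : S'.image θ = cl F (cl K A) := by
    ext w
    rw [mem_image, mem_cl]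
    constructor
    · rintro ⟨u, hu, rfl⟩
      obtain ⟨a, ha, rfl⟩ := mem_cl.1 hu
      exact ⟨QuotientAddGroup.mk a, mk_mem_cl K ha, rfl⟩
    · rintro ⟨v, hv, rfl⟩
      obtain ⟨a, ha, rfl⟩ := mem_cl.1 hv
      exact ⟨QuotientAddGroup.mk a, mk_mem_cl H ha, rfl⟩
  have hS'c : S'.card = t + 1 := by
    rw [← card_image_of_injective S' hinj, himg, hSc]
  set X' := S'.filter (fun u => θ u ∈ cl F X) with hX'
  have hX'img : X'.image θ = cl F X := by
    ext w
    rw [mem_image]
    constructor
    · rintro ⟨u, hu, rfl⟩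
      exact (mem_filter.1 hu).2
    · intro hw
      have hw' : w ∈ S'.image θ := by
        rw [himg]
        obtain ⟨x, hx, rfl⟩ := mem_cl.1 hw
        exact mk_mem_cl F (hXS hx)
      obtain ⟨u, hu, rfl⟩ := mem_image.1 hw'
      exact ⟨u, mem_filter.2 ⟨hu, hw⟩, rfl⟩
  have hX'c : X'.card = t := by
    rw [← card_image_of_injective X' hinj, hX'img, hXc]
  have hX'sub : X' ⊆ S' := filter_subset _ _
  have hprop : ∀ x ∈ X', ∀ y ∈ S', ∀ z ∈ S', x + y + z ≠ 0 := by
    intro x hx y hy z hz hsum
    have h1 : θ x ∈ cl F X := (mem_filter.1 hx).2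
    have h2 : θ y ∈ cl F (cl K A) := by
      rw [← himg]
      exact mem_image_of_mem _ hy
    have h3 : θ z ∈ cl F (cl K A) := by
      rw [← himg]
      exact mem_image_of_mem _ hz
    obtain ⟨x0, hx0, e1⟩ := mem_cl.1 h1
    obtain ⟨y0, hy0, e2⟩ := mem_cl.1 h2
    obtain ⟨z0, hz0, e3⟩ := mem_cl.1 h3
    apply hX x0 hx0 y0 hy0 z0 hz0
    rw [← QuotientAddGroup.eq_zero_iff, QuotientAddGroup.mk_add, QuotientAddGroup.mk_add, e1, e2,
      e3, ← map_add, ← map_add, hsum, map_zero]
  refine ⟨H, t, hKH, ht, hcard, ?_⟩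
  by_cases hnz : NZ S' S' S'
  · right
    refine ⟨S', hnz, hS'c, ?_⟩
    have := card_le_cl H A
    rw [← hS', hS'c] at this
    rw [mul_comm]
    exact this
  · left
    -- the only class outside `X'` is `0`
    have hdiff : (S' \ X').card = 1 := by
      rw [card_sdiff_of_subset hX'sub, hS'c, hX'c]
      omega
    obtain ⟨c, hcc⟩ := card_eq_one.1 hdiff
    have hout : ∀ x ∈ S', x ∉ X' → x = c := by
      intro x hx hx'
      have : x ∈ S' \ X' := mem_sdiff.2 ⟨hx, hx'⟩
      rw [hcc, mem_singleton] at this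
      exact this
    have hc3 : c + c + c = 0 := by
      unfold NZ at hnz
      push Not at hnz
      obtain ⟨x, hx, y, hy, z, hz, hsum⟩ := hnz
      have h1 : x ∉ X' := fun h => hprop x h y hy z hz hsum
      have h2 : y ∉ X' := fun h => hprop y h x hx z hz (by rw [add_comm y x]; exact hsum)
      have h3 : z ∉ X' := fun h => hprop z h x hx y hy (by
        rw [← hsum]
        abel)
      rw [hout x hx h1, hout y hy h2, hout z hz h3] at hsum
      exact hsum
    have hc0 : c = 0 := by
      have h1 : (Nat.card (G ⧸ H)) • c = 0 := card_nsmul_eq_zero'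
      have h2 : (3 : ℕ) • c = 0 := by
        rw [succ_nsmul, two_nsmul]
        exact hc3
      rw [hcard, add_nsmul, one_nsmul, mul_nsmul, h2, nsmul_zero, zero_add] at h1
      exact h1
    refine ⟨A.subtype (fun g => g ∈ H), ?_, ?_⟩
    · intro x hx y hy z hz hxy hxz hyz hs
      rw [mem_subtype] at hx hy hz
      refine hA _ hx _ hy _ hz (fun h => hxy (Subtype.ext h)) (fun h => hxz (Subtype.ext h))
        (fun h => hyz (Subtype.ext h)) ?_
      have := congrArg (fun t : H => (t : G)) hs
      simpa using this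
    · rw [card_subtype]
      have h1 := card_filter_add_card_filter_not (s := A) (fun g => g ∈ H)
      have h2 : (A.filter (fun g => ¬ g ∈ H)).card ≤ Nat.card H * t := by
        refine (card_le_cl H _).trans (Nat.mul_le_mul_left _ ?_)
        rw [← hX'c]
        apply card_le_card
        intro u hu
        obtain ⟨a, ha, rfl⟩ := mem_cl.1 hu
        rw [mem_filter] at ha
        by_contra hcon
        have := hout _ (mk_mem_cl H ha.1) hcon
        rw [hc0, QuotientAddGroup.eq_zero_iff] at this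
        exact ha.2 this
      rw [mul_comm t]
      omega


end Part0

end Pool.Agent.DG
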