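import Pool.Agent.DG.Pairing

set_option autoImplicit false

/-! # The step over a subgroup of order 3 -/

namespace Pool.Agent.DG
open Finset

variable {Q : Type*} [AddCommGroup Q] {k : Q → ℕ}

theorem t3_odd {n c : ℕ} (h : n = 3 ^ c) : n % 2 = 1 := by
  have : Odd n := by rw [h]; exact Odd.pow (by decide)
  exact Nat.odd_iff.1 this

theorem t3_no_crit [Finite Q] {c : ℕ} (hN : Nat.card Q = 3 ^ c) (S : Finset Q) : ¬ Crit S := by
  rintro ⟨F, t, X, ht, hF, -⟩
  have hd : Nat.card (Q ⧸ F) ∣ Nat.card Q := AddSubgroup.card_quotient_dvd_card F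
  rw [hN, hF] at hd
  obtain ⟨e, -, he⟩ := (Nat.dvd_prime_pow Nat.prime_three).1 hd
  rcases e with _ | e
  · rw [pow_zero] at he; omega
  · rw [pow_succ] at he; omega

theorem t3_three [Fintype Q] (hk : Fib 3 k) {c : ℕ} (hN : Nat.card Q = 3 ^ c)
    {i0 : Q} (hi0 : k i0 = 3) {D' : ℕ} (hD : ∀ X : Finset Q, Adm X → X.card ≤ D') {w : ℕ}
    (hw : ∀ W : Finset Q, (∀ i ∈ W, i + i + i = 0 ∧ k i = 3) → W.card ≤ w) :
    ∑ i, k i ≤ Nat.card Q + 3 ∨ ∑ i, k i ≤ Nat.card Q + 1 + w ∨
      3 * ∑ i, k i ≤ 2 * Nat.card Q + 3 * D' := by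
  classical
  have hodd := t3_odd hN
  have hsum : ∑ i, k i = ell k 1 + ell k 2 + ell k 3 := by
    rw [lev_sum hk.le]
    rw [show Icc 1 3 = ({1, 2, 3} : Finset ℕ) from rfl]
    simp [add_assoc]
  -- the zero-sum triples with an element of `L 3`
  set W : Finset Q := (L k 1).filter (fun i => i + i + i = 0 ∧ k i = 3) with hW
  set E : Finset Q := (L k 1).filter (fun j => k j = 1 ∧ k (-(j + j)) = 3) with hEdef
  have hWw : W.card ≤ w := by
    apply hw
    intro x hx
    rw [hW, Finset.mem_filter] at hx
    exact hx.2
  have key : ∀ x ∈ L k 3, ∀ y ∈ L k 1, ∀ z ∈ L k 1, x + y + z = 0 → y = z ∧ z ∈ W ∪ E := by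
    intro x hx y hy z hz hsum
    rw [mem_L] at hx hy
    have hz' := mem_L.1 hz
    have hx3 : k x = 3 := le_antisymm (hk.le x) hx
    by_cases hx0 : x + x + x = 0
    · by_cases hxy : x = y
      · subst hxy
        have : z = x := by
          have e : x + x + z = x + x + x := by rw [hsum, hx0]
          exact add_left_cancel e
        subst this
        exact ⟨rfl, Finset.mem_union_left _ (by rw [hW, Finset.mem_filter]; exact ⟨hz, hx0, hx3⟩)⟩
      · by_cases hxz : x = z
        · subst hxz
          exfalso
          apply hxy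
          have e : x + y + x = x + x + x := by rw [hsum, hx0]
          exact (add_left_cancel (add_right_cancel e)).symm
        · by_cases hyz : y = z
          · subst hyz
            exfalso
            -- `3 y = 0`
            have e1 : (y + y + y) + (y + y + y) = 0 + 0 := by
              have : (y + y + y) + (y + y + y) = (x + y + y) + (x + y + y) + (x + y + y)
                - (x + x + x) := by abel
              rw [this, hsum, hx0]; simp
            have e2 := avoidb_double hodd e1
            apply hxy
            have e : x + y + y = y + y + y := by rw [hsum, e2]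
            exact add_right_cancel (add_right_cancel e)
          · exfalso
            have := hk.c1 x y z hsum hxy hxz hyz (by omega) (by omega) (by omega)
            omega
    · obtain ⟨hyz, h⟩ := avg hk hsum hx0 (by omega) (by omega) (by omega)
      refine ⟨hyz, Finset.mem_union_right _ ?_⟩
      subst hyz
      have hx' : -(y + y) = x := by
        rw [neg_eq_iff_add_eq_zero, add_comm, ← add_assoc]; exact hsum
      rw [hEdef, Finset.mem_filter, hx']
      refine ⟨hz, ?_, hx3⟩
      rcases h with h | h <;> omega
  have hadm2 : ell k 2 ≤ D' := hD _ (adm_lev hk (by omega))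
  by_cases hemp : W ∪ E = ∅
  · -- no exceptional triples: Kneser
    have hNZ : NZ (L k 3) (L k 1) (L k 1) := by
      intro x hx y hy z hz hsum
      have := (key x hx y hy z hz hsum).2
      rw [hemp] at this
      exact absurd this (Finset.notMem_empty _)
    rcases pair3 hodd (L k 3) (L k 1) (L k 1) (lev_anti (by omega)) (Finset.Subset.refl _)
      ⟨i0, mem_L.2 hi0.ge⟩ hNZ with h | h | h
    · right; right
      have h' : 3 * (ell k 3 + ell k 1) ≤ 2 * Nat.card Q := h
      omega
    · left
      have h1 : 3 * (L k 1).card ≤ Nat.card Q + 0 := by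
        apply zsf' _ _ h
        intro d hd hd3
        exfalso
        rw [hN] at hd
        obtain ⟨e, -, he⟩ := (Nat.dvd_prime_pow Nat.prime_three).1 hd
        rcases e with _ | e
        · rw [pow_zero] at he; omega
        · rw [pow_succ] at he; omega
      have h2 : ell k 2 ≤ ell k 1 := lev_card_anti (by omega)
      have h3 : ell k 3 ≤ ell k 1 := lev_card_anti (by omega)
      have h4 : (L k 1).card = ell k 1 := rfl
      omega
    · exact absurd h (t3_no_crit hN _)
  · right; left
    obtain ⟨e, he⟩ := Finset.nonempty_iff_ne_empty.2 hemp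
    set C : Finset Q := ((L k 1) \ (W ∪ E)).image (fun x => -x) with hC
    have hCavoid : ∀ x ∈ L k 3, ∀ y ∈ L k 1, x + y ∉ C := by
      intro x hx y hy hmem
      rw [hC, Finset.mem_image] at hmem
      obtain ⟨z, hz, hzx⟩ := hmem
      rw [Finset.mem_sdiff] at hz
      have h0 : x + y + z = 0 := by rw [← hzx]; abel
      exact hz.2 (key x hx y hy z hz.1 h0).2
    have heL : e ∈ L k 1 := by
      rw [Finset.mem_union, hW, hEdef, Finset.mem_filter, Finset.mem_filter] at he
      rcases he with he | he
      · exact he.1
      · exact he.1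
    have hx0 : -(e + e) ∈ L k 3 := by
      rw [Finset.mem_union, hW, hEdef, Finset.mem_filter, Finset.mem_filter] at he
      rw [mem_L]
      rcases he with he | he
      · have : -(e + e) = e := by rw [neg_eq_iff_add_eq_zero]; exact he.2.1
        rw [this]; exact he.2.2.ge
      · exact he.2.2.ge
    have hs := scherk (L k 3) (L k 1) C (-(e + e)) e hx0 heL
      (by
        intro x hx y hy hxy
        have h0 : x + y + e = 0 := by rw [hxy]; abel
        have := (key x hx y hy e heL h0).1
        subst this
        exact ⟨add_right_cancel hxy, rfl⟩)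
      hCavoid
    have hsubWE : W ∪ E ⊆ L k 1 :=
      Finset.union_subset (Finset.filter_subset _ _) (Finset.filter_subset _ _)
    have hCc : C.card = (L k 1).card - (W ∪ E).card := by
      rw [hC, Finset.card_image_of_injective _ neg_injective,
        Finset.card_sdiff_of_subset hsubWE]
    have hUle : (W ∪ E).card ≤ (L k 1).card := Finset.card_le_card hsubWE
    have hUle2 : (W ∪ E).card ≤ W.card + E.card := Finset.card_union_le _ _
    have hEle : E.card ≤ (L k 1).card := Finset.card_le_card (Finset.filter_subset _ _)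
    have h2le : (L k 2).card ≤ (L k 1).card - E.card := by
      rw [← Finset.card_sdiff_of_subset (Finset.filter_subset _ _)]
      apply Finset.card_le_card
      intro x hx
      rw [mem_L] at hx
      rw [Finset.mem_sdiff, Finset.mem_filter, mem_L]
      refine ⟨by omega, fun h => ?_⟩
      have := h.2.1
      omega
    rw [hsum]
    unfold ell
    omega

theorem t3 [Fintype Q] (hk : Fib 3 k) {c : ℕ} (hN : Nat.card Q = 3 ^ c) {D' : ℕ}
    (hD : ∀ X : Finset Q, Adm X → X.card ≤ D') {w : ℕ}
    (hw : ∀ W : Finset Q, (∀ i ∈ W, i + i + i = 0 ∧ k i = 3) → W.card ≤ w) :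
    ∑ i, k i ≤ Nat.card Q + 3 ∨ ∑ i, k i ≤ Nat.card Q + 1 + w ∨
      3 * ∑ i, k i ≤ 2 * Nat.card Q + 3 * D' := by
  classical
  have hodd := t3_odd hN
  obtain ⟨i0, -, hmax⟩ := Finset.exists_max_image (univ : Finset Q) k
    (Finset.card_pos.1 (by rw [Finset.card_univ, ← Nat.card_eq_fintype_card]; omega))
  have hmax' : ∀ i, k i ≤ k i0 := fun i => hmax i (Finset.mem_univ i)
  have h3 := hk.le i0
  rcases Nat.lt_or_ge (k i0) 3 with h | h
  · left
    rcases Nat.lt_or_ge (k i0) 2 with h2 | h2
    · have : ∑ i, k i ≤ ∑ _i : Q, 1 := Finset.sum_le_sum (fun i _ => by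
        have := hmax' i; omega)
      rw [Finset.sum_const, Finset.card_univ, ← Nat.card_eq_fintype_card, smul_eq_mul,
        mul_one] at this
      omega
    · obtain ⟨p1, p2⟩ := pairing (g := 2) (g' := 4) hk hodd (i0 := i0) (m := 2) (by omega)
        (fun i => by have := hmax' i; omega) (by omega) (by omega) (by omega) (by omega)
        (by omega) (by omega)
      by_cases h0 : i0 + i0 + i0 = 0
      · have := p2 h0; omega
      · have := p1 h0; omega
  · exact t3_three hk hN (i0 := i0) (by omega) hD hw

end Pool.Agent.DG
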