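import Pool.Agent.DG.Mid
import Pool.Agent.DG.Str
import Pool.Agent.DG.Basic2

set_option autoImplicit false

namespace Pool.Agent.DG

section Part0

open Finset

universe u

theorem upii_sub (G : Type*) [AddCommGroup G] [Finite G] {p : ℕ} (hp : p.Prime)
    (h : p ∣ Nat.card G) : ∃ P : AddSubgroup G, Nat.card P = p := by
  have := Fact.mk hp
  obtain ⟨x, hx⟩ := exists_prime_addOrderOf_dvd_card' p h
  exact ⟨AddSubgroup.zmultiples x, by rw [Nat.card_zmultiples, hx]⟩

theorem upii_mod1 (d : ℕ) (hd : d ≠ 0) (h : ∀ p, p.Prime → p ∣ d → p % 3 = 1) : d % 3 = 1 := by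
  induction d using Nat.strong_induction_on with
  | _ d ih =>
    by_cases h1 : d = 1
    · subst h1; rfl
    · have hm := Nat.minFac_prime h1
      obtain ⟨e, he⟩ := Nat.minFac_dvd d
      have he0 : e ≠ 0 := by
        intro h0
        rw [h0, mul_zero] at he
        exact hd he
      have hed : e ∣ d := ⟨d.minFac, by rw [mul_comm]; exact he⟩
      have hlt : e < d := by
        have h2 := hm.two_le
        have h3 : 0 < e := Nat.pos_of_ne_zero he0
        calc e < 2 * e := by omega
          _ ≤ d.minFac * e := Nat.mul_le_mul_right _ h2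
          _ = d := he.symm
      have h2 := ih e hlt he0 (fun p hp hpe => h p hp (hpe.trans hed))
      have h3 := h _ hm (Nat.minFac_dvd d)
      have h4 : (d.minFac * e) % 3 = 1 := by
        rw [Nat.mul_mod, h2, h3]
      rw [← he] at h4
      exact h4

theorem upii_mod2 {d : ℕ} (h2 : d % 3 = 2) : ∃ p, p.Prime ∧ p ∣ d ∧ p % 3 = 2 := by
  by_contra h
  have h1 : d % 3 = 1 := upii_mod1 d (by rintro rfl; omega) (fun p hp hpd => by
    have h3 : p % 3 ≠ 2 := fun h3 => h ⟨p, hp, hpd, h3⟩
    have h4 : p % 3 ≠ 0 := by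
      intro h5
      have h6 : 3 ∣ p := Nat.dvd_of_mod_eq_zero h5
      have h7 : 3 ∣ d := h6.trans hpd
      omega
    omega)
  omega

theorem upii_prime (G : Type*) [AddCommGroup G] [Finite G] {p : ℕ} (hp : p.Prime)
    (hG : Nat.card G = p) {A : Finset G} (hA : Adm A) : 3 * A.card ≤ p + 7 := by
  classical
  have : Fintype (G ⧸ (⊤ : AddSubgroup G)) := Fintype.ofFinite _
  have hK : Nat.card (⊤ : AddSubgroup G) = p := by
    rw [← hG]
    exact AddSubgroup.card_top
  have h1 := fib_fk hp ⊤ hK A hA
  have h2 := sum_fk (⊤ : AddSubgroup G) A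
  have hss : Subsingleton (G ⧸ (⊤ : AddSubgroup G)) := QuotientAddGroup.subsingleton_quotient_top
  have h3 : ∑ i, fk (⊤ : AddSubgroup G) A i = fk ⊤ A 0 := by
    apply Fintype.sum_eq_single
    intro x hx
    exact absurd (Subsingleton.elim x 0) hx
  have h4 := h1.c3 0 (by simp)
  omega

/-- divisors `≡ 2 (mod 3)` give small quotients -/
theorem upii_div {n m r : ℕ} (hr : 0 < r) (hmn : m ∣ n)
    (hmin : ∀ p, p.Prime → p % 3 = 2 → p ∣ n → r ≤ p) (d : ℕ) (hd : d ∣ m) (hd2 : d % 3 = 2) :
    m / d ≤ m / r := by
  obtain ⟨p, hp, hpd, hp2⟩ := upii_mod2 hd2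
  have h1 := hmin p hp hp2 ((hpd.trans hd).trans hmn)
  have h2 : p ≤ d := Nat.le_of_dvd (by omega) hpd
  exact Nat.div_le_div_left (h1.trans h2) hr

/-- the critical case -/
theorem upii_crit {n r : ℕ} (hr : r.Prime) (hr3 : r % 3 = 2) (hrn : r ∣ n) (hodd : n % 2 = 1)
    (hmin : ∀ p, p.Prime → p % 3 = 2 → p ∣ n → r ≤ p) (G : Type u) [AddCommGroup G] [Finite G]
    (hn : Nat.card G = n)
    (ih : ∀ m < n, ∀ (H : Type u) [AddCommGroup H] [Finite H], Nat.card H = m → r ∣ m →
      m % 2 = 1 → (∀ p, p.Prime → p % 3 = 2 → p ∣ m → r ≤ p) → ∀ A : Finset H, Adm A →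
      3 * A.card ≤ m + m / r + 6)
    (P : AddSubgroup G) [Fintype (G ⧸ P)] (A : Finset G) (hA : Adm A)
    (hc : Crit (L (fk P A) 1)) : 3 * A.card ≤ n + n / r := by
  obtain ⟨H, t, hPH, ht, hHt, h3⟩ := crit_main P A hA hc
  have hHq := card_quot H
  rw [hHt, hn] at hHq
  set m := Nat.card H with hm
  have hm0 : 0 < m := Nat.card_pos
  have hmn : m ∣ n := ⟨3 * t + 1, hHq.symm⟩
  have hdn : (3 * t + 1) ∣ n := ⟨m, by rw [← hHq, mul_comm]⟩
  have hmodd : m % 2 = 1 := by
    rcases Nat.mod_two_eq_zero_or_one m with h | h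
    · exfalso
      have : 2 ∣ n := (Nat.dvd_of_mod_eq_zero h).trans hmn
      omega
    · exact h
  have hdodd : (3 * t + 1) % 2 = 1 := by
    rcases Nat.mod_two_eq_zero_or_one (3 * t + 1) with h | h
    · exfalso
      have : 2 ∣ n := (Nat.dvd_of_mod_eq_zero h).trans hdn
      omega
    · exact h
  have ht2 : 2 ≤ t := by omega
  rcases h3 with h3 | h3
  · obtain ⟨A', hA', hAc⟩ := h3
    have hmt : m * (3 * t + 1) = 3 * (t * m) + m := by ring
    by_cases hrm : r ∣ m
    · have hmlt : m < n := by
        rw [← hHq]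
        have : m * 4 ≤ m * (3 * t + 1) := Nat.mul_le_mul_left _ (by omega)
        omega
      have h4 := ih m hmlt H rfl hrm hmodd
        (fun q hq hq2 hqm => hmin q hq hq2 (hqm.trans hmn)) A' hA'
      obtain ⟨c, hc⟩ := hrm
      have hc0 : 0 < c := by
        rcases Nat.eq_zero_or_pos c with h | h
        · rw [h, mul_zero] at hc; omega
        · exact h
      have h5 : m / r = c := by
        rw [hc]; exact Nat.mul_div_cancel_left c hr.pos
      have h6 : n / r = c * (3 * t + 1) := by
        rw [← hHq, hc, mul_assoc]; exact Nat.mul_div_cancel_left _ hr.pos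
      rw [h5] at h4
      rw [h6]
      have h7 : c * 7 ≤ c * (3 * t + 1) := Nat.mul_le_mul_left _ (by omega)
      omega
    · have hrd : r ∣ 3 * t + 1 := by
        rcases (Nat.Prime.dvd_mul hr).1 (hHq.symm ▸ hrn : r ∣ m * (3 * t + 1)) with h | h
        · exact absurd h hrm
        · exact h
      obtain ⟨d1, hd1⟩ := hrd
      have h4 : d1 % 3 = 2 := by
        have h5 : (r * d1) % 3 = 1 := by rw [← hd1]; omega
        rw [Nat.mul_mod, hr3] at h5
        omega
      have h5 : d1 % 2 = 1 := by
        rcases Nat.mod_two_eq_zero_or_one d1 with h | h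
        · exfalso
          have : 2 ∣ 3 * t + 1 := (Nat.dvd_of_mod_eq_zero h).trans ⟨r, by rw [hd1, mul_comm]⟩
          omega
        · exact h
      have h6 : 5 ≤ d1 := by omega
      have h7 := crude H hmodd hA'
      have h8 : n / r = m * d1 := by
        rw [← hHq, hd1]
        have : m * (r * d1) = r * (m * d1) := by ring
        rw [this]
        exact Nat.mul_div_cancel_left _ hr.pos
      rw [h8]
      have h9 : m * 5 ≤ m * d1 := Nat.mul_le_mul_left _ h6
      omega
  · obtain ⟨S, hS, hSc, hAc⟩ := h3
    have h4 := zsf' (Q := G ⧸ H) (φ := (3 * t + 1) / r) (fun d hd hd2 => by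
      rw [hHt] at hd ⊢
      exact upii_div hr.pos hdn hmin d hd hd2) S hS
    rw [hHt, hSc] at h4
    have h5 : m * ((3 * t + 1) / r) ≤ n / r := by
      rw [← hHq]
      exact Nat.mul_div_le_mul_div_assoc _ _ _
    have h6 : m * (3 * (t + 1)) ≤ m * (3 * t + 1 + (3 * t + 1) / r) := Nat.mul_le_mul_left _ h4
    have h8 : m * (3 * t + 1 + (3 * t + 1) / r) = n + m * ((3 * t + 1) / r) := by
      rw [Nat.mul_add m (3 * t + 1), hHq]
    rw [h8] at h6
    have h7 : m * (3 * (t + 1)) = 3 * ((t + 1) * m) := by ring
    omega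

/-- the data of the quotient -/
theorem upii_data {r N : ℕ} (hr : r.Prime) (hr3 : r % 3 = 2) (Q : Type u) [AddCommGroup Q]
    [Finite Q] (hN : Nat.card Q = N) (hrN : r ∣ N)
    (hmin : ∀ p, p.Prime → p % 3 = 2 → p ∣ N → r ≤ p)
    (ih : ∀ A : Finset Q, Adm A → 3 * A.card ≤ N + N / r + 6 ∧
      (N ≠ r → N ≠ 15 → 3 * A.card ≤ N + N / r)) :
    ∃ σ, N + N / r = 3 * σ ∧ 1 ≤ N / r ∧
      (∀ X : Finset Q, NZ X X X → 3 * X.card ≤ N + N / r) ∧
      (∀ X : Finset Q, Adm X → X.card ≤ σ + 2) ∧
      ((∀ X : Finset Q, Adm X → X.card ≤ σ) ∨ 3 ≤ N / r ∨ ∀ i : Q, i + i + i = 0 → i = 0) := by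
  have hN0 : 0 < N := hN ▸ Nat.card_pos
  obtain ⟨c, hc⟩ := hrN
  have hc0 : 0 < c := by
    rcases Nat.eq_zero_or_pos c with h | h
    · rw [h, mul_zero] at hc; omega
    · exact h
  have h5 : N / r = c := by
    rw [hc]; exact Nat.mul_div_cancel_left c hr.pos
  obtain ⟨s, hs⟩ : ∃ s, r + 1 = 3 * s := ⟨(r + 1) / 3, by omega⟩
  have hσ : N + c = 3 * (s * c) := by
    rw [hc]
    have : r * c + c = (r + 1) * c := by ring
    rw [this, hs]; ring
  rw [h5] at ih ⊢
  refine ⟨s * c, hσ, hc0, ?_, ?_, ?_⟩
  · intro X hX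
    have h4 := zsf' (Q := Q) (φ := c) (fun d hd hd2 => by
      rw [hN] at hd ⊢
      rw [← h5]
      exact upii_div hr.pos dvd_rfl hmin d hd hd2) X hX
    rwa [hN] at h4
  · intro X hX
    have := (ih X hX).1
    omega
  · by_cases h1 : N = r
    · right; right
      intro i hi
      have h2 : addOrderOf i ∣ 3 := by
        rw [addOrderOf_dvd_iff_nsmul_eq_zero]
        rw [← hi]; abel
      have h3 : addOrderOf i ∣ r := by
        rw [← h1, ← hN]; exact addOrderOf_dvd_natCard i
      have h4 : Nat.Coprime 3 r := by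
        rw [Nat.Prime.coprime_iff_not_dvd Nat.prime_three]
        omega
      have h6 := Nat.eq_one_of_dvd_coprimes h4 h2 h3
      rwa [AddMonoid.addOrderOf_eq_one_iff] at h6
    · by_cases h2 : N = 15
      · right; left
        have h3 : r ∣ 15 := ⟨c, by rw [← hc, h2]⟩
        have h4 : r ≤ 15 := Nat.le_of_dvd (by norm_num) h3
        have h6 : r = 5 := by
          interval_cases r <;> first | rfl | (exfalso; revert h3; decide) | (exfalso; revert hr3; decide)
        rw [h6] at hc
        omega
      · left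
        intro X hX
        have := (ih X hX).2 h1 h2
        omega

theorem upII (G : Type u) [AddCommGroup G] [Finite G] (r : ℕ) (hr : r.Prime) (hr3 : r % 3 = 2)
    (hrn : r ∣ Nat.card G) (hodd : Nat.card G % 2 = 1)
    (hmin : ∀ p, p.Prime → p % 3 = 2 → p ∣ Nat.card G → r ≤ p) {A : Finset G} (hA : Adm A) :
    3 * A.card ≤ Nat.card G + Nat.card G / r + 6 ∧
      (Nat.card G ≠ r → Nat.card G ≠ 15 → 3 * A.card ≤ Nat.card G + Nat.card G / r) := by
  have key : ∀ n : ℕ, ∀ (G : Type u) [AddCommGroup G] [Finite G], Nat.card G = n → r ∣ n →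
      n % 2 = 1 → (∀ p, p.Prime → p % 3 = 2 → p ∣ n → r ≤ p) → ∀ A : Finset G, Adm A →
      3 * A.card ≤ n + n / r + 6 ∧ (n ≠ r → n ≠ 15 → 3 * A.card ≤ n + n / r) := by
    intro n
    induction n using Nat.strong_induction_on with
    | _ n ih =>
      intro G _ _ hn hrn hodd hmin A hA
      have hn0 : 0 < n := by omega
      by_cases hnr : n = r
      · have h2 := upii_prime G hr (hn.trans hnr) hA
        have h3 : n / r = 1 := by rw [hnr]; exact Nat.div_self hr.pos
        rw [h3]
        exact ⟨by omega, fun h => absurd hnr h⟩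
      -- reduction to a bound
      have hmain : ∀ p, p.Prime → p ∣ n → n ≠ p →
          ∃ (P : AddSubgroup G) (N : ℕ), Nat.card P = p ∧ Nat.card (G ⧸ P) = N ∧ p * N = n ∧
            N % 2 = 1 ∧ N ∣ n ∧ 1 < N ∧ N < n := by
        intro p hp hpn hnp
        obtain ⟨P, hP⟩ := upii_sub G hp (hn ▸ hpn)
        have hQ := card_quot P
        rw [hP, hn] at hQ
        refine ⟨P, Nat.card (G ⧸ P), hP, rfl, hQ, ?_, ⟨p, by rw [← hQ, mul_comm]⟩, ?_, ?_⟩
        · rcases Nat.mod_two_eq_zero_or_one (Nat.card (G ⧸ P)) with h | h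
          · exfalso
            have : 2 ∣ n := (Nat.dvd_of_mod_eq_zero h).trans ⟨p, by rw [← hQ, mul_comm]⟩
            omega
          · exact h
        · have h0 : Nat.card (G ⧸ P) ≠ 0 := Nat.card_pos.ne'
          have h1 : Nat.card (G ⧸ P) ≠ 1 := by
            intro h1
            rw [h1, mul_one] at hQ
            exact hnp hQ.symm
          omega
        · have := hp.two_le
          have h0 : 0 < Nat.card (G ⧸ P) := Nat.card_pos
          calc Nat.card (G ⧸ P) < 2 * Nat.card (G ⧸ P) := by omega
            _ ≤ p * Nat.card (G ⧸ P) := Nat.mul_le_mul_right _ this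
            _ = n := hQ
      have ihc : ∀ m < n, ∀ (H : Type u) [AddCommGroup H] [Finite H], Nat.card H = m → r ∣ m →
          m % 2 = 1 → (∀ p, p.Prime → p % 3 = 2 → p ∣ m → r ≤ p) → ∀ A : Finset H, Adm A →
          3 * A.card ≤ m + m / r + 6 := fun m hm H _ _ h1 h2 h3 h4 A hA =>
        (ih m hm H h1 h2 h3 h4 A hA).1
      have hr2 : r ≠ 2 := by
        rintro rfl
        omega
      have hr5 : 5 ≤ r := by
        have := hr.two_le
        omega
      by_cases hI : ∃ p, p.Prime ∧ p ∣ n ∧ p % 3 = 1
      · obtain ⟨p, hp, hpn, hp3⟩ := hI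
        have hnp : n ≠ p := by
          intro h
          have h1 : r ∣ p := h ▸ hrn
          have h2 := (Nat.prime_dvd_prime_iff_eq hr hp).1 h1
          omega
        obtain ⟨P, N, hP, hQN, hpN, hNodd, hNn, hN1, hNlt⟩ := hmain p hp hpn hnp
        obtain ⟨M, hM, hM2⟩ : ∃ M, p = 3 * M + 1 ∧ 2 ≤ M := by
          refine ⟨p / 3, by omega, ?_⟩
          by_contra h
          have h2 := hp.two_le
          have h4 : p = 4 := by omega
          rw [h4] at hp
          exact absurd hp (by decide)
        have hrN : r ∣ N := by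
          rcases (Nat.Prime.dvd_mul hr).1 (hpN.symm ▸ hrn : r ∣ p * N) with h | h
          · have h2 := (Nat.prime_dvd_prime_iff_eq hr hp).1 h
            omega
          · exact h
        have hminN : ∀ q, q.Prime → q % 3 = 2 → q ∣ N → r ≤ q := fun q hq hq2 hqN =>
          hmin q hq hq2 (hqN.trans hNn)
        obtain ⟨σ, hσ, hρ, hz, hD, hex⟩ := upii_data hr hr3 (G ⧸ P) hQN hrN hminN
          (fun X hX => ih N hNlt (G ⧸ P) hQN hrN hNodd hminN X hX)
        have hfin : Fintype (G ⧸ P) := Fintype.ofFinite _
        have hfib := fib_fk hp P hP A hA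
        have hsum := sum_fk P A
        have hgoal : 3 * A.card ≤ n + n / r := by
          rcases mt1II hM hM2 hfib (hQN ▸ hNodd) (hQN ▸ hN1) (hQN ▸ hσ) hρ (hQN ▸ hz) hD hex
            with h2 | h2
          · rw [hsum] at h2
            obtain ⟨c, hc⟩ := hrN
            have h5 : N / r = c := by
              rw [hc]; exact Nat.mul_div_cancel_left c hr.pos
            have h6 : n / r = p * c := by
              rw [← hpN, hc]
              have : p * (r * c) = r * (p * c) := by ring
              rw [this]; exact Nat.mul_div_cancel_left _ hr.pos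
            rw [h6, ← hpN]
            rw [h5] at hσ
            have h7 : p * N + p * c = 3 * (p * σ) := by
              rw [← mul_add, hσ]; ring
            omega
          · exact upii_crit hr hr3 hrn hodd hmin G hn ihc P A hA h2
        exact ⟨by omega, fun _ _ => hgoal⟩
      · -- no prime factor `≡ 1`
        obtain ⟨p, hp, hpn, hp3, hpmax⟩ : ∃ p, p.Prime ∧ p ∣ n ∧ p % 3 = 2 ∧
            ∀ q, q.Prime → q ∣ n → q % 3 = 2 → q ≤ p := by
          have hne : (n.primeFactors.filter (fun q => q % 3 = 2)).Nonempty :=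
            ⟨r, by
              rw [Finset.mem_filter, Nat.mem_primeFactors]
              exact ⟨⟨hr, hrn, hn0.ne'⟩, hr3⟩⟩
          obtain ⟨p, hp, hmax⟩ := Finset.exists_max_image _ (fun q : ℕ => q) hne
          rw [Finset.mem_filter, Nat.mem_primeFactors] at hp
          refine ⟨p, hp.1.1, hp.1.2.1, hp.2, fun q hq hqn hq3 => hmax q ?_⟩
          rw [Finset.mem_filter, Nat.mem_primeFactors]
          exact ⟨⟨hq, hqn, hn0.ne'⟩, hq3⟩
        have hrp : r ≤ p := hmin p hp hp3 hpn
        have hnp : n ≠ p := by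
          intro h
          have h1 : r ∣ p := h ▸ hrn
          have h2 := (Nat.prime_dvd_prime_iff_eq hr hp).1 h1
          omega
        obtain ⟨P, N, hP, hQN, hpN, hNodd, hNn, hN1, hNlt⟩ := hmain p hp hpn hnp
        have hminN : ∀ q, q.Prime → q % 3 = 2 → q ∣ N → r ≤ q := fun q hq hq2 hqN =>
          hmin q hq hq2 (hqN.trans hNn)
        have hfin : Fintype (G ⧸ P) := Fintype.ofFinite _
        have hfib := fib_fk hp P hP A hA
        have hsum := sum_fk P A
        by_cases hp5 : p = 5
        · have hr5' : r = 5 := by omega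
          subst hp5
          have hnr5 : n / r = N := by
            rw [hr5', ← hpN]; exact Nat.mul_div_cancel_left _ (by norm_num)
          by_cases hN3 : N = 3
          · have h2 := mt53 hfib (hQN.trans hN3)
            rw [hsum] at h2
            rw [hnr5]
            exact ⟨by omega, fun _ h => absurd (by omega) h⟩
          · have hN5 : 5 ≤ N := by omega
            have hgoal : 3 * A.card ≤ n + n / r := by
              rcases mt5 hfib (hQN ▸ hNodd) (hQN ▸ hN5) (fun X hX => by
                have h4 := zsf' (Q := G ⧸ P) (φ := N / 5) (fun d hd hd2 => by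
                  rw [hQN] at hd ⊢
                  exact upii_div (by norm_num) hNn (hr5' ▸ hmin) d hd hd2) X hX
                rw [hQN] at h4 ⊢
                omega) with h2 | h2
              · rw [hsum, hQN] at h2
                rw [hnr5]
                omega
              · exact upii_crit hr hr3 hrn hodd hmin G hn ihc P A hA h2
            exact ⟨by omega, fun _ _ => hgoal⟩
        · obtain ⟨M, hM, hM3⟩ : ∃ M, p = 3 * M + 2 ∧ 3 ≤ M := by
            refine ⟨p / 3, by omega, ?_⟩
            by_contra h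
            have h4 : p = 8 := by omega
            rw [h4] at hp
            exact absurd hp (by decide)
          by_cases hrN : r ∣ N
          · obtain ⟨σ, hσ, hρ, hz, hD, hex⟩ := upii_data hr hr3 (G ⧸ P) hQN hrN hminN
              (fun X hX => ih N hNlt (G ⧸ P) hQN hrN hNodd hminN X hX)
            obtain ⟨c, hc⟩ := hrN
            have h5 : N / r = c := by
              rw [hc]; exact Nat.mul_div_cancel_left c hr.pos
            have hqρ : Nat.card (G ⧸ P) ≤ p * (N / r) := by
              rw [hQN, h5, hc]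
              exact Nat.mul_le_mul_right _ hrp
            have hgoal : 3 * A.card ≤ n + n / r := by
              rcases mt2II hM hM3 hfib (hQN ▸ hNodd) (hQN ▸ hN1) (hQN ▸ hσ) hρ hqρ (hQN ▸ hz)
                hD hex with h2 | h2
              · rw [hsum] at h2
                have h6 : n / r = p * c := by
                  rw [← hpN, hc]
                  have : p * (r * c) = r * (p * c) := by ring
                  rw [this]; exact Nat.mul_div_cancel_left _ hr.pos
                rw [h6, ← hpN]
                rw [h5] at hσ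
                have h7 : p * N + p * c = 3 * (p * σ) := by
                  rw [← mul_add, hσ]; ring
                omega
              · exact upii_crit hr hr3 hrn hodd hmin G hn ihc P A hA h2
            exact ⟨by omega, fun _ _ => hgoal⟩
          · have hrp' : r = p := by
              rcases (Nat.Prime.dvd_mul hr).1 (hpN.symm ▸ hrn : r ∣ p * N) with h | h
              · exact (Nat.prime_dvd_prime_iff_eq hr hp).1 h
              · exact absurd h hrN
            have hgoal : 3 * A.card ≤ n + n / r := by
              rcases mt2R hM hM3 hfib (hQN ▸ hNodd) (hQN ▸ hN1) (fun X hX => by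
                have h4 := zsf' (Q := G ⧸ P) (φ := 0) (fun d hd hd2 => by
                  exfalso
                  rw [hQN] at hd
                  obtain ⟨q, hq, hqd, hq2⟩ := upii_mod2 hd2
                  have h1 := hpmax q hq ((hqd.trans hd).trans hNn) hq2
                  have h2 := hminN q hq hq2 (hqd.trans hd)
                  have h3 : q = r := by omega
                  rw [h3] at hqd
                  exact hrN (hqd.trans hd)) X hX
                exact h4) with h2 | h2
              · rw [hsum, hQN] at h2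
                have h6 : n / r = N := by
                  rw [hrp', ← hpN]; exact Nat.mul_div_cancel_left _ hp.pos
                rw [h6]
                have h7 : p * N + N = 3 * ((M + 1) * N) := by
                  rw [hM]; ring
                omega
              · exact upii_crit hr hr3 hrn hodd hmin G hn ihc P A hA h2
            exact ⟨by omega, fun _ _ => hgoal⟩
  exact key (Nat.card G) G rfl hrn hodd hmin A hA


end Part0

end Pool.Agent.DG
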