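import Pool.Agent.DG.UpR
import Pool.Agent.DG.UpII
import Pool.Agent.DG.Even
import Pool.Agent.DG.LowR
import Pool.Agent.DG.Small

set_option autoImplicit false

namespace Pool.Agent.DG

section Part0

open Finset

universe u

theorem top_even (G : Type u) [AddCommGroup G] [Finite G] (h2 : 2 ∣ Nat.card G) :
    (Exc G → 2 * D G = Nat.card G + 2) ∧ (¬ Exc G → 2 * D G = Nat.card G) := by
  obtain ⟨A, hA, hAc⟩ := exists_D G
  constructor
  · intro hE
    have h1 := even_up G h2 hA
    obtain ⟨B, hB, hBc⟩ := even_low' G h2 hE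
    have h3 := card_le_D hB
    omega
  · intro hE
    have h1 := even_up' G h2 hE hA
    obtain ⟨B, hB, hBc⟩ := even_low G h2
    have h3 := card_le_D hB
    omega

theorem top_II (G : Type u) [AddCommGroup G] [Finite G] (p : ℕ) (hp : p.Prime) (hp3 : p % 3 = 2)
    (h2 : p ≠ 2) (hpn : p ∣ Nat.card G)
    (hmin : ∀ ℓ, ℓ.Prime → ℓ % 3 = 2 → ℓ ∣ Nat.card G → p ≤ ℓ) :
    (Nat.card G = p → 3 * D G = p + 7) ∧ (Nat.card G = 15 → D G = 8) ∧
      (Nat.card G ≠ p → Nat.card G ≠ 15 → 3 * p * D G = (p + 1) * Nat.card G) := by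
  obtain ⟨A, hA, hAc⟩ := exists_D G
  have hp2 := hp.two_le
  have hodd : Nat.card G % 2 = 1 := by
    rcases Nat.mod_two_eq_zero_or_one (Nat.card G) with h | h
    · exfalso
      have h3 := hmin 2 Nat.prime_two (by norm_num) (Nat.dvd_of_mod_eq_zero h)
      omega
    · exact h
  obtain ⟨hu1, hu2⟩ := upII G p hp hp3 hpn hodd hmin hA
  have hp5 : 5 ≤ p := by
    by_contra h
    have h1 : p ≤ 4 := by omega
    interval_cases p <;> omega
  refine ⟨?_, ?_, ?_⟩
  · intro hN
    have h1 : Nat.card G / p = 1 := by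
      rw [hN]; exact Nat.div_self (by omega)
    rw [h1] at hu1
    obtain ⟨B, hB, hBc⟩ := lower2 G (by rw [hN]; exact hp) (by omega)
    have h3 := card_le_D hB
    omega
  · intro hN
    have h15 := low_15 G hN
    have h5 : p = 5 := by
      have h6 : p ∣ 15 := by rw [← hN]; exact hpn
      have h7 : p ≤ 15 := Nat.le_of_dvd (by norm_num) h6
      interval_cases p <;> first | rfl | (exfalso; revert h6; decide) | (exfalso; revert hp3; decide)
    rw [h5, hN] at hu1
    omega
  · intro hN1 hN2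
    have h3 := hu2 hN1 hN2
    obtain ⟨B, hB, hBc⟩ := lower1 G p hp hp3 hpn
    have h4 := card_le_D hB
    have h5 : 3 * D G = Nat.card G + Nat.card G / p := by omega
    obtain ⟨m, hm⟩ := hpn
    have h6 : Nat.card G / p = m := by
      rw [hm]; exact Nat.mul_div_cancel_left m (by omega)
    rw [h6] at h5
    calc 3 * p * D G = p * (3 * D G) := by ring
      _ = p * (Nat.card G + m) := by rw [h5]
      _ = p * Nat.card G + p * m := by ring
      _ = p * Nat.card G + Nat.card G := by rw [← hm]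
      _ = (p + 1) * Nat.card G := by ring

theorem top_mod (n : ℕ) (hn : n ≠ 0) (hp : ∀ p, p.Prime → p ∣ n → p % 3 = 1) : n % 3 = 1 := by
  induction n using Nat.recOnMul with
  | zero => exact absurd rfl hn
  | one => rfl
  | prime q hq => exact hp q hq dvd_rfl
  | mul a b iha ihb =>
    have ha : a ≠ 0 := by rintro rfl; simp at hn
    have hb : b ≠ 0 := by rintro rfl; simp at hn
    have h1 := iha ha (fun p hp1 hp2 => hp p hp1 (hp2.mul_right b))
    have h2 := ihb hb (fun p hp1 hp2 => hp p hp1 (hp2.mul_left a))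
    rw [Nat.mul_mod, h1, h2]

theorem top_1 (G : Type u) [AddCommGroup G] [Finite G] (h1 : 1 < Nat.card G)
    (hp : ∀ p, p.Prime → p ∣ Nat.card G → p % 3 = 1) : 3 * D G = Nat.card G + 5 := by
  obtain ⟨A, hA, hAc⟩ := exists_D G
  have h2 := up1 G h1 hp hA
  obtain ⟨B, hB, hBc⟩ := lower3 G h1 (by
    intro d hd
    apply top_mod d
    · rintro rfl
      rw [Nat.zero_dvd] at hd
      omega
    · intro p hp1 hp2
      exact hp p hp1 (hp2.trans hd))
  have h3 := card_le_D hB
  omega

theorem top_R (G : Type u) [AddCommGroup G] [Finite G] (h3 : 3 ∣ Nat.card G)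
    (hp : ∀ p, p.Prime → p ∣ Nat.card G → p = 3 ∨ p % 3 = 1) (T : AddSubgroup G) {a : ℕ}
    (hT : Nat.card T = 3 ^ a) (hT' : ¬ 3 ∣ T.index) :
    3 * D G + Nat.card T = Nat.card G + 3 * D T := by
  have hmul := AddSubgroup.card_mul_index T
  have ha : 1 ≤ a := by
    by_contra h
    have h0 : a = 0 := by omega
    rw [h0, pow_zero] at hT
    rw [hT, one_mul] at hmul
    apply hT'
    rw [hmul]
    exact h3
  have hp' : ∀ p, p.Prime → p ∣ T.index → p % 3 = 1 := by
    intro p hp1 hp2
    rcases hp p hp1 (by rw [← hmul]; exact hp2.mul_left _) with h | h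
    · exfalso
      rw [h] at hp2
      exact hT' hp2
    · exact h
  obtain ⟨A, hA, hAc⟩ := exists_D G
  have hu := upR T ha hT G T (AddEquiv.refl T) hp' hA
  have hl := lowR T ha hT G T (AddEquiv.refl T) hp'
  rw [hT]
  omega


end Part0

end Pool.Agent.DG
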