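import Pool.Agent.DG.Mid
import Pool.Agent.DG.Str
import Pool.Agent.DG.Basic2

set_option autoImplicit false

namespace Pool.Agent.DG

section Part0

open Finset

universe u

theorem upr_sub (G : Type*) [AddCommGroup G] [Finite G] {p : ℕ} (hp : p.Prime)
    (h : p ∣ Nat.card G) : ∃ P : AddSubgroup G, Nat.card P = p := by
  haveI := Fact.mk hp
  obtain ⟨x, hx⟩ := exists_prime_addOrderOf_dvd_card' p h
  exact ⟨AddSubgroup.zmultiples x, by rw [Nat.card_zmultiples, hx]⟩

theorem upr_mod1 (d : ℕ) (hd : d ≠ 0) (h : ∀ p, p.Prime → p ∣ d → p % 3 = 1) : d % 3 = 1 := by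
  induction d using Nat.strong_induction_on with
  | _ d ih =>
    by_cases h1 : d = 1
    · subst h1; rfl
    · have hm := Nat.minFac_prime h1
      obtain ⟨e, he⟩ := Nat.minFac_dvd d
      have he0 : e ≠ 0 := by
        intro h0
        rw [h0, mul_zero] at he
        exact hd he
      have hed : e ∣ d := ⟨d.minFac, by rw [mul_comm]; exact he⟩
      have hlt : e < d := by
        have h2 := hm.two_le
        have h3 : 0 < e := Nat.pos_of_ne_zero he0
        calc e < 2 * e := by omega
          _ ≤ d.minFac * e := Nat.mul_le_mul_right _ h2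
          _ = d := he.symm
      have h2 := ih e hlt he0 (fun p hp hpe => h p hp (hpe.trans hed))
      have h3 := h _ hm (Nat.minFac_dvd d)
      have h4 : (d.minFac * e) % 3 = 1 := by
        rw [Nat.mul_mod, h2, h3]
      rw [← he] at h4
      exact h4

/-- no divisor is `≡ 2 (mod 3)` when the number is a power of `3` times a product of primes
`≡ 1 (mod 3)` -/
theorem upr_nodvd {m a d : ℕ} (hm : m ≠ 0) (h : ∀ p, p.Prime → p ∣ m → p % 3 = 1)
    (hd : d ∣ 3 ^ a * m) (h3 : d % 3 ≠ 0) : d % 3 = 1 := by
  have hc : Nat.Coprime d (3 ^ a) := by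
    apply Nat.Coprime.pow_right
    rw [Nat.coprime_comm, Nat.Prime.coprime_iff_not_dvd Nat.prime_three]
    intro h0
    exact h3 (Nat.mod_eq_zero_of_dvd h0)
  have h1 : d ∣ m := hc.dvd_of_dvd_mul_left hd
  have hd0 : d ≠ 0 := by rintro rfl; exact h3 rfl
  exact upr_mod1 d hd0 (fun p hp hpd => h p hp (hpd.trans h1))

theorem upr_prime (G : Type*) [AddCommGroup G] [Finite G] {p : ℕ} (hp : p.Prime)
    (hG : Nat.card G = p) {A : Finset G} (hA : Adm A) : 3 * A.card ≤ p + 7 := by
  classical
  haveI : Fintype (G ⧸ (⊤ : AddSubgroup G)) := Fintype.ofFinite _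
  have hK : Nat.card (⊤ : AddSubgroup G) = p := by
    rw [← hG]
    exact AddSubgroup.card_top
  have h1 := fib_fk hp ⊤ hK A hA
  have h2 := sum_fk (⊤ : AddSubgroup G) A
  haveI : Subsingleton (G ⧸ (⊤ : AddSubgroup G)) := QuotientAddGroup.subsingleton_quotient_top
  have h3 : ∑ i, fk (⊤ : AddSubgroup G) A i = fk ⊤ A 0 := by
    apply Fintype.sum_eq_single
    intro x hx
    exact absurd (Subsingleton.elim x 0) hx
  have h4 := h1.c3 0 (by simp)
  omega

/-- arithmetic data for a prime `≡ 1 (mod 3)` -/
theorem upr_M {p : ℕ} (hp : p.Prime) (h3 : p % 3 = 1) : ∃ M, p = 3 * M + 1 ∧ 2 ≤ M := by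
  refine ⟨p / 3, by omega, ?_⟩
  by_contra h
  have h2 := hp.two_le
  have h4 : p = 4 := by omega
  rw [h4] at hp
  exact absurd hp (by decide)

theorem upr_odd {m : ℕ} (h : ∀ p, p.Prime → p ∣ m → p % 3 = 1) : m % 2 = 1 := by
  by_contra h1
  have h2 : 2 ∣ m := by omega
  have := h 2 Nat.prime_two h2
  omega

/-- All prime factors `≡ 1 (mod 3)`. -/
theorem up1 (G : Type u) [AddCommGroup G] [Finite G] (h1 : 1 < Nat.card G)
    (hp : ∀ p, p.Prime → p ∣ Nat.card G → p % 3 = 1) {A : Finset G} (hA : Adm A) :
    3 * A.card ≤ Nat.card G + 5 := by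
  have key : ∀ n : ℕ, ∀ (G : Type u) [AddCommGroup G] [Finite G], Nat.card G = n → 1 < n →
      (∀ p, p.Prime → p ∣ n → p % 3 = 1) → ∀ A : Finset G, Adm A → 3 * A.card ≤ n + 5 := by
    intro n
    induction n using Nat.strong_induction_on with
    | _ n ih =>
      intro G _ _ hn h1 hp A hA
      obtain ⟨p, hpp, hpn⟩ := Nat.exists_prime_and_dvd (show n ≠ 1 by omega)
      have hp3 := hp p hpp hpn
      obtain ⟨M, hM, hM2⟩ := upr_M hpp hp3
      by_cases hnp : n = p
      · have h2 := upr_prime G hpp (hn.trans hnp) hA
        omega
      · obtain ⟨P, hP⟩ := upr_sub G hpp (hn ▸ hpn)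
        have hQ := card_quot P
        rw [hP, hn] at hQ
        set N := Nat.card (G ⧸ P) with hNdef
        have hNn : N ∣ n := ⟨p, by rw [← hQ, mul_comm]⟩
        have hN0 : N ≠ 0 := Nat.card_pos.ne'
        have hN1 : N ≠ 1 := by
          intro h0
          rw [h0, mul_one] at hQ
          exact hnp hQ.symm
        have hpN : ∀ q, q.Prime → q ∣ N → q % 3 = 1 := fun q hq hqN => hp q hq (hqN.trans hNn)
        have hNmod := upr_mod1 N hN0 hpN
        have hNodd := upr_odd hpN
        haveI : Fintype (G ⧸ P) := Fintype.ofFinite _
        have hfib := fib_fk hpp P hP A hA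
        have hsum := sum_fk P A
        have hD : ∀ X : Finset (G ⧸ P), Adm X → X.card ≤ D (G ⧸ P) := fun X hX => card_le_D hX
        have hDN : 3 * D (G ⧸ P) ≤ N + 5 := by
          obtain ⟨X, hX, hXc⟩ := exists_D (G ⧸ P)
          rw [← hXc]
          have hlt : N < n := by
            have := hpp.two_le
            have h3 : 0 < N := Nat.pos_of_ne_zero hN0
            calc N < 2 * N := by omega
              _ ≤ p * N := Nat.mul_le_mul_right _ this
              _ = n := hQ
          exact ih N hlt (G ⧸ P) rfl (by omega) hpN X hX
        have hz : ∀ X : Finset (G ⧸ P), NZ X X X → 3 * X.card ≤ Nat.card (G ⧸ P) := by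
          intro X hX
          have := zsf' (φ := 0) (Q := G ⧸ P) (fun d hd hd2 => by
            exfalso
            have h3 := upr_mod1 d (by rintro rfl; omega)
              (fun q hq hqd => hpN q hq (hqd.trans hd))
            omega) X hX
          omega
        rcases mt1R hM hM2 hfib hNodd (by omega) hD hz (Or.inl (three_le_D _ (by omega))) with h2 | h2
        · rw [hsum] at h2
          rw [← hNdef] at h2
          rw [← hQ, hM]
          have : (3 * M + 1) * N = 3 * (M * N) + N := by ring
          omega
        · obtain ⟨H, t, hPH, ht, hHt, h3 | h3⟩ := crit_main P A hA h2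
          · obtain ⟨A', hA', hAc⟩ := h3
            have hHq := card_quot H
            rw [hHt, hn] at hHq
            set m := Nat.card H with hm
            have hmn : m ∣ n := ⟨3 * t + 1, hHq.symm⟩
            have hmp : p ∣ m := by
              rw [← hP]
              exact AddSubgroup.card_dvd_of_le hPH
            have hm0 : 0 < m := Nat.card_pos
            have hm1 : 1 < m := lt_of_lt_of_le hpp.one_lt (Nat.le_of_dvd hm0 hmp)
            have hmlt : m < n := by
              rw [← hHq]
              have : m * 4 ≤ m * (3 * t + 1) := Nat.mul_le_mul_left _ (by omega)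
              omega
            have h4 := ih m hmlt H rfl hm1 (fun q hq hqm => hp q hq (hqm.trans hmn)) A' hA'
            have h5 : m * (3 * t + 1) = 3 * (t * m) + m := by ring
            omega
          · obtain ⟨S, hS, hSc, _⟩ := h3
            exfalso
            have h4 := zsf' (φ := 0) (Q := G ⧸ H) (fun d hd hd2 => by
              exfalso
              have hdn : d ∣ n := by
                refine hd.trans ?_
                have := card_quot H
                rw [hn] at this
                exact ⟨_, by rw [← this, mul_comm]⟩
              have h3 := upr_mod1 d (by rintro rfl; omega)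
                (fun q hq hqd => hp q hq (hqd.trans hdn))
              omega) S hS
            omega
  exact key (Nat.card G) G rfl h1 hp A hA

/-- `T` is a Sylow `3`-subgroup (up to isomorphism), nontrivial; all prime factors of the index are
`≡ 1 (mod 3)`. -/
theorem upR (T0 : Type u) [AddCommGroup T0] [Finite T0] {a : ℕ} (ha : 1 ≤ a)
    (hT0 : Nat.card T0 = 3 ^ a) (G : Type u) [AddCommGroup G] [Finite G] (T : AddSubgroup G)
    (e : T ≃+ T0) (hp : ∀ p, p.Prime → p ∣ T.index → p % 3 = 1) {A : Finset G} (hA : Adm A) :
    3 * A.card + 3 ^ a ≤ Nat.card G + 3 * D T0 := by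
  have key : ∀ n : ℕ, ∀ (G : Type u) [AddCommGroup G] [Finite G], Nat.card G = n →
      ∀ (T : AddSubgroup G), Nonempty (T ≃+ T0) → (∀ p, p.Prime → p ∣ T.index → p % 3 = 1) →
      ∀ A : Finset G, Adm A → 3 * A.card + 3 ^ a ≤ n + 3 * D T0 := by
    intro n
    induction n using Nat.strong_induction_on with
    | _ n ih =>
      intro G _ _ hn T he hp A hA
      obtain ⟨e⟩ := he
      have hTc : Nat.card T = 3 ^ a := by
        rw [← hT0]; exact Nat.card_congr e.toEquiv
      have hTi := T.card_mul_index
      rw [hTc, hn] at hTi
      have hTi0 : T.index ≠ 0 := AddSubgroup.index_ne_zero_of_finite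
      have h3a : 3 ∣ 3 ^ a := dvd_pow_self 3 (by omega)
      have h3a0 : 0 < 3 ^ a := by positivity
      by_cases hidx : T.index = 1
      · have hT : T = ⊤ := AddSubgroup.index_eq_one.1 hidx
        have e2 : G ≃+ T0 := by
          subst hT
          exact (AddSubgroup.topEquiv).symm.trans e
        have h2 := card_le_D hA
        rw [D_congr e2] at h2
        rw [hidx, mul_one] at hTi
        omega
      · obtain ⟨p, hpp, hpn⟩ := Nat.exists_prime_and_dvd hidx
        have hp3 := hp p hpp hpn
        obtain ⟨M, hM, hM2⟩ := upr_M hpp hp3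
        have hpG : p ∣ Nat.card G := by
          rw [hn, ← hTi]
          exact hpn.mul_left _
        obtain ⟨P, hP⟩ := upr_sub G hpp hpG
        have hQ := card_quot P
        rw [hP, hn] at hQ
        set N := Nat.card (G ⧸ P) with hNdef
        have hcop : Nat.Coprime (3 ^ a) p := by
          apply Nat.Coprime.pow_left
          rw [Nat.Prime.coprime_iff_not_dvd Nat.prime_three]
          intro h0
          omega
        -- the image of `T`
        set f : T →+ G ⧸ P := (QuotientAddGroup.mk' P).comp T.subtype with hf
        have hfinj : Function.Injective f := by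
          rw [injective_iff_map_eq_zero]
          intro x hx
          have hxP : (x : G) ∈ P := by
            rw [hf] at hx
            exact (QuotientAddGroup.eq_zero_iff _).1 hx
          have h2 : addOrderOf (x : G) ∣ 3 ^ a := by
            rw [← hTc]; exact AddSubgroup.addOrderOf_dvd_natCard T x.2
          have h3 : addOrderOf (x : G) ∣ p := by
            rw [← hP]; exact AddSubgroup.addOrderOf_dvd_natCard P hxP
          have h4 : addOrderOf (x : G) = 1 := Nat.eq_one_of_dvd_coprimes hcop h2 h3
          rw [AddMonoid.addOrderOf_eq_one_iff] at h4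
          exact Subtype.ext h4
        have e' : T ≃+ f.range := AddMonoidHom.ofInjective hfinj
        have hT'c : Nat.card f.range = 3 ^ a := by
          rw [← hTc]; exact (Nat.card_congr e'.toEquiv).symm
        have hT'i := f.range.card_mul_index
        rw [hT'c] at hT'i
        rw [← hNdef] at hT'i
        have hidx2 : T.index = p * f.range.index := by
          apply Nat.eq_of_mul_eq_mul_left h3a0
          rw [hTi, ← hQ, ← hT'i]
          ring
        have hp' : ∀ q, q.Prime → q ∣ f.range.index → q % 3 = 1 := fun q hq hqd =>
          hp q hq (by rw [hidx2]; exact hqd.mul_left _)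
        have hT'0 : f.range.index ≠ 0 := AddSubgroup.index_ne_zero_of_finite
        have hNodd : N % 2 = 1 := by
          rw [← hT'i, Nat.mul_mod, upr_odd hp', Nat.pow_mod]
          norm_num
        have hN0 : N ≠ 0 := Nat.card_pos.ne'
        have hN3 : 3 ∣ N := by rw [← hT'i]; exact h3a.mul_right _
        have hN1 : 1 < N := by
          have := Nat.le_of_dvd (Nat.pos_of_ne_zero hN0) hN3
          omega
        have hlt : N < n := by
          have := hpp.two_le
          calc N < 2 * N := by omega
            _ ≤ p * N := Nat.mul_le_mul_right _ this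
            _ = n := hQ
        haveI : Fintype (G ⧸ P) := Fintype.ofFinite _
        have hfib := fib_fk hpp P hP A hA
        have hsum := sum_fk P A
        have hD : ∀ X : Finset (G ⧸ P), Adm X → X.card ≤ D (G ⧸ P) := fun X hX => card_le_D hX
        have hDN : 3 * D (G ⧸ P) + 3 ^ a ≤ N + 3 * D T0 := by
          obtain ⟨X, hX, hXc⟩ := exists_D (G ⧸ P)
          rw [← hXc]
          exact ih N hlt (G ⧸ P) rfl f.range ⟨e'.symm.trans e⟩ hp' X hX
        have hz : ∀ X : Finset (G ⧸ P), NZ X X X → 3 * X.card ≤ Nat.card (G ⧸ P) := by
          intro X hX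
          have := zsf' (φ := 0) (Q := G ⧸ P) (fun d hd hd2 => by
            exfalso
            rw [← hNdef, ← hT'i] at hd
            have h3 := upr_nodvd hT'0 hp' hd (by omega)
            omega) X hX
          omega
        have hD3 : 3 ≤ D (G ⧸ P) ∨ (Nat.card (G ⧸ P) = 3 ∧ 2 ≤ D (G ⧸ P)) := by
          by_cases hN4 : N = 3
          · exact Or.inr ⟨hN4, two_le_D _ (by omega)⟩
          · left
            apply three_le_D
            omega
        rcases mt1R hM hM2 hfib hNodd hN1 hD hz hD3 with h2 | h2
        · rw [hsum] at h2
          rw [← hNdef] at h2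
          rw [← hQ, hM]
          have : (3 * M + 1) * N = 3 * (M * N) + N := by ring
          omega
        · obtain ⟨H, t, hPH, ht, hHt, h3 | h3⟩ := crit_main P A hA h2
          · obtain ⟨A', hA', hAc⟩ := h3
            have hHq := card_quot H
            rw [hHt, hn] at hHq
            have hTH : T ≤ H := by
              intro x hx
              have h4 : addOrderOf (QuotientAddGroup.mk' H x) ∣ 3 ^ a := by
                refine (addOrderOf_map_dvd (QuotientAddGroup.mk' H) x).trans ?_
                rw [← hTc]; exact AddSubgroup.addOrderOf_dvd_natCard T hx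
              have h5 : addOrderOf (QuotientAddGroup.mk' H x) ∣ 3 * t + 1 := by
                rw [← hHt]; exact addOrderOf_dvd_natCard _
              have hcop2 : Nat.Coprime (3 ^ a) (3 * t + 1) := by
                apply Nat.Coprime.pow_left
                rw [Nat.Prime.coprime_iff_not_dvd Nat.prime_three]
                intro h0
                omega
              have h6 := Nat.eq_one_of_dvd_coprimes hcop2 h4 h5
              rw [AddMonoid.addOrderOf_eq_one_iff] at h6
              exact (QuotientAddGroup.eq_zero_iff _).1 h6
            have e2 : T.addSubgroupOf H ≃+ T := AddSubgroup.addSubgroupOfEquivOfLe hTH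
            have hT2c : Nat.card (T.addSubgroupOf H) = 3 ^ a := by
              rw [← hTc]; exact Nat.card_congr e2.toEquiv
            have hT2i := (T.addSubgroupOf H).card_mul_index
            rw [hT2c] at hT2i
            set m := Nat.card H with hm
            have hidx3 : T.index = (T.addSubgroupOf H).index * (3 * t + 1) := by
              apply Nat.eq_of_mul_eq_mul_left h3a0
              rw [hTi, ← hHq, ← hT2i]
              ring
            have hm0 : 0 < m := Nat.card_pos
            have hmlt : m < n := by
              rw [← hHq]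
              have : m * 4 ≤ m * (3 * t + 1) := Nat.mul_le_mul_left _ (by omega)
              omega
            have h4 := ih m hmlt H rfl (T.addSubgroupOf H) ⟨e2.trans e⟩
              (fun q hq hqm => hp q hq (by rw [hidx3]; exact hqm.mul_right _)) A' hA'
            have h5 : m * (3 * t + 1) = 3 * (t * m) + m := by ring
            omega
          · obtain ⟨S, hS, hSc, _⟩ := h3
            exfalso
            have h4 := zsf' (φ := 0) (Q := G ⧸ H) (fun d hd hd2 => by
              exfalso
              have hdn : d ∣ 3 ^ a * T.index := by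
                rw [hTi]
                refine hd.trans ?_
                have := card_quot H
                rw [hn] at this
                exact ⟨_, by rw [← this, mul_comm]⟩
              have h3 := upr_nodvd hTi0 hp hdn (by omega)
              omega) S hS
            omega
  exact key (Nat.card G) G rfl T ⟨e⟩ hp A hA


end Part0

end Pool.Agent.DG
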